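import Mathlib

set_option autoImplicit false

open Set Real

namespace Pool.Agent.Lib.MP_fd11a7_an

/-- Unit vector of angle `x`. -/
noncomputable def E (x : ℝ) : ℂ := Complex.exp (x * Complex.I)

/-- Component orthogonal to direction `w`. -/
noncomputable def S (w : ℝ) (z : ℂ) : ℝ := cos w * z.im - sin w * z.re

/-- Component along direction `w`. -/
noncomputable def Cc (w : ℝ) (z : ℂ) : ℝ := cos w * z.re + sin w * z.im

theorem E_re (x : ℝ) : (E x).re = cos x := by simp [E, Complex.exp_ofReal_mul_I_re]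
theorem E_im (x : ℝ) : (E x).im = sin x := by simp [E, Complex.exp_ofReal_mul_I_im]
theorem norm_E (x : ℝ) : ‖E x‖ = 1 := by simp [E, Complex.norm_exp_ofReal_mul_I]
theorem E_ne_zero (x : ℝ) : E x ≠ 0 := Complex.exp_ne_zero _

theorem E_ext {x y : ℝ} (h1 : cos x = cos y) (h2 : sin x = sin y) : E x = E y :=
  Complex.ext (by rw [E_re, E_re, h1]) (by rw [E_im, E_im, h2])

theorem E_cos {x y : ℝ} (h : E x = E y) : cos x = cos y := by rw [← E_re, ← E_re, h]
theorem E_sin {x y : ℝ} (h : E x = E y) : sin x = sin y := by rw [← E_im, ← E_im, h]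

theorem E_add (x y : ℝ) : E (x + y) = E x * E y := by
  simp [E, ← Complex.exp_add, add_mul]

theorem E_pi : E π = -1 := by simp [E]
theorem E_zero : E 0 = 1 := by simp [E]
theorem E_add_pi (x : ℝ) : E (x + π) = -E x := by rw [E_add, E_pi]; ring
theorem E_sub_pi (x : ℝ) : E (x - π) = -E x := by
  have := E_add_pi (x - π)
  rw [sub_add_cancel] at this
  rw [this]; ring

@[fun_prop]
theorem continuous_E : Continuous E := by unfold E; fun_prop

theorem E_inj {x y : ℝ} (h : E x = E y) (hxy : |x - y| < 2 * π) : x = y := by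
  have h1 : cos (x - y) = 1 := by
    rw [cos_sub, E_cos h, E_sin h]; nlinarith [cos_sq_add_sin_sq y]
  rw [abs_lt] at hxy
  have := (cos_eq_one_iff_of_lt_of_lt (by linarith) hxy.2).1 h1
  linarith

theorem S_add (w : ℝ) (a b : ℂ) : S w (a + b) = S w a + S w b := by simp [S]; ring
theorem S_sub (w : ℝ) (a b : ℂ) : S w (a - b) = S w a - S w b := by simp [S]; ring
theorem S_neg (w : ℝ) (a : ℂ) : S w (-a) = -S w a := by simp [S]; ring
theorem S_zero (w : ℝ) : S w 0 = 0 := by simp [S]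
theorem S_mul (w t : ℝ) (a : ℂ) : S w (t * a) = t * S w a := by simp [S]; ring
theorem S_E (w x : ℝ) : S w (E x) = sin (x - w) := by
  simp only [S, E_re, E_im, sin_sub]; ring
theorem S_mul_E (w t x : ℝ) : S w (t * E x) = t * sin (x - w) := by rw [S_mul, S_E]
theorem Cc_add (w : ℝ) (a b : ℂ) : Cc w (a + b) = Cc w a + Cc w b := by simp [Cc]; ring
theorem Cc_sub (w : ℝ) (a b : ℂ) : Cc w (a - b) = Cc w a - Cc w b := by simp [Cc]; ring
theorem Cc_neg (w : ℝ) (a : ℂ) : Cc w (-a) = -Cc w a := by simp [Cc]; ring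
theorem Cc_mul (w t : ℝ) (a : ℂ) : Cc w (t * a) = t * Cc w a := by simp [Cc]; ring
theorem Cc_E (w x : ℝ) : Cc w (E x) = cos (x - w) := by
  simp only [Cc, E_re, E_im, cos_sub]; ring
theorem Cc_mul_E (w t x : ℝ) : Cc w (t * E x) = t * cos (x - w) := by rw [Cc_mul, Cc_E]

theorem S_congr {w w' : ℝ} (h : E w = E w') (z : ℂ) : S w z = S w' z := by
  simp only [S, E_cos h, E_sin h]
theorem Cc_congr {w w' : ℝ} (h : E w = E w') (z : ℂ) : Cc w z = Cc w' z := by
  simp only [Cc, E_cos h, E_sin h]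

theorem S_add_pi (w : ℝ) (z : ℂ) : S (w + π) z = -S w z := by
  simp only [S, cos_add_pi, sin_add_pi]; ring

@[fun_prop]
theorem continuous_S {X : Type*} [TopologicalSpace X] {f : X → ℝ} {g : X → ℂ}
    (hf : Continuous f) (hg : Continuous g) : Continuous fun x => S (f x) (g x) := by
  unfold S; fun_prop

@[fun_prop]
theorem continuous_Cc {X : Type*} [TopologicalSpace X] {f : X → ℝ} {g : X → ℂ}
    (hf : Continuous f) (hg : Continuous g) : Continuous fun x => Cc (f x) (g x) := by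
  unfold Cc; fun_prop

theorem decomp (w : ℝ) (z : ℂ) : z = (Cc w z : ℂ) * E w + (S w z : ℂ) * (Complex.I * E w) := by
  apply Complex.ext
  · simp only [Complex.add_re, Complex.mul_re, Complex.ofReal_re, Complex.ofReal_im, E_re, E_im,
      Complex.I_re, Complex.I_im, Complex.mul_im, Cc, S]
    linear_combination (-z.re) * cos_sq_add_sin_sq w
  · simp only [Complex.add_im, Complex.mul_re, Complex.ofReal_re, Complex.ofReal_im, E_re, E_im,
      Complex.I_re, Complex.I_im, Complex.mul_im, Cc, S]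
    linear_combination (-z.im) * cos_sq_add_sin_sq w

theorem eq_of_S_zero {w : ℝ} {z : ℂ} (h : S w z = 0) : z = (Cc w z : ℂ) * E w := by
  have := decomp w z
  rw [h] at this
  simpa using this

theorem abs_S_le (w : ℝ) (z : ℂ) : |S w z| ≤ ‖z‖ := by
  rw [← Real.sqrt_sq_eq_abs, Complex.norm_eq_sqrt_sq_add_sq]
  apply Real.sqrt_le_sqrt
  unfold S
  nlinarith [cos_sq_add_sin_sq w, sq_nonneg (cos w * z.re + sin w * z.im)]

theorem abs_Cc_le (w : ℝ) (z : ℂ) : |Cc w z| ≤ ‖z‖ := by
  rw [← Real.sqrt_sq_eq_abs, Complex.norm_eq_sqrt_sq_add_sq]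
  apply Real.sqrt_le_sqrt
  unfold Cc
  nlinarith [cos_sq_add_sin_sq w, sq_nonneg (cos w * z.im - sin w * z.re)]

theorem norm_mul_E {t : ℝ} (ht : 0 ≤ t) (x : ℝ) : ‖(t : ℂ) * E x‖ = t := by
  rw [norm_mul, norm_E, mul_one, Complex.norm_real, Real.norm_eq_abs, abs_of_nonneg ht]

theorem sin_pos' {x : ℝ} (h0 : 0 < x) (h1 : x < π) : 0 < sin x := sin_pos_of_pos_of_lt_pi h0 h1
theorem sin_nn {x : ℝ} (h0 : 0 ≤ x) (h1 : x ≤ π) : 0 ≤ sin x := sin_nonneg_of_nonneg_of_le_pi h0 h1
theorem sin_neg' {x : ℝ} (h0 : x < 0) (h1 : -π < x) : sin x < 0 :=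
  sin_neg_of_neg_of_neg_pi_lt h0 h1
theorem cos_pos' {x : ℝ} (h : |x| < π / 2) : 0 < cos x := by
  rw [abs_lt] at h
  exact cos_pos_of_mem_Ioo ⟨by linarith, h.2⟩

/-- The trigonometric core of the side lemma. -/
theorem side0 {τ l x d a : ℝ} (hτ : 0 ≤ τ) (hl : 0 ≤ l) (hx : 0 ≤ x) (hxd : x - d ≤ π)
    (hd : 0 ≤ d) (ha : |a| < π / 2) (ha' : |a + d| < π / 2)
    (hsep : 0 ≤ τ * cos a - l * cos (a + x)) : 0 ≤ τ * sin d + l * sin (x - d) := by
  have hdp : d < π := by rw [abs_lt] at ha ha'; linarith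
  have sd := sin_nn hd hdp.le
  rcases le_or_gt d x with h | h
  · have := sin_nn (sub_nonneg.2 h) hxd
    positivity
  · have sd' := sin_pos' (lt_of_le_of_lt hx h) hdp
    have sx := sin_nn hx (by linarith)
    have ca := cos_pos' ha
    have cb := cos_pos' ha'
    have key : sin d * cos (a + x) = -sin (x - d) * cos a + sin x * cos (a + d) := by
      rw [cos_add, cos_add, sin_sub]; ring
    by_contra hn
    push Not at hn
    have h1 : 0 ≤ sin d * (τ * cos a - l * cos (a + x)) := mul_nonneg sd hsep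
    have h2 : sin d * (τ * cos a - l * cos (a + x)) =
        (τ * sin d + l * sin (x - d)) * cos a - l * sin x * cos (a + d) := by
      linear_combination (-l) * key
    have h3 : (τ * sin d + l * sin (x - d)) * cos a < 0 := mul_neg_of_neg_of_pos hn ca
    have h4 : 0 ≤ l * sin x * cos (a + d) := by positivity
    linarith

end Pool.Agent.Lib.MP_fd11a7_an
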