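import Mathlib
import Pool.Agent.Lib.MP_fd11a7_an.Basic

set_option autoImplicit false

open Set Filter Topology Real

namespace Pool.Agent.Lib.MP_fd11a7_an

theorem E_arg {z : ℂ} : z = (‖z‖ : ℝ) * E (Complex.arg z) := (Complex.norm_mul_exp_arg_mul_I z).symm

theorem hasDerivAt_E {f : ℝ → ℝ} {f' x : ℝ} (h : HasDerivAt f f' x) :
    HasDerivAt (fun t => E (f t)) (E (f x) * (f' * Complex.I)) x :=
  (h.ofReal_comp.mul_const Complex.I).cexp

theorem exists_theta {γ : ℝ → ℂ} {L : ℝ} (hL : 0 < L) (hs : ContDiff ℝ 3 γ)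
    (hu : ∀ s ∈ Icc 0 L, ‖deriv γ s‖ = 1)
    (hc : ∀ s ∈ Icc 0 L, 0 < inner ℝ (deriv (deriv γ) s) (Complex.I * deriv γ s)) :
    ∃ θ k : ℝ → ℝ, Continuous k ∧ (∀ s, HasDerivAt θ (k s) s) ∧
      ∀ s ∈ Icc 0 L, 0 < k s ∧ deriv γ s = E (θ s) := by
  have h1 : ContDiff ℝ 2 (deriv γ) := hs.deriv'
  have h2 : ContDiff ℝ 1 (deriv (deriv γ)) := h1.deriv'
  have c1 := h1.continuous
  have c2 := h2.continuous
  have d1 : ∀ s, HasDerivAt (deriv γ) (deriv (deriv γ) s) s := fun s =>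
    (h1.differentiable (by norm_num) s).hasDerivAt
  set k : ℝ → ℝ := fun s => inner ℝ (deriv (deriv γ) s) (Complex.I * deriv γ s) with hk
  have ck : Continuous k := by fun_prop
  have dθ : ∀ s, HasDerivAt (fun s => Complex.arg (deriv γ 0) + ∫ t in (0 : ℝ)..s, k t) (k s) s :=
    fun s => (ck.deriv_integral k |> fun _ => intervalIntegral.integral_hasDerivAt_right
      (ck.intervalIntegrable _ _) (ck.stronglyMeasurableAtFilter _ _) ck.continuousAt).const_add _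
  have orth0 : ∀ s ∈ Ioo 0 L, inner ℝ (deriv γ s) (deriv (deriv γ) s) = 0 := by
    intro s hs
    have a := (d1 s).norm_sq
    have b : HasDerivAt (fun t => ‖deriv γ t‖ ^ 2) 0 s :=
      (hasDerivAt_const s (1 : ℝ)).congr_of_eventuallyEq
        ((eventually_of_mem (isOpen_Ioo.mem_nhds hs)) fun t ht => by
          simp [hu t (Ioo_subset_Icc_self ht)])
    linarith [a.unique b]
  have orth : ∀ s ∈ Icc 0 L, inner ℝ (deriv γ s) (deriv (deriv γ) s) = 0 := by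
    rw [← closure_Ioo hL.ne]
    exact fun s hs => (isClosed_eq (by fun_prop) continuous_const).closure_subset_iff.2 orth0 hs
  have fr : ∀ s ∈ Icc 0 L, deriv (deriv γ) s = k s * (Complex.I * deriv γ s) := by
    intro s hs
    have a := orth s hs
    have b : (deriv γ s).re ^ 2 + (deriv γ s).im ^ 2 = 1 := by
      have := Complex.sq_norm (deriv γ s)
      rw [hu s hs, Complex.normSq_apply] at this
      linarith
    simp only [Complex.inner, Complex.mul_re, Complex.conj_re, Complex.conj_im] at a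
    apply Complex.ext
    · simp [hk, Complex.inner]
      linear_combination (deriv γ s).re * a - (deriv (deriv γ) s).re * b
    · simp [hk, Complex.inner]
      linear_combination (deriv γ s).im * a - (deriv (deriv γ) s).im * b
  refine ⟨_, k, ck, dθ, fun s hs => ⟨hc s hs, ?_⟩⟩
  set θ := fun s => Complex.arg (deriv γ 0) + ∫ t in (0 : ℝ)..s, k t with hθ
  have dg : ∀ s ∈ Icc 0 L, HasDerivAt (fun t => deriv γ t * E (-θ t)) 0 s := by
    intro s hs
    have := (d1 s).mul (hasDerivAt_E (dθ s).neg)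
    refine this.congr_deriv ?_
    rw [fr s hs]
    simp only [Pi.neg_apply]
    push_cast
    ring
  have := constant_of_has_deriv_right_zero (f := fun t => deriv γ t * E (-θ t))
    (fun t ht => (dg t ht).continuousAt.continuousWithinAt)
    (fun t ht => (dg t (Ico_subset_Icc_self ht)).hasDerivWithinAt) s hs
  have e0 : deriv γ 0 = E (θ 0) := by
    have := E_arg (z := deriv γ 0)
    rw [hu 0 ⟨le_rfl, hL.le⟩] at this
    simpa [hθ] using this
  rw [e0, ← E_add, add_neg_cancel, E_zero] at this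
  have e1 : E (θ s) * E (-θ s) = 1 := by rw [← E_add, add_neg_cancel, E_zero]
  exact mul_right_cancel₀ (E_ne_zero _) (this.trans e1.symm)

/-- A strictly convex arc with its angle function. -/
structure Arc (γ : ℝ → ℂ) (θ : ℝ → ℝ) (L κ l : ℝ) : Prop where
  cγ : Continuous γ
  cθ : Continuous θ
  der : ∀ s ∈ Icc 0 L, HasDerivAt γ (E (θ s)) s
  κ_pos : 0 < κ
  l_pos : 0 < l
  l_le : l ≤ L
  low : ∀ r ∈ Icc 0 L, ∀ s ∈ Icc 0 L, r ≤ s → κ * (s - r) ≤ θ s - θ r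
  up : ∀ r ∈ Icc 0 L, ∀ s ∈ Icc 0 L, r ≤ s → l * (θ s - θ r) ≤ s - r

theorem arc_ev {γ : ℝ → ℂ} {L : ℝ} (hL : 0 < L) (hs : ContDiff ℝ 3 γ)
    (hu : ∀ s ∈ Icc 0 L, ‖deriv γ s‖ = 1)
    (hc : ∀ s ∈ Icc 0 L, 0 < inner ℝ (deriv (deriv γ) s) (Complex.I * deriv γ s)) :
    ∃ θ : ℝ → ℝ, ∀ᶠ c in 𝓝[>] (0 : ℝ), Arc γ θ L c c := by
  obtain ⟨θ, k, ck, dθ, h⟩ := exists_theta hL hs hu hc
  obtain ⟨κ, κ0, hκ⟩ := isCompact_Icc.exists_forall_le' ck.continuousOn fun s hs => (h s hs).1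
  obtain ⟨K, hK⟩ := isCompact_Icc.bddAbove_image (K := Icc 0 L) ck.continuousOn
  have K0 : 0 < K := (h 0 ⟨le_rfl, hL.le⟩).1.trans_le (hK ⟨0, ⟨le_rfl, hL.le⟩, rfl⟩)
  have cθ : Continuous θ := continuous_iff_continuousAt.2 fun s => (dθ s).continuousAt
  have mvt : ∀ r ∈ Icc 0 L, ∀ s ∈ Icc 0 L, r ≤ s → ∃ c ∈ Icc 0 L, θ s - θ r = k c * (s - r) := by
    intro r hr s hs h
    rcases h.eq_or_lt with rfl | h
    · exact ⟨r, hr, by simp⟩
    obtain ⟨c, c1, c2⟩ := exists_hasDerivAt_eq_slope θ k h cθ.continuousOn fun x _ => dθ x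
    exact ⟨c, ⟨hr.1.trans c1.1.le, c1.2.le.trans hs.2⟩, by
      rw [c2, div_mul_cancel₀ _ (sub_pos.2 h).ne']⟩
  refine ⟨θ, ?_⟩
  filter_upwards [Ioo_mem_nhdsGT κ0, Ioo_mem_nhdsGT hL, Ioo_mem_nhdsGT (inv_pos.2 K0)]
    with c c1 c2 c3
  refine ⟨hs.continuous, cθ, fun s k => ?_, c1.1, c1.1, c2.2.le, fun r hr s hs k => ?_,
    fun r hr s hs q => ?_⟩
  · rw [← (h s k).2]; exact (hs.differentiable (by norm_num) s).hasDerivAt
  · obtain ⟨x, hx, e⟩ := mvt r hr s hs k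
    rw [e]
    exact mul_le_mul_of_nonneg_right (c1.2.le.trans (hκ x hx)) (sub_nonneg.2 k)
  · obtain ⟨x, hx, e⟩ := mvt r hr s hs q
    have a : k x ≤ K := hK ⟨x, hx, rfl⟩
    have b : c * K ≤ 1 := by
      have := mul_le_mul_of_nonneg_right c3.2.le K0.le
      rwa [inv_mul_cancel₀ K0.ne'] at this
    rw [e, ← mul_assoc]
    refine mul_le_of_le_one_left (sub_nonneg.2 q) ((mul_le_mul_of_nonneg_left a c1.1.le).trans b)

namespace Arc

variable {γ : ℝ → ℂ} {θ : ℝ → ℝ} {L κ l : ℝ} (h : Arc γ θ L κ l)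
include h

theorem mono {r s : ℝ} (hr : r ∈ Icc 0 L) (hs : s ∈ Icc 0 L) (k : r ≤ s) : θ r ≤ θ s := by
  nlinarith [h.low r hr s hs k, h.κ_pos]

theorem smono {r s : ℝ} (hr : r ∈ Icc 0 L) (hs : s ∈ Icc 0 L) (k : r < s) : θ r < θ s := by
  nlinarith [h.low r hr s hs k.le, h.κ_pos, mul_pos h.κ_pos (sub_pos.2 k)]

theorem turn {r s : ℝ} (hr : r ∈ Icc 0 L) (hs : s ∈ Icc 0 L) (k : s - r ≤ l) : θ s - θ r ≤ 1 := by
  rcases le_total r s with a | a
  · exact le_of_mul_le_mul_left (by linarith [h.up r hr s hs a]) h.l_pos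
  · linarith [h.mono hs hr a]

theorem mvtS {r s : ℝ} (hr : r ∈ Icc 0 L) (hs : s ∈ Icc 0 L) (k : r < s) (α : ℝ) :
    ∃ c ∈ Ioo r s, S α (γ s - γ r) = (s - r) * sin (θ c - α) := by
  have c1 := h.cγ
  obtain ⟨c, c1, c2⟩ := exists_hasDerivAt_eq_slope (fun t => S α (γ t))
    (fun t => sin (θ t - α)) k (by fun_prop) fun x hx => by
      have d := h.der x ⟨hr.1.trans hx.1.le, hx.2.le.trans hs.2⟩
      rw [← S_E]
      exact ((Complex.imCLM.hasFDerivAt.comp_hasDerivAt x d).const_mul (cos α)).sub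
        ((Complex.reCLM.hasFDerivAt.comp_hasDerivAt x d).const_mul (sin α))
  exact ⟨c, c1, by rw [c2, S_sub, mul_div_cancel₀ _ (sub_pos.2 k).ne']⟩

theorem chord {r s : ℝ} (hr : r ∈ Icc 0 L) (hs : s ∈ Icc 0 L) (k : r < s) (k' : s - r ≤ l) :
    ∃ t α : ℝ, 0 < t ∧ t ≤ s - r ∧ θ r < α ∧ α < θ s ∧ γ s = γ r + t * E α := by
  have sub : ∀ c ∈ Ioo r s, θ r < θ c ∧ θ c < θ s := fun c hc =>
    ⟨h.smono hr ⟨hr.1.trans hc.1.le, hc.2.le.trans hs.2⟩ hc.1,
      h.smono ⟨hr.1.trans hc.1.le, hc.2.le.trans hs.2⟩ hs hc.2⟩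
  have tn := h.turn hr hs k'
  have p3 := pi_gt_three
  have sp := sub_pos.2 k
  obtain ⟨c1, a1, e1⟩ := h.mvtS hr hs k (θ r)
  obtain ⟨c2, a2, e2⟩ := h.mvtS hr hs k (θ s)
  have s1 := sin_pos' (x := θ c1 - θ r) (by linarith [(sub c1 a1).1]) (by linarith [(sub c1 a1).2])
  have s2 := sin_neg' (x := θ c2 - θ s) (by linarith [(sub c2 a2).2]) (by linarith [(sub c2 a2).1])
  obtain ⟨α, hα, e⟩ := intermediate_value_Ioo' (h.mono hr hs k.le)
    (f := fun α => S α (γ s - γ r)) (by fun_prop)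
    (show (0 : ℝ) ∈ Ioo _ _ from ⟨by simp only [e2]; nlinarith, by simp only [e1]; positivity⟩)
  obtain ⟨c3, a3, e3⟩ := h.mvtS hr hs k (α - π / 2)
  have e4 : Cc α (γ s - γ r) = (s - r) * cos (θ c3 - α) := by
    rw [show θ c3 - (α - π / 2) = θ c3 - α + π / 2 by ring, sin_add_pi_div_two] at e3
    rw [← e3]
    simp only [S, Cc, cos_sub_pi_div_two, sin_sub_pi_div_two]; ring
  have cp := cos_pos' (x := θ c3 - α) (by
    rw [abs_lt]; constructor <;> linarith [(sub c3 a3).1, (sub c3 a3).2, hα.1, hα.2])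
  refine ⟨Cc α (γ s - γ r), α, by rw [e4]; positivity, ?_, hα.1, hα.2, ?_⟩
  · rw [e4]; exact mul_le_of_le_one_right sp.le (cos_le_one _)
  · rw [← eq_of_S_zero e]; ring

theorem chord' {r s : ℝ} (hr : r ∈ Icc 0 L) (hs : s ∈ Icc 0 L) (k : r ≤ s) (k' : s - r ≤ l) :
    ∃ t α : ℝ, 0 ≤ t ∧ t ≤ s - r ∧ θ r ≤ α ∧ α ≤ θ s ∧ γ s = γ r + t * E α := by
  rcases k.eq_or_lt with rfl | k
  · exact ⟨0, θ r, le_rfl, by simp, le_rfl, le_rfl, by simp⟩
  · obtain ⟨t, α, h1, h2, h3, h4, h5⟩ := h.chord hr hs k k'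
    exact ⟨t, α, h1.le, h2, h3.le, h4.le, h5⟩

theorem not_seen {r s ψ u : ℝ} (hr : r ∈ Icc 0 L) (hs : s ∈ Icc 0 L) (k : |s - r| ≤ l)
    (hψ : ψ ∈ Icc (-π) 0) (hu : 0 < u) : γ s ≠ γ r + u * E (θ r + ψ) := by
  intro e
  have b1 := hψ.1
  have b2 := hψ.2
  have p3 := pi_gt_three
  rw [abs_le] at k
  rcases lt_trichotomy r s with h1 | h1 | h1
  · obtain ⟨t, α, t0, -, h3, h4, h5⟩ := h.chord hr hs h1 k.2
    have tn := h.turn hr hs k.2
    rw [h5, add_right_inj] at e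
    have e' : t = u := by
      have := congrArg norm e
      rwa [norm_mul_E t0.le, norm_mul_E hu.le] at this
    subst e'
    have := E_inj (mul_left_cancel₀ (by exact_mod_cast t0.ne') e) (by
      rw [abs_lt]; constructor <;> linarith)
    linarith
  · rw [← h1, left_eq_add] at e
    exact mul_ne_zero (by exact_mod_cast hu.ne') (E_ne_zero _) e
  · obtain ⟨t, α, t0, -, h3, h4, h5⟩ := h.chord hs hr h1 (by linarith [k.1])
    have tn := h.turn hs hr (by linarith [k.1])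
    have h6 : (t : ℂ) * E (α - π) = u * E (θ r + ψ) := by
      rw [E_sub_pi]; rw [h5] at e; linear_combination e
    have e' : t = u := by
      have := congrArg norm h6
      rwa [norm_mul_E t0.le, norm_mul_E hu.le] at this
    subst e'
    have := E_inj (mul_left_cancel₀ (by exact_mod_cast t0.ne') h6) (by
      rw [abs_lt]; constructor <;> linarith)
    linarith

theorem width : ∀ᶠ d in 𝓝[>] (0 : ℝ), ∀ s, 0 ≤ s → s + l / 4 ≤ L → ∀ p w,
    ¬ ∀ t ∈ Icc s (s + l / 4), |S w (γ t - p)| ≤ d := by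
  have l0 := h.l_pos
  have lL := h.l_le
  have c1 := h.cγ
  set F : ℝ → ℝ := fun s => (γ (s + l / 8) - γ s).re * (γ (s + l / 4) - γ (s + l / 8)).im -
    (γ (s + l / 8) - γ s).im * (γ (s + l / 4) - γ (s + l / 8)).re with hF
  have key : ∀ s ∈ Icc 0 (L - l / 4), ∃ t1 t2 α1 α2 : ℝ, 0 < t1 ∧ t1 ≤ l / 8 ∧ 0 < t2 ∧
      t2 ≤ l / 8 ∧ γ (s + l / 8) - γ s = t1 * E α1 ∧ γ (s + l / 4) - γ (s + l / 8) = t2 * E α2 ∧
      0 < sin (α2 - α1) ∧ F s = t1 * t2 * sin (α2 - α1) := by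
    intro s hs
    have i0 : s ∈ Icc 0 L := ⟨hs.1, by linarith [hs.2]⟩
    have i1 : s + l / 8 ∈ Icc 0 L := ⟨by linarith [hs.1], by linarith [hs.2]⟩
    have i2 : s + l / 4 ∈ Icc 0 L := ⟨by linarith [hs.1], by linarith [hs.2]⟩
    obtain ⟨t1, α1, a1, a2, a3, a4, a5⟩ := h.chord i0 i1 (by linarith) (by linarith)
    obtain ⟨t2, α2, b1, b2, b3, b4, b5⟩ := h.chord i1 i2 (by linarith) (by linarith)
    have tn := h.turn i0 i2 (by linarith)
    have e1 : γ (s + l / 8) - γ s = t1 * E α1 := by rw [a5]; ring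
    have e2 : γ (s + l / 4) - γ (s + l / 8) = t2 * E α2 := by rw [b5]; ring
    refine ⟨t1, t2, α1, α2, a1, by linarith, b1, by linarith, e1, e2,
      sin_pos' (by linarith) (by linarith [pi_gt_three]), ?_⟩
    simp only [hF, e1, e2, Complex.re_ofReal_mul, Complex.im_ofReal_mul, E_re, E_im, sin_sub]
    ring
  obtain ⟨w0, w1, hw⟩ := isCompact_Icc.exists_forall_le' (f := F) (a := 0)
    (by simp only [hF]; fun_prop) fun s hs => by
      obtain ⟨t1, t2, α1, α2, a1, -, a3, -, -, -, a7, a8⟩ := key s hs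
      rw [a8]; positivity
  filter_upwards [Ioo_mem_nhdsGT (show 0 < w0 / l by positivity)] with d hd s s0 s1 p w hn
  obtain ⟨t1, t2, α1, α2, a1, a2, a3, a4, a5, a6, -, a8⟩ := key s ⟨s0, by linarith⟩
  have q0 := abs_le.1 (hn s ⟨le_rfl, by linarith⟩)
  have q1 := abs_le.1 (hn (s + l / 8) ⟨by linarith, by linarith⟩)
  have q2 := abs_le.1 (hn (s + l / 4) ⟨by linarith, le_rfl⟩)
  have r1 : |t1 * sin (α1 - w)| ≤ 2 * d := by
    rw [← S_mul_E, ← a5, show γ (s + l / 8) - γ s = (γ (s + l / 8) - p) - (γ s - p) by ring, S_sub,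
      abs_le]
    constructor <;> linarith [q0.1, q0.2, q1.1, q1.2]
  have r2 : |t2 * sin (α2 - w)| ≤ 2 * d := by
    rw [← S_mul_E, ← a6, show γ (s + l / 4) - γ (s + l / 8) =
      (γ (s + l / 4) - p) - (γ (s + l / 8) - p) by ring, S_sub, abs_le]
    constructor <;> linarith [q2.1, q2.2, q1.1, q1.2]
  have e : F s = (t1 * cos (α1 - w)) * (t2 * sin (α2 - w)) -
      (t2 * cos (α2 - w)) * (t1 * sin (α1 - w)) := by
    rw [a8, show α2 - α1 = (α2 - w) - (α1 - w) by ring, sin_sub]; ring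
  have u1 : |t1 * cos (α1 - w)| ≤ l / 8 := by
    rw [abs_mul, abs_of_pos a1]; nlinarith [abs_cos_le_one (α1 - w)]
  have u2 : |t2 * cos (α2 - w)| ≤ l / 8 := by
    rw [abs_mul, abs_of_pos a3]; nlinarith [abs_cos_le_one (α2 - w)]
  have v1 := (le_abs_self _).trans ((abs_mul _ _).le.trans (mul_le_mul u1 r2 (abs_nonneg _)
    (by linarith)))
  have v2 := (neg_le_abs _).trans ((abs_mul _ _).le.trans (mul_le_mul u2 r1 (abs_nonneg _)
    (by linarith)))
  have := hw s ⟨s0, by linarith⟩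
  have hd2 := hd.2
  rw [lt_div_iff₀ l0] at hd2
  nlinarith [hd.1]

theorem near_end (a : Bool) {r : ℝ} (hr : r ∈ Icc 0 L) (k : |r - if a then 0 else L| ≤ l) :
    ∃ t α : ℝ, 0 ≤ t ∧ |α - θ (if a then 0 else L)| ≤ |θ r - θ (if a then 0 else L)| ∧
      γ r = γ (if a then 0 else L) + t * ((if a then 1 else -1) * E α) := by
  have L0 : 0 ≤ L := hr.1.trans hr.2
  rw [abs_le] at k
  cases a
  · simp only [Bool.false_eq_true, if_false] at k ⊢
    obtain ⟨t, α, a1, -, a3, a4, a5⟩ := h.chord' hr ⟨L0, le_rfl⟩ hr.2 (by linarith [k.1])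
    refine ⟨t, α, a1, ?_, by rw [a5]; ring⟩
    rw [abs_of_nonpos (by linarith), abs_of_nonpos (by linarith)]; linarith
  · simp only [if_true] at k ⊢
    obtain ⟨t, α, a1, -, a3, a4, a5⟩ := h.chord' ⟨le_rfl, L0⟩ hr hr.1 k.2
    refine ⟨t, α, a1, ?_, by rw [a5]; ring⟩
    rw [abs_of_nonneg (by linarith), abs_of_nonneg (by linarith)]; linarith

end Arc

theorem unif {X : Type*} [PseudoMetricSpace X] {K : Set X} (hK : IsCompact K)
    {P : ℝ → Set X → Prop} (mono : ∀ c c' U U', c' ≤ c → U' ⊆ U → P c U → P c' U')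
    (h : ∀ x ∈ K, ∃ c > 0, ∃ U ∈ 𝓝 x, P c U) :
    ∀ᶠ c in 𝓝[>] (0 : ℝ), ∀ x ∈ K, P c (Metric.ball x c) := by
  have h' : ∀ x ∈ K, ∃ c > 0, P c (Metric.ball x (2 * c)) := by
    intro x hx
    obtain ⟨c, c0, U, hU, hP⟩ := h x hx
    obtain ⟨e, e0, he⟩ := Metric.mem_nhds_iff.1 hU
    refine ⟨min c (e / 2), lt_min c0 (by positivity), mono _ _ _ _ (min_le_left _ _)
      ((Metric.ball_subset_ball ?_).trans he) hP⟩
    linarith [min_le_right c (e / 2)]
  choose! c c0 hc using h'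
  obtain ⟨t, ht, hcov⟩ := hK.elim_nhds_subcover (fun x => Metric.ball x (c x))
    fun x hx => Metric.ball_mem_nhds x (c0 x hx)
  filter_upwards [(t.eventually_all).2 fun x hx => Ioo_mem_nhdsGT (c0 x (ht x hx))] with d hd y hy
  obtain ⟨x, hx, hxy⟩ := mem_iUnion₂.1 (hcov hy)
  refine mono _ _ _ _ (hd x hx).2.le (Metric.ball_subset ?_) (hc x (ht x hx))
  linarith [Metric.mem_ball.1 hxy, (hd x hx).2]

end Pool.Agent.Lib.MP_fd11a7_an
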