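import Mathlib
import Pool.Agent.Lib.MP_fd11a7_an.Ent

set_option autoImplicit false

open MeasureTheory Finset Real Filter Topology

namespace Pool.Agent.Lib.MP_fd11a7_an

variable {Ω : Type*} [MeasurableSpace Ω]

theorem sum_log_comp (μ : Measure Ω) [IsFiniteMeasure μ] {α β : Type*} [Fintype α] [Fintype β]
    {f : Ω → α} (hf : Mf f) (k : α → β) :
    ∑ a, μ.real (f ⁻¹' {a}) * Real.log (μ.real ((fun x => k (f x)) ⁻¹' {k a})) =
      -Hent μ (fun x => k (f x)) := by
  classical
  unfold Hent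
  rw [← Finset.sum_neg_distrib, ← Finset.sum_fiberwise (s := Finset.univ) (g := k)]
  refine Finset.sum_congr rfl fun b _ => ?_
  rw [Finset.sum_congr rfl (g := fun a => μ.real (f ⁻¹' {a}) *
    Real.log (μ.real ((fun x => k (f x)) ⁻¹' {b}))) (fun a ha => by
      rw [(Finset.mem_filter.1 ha).2]), ← Finset.sum_mul, ← real_comp_eq_sum μ hf k b]
  simp [negMulLog]

theorem real_le_comp (μ : Measure Ω) [IsFiniteMeasure μ] {α β : Type*} (f : Ω → α) (k : α → β)
    (a : α) : μ.real (f ⁻¹' {a}) ≤ μ.real ((fun x => k (f x)) ⁻¹' {k a}) :=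
  measureReal_mono fun x hx => by simp_all

theorem marg (μ : Measure Ω) [IsFiniteMeasure μ] {α β : Type*} [Fintype α] [Fintype β]
    {f : Ω → α} {g : Ω → β} (hf : Mf f) (hg : Mf g) (b : β) :
    ∑ a, μ.real ((fun x => (f x, g x)) ⁻¹' {(a, b)}) = μ.real (g ⁻¹' {b}) := by
  classical
  have := real_comp_eq_sum μ (hf.pair hg) Prod.snd b
  rw [this, Finset.sum_filter, Fintype.sum_prod_type_right, Finset.sum_eq_single b]
  · simp
  · intro a' _ h; simp [h]
  · simp

theorem Hent_submod (μ : Measure Ω) [IsProbabilityMeasure μ] {α β γ : Type*} [Fintype α]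
    [Fintype β] [Fintype γ] {f : Ω → α} {g : Ω → β} {h : Ω → γ} (hf : Mf f) (hg : Mf g)
    (hh : Mf h) : Hent μ (fun x => (f x, g x, h x)) + Hent μ g ≤
      Hent μ (fun x => (f x, g x)) + Hent μ (fun x => (h x, g x)) := by
  classical
  have hF := hf.pair (hg.pair hh)
  set p : α × β → ℝ := fun c => μ.real ((fun x => (f x, g x)) ⁻¹' {c}) with hp
  set q : γ × β → ℝ := fun c => μ.real ((fun x => (h x, g x)) ⁻¹' {c}) with hq
  set r : β → ℝ := fun c => μ.real (g ⁻¹' {c}) with hr
  have e1 := sum_log_comp μ hF fun c => (c.1, c.2.1)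
  have e2 := sum_log_comp μ hF fun c => (c.2.2, c.2.1)
  have e3 := sum_log_comp μ hF fun c => c.2.1
  have := Hent_gibbs μ hF (fun c => Real.log (p (c.1, c.2.1)) + Real.log (q (c.2.2, c.2.1)) -
    Real.log (r c.2.1)) (Finset.univ.filter fun c => 0 < p (c.1, c.2.1) ∧ 0 < q (c.2.2, c.2.1) ∧
      0 < r c.2.1) 1 ?_ ?_ one_pos
  · simp only [mul_add, mul_sub, Finset.sum_add_distrib, Finset.sum_sub_distrib, Real.log_one]
      at this
    simp only at e1 e2 e3
    linarith
  · intro c hc
    have h0 : 0 < μ.real ((fun x => (f x, g x, h x)) ⁻¹' {c}) :=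
      lt_of_le_of_ne measureReal_nonneg hc.symm
    exact Finset.mem_filter.2 ⟨Finset.mem_univ _,
      h0.trans_le (real_le_comp μ _ (fun c => (c.1, c.2.1)) c),
      h0.trans_le (real_le_comp μ _ (fun c => (c.2.2, c.2.1)) c),
      h0.trans_le (real_le_comp μ _ (fun c => c.2.1) c)⟩
  · calc _ = ∑ c ∈ Finset.univ.filter (fun c : α × β × γ => 0 < p (c.1, c.2.1) ∧
          0 < q (c.2.2, c.2.1) ∧ 0 < r c.2.1), p (c.1, c.2.1) * q (c.2.2, c.2.1) / r c.2.1 := by
          refine Finset.sum_congr rfl fun c hc => ?_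
          obtain ⟨k1, k2, k3⟩ := (Finset.mem_filter.1 hc).2
          rw [Real.exp_sub, Real.exp_add, Real.exp_log k1, Real.exp_log k2, Real.exp_log k3]
      _ ≤ ∑ c : α × β × γ, p (c.1, c.2.1) * q (c.2.2, c.2.1) / r c.2.1 :=
          Finset.sum_le_sum_of_subset_of_nonneg (Finset.filter_subset _ _) fun c _ _ =>
            div_nonneg (mul_nonneg measureReal_nonneg measureReal_nonneg) measureReal_nonneg
      _ = ∑ b, r b * r b / r b := by
          rw [Fintype.sum_prod_type, Finset.sum_congr rfl fun a _ => Fintype.sum_prod_type _,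
            Finset.sum_comm]
          refine Finset.sum_congr rfl fun b _ => ?_
          simp only [← Finset.sum_div, ← Finset.mul_sum, ← Finset.sum_mul, hp, hq,
            marg μ hf hg b, marg μ hh hg b, hr]
      _ ≤ ∑ b, r b := Finset.sum_le_sum fun b _ => by
          rcases eq_or_ne (r b) 0 with k | k
          · simp [k]
          · rw [mul_div_cancel_right₀ _ k]
      _ = 1 := sum_real_eq_one μ hg

theorem Hent_split (μ : Measure Ω) [IsProbabilityMeasure μ] {α : Type*} [Fintype α]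
    [DecidableEq α] {f : Ω → α} (hf : Mf f) (V T : Finset α) {v W : ℝ} (v0 : 0 < v) (W0 : 0 < W)
    (hV : (V.card : ℝ) ≤ v) (hW : ((T \ V).card : ℝ) ≤ W)
    (hT : ∀ a, μ.real (f ⁻¹' {a}) ≠ 0 → a ∈ T) :
    Hent μ f ≤ Real.log 2 + μ.real (f ⁻¹' V) * Real.log v +
      (1 - μ.real (f ⁻¹' V)) * Real.log W := by
  have := Hent_gibbs μ hf (fun a => if a ∈ V then -Real.log v else -Real.log W) (V ∪ T) 2
    (fun a ha => Finset.mem_union_right _ (hT a ha)) ?_ two_pos
  · have e : ∑ a, μ.real (f ⁻¹' {a}) * (if a ∈ V then -Real.log v else -Real.log W) =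
        -(μ.real (f ⁻¹' V) * Real.log v) - (1 - μ.real (f ⁻¹' V)) * Real.log W := by
      have e1 : ∀ a, μ.real (f ⁻¹' {a}) * (if a ∈ V then -Real.log v else -Real.log W) =
          (if a ∈ V then μ.real (f ⁻¹' {a}) else 0) * (Real.log W - Real.log v) -
            μ.real (f ⁻¹' {a}) * Real.log W := fun a => by split_ifs <;> ring
      simp only [e1, Finset.sum_sub_distrib, ← Finset.sum_mul, Finset.sum_ite_mem,
        Finset.univ_inter, sum_real_eq_one μ hf]
      rw [← real_preimage_eq_sum μ hf]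
      ring
    linarith
  · rw [← Finset.union_sdiff_self_eq_union, Finset.sum_union Finset.disjoint_sdiff,
      Finset.sum_congr rfl (g := fun _ => v⁻¹) (fun a ha => by
        rw [if_pos ha, Real.exp_neg, Real.exp_log v0]),
      Finset.sum_congr rfl (s₁ := T \ V) (g := fun _ => W⁻¹) (fun a ha => by
        rw [if_neg (Finset.mem_sdiff.1 ha).2, Real.exp_neg, Real.exp_log W0])]
    simp only [Finset.sum_const, nsmul_eq_mul]
    have a1 : (V.card : ℝ) * v⁻¹ ≤ 1 := by rw [← div_eq_mul_inv, div_le_one v0]; exact hV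
    have a2 : ((T \ V).card : ℝ) * W⁻¹ ≤ 1 := by rw [← div_eq_mul_inv, div_le_one W0]; exact hW
    linarith

theorem Hent_guess (μ : Measure Ω) [IsProbabilityMeasure μ] {α β : Type*} [Fintype α]
    [Fintype β] {f : Ω → α} {g : Ω → β} (hf : Mf f) (hg : Mf g) (k : β → α) (T : Finset α)
    {W : ℝ} (W0 : 0 < W) (hW : (T.card : ℝ) ≤ W) (hT : ∀ x, f x ∈ T) :
    Hent μ (fun x => (f x, g x)) ≤ Hent μ g + Real.log 2 +
      (1 - μ.real {x | f x = k (g x)}) * Real.log W := by
  classical
  set e : Ω → Option α := fun x => if f x = k (g x) then none else some (f x) with he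
  have me : Mf e := (hf.pair hg).comp fun c => if c.1 = k c.2 then none else some c.1
  have h1 := Hent_le_add μ hg me (h := fun x => (f x, g x)) (fun b o => (o.getD (k b), b))
    (fun x => by
      simp only [he]
      split_ifs with h
      · simp [h]
      · simp)
  have h2 := Hent_split μ me {none} (insert none (T.image some)) one_pos W0 (by simp) (by
    refine le_trans ?_ hW
    exact_mod_cast (Finset.card_le_card (t := T.image some) (by
      intro o ho
      simp only [Finset.mem_sdiff, Finset.mem_insert, Finset.mem_singleton] at ho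
      exact ho.1.resolve_left ho.2)).trans Finset.card_image_le) (by
    intro o ho
    obtain ⟨x, hx⟩ : (e ⁻¹' {o}).Nonempty := by
      by_contra hn
      rw [Set.not_nonempty_iff_eq_empty] at hn
      simp [hn] at ho
    rw [← Set.mem_singleton_iff.1 hx]
    simp only [he]
    split_ifs
    · simp
    · simp [hT x])
  have e2 : e ⁻¹' (({none} : Finset (Option α)) : Set (Option α)) = {x | f x = k (g x)} := by
    ext x; simp [he]
  rw [e2, Real.log_one] at h2
  linarith

theorem small_entropy (k : ℕ) (η : ℝ) (hη : 0 < η) : ∃ δ > 0, ∀ (ν : Measure Ω)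
    [IsProbabilityMeasure ν] (E : Ω → Option (Fin k)), Mf E →
    ν.real (E ⁻¹' {none})ᶜ ≤ δ → Hent ν E ≤ η := by
  have h0 : ∀ᶠ p in 𝓝 (0 : ℝ), Real.negMulLog p < η / (k + 1) := by
    have := Real.continuous_negMulLog.tendsto 0
    rw [Real.negMulLog_zero] at this
    exact this.eventually (gt_mem_nhds (by positivity))
  have h1 : ∀ᶠ p in 𝓝 (1 : ℝ), Real.negMulLog p < η / (k + 1) := by
    have := Real.continuous_negMulLog.tendsto 1
    rw [Real.negMulLog_one] at this
    exact this.eventually (gt_mem_nhds (by positivity))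
  obtain ⟨δ0, p0, q0⟩ := Metric.eventually_nhds_iff.1 h0
  obtain ⟨δ1, p1, q1⟩ := Metric.eventually_nhds_iff.1 h1
  refine ⟨min δ0 δ1 / 2, by positivity, fun ν _ E hE hν => ?_⟩
  have m0 := min_le_left δ0 δ1
  have m1 := min_le_right δ0 δ1
  have mp : 0 < min δ0 δ1 := lt_min p0 p1
  have key : ∀ a, Real.negMulLog (ν.real (E ⁻¹' {a})) ≤ η / (k + 1) := by
    intro a
    cases a with
    | none =>
      refine (q1 ?_).le
      rw [probReal_compl_eq_one_sub (hE none)] at hν
      have hle : ν.real (E ⁻¹' {none}) ≤ 1 := measureReal_le_one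
      rw [Real.dist_eq, abs_sub_comm, abs_of_nonneg (by linarith)]
      linarith
    | some j =>
      refine (q0 ?_).le
      have : ν.real (E ⁻¹' {some j}) ≤ ν.real (E ⁻¹' {none})ᶜ :=
        measureReal_mono (fun x hx => by simp_all)
      rw [Real.dist_eq, sub_zero, abs_of_nonneg measureReal_nonneg]
      linarith
  refine (Finset.sum_le_card_nsmul _ _ _ fun a _ => key a).trans (le_of_eq ?_)
  simp only [Finset.card_univ, Fintype.card_option, Fintype.card_fin, nsmul_eq_mul]
  push_cast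
  field_simp

theorem corr_symm (μ : Measure Ω) [IsProbabilityMeasure μ] {σ : Ω → Ω}
    (hσ : MeasurePreserving σ μ μ) {A B : Set Ω} (hA : MeasurableSet A) (hB : MeasurableSet B)
    {ε : ℝ} (hε : 0 < ε) : ∀ᶠ m : ℕ in atTop, ∀ n : ℕ,
      ∑ i ∈ range m, μ.real (A ∩ σ^[n + i] ⁻¹' B) ≤
        ∑ i ∈ range m, μ.real (B ∩ σ^[n + i] ⁻¹' A) + ε * m := by
  let U : Lp ℝ 2 μ →L[ℝ] Lp ℝ 2 μ := (Lp.compMeasurePreservingₗᵢ ℝ σ hσ).toContinuousLinearMap
  have hU : ‖U‖ ≤ 1 := LinearIsometry.norm_toContinuousLinearMap_le _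
  let ind : ∀ C : Set Ω, MeasurableSet C → Lp ℝ 2 μ := fun C hC =>
    indicatorConstLp 2 hC (measure_ne_top _ _) (1 : ℝ)
  have hit : ∀ (C : Set Ω) (hC : MeasurableSet C) (k : ℕ),
      U^[k] (ind C hC) = ind (σ^[k] ⁻¹' C) ((hσ.measurable.iterate k) hC) := by
    intro C hC k
    induction k with
    | zero => rfl
    | succ k ih => rw [Function.iterate_succ_apply', ih]; rfl
  have nrm : ∀ (C : Set Ω) (hC : MeasurableSet C), ‖ind C hC‖ ≤ 1 := fun C hC => by
    refine (norm_indicatorConstLp_le).trans ?_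
    rw [norm_one, one_mul]
    exact Real.rpow_le_one measureReal_nonneg measureReal_le_one (by norm_num)
  have contr : ∀ (k : ℕ) (v : Lp ℝ 2 μ), ‖U^[k] v‖ ≤ ‖v‖ := by
    intro k v
    induction k with
    | zero => exact le_rfl
    | succ k ih =>
      rw [Function.iterate_succ_apply']
      exact (U.le_opNorm _).trans (by nlinarith [norm_nonneg (U^[k] v)])
  let K := U.eqLocus (1 : Lp ℝ 2 μ →L[ℝ] Lp ℝ 2 μ)
  have key : ∀ (C D : Set Ω) (hC : MeasurableSet C) (hD : MeasurableSet D), ∀ᶠ m : ℕ in atTop,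
      ∀ n : ℕ, |∑ i ∈ range m, μ.real (C ∩ σ^[n + i] ⁻¹' D) -
        m * inner ℝ (ind C hC) (K.starProjection (ind D hD))| ≤ ε / 2 * m := by
    intro C D hC hD
    have ht := U.tendsto_birkhoffAverage_orthogonalProjection hU (ind D hD)
    filter_upwards [Metric.tendsto_nhds.1 ht (ε / 2) (by positivity), eventually_gt_atTop 0]
      with m hm m0 n
    have m0' : (0 : ℝ) < m := by exact_mod_cast m0
    set P : Lp ℝ 2 μ := K.starProjection (ind D hD)
    have hP : U P = P := (K.orthogonalProjectionOnto (ind D hD)).2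
    have hP' : U^[n] P = P := Function.iterate_fixed hP n
    have e : ∑ i ∈ range m, μ.real (C ∩ σ^[n + i] ⁻¹' D) - m * inner ℝ (ind C hC) P =
        m * inner ℝ (ind C hC) (U^[n] (birkhoffAverage ℝ U id m (ind D hD) - P)) := by
      rw [← ContinuousLinearMap.coe_pow', map_sub, ContinuousLinearMap.coe_pow', hP',
        inner_sub_right, mul_sub]
      congr 1
      simp only [birkhoffAverage, birkhoffSum, id, ← ContinuousLinearMap.coe_pow', map_smul,
        map_sum, inner_smul_right, inner_sum]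
      rw [← mul_assoc, mul_inv_cancel₀ m0'.ne', one_mul]
      refine Finset.sum_congr rfl fun i _ => ?_
      rw [ContinuousLinearMap.coe_pow', ContinuousLinearMap.coe_pow',
        ← Function.iterate_add_apply, hit]
      exact (L2.real_inner_indicatorConstLp_one_indicatorConstLp_one _ _).symm
    rw [e, abs_mul, abs_of_pos m0', mul_comm]
    refine mul_le_mul_of_nonneg_right ((abs_real_inner_le_norm _ _).trans ?_) m0'.le
    rw [dist_eq_norm] at hm
    have : ‖U^[n] (birkhoffAverage ℝ U id m (ind D hD) - P)‖ ≤ ε / 2 := (contr n _).trans hm.le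
    nlinarith [nrm C hC, norm_nonneg (ind C hC),
      norm_nonneg (U^[n] (birkhoffAverage ℝ U id m (ind D hD) - P))]
  filter_upwards [key A B hA hB, key B A hB hA] with m h1 h2 n
  have s : inner ℝ (ind A hA) (K.starProjection (ind B hB)) =
      inner ℝ (ind B hB) (K.starProjection (ind A hA)) := by
    rw [← K.inner_starProjection_left_eq_right, real_inner_comm]
  have a1 := abs_le.1 (h1 n)
  have a2 := abs_le.1 (h2 n)
  rw [s] at a1
  linarith [a1.2, a2.1]

theorem recur (μ : Measure Ω) [IsProbabilityMeasure μ] {σ : Ω → Ω}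
    (hσ : MeasurePreserving σ μ μ) {κ : Type*} [Fintype κ] {cell : Ω → κ} (hc : Mf cell) :
    ∃ c : ℝ, 0 < c ∧ ∃ m : ℕ, ∀ n : ℕ, ∀ G : ℕ → Set Ω, (∀ p, MeasurableSet (G p)) →
      (∀ p, n ≤ p → μ.real (G p)ᶜ ≤ 1 / 4) → ∃ J J' p p', n ≤ p ∧ p < n + m ∧ n ≤ p' ∧
        p' < n + m ∧ c ≤ μ.real (cell ⁻¹' {J} ∩ σ^[p] ⁻¹' (cell ⁻¹' {J'}) ∩ G p) ∧
        c ≤ μ.real (cell ⁻¹' {J'} ∩ σ^[p'] ⁻¹' (cell ⁻¹' {J}) ∩ G p') := by
  set N : ℝ := Fintype.card (κ × κ) + 1 with hN
  have N0 : 0 < N := by positivity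
  set c : ℝ := 1 / (8 * N) with hcdef
  have c0 : 0 < c := by positivity
  obtain ⟨m, hm, m0⟩ := ((eventually_all.2 fun d : κ × κ =>
    corr_symm μ hσ (hc d.1) (hc d.2) c0).and (eventually_gt_atTop 0)).exists
  refine ⟨c, c0, m, fun n G hG hG' => ?_⟩
  by_contra hn
  push Not at hn
  set F : κ × κ → ℕ → Set Ω := fun d i => cell ⁻¹' {d.1} ∩ σ^[n + i] ⁻¹' (cell ⁻¹' {d.2})
    with hF
  have split : ∀ d i, μ.real (F d i) = μ.real (F d i ∩ G (n + i)) + μ.real (F d i \ G (n + i)) :=
    fun d i => (measureReal_inter_add_diff (hG _)).symm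
  have low : ∀ d : κ × κ, (∀ i ∈ range m, μ.real (F d i ∩ G (n + i)) < c) →
      ∑ i ∈ range m, μ.real (F d i) ≤ c * m + ∑ i ∈ range m, μ.real (F d i \ G (n + i)) := by
    intro d h
    rw [Finset.sum_congr rfl fun i _ => split d i, Finset.sum_add_distrib]
    have := Finset.sum_le_card_nsmul _ _ c fun i hi => (h i hi).le
    rw [Finset.card_range, nsmul_eq_mul] at this
    linarith
  have nn : ∀ d : κ × κ, 0 ≤ ∑ i ∈ range m, μ.real (F d i \ G (n + i)) := fun d =>
    Finset.sum_nonneg fun _ _ => measureReal_nonneg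
  have m0' : (0 : ℝ) < m := by exact_mod_cast m0
  have main : ∀ d : κ × κ, ∑ i ∈ range m, μ.real (F d i) ≤ 2 * c * m +
      ∑ i ∈ range m, μ.real (F d i \ G (n + i)) +
      ∑ i ∈ range m, μ.real (F d.swap i \ G (n + i)) := by
    intro d
    by_cases h : ∀ i ∈ range m, μ.real (F d i ∩ G (n + i)) < c
    · nlinarith [low d h, nn d.swap]
    · push Not at h
      obtain ⟨i, hi, h⟩ := h
      have := low d.swap fun j hj => hn d.1 d.2 (n + i) (n + j) (by omega)
        (by simpa using hi) (by omega) (by simpa using hj) h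
      have := hm d n
      simp only [hF, Prod.fst_swap, Prod.snd_swap] at *
      linarith [nn d]
  have mp : ∀ i, Mf fun x => (cell x, cell (σ^[n + i] x)) := fun i =>
    hc.pair (hc.comp_meas (hσ.measurable.iterate _))
  have eF : ∀ d i, F d i = (fun x => (cell x, cell (σ^[n + i] x))) ⁻¹' {d} := fun d i => by
    ext x; simp [hF, Prod.ext_iff]
  have t1 : ∑ d : κ × κ, ∑ i ∈ range m, μ.real (F d i) = m := by
    rw [Finset.sum_comm, Finset.sum_congr rfl (g := fun _ => (1 : ℝ)) fun i _ => by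
      simp only [eF]; exact sum_real_eq_one μ (mp i)]
    simp
  have t2 : ∑ d : κ × κ, ∑ i ∈ range m, μ.real (F d i \ G (n + i)) ≤ 1 / 4 * m := by
    rw [Finset.sum_comm]
    refine (Finset.sum_le_card_nsmul _ _ (1 / 4) fun i _ => ?_).trans (by simp [mul_comm])
    refine le_trans (le_of_eq ?_) (hG' (n + i) (by omega))
    have := sum_measureReal_preimage_singleton (μ := μ.restrict (G (n + i))ᶜ) Finset.univ
      (f := fun x => (cell x, cell (σ^[n + i] x))) fun d _ => mp i d
    simp only [Finset.coe_univ, Set.preimage_univ, measureReal_restrict_apply MeasurableSet.univ,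
      Set.univ_inter] at this
    rw [← this]
    refine Finset.sum_congr rfl fun d _ => ?_
    rw [measureReal_restrict_apply (mp i d), eF, Set.diff_eq]
  have t3 : ∑ d : κ × κ, ∑ i ∈ range m, μ.real (F d.swap i \ G (n + i)) =
      ∑ d : κ × κ, ∑ i ∈ range m, μ.real (F d i \ G (n + i)) :=
    (Equiv.prodComm κ κ).sum_comp fun d => ∑ i ∈ range m, μ.real (F d i \ G (n + i))
  have t4 := Finset.sum_le_sum fun d (_ : d ∈ Finset.univ) => main d
  rw [Finset.sum_add_distrib, Finset.sum_add_distrib, t1, t3, Finset.sum_const, nsmul_eq_mul,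
    Finset.card_univ] at t4
  have t5 : (Fintype.card (κ × κ) : ℝ) * (2 * c) ≤ 1 / 4 := by
    rw [hcdef, show (Fintype.card (κ × κ) : ℝ) = N - 1 by rw [hN]; ring]
    field_simp
    linarith
  nlinarith

end Pool.Agent.Lib.MP_fd11a7_an
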