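import Mathlib
import Pool.Agent.Lib.MP_fd11a7_an.Ent2

set_option autoImplicit false

open MeasureTheory Finset Filter Topology

namespace Pool.Agent.Lib.MP_fd11a7_an

/-- A labelled two-sided dynamical system. -/
structure Sh (Ω ι : Type) [MeasurableSpace Ω] where
  σ : Ω → Ω
  lab : ℤ → Ω → ι
  mσ : Measurable σ
  mlab : ∀ n, Mf (lab n)
  step : ∀ n x, lab n (σ x) = lab (n + 1) x
  surj : Function.Surjective σ

namespace Sh

variable {Ω ι : Type} [MeasurableSpace Ω] [Fintype ι] (s : Sh Ω ι)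

/-- Window of labels. -/
def win (a : ℤ) (n : ℕ) (x : Ω) : Fin n → ι := fun j => s.lab (a + (j : ℕ)) x

open Classical in
/-- Admissible words. -/
noncomputable def LN (n : ℕ) : Finset (Fin n → ι) := univ.filter fun w => ∃ x, s.win 0 n x = w

/-- Logarithm of the number of admissible words. -/
noncomputable def ell (n : ℕ) : ℝ := Real.log (s.LN n).card

/-- Growth rate of words. -/
noncomputable def H : ℝ := limsup (fun n : ℕ => s.ell n / n) atTop

/-- Block entropy. -/
noncomputable def HN (μ : Measure Ω) (n : ℕ) : ℝ := Hent μ (s.win 0 n)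

omit [Fintype ι] in
theorem lab_iter (n : ℤ) (k : ℕ) (x : Ω) : s.lab n (s.σ^[k] x) = s.lab (n + k) x := by
  induction k generalizing n with
  | zero => simp
  | succ k ih => rw [Function.iterate_succ_apply', s.step, ih]; congr 1; push_cast; ring

omit [Fintype ι] in
theorem win_iter (a : ℤ) (n k : ℕ) (x : Ω) : s.win a n (s.σ^[k] x) = s.win (a + k) n x := by
  funext j
  simp only [win, lab_iter]
  congr 1; ring

omit [Fintype ι] in
theorem mf_win (a : ℤ) (n : ℕ) : Mf (s.win a n) := Mf.pi fun _ => s.mlab _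

theorem win_mem (a : ℤ) (n : ℕ) (x : Ω) : s.win a n x ∈ s.LN n := by
  simp only [LN, mem_filter, mem_univ, true_and]
  rcases le_total 0 a with h | h
  · exact ⟨s.σ^[a.toNat] x, by rw [win_iter]; congr 1; omega⟩
  · obtain ⟨y, rfl⟩ := s.surj.iterate (-a).toNat x
    exact ⟨y, by rw [win_iter]; congr 1; omega⟩

theorem ell_nonneg (n : ℕ) : 0 ≤ s.ell n := Real.log_natCast_nonneg _

theorem ell_le (n : ℕ) : s.ell n ≤ n * Real.log (Fintype.card ι) := by
  rcases Nat.eq_zero_or_pos (s.LN n).card with h | h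
  · simp only [ell, h, Nat.cast_zero, Real.log_zero]
    exact mul_nonneg (Nat.cast_nonneg _) (Real.log_natCast_nonneg _)
  · rw [← Real.log_pow]
    refine Real.log_le_log (by exact_mod_cast h) ?_
    have := Finset.card_le_univ (s.LN n)
    rw [Fintype.card_fun, Fintype.card_fin] at this
    exact_mod_cast this

theorem bdd : IsBoundedUnder (· ≤ ·) atTop fun n : ℕ => s.ell n / n :=
  isBoundedUnder_of ⟨Real.log (Fintype.card ι), fun n => by
    rcases Nat.eq_zero_or_pos n with rfl | h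
    · simpa using Real.log_natCast_nonneg _
    · rw [div_le_iff₀ (by exact_mod_cast h), mul_comm]; exact s.ell_le n⟩

theorem cobdd : IsCoboundedUnder (· ≤ ·) atTop fun n : ℕ => s.ell n / n :=
  isCoboundedUnder_le_of_le atTop (x := 0) fun n => div_nonneg (s.ell_nonneg n) (Nat.cast_nonneg n)

theorem H_nonneg : 0 ≤ s.H :=
  le_limsup_of_frequently_le (Frequently.of_forall fun n =>
    div_nonneg (s.ell_nonneg n) (Nat.cast_nonneg n)) s.bdd

theorem ell_up {ε : ℝ} (hε : 0 < ε) : ∀ᶠ n : ℕ in atTop, s.ell n ≤ (s.H + ε) * n := by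
  filter_upwards [eventually_lt_of_limsup_lt (show s.H < s.H + ε by linarith) s.bdd,
    eventually_gt_atTop 0] with n h1 h2
  exact ((div_lt_iff₀ (by exact_mod_cast h2)).1 h1).le

theorem ell_freq {ε : ℝ} (hε : 0 < ε) : ∃ᶠ n : ℕ in atTop, (s.H - ε) * n ≤ s.ell n := by
  refine ((frequently_lt_of_lt_limsup s.cobdd (show s.H - ε < s.H by linarith)).and_eventually
    (eventually_gt_atTop 0)).mono fun n h => ?_
  exact ((lt_div_iff₀ (by exact_mod_cast h.2)).1 h.1).le

variable {s} {μ : Measure Ω}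

theorem real_win_add (hμ : MeasurePreserving s.σ μ μ) (a : ℤ) (n k : ℕ)
    (t : Set (Fin n → ι)) : μ.real (s.win (a + k) n ⁻¹' t) = μ.real (s.win a n ⁻¹' t) := by
  rw [← (hμ.iterate k).measureReal_preimage ((s.mf_win a n).preimage t).nullMeasurableSet]
  congr 1
  ext x
  simp [win_iter]

theorem real_win (hμ : MeasurePreserving s.σ μ μ) (a : ℤ) (n : ℕ)
    (t : Set (Fin n → ι)) : μ.real (s.win a n ⁻¹' t) = μ.real (s.win 0 n ⁻¹' t) := by
  rcases le_total 0 a with h | h
  · have := real_win_add hμ 0 n a.toNat t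
    rwa [show (0 : ℤ) + (a.toNat : ℕ) = a by omega] at this
  · have := real_win_add hμ a n (-a).toNat t
    rw [show a + ((-a).toNat : ℕ) = 0 by omega] at this
    exact this.symm

theorem Hent_win (hμ : MeasurePreserving s.σ μ μ) (a : ℤ) (n : ℕ) :
    Hent μ (s.win a n) = s.HN μ n := by
  unfold HN Hent
  exact Finset.sum_congr rfl fun w _ => by rw [real_win hμ]

omit [Fintype ι] in
theorem win_append (a : ℤ) (n m : ℕ) (x : Ω) :
    s.win a (n + m) x = Fin.append (s.win a n x) (s.win (a + n) m x) := by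
  funext j
  refine Fin.addCases (fun j => ?_) (fun j => ?_) j
  · simp [win]
  · simp [win, add_assoc]

theorem Hent_win_add (ν : Measure Ω) [IsProbabilityMeasure ν] (a : ℤ) (n m : ℕ) :
    Hent ν (s.win a (n + m)) ≤ Hent ν (s.win a n) + Hent ν (s.win (a + n) m) :=
  Hent_le_add ν (s.mf_win a n) (s.mf_win (a + n) m)
    (fun u v => (Fin.append u v : Fin (n + m) → ι)) (win_append a n m)

theorem Hent_pair_win (ν : Measure Ω) [IsProbabilityMeasure ν] (a : ℤ) (n m : ℕ) :
    Hent ν (fun x => (s.win a n x, s.win (a + n) m x)) ≤ Hent ν (s.win a (n + m)) :=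
  Hent_le_of_factor ν (s.mf_win a (n + m))
    (fun u => (fun j => u (Fin.castAdd m j), fun j => u (Fin.natAdd n j))) fun x => by
      simp only [win_append, Fin.append_left, Fin.append_right]

theorem HN_concave [IsProbabilityMeasure μ] (hμ : MeasurePreserving s.σ μ μ) (n L k : ℕ) :
    s.HN μ (n + L + k) + s.HN μ L ≤ s.HN μ (n + L) + s.HN μ (L + k) := by
  have h1 := Hent_submod μ (s.mf_win 0 n) (s.mf_win (0 + n) L) (s.mf_win (0 + n + L) k)
  have h2 := Hent_pair_win (s := s) μ 0 n L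
  have h3 := Hent_pair_win (s := s) μ (0 + n) L k
  have h4 : Hent μ (fun x => (s.win (0 + n + L) k x, s.win (0 + n) L x)) ≤
      Hent μ (fun x => (s.win (0 + n) L x, s.win (0 + n + L) k x)) :=
    Hent_le_of_factor μ ((s.mf_win _ _).pair (s.mf_win _ _)) Prod.swap fun _ => rfl
  have h5 : Hent μ (s.win 0 (n + L + k)) ≤
      Hent μ (fun x => (s.win 0 n x, s.win (0 + n) L x, s.win (0 + n + L) k x)) :=
    Hent_le_of_factor μ ((s.mf_win _ _).pair ((s.mf_win _ _).pair (s.mf_win _ _)))
      (fun c => Fin.append (Fin.append c.1 c.2.1) c.2.2) fun x => by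
        rw [win_append, win_append]; simp
  rw [Hent_win hμ] at h1 h2 h3 h5
  linarith

theorem HN_incr [IsProbabilityMeasure μ] (hμ : MeasurePreserving s.σ μ μ) {h : ℝ} (h0 : 0 ≤ h)
    (hh : ∀ q : ℕ, h * q ≤ s.HN μ q) (n L : ℕ) : h * n + s.HN μ L ≤ s.HN μ (n + L) := by
  have key : ∀ m : ℕ, s.HN μ (L + m * n) ≤ s.HN μ L + m * (s.HN μ (n + L) - s.HN μ L) := by
    intro m
    induction m with
    | zero => simp
    | succ m ih =>
      have := HN_concave hμ n L (m * n)
      rw [show n + L + m * n = L + (m + 1) * n by ring] at this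
      push_cast
      linarith
  by_contra hn
  push Not at hn
  obtain ⟨m, hm⟩ := exists_nat_gt (s.HN μ L / (h * n + s.HN μ L - s.HN μ (n + L)))
  rw [div_lt_iff₀ (by linarith)] at hm
  have h1 := (hh _).trans (key m)
  push_cast at h1
  have : 0 ≤ h * L := by positivity
  nlinarith

/-- A measure of maximal entropy. -/
structure Mx (s : Sh Ω ι) (μ : Measure Ω) : Prop where
  mp : MeasurePreserving s.σ μ μ
  ent : ∀ q : ℕ, s.H * q ≤ s.HN μ q

theorem LN_pos [IsProbabilityMeasure μ] (n : ℕ) : (0 : ℝ) < (s.LN n).card := by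
  obtain ⟨x⟩ := nonempty_of_isProbabilityMeasure μ
  exact_mod_cast Finset.card_pos.2 ⟨_, s.win_mem 0 n x⟩

theorem Mx.small [IsProbabilityMeasure μ] (h : Mx s μ) (hH : 0 < s.H) {η : ℝ} (hη : 0 < η) :
    ∃ n : ℕ, ∀ (L : ℕ) (k : (Fin L → ι) → Fin n → ι) (a : ℤ),
      μ.real {x | s.win a n x = k (s.win (a + n) L x)} ≤ η ∧
      μ.real {x | s.win (a + L) n x = k (s.win a L x)} ≤ η := by
  set ε := η * s.H / 2 with hε
  have e0 : 0 < ε := by positivity
  obtain ⟨n, h1, h2, h3⟩ := ((s.ell_up e0).and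
    ((tendsto_natCast_atTop_atTop.const_mul_atTop e0).eventually_ge_atTop (Real.log 2) |>.and
      (eventually_gt_atTop 0))).exists
  have n0 : (0 : ℝ) < n := by exact_mod_cast h3
  have fin : ∀ (L : ℕ) (c : ℝ), 0 ≤ c → c ≤ 1 →
      s.HN μ (n + L) ≤ s.HN μ L + Real.log 2 + (1 - c) * s.ell n → c ≤ η := by
    intro L c c0 c1 hc
    have := HN_incr h.mp hH.le h.ent n L
    have a1 : (1 - c) * s.ell n ≤ (1 - c) * ((s.H + ε) * n) :=
      mul_le_mul_of_nonneg_left h1 (by linarith)
    have a2 : c * s.H * n ≤ η * s.H * n := by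
      have : 0 ≤ c * ε * n := by positivity
      nlinarith
    have := le_of_mul_le_mul_right a2 n0
    exact le_of_mul_le_mul_right this hH
  refine ⟨n, fun L k a => ⟨fin L _ measureReal_nonneg measureReal_le_one ?_,
    fin L _ measureReal_nonneg measureReal_le_one ?_⟩⟩
  · have g := Hent_guess μ (s.mf_win a n) (s.mf_win (a + n) L) k (s.LN n) (LN_pos (μ := μ) n)
      le_rfl (s.win_mem a n)
    have : Hent μ (s.win a (n + L)) ≤ Hent μ (fun x => (s.win a n x, s.win (a + n) L x)) :=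
      Hent_le_of_factor μ ((s.mf_win _ _).pair (s.mf_win _ _)) (fun c => Fin.append c.1 c.2)
        (win_append a n L)
    rw [Hent_win h.mp] at this g
    exact this.trans g
  · have g := Hent_guess μ (s.mf_win (a + L) n) (s.mf_win a L) k (s.LN n) (LN_pos (μ := μ) n)
      le_rfl (s.win_mem _ n)
    have : Hent μ (s.win a (L + n)) ≤ Hent μ (fun x => (s.win (a + L) n x, s.win a L x)) :=
      Hent_le_of_factor μ ((s.mf_win _ _).pair (s.mf_win _ _)) (fun c => Fin.append c.2 c.1)
        (win_append a L n)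
    rw [Hent_win h.mp] at this g
    rw [add_comm n L]
    exact this.trans g

theorem Mx.many [IsProbabilityMeasure μ] (h : Mx s μ) {c γ : ℝ} (hc : 0 < c) (hγ : 0 < γ) :
    ∀ᶠ n : ℕ in atTop, ∀ V : Finset (Fin n → ι), c ≤ μ.real (s.win 0 n ⁻¹' V) →
      (s.H - γ) * n ≤ Real.log V.card := by
  classical
  set ε := γ * c / 2 with hε
  have e0 : 0 < ε := by positivity
  filter_upwards [s.ell_up e0,
    (tendsto_natCast_atTop_atTop.const_mul_atTop e0).eventually_ge_atTop (Real.log 2)]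
    with n h1 h2 V hV
  have V0 : (0 : ℝ) < V.card := by
    rcases V.eq_empty_or_nonempty with rfl | k
    · simp at hV; linarith
    · exact_mod_cast k.card_pos
  have := Hent_split μ (s.mf_win 0 n) V (s.LN n) V0 (LN_pos (μ := μ) n) le_rfl
    (by exact_mod_cast Finset.card_le_card Finset.sdiff_subset) (by
      intro w hw
      obtain ⟨x, hx⟩ : (s.win 0 n ⁻¹' {w}).Nonempty := by
        by_contra hn
        rw [Set.not_nonempty_iff_eq_empty] at hn
        simp [hn] at hw
      rw [← Set.mem_singleton_iff.1 hx]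
      exact s.win_mem 0 n x)
  have e := (h.ent n).trans this
  set p := μ.real (s.win 0 n ⁻¹' V)
  have p1 : p ≤ 1 := measureReal_le_one
  have a1 : (1 - p) * s.ell n ≤ (1 - p) * ((s.H + ε) * n) :=
    mul_le_mul_of_nonneg_left h1 (by linarith)
  have n0 : (0 : ℝ) ≤ n := Nat.cast_nonneg n
  refine le_of_mul_le_mul_left ?_ (hc.trans_le hV)
  unfold ell at a1
  have a2 : c * (γ * n) ≤ p * (γ * n) := mul_le_mul_of_nonneg_right hV (by positivity)
  have a3 : 0 ≤ p * ε * n := by have := hc.trans_le hV; positivity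
  nlinarith

theorem Hent_win_le (σ : Measure Ω) [IsProbabilityMeasure σ] (a : ℤ) (m : ℕ) :
    Hent σ (s.win a m) ≤ m * Real.log (Fintype.card ι) := by
  refine (Hent_le_log_card σ (s.mf_win a m) Finset.univ fun _ _ => Finset.mem_univ _).trans ?_
  simp [Real.log_pow]

theorem Hent_win_mono (σ : Measure Ω) [IsProbabilityMeasure σ] {N M : ℕ} (h : N ≤ M) :
    Hent σ (s.win 0 N) ≤ Hent σ (s.win 0 M) :=
  Hent_le_of_factor σ (s.mf_win 0 M) (fun u j => u (Fin.castLE h j)) fun _ => rfl

theorem block_sum (σ : Measure Ω) [IsProbabilityMeasure σ] (q I : ℕ) :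
    ∑ j ∈ Finset.range q, Hent σ (s.win 0 (q * I + j)) ≤
      (q : ℝ) ^ 2 * Real.log (Fintype.card ι) + ∑ t ∈ Finset.range (q * I), Hent σ (s.win t q) := by
  have l0 : 0 ≤ Real.log (Fintype.card ι) := Real.log_natCast_nonneg _
  induction I with
  | zero =>
    simp only [mul_zero, Finset.range_zero, Finset.sum_empty, add_zero]
    refine (Finset.sum_le_card_nsmul _ _ (q * Real.log (Fintype.card ι)) fun j hj =>
      (Hent_win_le σ 0 _).trans ?_).trans ?_
    · have := Finset.mem_range.1 hj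
      exact mul_le_mul_of_nonneg_right (by exact_mod_cast (by omega : 0 + j ≤ q)) l0
    · simp [sq, mul_assoc]
  | succ I ih =>
    rw [Nat.mul_succ, Finset.sum_range_add]
    have : ∑ j ∈ Finset.range q, Hent σ (s.win 0 (q * I + q + j)) ≤
        ∑ j ∈ Finset.range q, (Hent σ (s.win 0 (q * I + j)) +
          Hent σ (s.win (q * I + j : ℕ) q)) := by
      refine Finset.sum_le_sum fun j _ => ?_
      have := Hent_win_add (s := s) σ 0 (q * I + j) q
      rw [zero_add] at this
      rwa [show q * I + q + j = q * I + j + q by ring]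
    rw [Finset.sum_add_distrib] at this
    linarith

theorem block_ineq (σ : Measure Ω) [IsProbabilityMeasure σ] (q N : ℕ) (hq : 0 < q) :
    q * Hent σ (s.win 0 N) ≤ 2 * ((q : ℝ) ^ 2 * Real.log (Fintype.card ι)) +
      ∑ t ∈ Finset.range N, Hent σ (s.win t q) := by
  have l0 : 0 ≤ Real.log (Fintype.card ι) := Real.log_natCast_nonneg _
  have h1 := block_sum (s := s) σ q (N / q + 1)
  have h2 := Nat.div_add_mod N q
  have h3 := Nat.mod_lt N hq
  obtain ⟨d, hd, hd2⟩ : ∃ d, q * (N / q + 1) = N + d ∧ d ≤ q :=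
    ⟨q - N % q, by rw [Nat.mul_succ]; omega, by omega⟩
  rw [hd, Finset.sum_range_add] at h1
  have h4 : ∑ t ∈ Finset.range d, Hent σ (s.win (N + t : ℕ) q) ≤
      (q : ℝ) ^ 2 * Real.log (Fintype.card ι) := by
    refine (Finset.sum_le_card_nsmul _ _ _ fun j _ => Hent_win_le σ _ q).trans ?_
    rw [Finset.card_range, nsmul_eq_mul, sq, mul_assoc]
    exact mul_le_mul_of_nonneg_right (by exact_mod_cast hd2) (by positivity)
  have h5 : q * Hent σ (s.win 0 N) ≤ ∑ j ∈ Finset.range q, Hent σ (s.win 0 (N + d + j)) := by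
    have := Finset.card_nsmul_le_sum (Finset.range q) (fun j => Hent σ (s.win 0 (N + d + j)))
      (Hent σ (s.win 0 N)) fun j _ => Hent_win_mono σ (by omega)
    rwa [Finset.card_range, nsmul_eq_mul] at this
  linarith

theorem exists_sigma [Nonempty Ω] (N : ℕ) : ∃ σ : Measure Ω, IsProbabilityMeasure σ ∧
    s.ell N ≤ Hent σ (s.win 0 N) := by
  classical
  have hex : ∀ w : Fin N → ι, ∃ x, w ∈ s.LN N → s.win 0 N x = w := by
    intro w
    by_cases h : w ∈ s.LN N
    · obtain ⟨x, h1⟩ := (Finset.mem_filter.1 h).2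
      exact ⟨x, fun _ => h1⟩
    · exact ⟨Classical.arbitrary _, fun h' => absurd h' h⟩
  choose pt hpt using hex
  have hpos : 0 < (s.LN N).card := Finset.card_pos.2 ⟨_, s.win_mem 0 N (Classical.arbitrary _)⟩
  have hc0 : ((s.LN N).card : ENNReal) ≠ 0 := by exact_mod_cast hpos.ne'
  set σ : Measure Ω := ((s.LN N).card : ENNReal)⁻¹ • ∑ w ∈ s.LN N, Measure.dirac (pt w) with hσ
  have happ : ∀ C, MeasurableSet C →
      σ C = ((s.LN N).card : ENNReal)⁻¹ * ∑ w ∈ s.LN N, C.indicator 1 (pt w) := by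
    intro C hC
    rw [hσ, Measure.smul_apply, Measure.finsetSum_apply, smul_eq_mul]
    congr 1
    exact Finset.sum_congr rfl fun w _ => Measure.dirac_apply' _ hC
  have hprob : IsProbabilityMeasure σ := ⟨by
    rw [happ _ MeasurableSet.univ]
    simp only [Set.indicator_univ, Pi.one_apply, Finset.sum_const, nsmul_eq_mul, mul_one]
    exact ENNReal.inv_mul_cancel hc0 (by simp)⟩
  refine ⟨σ, hprob, ?_⟩
  have h1 : ∀ w ∈ s.LN N, σ.real (s.win 0 N ⁻¹' {w}) = ((s.LN N).card : ℝ)⁻¹ := by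
    intro w hw
    rw [Measure.real, happ _ (s.mf_win 0 N w), Finset.sum_eq_single w]
    · rw [Set.indicator_of_mem (by simpa using hpt w hw)]
      simp
    · intro v hv hne
      exact Set.indicator_of_notMem (by simpa [hpt v hv] using hne) _
    · intro h; exact absurd hw h
  have h2 : ∑ w ∈ s.LN N, Real.negMulLog (σ.real (s.win 0 N ⁻¹' {w})) = s.ell N := by
    rw [Finset.sum_congr rfl fun w hw => by rw [h1 w hw], Finset.sum_const, nsmul_eq_mul,
      Real.negMulLog, Real.log_inv, ell]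
    have : (0 : ℝ) < (s.LN N).card := by exact_mod_cast hpos
    field_simp
  rw [← h2]
  exact Finset.sum_le_sum_of_subset_of_nonneg (Finset.subset_univ _) fun _ _ _ =>
    Real.negMulLog_nonneg measureReal_nonneg measureReal_le_one

variable [TopologicalSpace Ω] [BorelSpace Ω]

theorem exists_nu [Nonempty Ω] (hc : Continuous s.σ) (N : ℕ) (hN : 0 < N) :
    ∃ ν : ProbabilityMeasure Ω,
    (∀ f : BoundedContinuousFunction Ω ℝ,
      |∫ x, f (s.σ x) ∂(ν : Measure Ω) - ∫ x, f x ∂(ν : Measure Ω)| ≤ 2 * ‖f‖ / N) ∧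
    ∀ q : ℕ, 0 < q → s.ell N / N * q ≤
      s.HN ν q + 2 * ((q : ℝ) ^ 2 * Real.log (Fintype.card ι)) / N := by
  obtain ⟨σ, hσ, h2⟩ := exists_sigma (s := s) N
  have hN' : (0 : ℝ) < N := by exact_mod_cast hN
  have hc0 : (N : ENNReal) ≠ 0 := by exact_mod_cast hN.ne'
  set ν : Measure Ω := (N : ENNReal)⁻¹ • ∑ t ∈ Finset.range N, σ.map s.σ^[t] with hν
  have happ : ∀ C, MeasurableSet C →
      ν C = (N : ENNReal)⁻¹ * ∑ t ∈ Finset.range N, σ (s.σ^[t] ⁻¹' C) := by
    intro C hC
    rw [hν, Measure.smul_apply, Measure.finsetSum_apply, smul_eq_mul]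
    congr 1
    exact Finset.sum_congr rfl fun t _ => Measure.map_apply (s.mσ.iterate t) hC
  have hprob : IsProbabilityMeasure ν := ⟨by
    rw [happ _ MeasurableSet.univ]
    simp only [Set.preimage_univ, measure_univ, Finset.sum_const, Finset.card_range,
      nsmul_eq_mul, mul_one]
    exact ENNReal.inv_mul_cancel hc0 (by simp)⟩
  have hreal : ∀ (n : ℕ) (t : Set (Fin n → ι)), ν.real (s.win 0 n ⁻¹' t) =
      (∑ i ∈ Finset.range N, σ.real (s.win i n ⁻¹' t)) / N := by
    intro n t
    rw [Measure.real, happ _ ((s.mf_win 0 n).preimage t), ENNReal.toReal_mul,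
      ENNReal.toReal_sum fun _ _ => measure_ne_top _ _, ENNReal.toReal_inv,
      ENNReal.toReal_natCast, div_eq_inv_mul]
    congr 1
    refine Finset.sum_congr rfl fun i _ => ?_
    rw [Measure.real]
    congr 2
    ext x
    simp [win_iter]
  have hint : ∀ f : BoundedContinuousFunction Ω ℝ,
      ∫ x, f x ∂ν = (∑ t ∈ Finset.range N, ∫ x, f (s.σ^[t] x) ∂σ) / N := by
    intro f
    rw [hν, integral_smul_measure, integral_finsetSum_measure fun t _ => by
      have := Measure.isProbabilityMeasure_map (μ := σ) (s.mσ.iterate t).aemeasurable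
      exact f.integrable _]
    rw [ENNReal.toReal_inv, ENNReal.toReal_natCast, smul_eq_mul, div_eq_inv_mul]
    congr 1
    exact Finset.sum_congr rfl fun t _ => integral_map (s.mσ.iterate t).aemeasurable
      f.continuous.aestronglyMeasurable
  refine ⟨⟨ν, hprob⟩, fun f => ?_, fun q hq => ?_⟩
  · change |∫ x, f (s.σ x) ∂ν - ∫ x, f x ∂ν| ≤ _
    have := hint (f.compContinuous ⟨s.σ, hc⟩)
    simp only [BoundedContinuousFunction.compContinuous_apply, ContinuousMap.coe_mk] at this
    rw [this, hint f, ← sub_div, abs_div, abs_of_pos hN']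
    refine div_le_div_of_nonneg_right ?_ hN'.le
    have e1 := Finset.sum_range_succ (fun t : ℕ => ∫ x, f (s.σ^[t] x) ∂σ) N
    have e2 := Finset.sum_range_succ' (fun t : ℕ => ∫ x, f (s.σ^[t] x) ∂σ) N
    simp only [Function.iterate_succ_apply'] at e2
    have b : ∀ t : ℕ, |∫ x, f (s.σ^[t] x) ∂σ| ≤ ‖f‖ := fun t => by
      have := norm_integral_le_of_norm_le_const (μ := σ) (f := fun x => f (s.σ^[t] x))
        (Eventually.of_forall fun x => f.norm_coe_le_norm _)
      simpa using this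
    have b1 := abs_le.1 (b N)
    have b2 := abs_le.1 (b 0)
    rw [abs_le]
    constructor <;> linarith [b1.1, b1.2, b2.1, b2.2]
  · change _ ≤ s.HN ν q + _
    have b1 := block_ineq (s := s) σ q N hq
    have b2 : ∑ t ∈ Finset.range N, Hent σ (s.win t q) ≤ N * s.HN ν q := by
      unfold HN Hent
      rw [Finset.sum_comm, Finset.mul_sum]
      refine Finset.sum_le_sum fun w _ => ?_
      rw [hreal]
      exact avg_negMulLog_le N hN _ fun _ => measureReal_nonneg
    have b4 : (0 : ℝ) ≤ q := Nat.cast_nonneg q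
    refine le_of_mul_le_mul_right ?_ hN'
    rw [add_mul, div_mul_cancel₀ _ hN'.ne', mul_right_comm, div_mul_cancel₀ _ hN'.ne']
    nlinarith [mul_le_mul_of_nonneg_left h2 b4]

theorem exists_mme [Nonempty Ω] [CompactSpace Ω] [TopologicalSpace.MetrizableSpace Ω]
    (hc : Continuous s.σ) (hl : ∀ n w, IsClopen (s.win 0 n ⁻¹' {w})) :
    ∃ μ : Measure Ω, IsProbabilityMeasure μ ∧ Mx s μ := by
  have hN : ∀ k : ℕ, ∃ N : ℕ, k + 1 ≤ N ∧ (s.H - 1 / (k + 1 : ℝ)) * N ≤ s.ell N := fun k => by
    obtain ⟨N, h1, h2⟩ := ((s.ell_freq (ε := 1 / (k + 1 : ℝ)) (by positivity)).and_eventually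
      (eventually_ge_atTop (k + 1))).exists
    exact ⟨N, h2, h1⟩
  choose N N1 N2 using hN
  choose ν h2 h3 using fun k : ℕ => exists_nu (s := s) hc (N k) (by linarith [N1 k])
  set U : Ultrafilter ℕ := Ultrafilter.of atTop
  have hU : (U : Filter ℕ) ≤ atTop := Ultrafilter.of_le _
  obtain ⟨μ, -, hμ⟩ := isCompact_univ.ultrafilter_le_nhds (U.map ν) (by simp)
  have hμ' : Tendsto ν U (𝓝 μ) := hμ
  have t0 : Tendsto (fun k : ℕ => 1 / (k + 1 : ℝ)) U (𝓝 0) :=
    tendsto_one_div_add_atTop_nhds_zero_nat.mono_left hU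
  have le1 : ∀ k, 1 / (N k : ℝ) ≤ 1 / (k + 1 : ℝ) := fun k =>
    one_div_le_one_div_of_le (by positivity) (by exact_mod_cast N1 k)
  refine ⟨μ, inferInstance, ⟨s.mσ, ?_⟩, fun q => ?_⟩
  · have := Measure.isProbabilityMeasure_map (μ := (μ : Measure Ω)) s.mσ.aemeasurable
    refine ext_of_forall_integral_eq_of_IsFiniteMeasure fun f => ?_
    rw [integral_map s.mσ.aemeasurable f.continuous.aestronglyMeasurable, ← sub_eq_zero,
      ← abs_nonpos_iff]
    have a1 := ProbabilityMeasure.tendsto_iff_forall_integral_tendsto.1 hμ'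
      (f.compContinuous ⟨s.σ, hc⟩)
    have a2 := ProbabilityMeasure.tendsto_iff_forall_integral_tendsto.1 hμ' f
    have a3 := t0.const_mul (2 * ‖f‖)
    rw [mul_zero] at a3
    refine le_of_tendsto_of_tendsto' (a1.sub a2).abs a3 fun k => (h2 k f).trans ?_
    rw [div_eq_mul_one_div]
    exact mul_le_mul_of_nonneg_left (le1 k) (by positivity)
  · rcases Nat.eq_zero_or_pos q with rfl | hq
    · rw [Nat.cast_zero, mul_zero]
      exact Hent_nonneg (μ : Measure Ω) (s.win 0 0)
    have t1 : Tendsto (fun k => s.HN (ν k) q) U (𝓝 (s.HN μ q)) :=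
      tendsto_finsetSum _ fun w _ => (Real.continuous_negMulLog.tendsto _).comp
        (NNReal.tendsto_coe.2
          (ProbabilityMeasure.tendsto_measure_of_isClopen_of_tendsto hμ' (hl q w)))
    have l0 : 0 ≤ Real.log (Fintype.card ι) := Real.log_natCast_nonneg _
    have t2 := t1.add (t0.const_mul (2 * ((q : ℝ) ^ 2 * Real.log (Fintype.card ι)) + q))
    rw [mul_zero, add_zero] at t2
    refine ge_of_tendsto' t2 fun k => ?_
    have a1 := h3 k q hq
    have n0 : (0 : ℝ) < N k := by exact_mod_cast (by linarith [N1 k] : 0 < N k)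
    have a2 : s.H - 1 / (k + 1 : ℝ) ≤ s.ell (N k) / N k := (le_div_iff₀ n0).2 (N2 k)
    have a3 := mul_le_mul_of_nonneg_right a2 (Nat.cast_nonneg q : (0 : ℝ) ≤ q)
    have a4 := mul_le_mul_of_nonneg_left (le1 k)
      (show 0 ≤ 2 * ((q : ℝ) ^ 2 * Real.log (Fintype.card ι)) by positivity)
    rw [mul_one_div] at a4
    linarith

end Sh

end Pool.Agent.Lib.MP_fd11a7_an
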