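import Mathlib
import Pool.Agent.Lib.MP_fd11a7_an.Basic

set_option autoImplicit false

open Set Real

namespace Pool.Agent.Lib.MP_fd11a7_an

/-- An abstract system of tiny boundary arcs. -/
structure Sys (ι : Type) where
  γ : ι → ℝ → ℂ
  θ : ι → ℝ → ℝ
  lo : ι → ℝ
  hi : ι → ℝ
  I : ι → Set ℝ
  Y : Set ℂ
  ν : ι → ι → ℝ
  sg : ι → ℝ
  κ : ℝ
  η : ℝ
  τ0 : ℝ
  c0 : ℝ
  l : ℝ
  cγ : ∀ A, Continuous (γ A)
  cθ : ∀ A, Continuous (θ A)
  κ_pos : 0 < κ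
  η_pos : 0 < η
  τ0_pos : 0 < τ0
  c0_pos : 0 < c0
  sg_le : ∀ A, |sg A| ≤ 1
  mono : ∀ A, ∀ r ∈ Icc (lo A) (hi A), ∀ s ∈ Icc (lo A) (hi A), r ≤ s → κ * (s - r) ≤ θ A s - θ A r
  chord : ∀ A, ∀ r ∈ Icc (lo A) (hi A), ∀ s ∈ Icc (lo A) (hi A), r < s →
    ∃ t α : ℝ, 0 < t ∧ t ≤ s - r ∧ θ A r < α ∧ α < θ A s ∧ γ A s = γ A r + t * E α
  turn : ∀ A, ∀ r ∈ Icc (lo A) (hi A), ∀ s ∈ Icc (lo A) (hi A), θ A s - θ A r ≤ 1
  len : ∀ A, hi A - lo A ≤ l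
  Ioo_sub : ∀ A, Ioo (lo A) (hi A) ⊆ I A
  I_sub : ∀ A, I A ⊆ Icc (lo A) (hi A)
  isOpen : IsOpen Y
  front : frontier Y = ⋃ A, γ A '' Icc (lo A) (hi A)
  disj1 : ∀ A B, A ≠ B → ∀ r ∈ I A, ∀ s ∈ I B, γ A r ≠ γ B s
  disj2 : ∀ A B, A ≠ B → ∀ r ∈ Ioo (lo A) (hi A), ∀ s ∈ Icc (lo B) (hi B), γ A r ≠ γ B s
  anti : ∀ A B, A ≠ B → E (ν B A) = -E (ν A B)
  sep : ∀ A B, A ≠ B → ∀ r ∈ Icc (lo A) (hi A), ∀ s ∈ Icc (lo B) (hi B),
    0 ≤ Cc (ν A B) (γ B s - γ A r)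
  win : ∀ A B, A ≠ B → ∀ r ∈ Icc (lo A) (hi A), ∀ s ∈ Icc (lo B) (hi B), ∀ ψ ∈ Icc (-π) 0,
    ∀ u : ℝ, 0 < u → γ B s = γ A r + u * E (θ A r + ψ) → |θ A r + ψ - ν A B| ≤ π / 2 - η
  g0 : ∀ A B, A ≠ B → ∀ r ∈ Icc (lo A) (hi A), ∀ s ∈ Icc (lo B) (hi B), ∀ ψ ∈ Icc (-π) 0,
    ∀ ψ' ∈ Icc (-π) 0, ∀ u : ℝ, 0 < u → γ B s = γ A r + u * E (θ A r + ψ) →
    E (θ B s - ψ') = E (θ A r + ψ) → τ0 ≤ u ∨ sg A * cos ψ + c0 ≤ sg B * cos ψ'
  encl : ∀ A B, ∀ Ω : Set ℂ,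
    (∀ Z : Set ℂ, IsPreconnected Z → Z ⊆ frontier Y → Disjoint Z (γ A '' I A ∪ γ B '' I B) →
      (Z ∩ Ω).Nonempty → Z ⊆ Ω) →
    (∃ p w, ∀ z ∈ Ω, |S w (z - p)| ≤ l) →
    (∀ z ∈ Ω, ∃ r ∈ Icc (lo A) (hi A), ∃ ψ ∈ Icc (-π) 0, ∃ u : ℝ, 0 < u ∧
      z = γ A r + u * E (θ A r + ψ)) →
    (∀ z ∈ Ω, ∃ r ∈ Icc (lo B) (hi B), ∃ ψ ∈ Icc (-π) 0, ∃ u : ℝ, 0 < u ∧
      z = γ B r + u * E (θ B r + ψ)) →
    Disjoint Ω (frontier Y)

/-- Time reversal of a state. -/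
noncomputable def R (x : ℝ × ℝ) : ℝ × ℝ := (x.1, -π - x.2)

@[simp] theorem R_R (x : ℝ × ℝ) : R (R x) = x := by simp [R]
@[simp] theorem R_fst (x : ℝ × ℝ) : (R x).1 = x.1 := rfl
@[simp] theorem R_snd (x : ℝ × ℝ) : (R x).2 = -π - x.2 := rfl
@[fun_prop] theorem continuous_R : Continuous R := by unfold R; fun_prop
theorem R_inj {x y : ℝ × ℝ} (h : R x = R y) : x = y := by rw [← R_R x, h, R_R]

namespace Sys

variable {ι : Type} (D : Sys ι)

/-- Outgoing direction. -/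
def om (A : ι) (x : ℝ × ℝ) : ℝ := D.θ A x.1 + x.2

/-- Generalised state. -/
def St (A : ι) (x : ℝ × ℝ) : Prop := x.1 ∈ Icc (D.lo A) (D.hi A) ∧ x.2 ∈ Icc (-π) 0

/-- Regular state. -/
def Rg (A : ι) (x : ℝ × ℝ) : Prop := x.1 ∈ D.I A ∧ x.2 ∈ Ioo (-π) 0

/-- Generalised link. -/
def Gk (A B : ι) (x y : ℝ × ℝ) : Prop :=
  A ≠ B ∧ D.St A x ∧ D.St B y ∧ |D.om A x - D.ν A B| ≤ π / 2 - D.η ∧
    D.om B (R y) - D.ν B A = D.om A x - D.ν A B ∧
    D.γ B y.1 = D.γ A x.1 + (‖D.γ B y.1 - D.γ A x.1‖ : ℝ) * E (D.om A x) ∧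
    (D.τ0 ≤ ‖D.γ B y.1 - D.γ A x.1‖ ∨ D.sg A * cos x.2 + D.c0 ≤ D.sg B * cos y.2)

/-- Real link. -/
def RL (A B : ι) (x y : ℝ × ℝ) : Prop :=
  D.Gk A B x y ∧ D.Rg A x ∧ D.Rg B y ∧ openSegment ℝ (D.γ A x.1) (D.γ B y.1) ⊆ D.Y

/-- The dispersing order. -/
def Dle (A : ι) (x y : ℝ × ℝ) : Prop := x.1 ≤ y.1 ∧ D.om A x ≤ D.om A y

/-- Comparable in the dispersing order. -/
def Dc (A : ι) (x y : ℝ × ℝ) : Prop := D.Dle A x y ∨ D.Dle A y x

variable {D}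

theorem Rg.st {A : ι} {x : ℝ × ℝ} (h : D.Rg A x) : D.St A x :=
  ⟨D.I_sub A h.1, Ioo_subset_Icc_self h.2⟩

theorem St.rev {A : ι} {x : ℝ × ℝ} (h : D.St A x) : D.St A (R x) :=
  ⟨h.1, by simp only [R_snd]; constructor <;> linarith [h.2.1, h.2.2]⟩

theorem Rg.rev {A : ι} {x : ℝ × ℝ} (h : D.Rg A x) : D.Rg A (R x) :=
  ⟨h.1, by simp only [R_snd]; constructor <;> linarith [h.2.1, h.2.2]⟩

theorem om_R (A : ι) (x : ℝ × ℝ) : D.om A (R x) = 2 * D.θ A x.1 - π - D.om A x := by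
  simp only [om, R_fst, R_snd]; ring

@[fun_prop]
theorem continuous_om (A : ι) : Continuous (D.om A) := by
  unfold om
  exact ((D.cθ A).comp continuous_fst).add continuous_snd

theorem I_conn {A : ι} {a b c : ℝ} (ha : a ∈ D.I A) (hb : b ∈ D.I A) (h1 : a ≤ c) (h2 : c ≤ b) :
    c ∈ D.I A := by
  rcases h1.eq_or_lt with rfl | h1
  · exact ha
  rcases h2.eq_or_lt with rfl | h2
  · exact hb
  exact D.Ioo_sub A ⟨lt_of_le_of_lt (D.I_sub A ha).1 h1, lt_of_lt_of_le h2 (D.I_sub A hb).2⟩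

theorem θ_mono {A : ι} {r s : ℝ} (hr : r ∈ Icc (D.lo A) (D.hi A)) (hs : s ∈ Icc (D.lo A) (D.hi A))
    (h : r ≤ s) : D.θ A r ≤ D.θ A s := by
  have := D.mono A r hr s hs h
  have := mul_nonneg D.κ_pos.le (sub_nonneg.2 h)
  linarith

theorem θ_smono {A : ι} {r s : ℝ} (hr : r ∈ Icc (D.lo A) (D.hi A))
    (hs : s ∈ Icc (D.lo A) (D.hi A)) (h : r < s) : D.θ A r < D.θ A s := by
  have := D.mono A r hr s hs h.le
  have := mul_pos D.κ_pos (sub_pos.2 h)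
  linarith

theorem θ_inj {A : ι} {r s : ℝ} (hr : r ∈ Icc (D.lo A) (D.hi A))
    (hs : s ∈ Icc (D.lo A) (D.hi A)) (h : D.θ A r = D.θ A s) : r = s := by
  rcases lt_trichotomy r s with h1 | h1 | h1
  · exact absurd h (θ_smono hr hs h1).ne
  · exact h1
  · exact absurd h (θ_smono hs hr h1).ne'

theorem chord' {A : ι} {r s : ℝ} (hr : r ∈ Icc (D.lo A) (D.hi A))
    (hs : s ∈ Icc (D.lo A) (D.hi A)) (h : r ≤ s) :
    ∃ t α : ℝ, 0 ≤ t ∧ t ≤ s - r ∧ D.θ A r ≤ α ∧ α ≤ D.θ A s ∧ D.γ A s = D.γ A r + t * E α := by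
  rcases h.eq_or_lt with rfl | h
  · exact ⟨0, D.θ A r, le_rfl, by simp, le_rfl, le_rfl, by simp⟩
  · obtain ⟨t, α, h1, h2, h3, h4, h5⟩ := D.chord A r hr s hs h
    exact ⟨t, α, h1.le, h2, h3.le, h4.le, h5⟩

theorem γ_inj {A : ι} {r s : ℝ} (hr : r ∈ Icc (D.lo A) (D.hi A))
    (hs : s ∈ Icc (D.lo A) (D.hi A)) (h : D.γ A r = D.γ A s) : r = s := by
  have key : ∀ r s, r ∈ Icc (D.lo A) (D.hi A) → s ∈ Icc (D.lo A) (D.hi A) → r < s →
      D.γ A r ≠ D.γ A s := by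
    intro r s hr hs h1 h
    obtain ⟨t, α, h1, -, -, -, h5⟩ := D.chord A r hr s hs h1
    rw [h, left_eq_add] at h5
    exact mul_ne_zero (by exact_mod_cast h1.ne') (E_ne_zero α) h5
  rcases lt_trichotomy r s with h1 | h1 | h1
  · exact absurd h (key r s hr hs h1)
  · exact h1
  · exact absurd h.symm (key s r hs hr h1)

theorem norm_γ_sub {A : ι} {r s : ℝ} (hr : r ∈ Icc (D.lo A) (D.hi A))
    (hs : s ∈ Icc (D.lo A) (D.hi A)) : ‖D.γ A s - D.γ A r‖ ≤ |s - r| := by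
  have key : ∀ r s, r ∈ Icc (D.lo A) (D.hi A) → s ∈ Icc (D.lo A) (D.hi A) → r ≤ s →
      ‖D.γ A s - D.γ A r‖ ≤ s - r := by
    intro r s hr hs h
    obtain ⟨t, α, h1, h2, -, -, h5⟩ := chord' hr hs h
    rw [h5, add_sub_cancel_left, norm_mul_E h1]; exact h2
  rcases le_total r s with h | h
  · exact (key r s hr hs h).trans (le_abs_self _)
  · rw [norm_sub_rev, abs_sub_comm]; exact (key s r hs hr h).trans (le_abs_self _)

theorem γ_mem_front {A : ι} {r : ℝ} (hr : r ∈ Icc (D.lo A) (D.hi A)) : D.γ A r ∈ frontier D.Y := by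
  rw [D.front]; exact mem_iUnion.2 ⟨A, r, hr, rfl⟩

theorem γ_not_mem {A : ι} {r : ℝ} (hr : r ∈ Icc (D.lo A) (D.hi A)) : D.γ A r ∉ D.Y := fun h => by
  have := γ_mem_front hr
  rw [D.isOpen.frontier_eq] at this
  exact this.2 h

/-- A line through a point of an arc in a generalised outgoing direction does not meet the arc
ahead. -/
theorem not_seen {A : ι} {x : ℝ × ℝ} (hx : D.St A x) {s u : ℝ} (hs : s ∈ Icc (D.lo A) (D.hi A))
    (hu : 0 < u) : D.γ A s ≠ D.γ A x.1 + u * E (D.om A x) := by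
  intro h
  have b1 := hx.2.1
  have b2 := hx.2.2
  have p3 := pi_gt_three
  rcases lt_trichotomy x.1 s with h1 | h1 | h1
  · obtain ⟨t, α, t0, -, h3, h4, h5⟩ := D.chord A _ hx.1 s hs h1
    have tn := D.turn A _ hx.1 s hs
    rw [h5, add_right_inj] at h
    have e : t = u := by
      have := congrArg norm h
      rwa [norm_mul_E t0.le, norm_mul_E hu.le] at this
    subst e
    have := E_inj (mul_left_cancel₀ (by exact_mod_cast t0.ne') h) (by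
      unfold om; rw [abs_lt]; constructor <;> linarith)
    unfold om at this
    linarith
  · rw [← h1, left_eq_add] at h
    exact mul_ne_zero (by exact_mod_cast hu.ne') (E_ne_zero _) h
  · obtain ⟨t, α, t0, -, h3, h4, h5⟩ := D.chord A _ hs _ hx.1 h1
    have tn := D.turn A _ hs _ hx.1
    have h6 : (t : ℂ) * E (α - π) = u * E (D.om A x) := by
      rw [E_sub_pi]; rw [h5] at h; linear_combination h
    have e : t = u := by
      have := congrArg norm h6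
      rwa [norm_mul_E t0.le, norm_mul_E hu.le] at this
    subst e
    have := E_inj (mul_left_cancel₀ (by exact_mod_cast t0.ne') h6) (by
      unfold om; rw [abs_lt]; constructor <;> linarith)
    unfold om at this
    linarith

theorem Gk.tau {A B : ι} {x y : ℝ × ℝ} (h : D.Gk A B x y) :
    ∃ τ : ℝ, 0 ≤ τ ∧ τ = ‖D.γ B y.1 - D.γ A x.1‖ ∧ D.γ B y.1 = D.γ A x.1 + τ * E (D.om A x) :=
  ⟨_, norm_nonneg _, rfl, h.2.2.2.2.2.1⟩

theorem Gk.ne {A B : ι} {x y : ℝ × ℝ} (h : D.Gk A B x y) : A ≠ B := h.1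
theorem Gk.st1 {A B : ι} {x y : ℝ × ℝ} (h : D.Gk A B x y) : D.St A x := h.2.1
theorem Gk.st2 {A B : ι} {x y : ℝ × ℝ} (h : D.Gk A B x y) : D.St B y := h.2.2.1
theorem Gk.wi {A B : ι} {x y : ℝ × ℝ} (h : D.Gk A B x y) :
    |D.om A x - D.ν A B| ≤ π / 2 - D.η := h.2.2.2.1
theorem Gk.wi' {A B : ι} {x y : ℝ × ℝ} (h : D.Gk A B x y) :
    |D.om A x - D.ν A B| < π / 2 := by linarith [h.wi, D.η_pos]
theorem Gk.ang {A B : ι} {x y : ℝ × ℝ} (h : D.Gk A B x y) :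
    D.om B (R y) - D.ν B A = D.om A x - D.ν A B := h.2.2.2.2.1

theorem E_of_ang {A B : ι} (hAB : A ≠ B) {a b : ℝ} (h : b - D.ν B A = a - D.ν A B) :
    E b = -E a := by
  have e : b + D.ν A B = a + D.ν B A := by linarith
  have := congrArg E e
  rw [E_add, E_add, D.anti A B hAB] at this
  exact mul_right_cancel₀ (E_ne_zero (D.ν A B)) (by rw [this]; ring)

theorem Gk.E_rev {A B : ι} {x y : ℝ × ℝ} (h : D.Gk A B x y) :
    E (D.om B (R y)) = -E (D.om A x) := E_of_ang h.ne h.ang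

theorem Gk.E_in {A B : ι} {x y : ℝ × ℝ} (h : D.Gk A B x y) :
    E (D.θ B y.1 - y.2) = E (D.om A x) := by
  have := h.E_rev
  have e : D.om B (R y) = D.θ B y.1 - y.2 - π := by simp only [om, R_fst, R_snd]; ring
  rw [e, E_sub_pi] at this
  exact neg_injective this

theorem Gk.rev {A B : ι} {x y : ℝ × ℝ} (h : D.Gk A B x y) : D.Gk B A (R y) (R x) := by
  refine ⟨h.ne.symm, h.st2.rev, h.st1.rev, by rw [h.ang]; exact h.wi, by rw [R_R, h.ang], ?_, ?_⟩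
  · simp only [R_fst]
    rw [h.E_rev, norm_sub_rev]
    linear_combination -h.2.2.2.2.2.1
  · simp only [R_fst, R_snd]
    rw [norm_sub_rev]
    refine h.2.2.2.2.2.2.imp_right fun h1 => ?_
    rw [show -π - y.2 = -(y.2 + π) by ring, show -π - x.2 = -(x.2 + π) by ring, cos_neg, cos_neg,
      cos_add_pi, cos_add_pi]
    linarith

theorem RL.rev {A B : ι} {x y : ℝ × ℝ} (h : D.RL A B x y) : D.RL B A (R y) (R x) :=
  ⟨h.1.rev, h.2.2.1.rev, h.2.1.rev, by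
    simp only [R_fst]; rw [openSegment_symm]; exact h.2.2.2⟩

theorem mkGk {A B : ι} (hAB : A ≠ B) {x y : ℝ × ℝ} (hx : D.St A x) (hy : D.St B y) {u : ℝ}
    (hu : 0 < u) (h : D.γ B y.1 = D.γ A x.1 + u * E (D.om A x))
    (hE : E (D.θ B y.1 - y.2) = E (D.om A x)) : D.Gk A B x y := by
  have hn : ‖D.γ B y.1 - D.γ A x.1‖ = u := by rw [h, add_sub_cancel_left, norm_mul_E hu.le]
  have w1 := D.win A B hAB _ hx.1 _ hy.1 _ hx.2 u hu h
  have e : D.om B (R y) = D.θ B y.1 - y.2 - π := by simp only [om, R_fst, R_snd]; ring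
  have hE' : E (D.om B (R y)) = -E (D.om A x) := by rw [e, E_sub_pi, hE]
  have w2 := D.win B A hAB.symm _ hy.1 _ hx.1 _ hy.rev.2 u hu (by
    change _ = _ + _ * E (D.om B (R y))
    rw [hE', h]; ring)
  change |D.om B (R y) - D.ν B A| ≤ _ at w2
  change |D.om A x - D.ν A B| ≤ _ at w1
  refine ⟨hAB, hx, hy, w1, ?_, by rw [hn]; exact h, ?_⟩
  · apply E_inj
    · apply mul_right_cancel₀ (E_ne_zero (D.ν B A))
      rw [← E_add, sub_add_cancel, hE', D.anti A B hAB, mul_neg, ← E_add, sub_add_cancel]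
    · rw [abs_le] at w1 w2
      rw [abs_lt]
      constructor <;> linarith [D.η_pos, pi_pos]
  · rw [hn]
    exact D.g0 A B hAB _ hx.1 _ hy.1 _ hx.2 _ hy.2 u hu h hE

theorem side {A B : ι} (hAB : A ≠ B) {x x' : ℝ × ℝ} (hx : D.St A x) (hx' : D.St A x') {s τ : ℝ}
    (hs : s ∈ Icc (D.lo B) (D.hi B)) (hτ : 0 ≤ τ) (h : D.γ B s = D.γ A x.1 + τ * E (D.om A x))
    (w : |D.om A x - D.ν A B| < π / 2) (w' : |D.om A x' - D.ν A B| < π / 2)
    (hle : D.Dle A x x') : S (D.om A x') (D.γ B s - D.γ A x'.1) ≤ 0 := by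
  obtain ⟨t, α, t0, -, h3, h4, h5⟩ := chord' hx.1 hx'.1 hle.1
  have e : D.γ B s - D.γ A x'.1 = τ * E (D.om A x) - t * E α := by rw [h, h5]; ring
  have sp := D.sep A B hAB _ hx'.1 s hs
  rw [e, Cc_sub, Cc_mul_E, Cc_mul_E] at sp
  have := side0 (τ := τ) (l := t) (x := α - D.om A x) (d := D.om A x' - D.om A x)
    (a := D.om A x - D.ν A B) hτ t0 (by unfold om; linarith [hx.2.2])
    (by unfold om; linarith [hx'.2.1]) (sub_nonneg.2 hle.2) w
    (by rw [show D.om A x - D.ν A B + (D.om A x' - D.om A x) = D.om A x' - D.ν A B by ring]; exact w')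
    (by rw [show D.om A x - D.ν A B + (α - D.om A x) = α - D.ν A B by ring]; exact sp)
  rw [e, S_sub, S_mul_E, S_mul_E, ← neg_sub (D.om A x') (D.om A x), sin_neg]
  rw [show α - D.om A x - (D.om A x' - D.om A x) = α - D.om A x' by ring] at this
  linarith

theorem side' {A B : ι} (hAB : A ≠ B) {x x' : ℝ × ℝ} (hx : D.St A x) (hx' : D.St A x') {s τ : ℝ}
    (hs : s ∈ Icc (D.lo B) (D.hi B)) (hτ : 0 ≤ τ) (h : D.γ B s = D.γ A x.1 + τ * E (D.om A x))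
    (w : |D.om A x - D.ν A B| < π / 2) (w' : |D.om A x' - D.ν A B| < π / 2)
    (hle : D.Dle A x' x) : 0 ≤ S (D.om A x') (D.γ B s - D.γ A x'.1) := by
  obtain ⟨t, α, t0, -, h3, h4, h5⟩ := chord' hx'.1 hx.1 hle.1
  have e : D.γ B s - D.γ A x'.1 = τ * E (D.om A x) + t * E α := by rw [h, h5]; ring
  have sp := D.sep A B hAB _ hx'.1 s hs
  rw [e, Cc_add, Cc_mul_E, Cc_mul_E] at sp
  have := side0 (τ := τ) (l := t) (x := π + D.om A x - α) (d := D.om A x - D.om A x')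
    (a := D.ν A B - D.om A x) hτ t0 (by unfold om; linarith [hx.2.1])
    (by unfold om; linarith [hx'.2.2]) (sub_nonneg.2 hle.2) (by rwa [abs_sub_comm])
    (by
      rw [show D.ν A B - D.om A x + (D.om A x - D.om A x') = D.ν A B - D.om A x' by ring,
        abs_sub_comm]
      exact w')
    (by
      rw [show D.ν A B - D.om A x + (π + D.om A x - α) = -(α - D.ν A B) + π by ring, cos_add_pi,
        cos_neg, ← neg_sub (D.om A x), cos_neg]
      linarith)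
  rw [e, S_add, S_mul_E, S_mul_E]
  rw [show π + D.om A x - α - (D.om A x - D.om A x') = π - (α - D.om A x') by ring,
    sin_pi_sub] at this
  exact this

theorem ci_core {B : ι} {s s' w w' : ℝ} (hs : s ∈ Icc (D.lo B) (D.hi B))
    (hs' : s' ∈ Icc (D.lo B) (D.hi B)) (g : w - D.θ B s ≤ π) (g' : 0 ≤ w' - D.θ B s')
    (h1 : w ≤ w') (h2 : w' < w + π)
    (s1 : S w' (D.γ B s - D.γ B s') ≤ 0) (s2 : 0 ≤ S w (D.γ B s' - D.γ B s)) : s' ≤ s := by
  by_contra hn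
  push Not at hn
  obtain ⟨t, β, t0, -, h3, h4, h5⟩ := D.chord B s hs s' hs' hn
  rw [h5, add_sub_cancel_left, S_mul_E] at s2
  rw [h5, show D.γ B s - (D.γ B s + t * E β) = -(t * E β) by ring, S_neg, S_mul_E] at s1
  have a1 : π ≤ w' - β := by
    by_contra h
    push Not at h
    have := sin_neg' (x := β - w') (by linarith) (by linarith)
    nlinarith
  have a2 : w - β ≤ 0 := by
    by_contra h
    push Not at h
    have := sin_neg' (x := β - w) (by linarith) (by linarith)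
    nlinarith
  linarith

theorem Gk.om_diff {A B : ι} {x y x' y' : ℝ × ℝ} (h : D.Gk A B x y) (h' : D.Gk A B x' y') :
    D.om B y' - D.om B y = 2 * (D.θ B y'.1 - D.θ B y.1) - (D.om A x' - D.om A x) := by
  have a := h.ang
  have a' := h'.ang
  rw [om_R] at a a'
  linarith

theorem Gk.omR_diff {A B : ι} {x y x' y' : ℝ × ℝ} (h : D.Gk A B x y) (h' : D.Gk A B x' y') :
    D.om B (R y') - D.om B (R y) = D.om A x' - D.om A x := by
  linarith [h.ang, h'.ang]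

/-- Cone invariance. -/
theorem Gk.ci {A B : ι} {x y x' y' : ℝ × ℝ} (h : D.Gk A B x y) (h' : D.Gk A B x' y')
    (hle : D.Dle A x x') : y'.1 ≤ y.1 := by
  obtain ⟨τ, t0, -, e⟩ := h.tau
  obtain ⟨τ', t0', -, e'⟩ := h'.tau
  have s1 := side h.ne h.st1 h'.st1 h.st2.1 t0 e h.wi' h'.wi' hle
  have s2 := side' h.ne h'.st1 h.st1 h'.st2.1 t0' e' h'.wi' h.wi' hle
  have d := h.omR_diff h'
  simp only [om, R_fst, R_snd] at d
  have w := h.wi'
  have w' := h'.wi'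
  rw [abs_lt] at w w'
  refine ci_core (w := D.θ B y.1 - y.2) (w' := D.θ B y'.1 - y'.2) h.st2.1 h'.st2.1
    (by linarith [h.st2.2.1]) (by linarith [h'.st2.2.2]) ?_ ?_ ?_ ?_
  · have := hle.2
    unfold om at this; linarith
  · unfold om at w w'; linarith
  · rw [S_congr h'.E_in]
    have : D.γ B y.1 - D.γ B y'.1 = (D.γ B y.1 - D.γ A x'.1) - τ' * E (D.om A x') := by
      rw [e']; ring
    rw [this, S_sub, S_mul_E]; simpa using s1
  · rw [S_congr h.E_in]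
    have : D.γ B y'.1 - D.γ B y.1 = (D.γ B y'.1 - D.γ A x.1) - τ * E (D.om A x) := by
      rw [e]; ring
    rw [this, S_sub, S_mul_E]; simpa using s2

theorem Gk.dle {A B : ι} {x y x' y' : ℝ × ℝ} (h : D.Gk A B x y) (h' : D.Gk A B x' y')
    (hle : D.Dle A x x') : D.Dle B y' y := by
  have h1 := h.ci h' hle
  refine ⟨h1, ?_⟩
  have := h.om_diff h'
  have := θ_mono h'.st2.1 h.st2.1 h1
  linarith [hle.2]

theorem Gk.dc {A B : ι} {x y x' y' : ℝ × ℝ} (h : D.Gk A B x y) (h' : D.Gk A B x' y')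
    (hc : D.Dc A x x') : D.Dc B y y' :=
  hc.elim (fun a => Or.inr (h.dle h' a)) fun a => Or.inl (h'.dle h a)

theorem st_ext {A : ι} {x y : ℝ × ℝ} (h1 : x.1 = y.1) (h2 : D.om A x = D.om A y) : x = y := by
  refine Prod.ext h1 ?_
  unfold om at h2
  rw [h1] at h2
  linarith

theorem Gk.uniq {A B : ι} {x y y' : ℝ × ℝ} (h : D.Gk A B x y) (h' : D.Gk A B x y') : y = y' := by
  have a := h.dle h' ⟨le_rfl, le_rfl⟩
  have b := h'.dle h ⟨le_rfl, le_rfl⟩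
  exact st_ext (le_antisymm b.1 a.1) (le_antisymm b.2 a.2)

theorem Gk.uniq' {A B : ι} {x x' y : ℝ × ℝ} (h : D.Gk A B x y) (h' : D.Gk A B x' y) : x = x' :=
  R_inj (h.rev.uniq h'.rev)

theorem Dc.symm {A : ι} {x y : ℝ × ℝ} (h : D.Dc A x y) : D.Dc A y x := Or.symm h

theorem dc_of_eq {A : ι} {x y : ℝ × ℝ} (h : x.1 = y.1) : D.Dc A x y := by
  rcases le_total (D.om A x) (D.om A y) with h1 | h1
  · exact Or.inl ⟨h.le, h1⟩
  · exact Or.inr ⟨h.ge, h1⟩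

/-- Dichotomy at a collision. -/
theorem dc_or_rev {A : ι} {x y : ℝ × ℝ} (hx : D.St A x) (hy : D.St A y) :
    D.Dc A x y ∨ D.Dc A (R x) (R y) := by
  have key : ∀ x y, D.St A x → D.St A y → x.1 ≤ y.1 → D.Dc A x y ∨ D.Dc A (R x) (R y) := by
    intro x y hx hy h
    rcases le_total (D.om A x) (D.om A y) with h1 | h1
    · exact Or.inl (Or.inl ⟨h, h1⟩)
    · refine Or.inr (Or.inl ⟨h, ?_⟩)
      rw [om_R, om_R]
      linarith [θ_mono hx.1 hy.1 h]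
  rcases le_total x.1 y.1 with h | h
  · exact key x y hx hy h
  · exact (key y x hy hx h).imp Dc.symm Dc.symm

theorem RL.ne_pt {A B : ι} {x y : ℝ × ℝ} (h : D.RL A B x y) : D.γ A x.1 ≠ D.γ B y.1 :=
  D.disj1 A B h.1.ne _ h.2.1.1 _ h.2.2.1.1

theorem RL.tau {A B : ι} {x y : ℝ × ℝ} (h : D.RL A B x y) :
    ∃ τ : ℝ, 0 < τ ∧ D.γ B y.1 = D.γ A x.1 + τ * E (D.om A x) := by
  obtain ⟨τ, t0, t1, e⟩ := h.1.tau
  refine ⟨τ, lt_of_le_of_ne t0 ?_, e⟩
  rintro rfl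
  exact h.ne_pt (by rw [e]; simp)

theorem mem_openSegment_ray {p v : ℂ} {u τ : ℝ} (h0 : 0 < u) (h1 : u < τ) :
    p + u * v ∈ openSegment ℝ p (p + τ * v) := by
  have hτ : 0 < τ := h0.trans h1
  refine ⟨1 - u / τ, u / τ, by rw [sub_pos, div_lt_one hτ]; exact h1, by positivity, by ring, ?_⟩
  have : (τ : ℂ) ≠ 0 := by exact_mod_cast hτ.ne'
  simp only [Complex.real_smul]
  push_cast
  field_simp
  ring

theorem of_mem_openSegment_ray {p v z : ℂ} {τ : ℝ} (hτ : 0 < τ)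
    (h : z ∈ openSegment ℝ p (p + τ * v)) : ∃ u : ℝ, 0 < u ∧ u < τ ∧ z = p + u * v := by
  obtain ⟨a, b, ha, hb, hab, rfl⟩ := h
  refine ⟨b * τ, by positivity, by nlinarith, ?_⟩
  have : a = 1 - b := by linarith
  subst this
  simp only [Complex.real_smul]
  push_cast
  ring

/-- Determinism of real links. -/
theorem RL.det {A B B' : ι} {x y y' : ℝ × ℝ} (h : D.RL A B x y) (h' : D.RL A B' x y') :
    B = B' := by
  obtain ⟨τ, t0, e⟩ := h.tau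
  obtain ⟨τ', t0', e'⟩ := h'.tau
  rcases lt_trichotomy τ τ' with h1 | h1 | h1
  · exact absurd (h'.2.2.2 (by rw [e', e]; exact mem_openSegment_ray t0 h1))
      (γ_not_mem h.1.st2.1)
  · by_contra hn
    exact D.disj1 B B' hn _ h.2.2.1.1 _ h'.2.2.1.1 (by rw [e, e', h1])
  · exact absurd (h.2.2.2 (by rw [e', e]; exact mem_openSegment_ray t0' h1))
      (γ_not_mem h'.1.st2.1)

theorem isClosed_St (A : ι) : IsClosed {x | D.St A x} :=
  (isClosed_Icc.preimage continuous_fst).inter (isClosed_Icc.preimage continuous_snd)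

theorem isCompact_St (A : ι) : IsCompact {x | D.St A x} :=
  (isCompact_Icc (a := D.lo A) (b := D.hi A)).prod (isCompact_Icc (a := -π) (b := 0))

theorem isClosed_Gk (A B : ι) : IsClosed {c : (ℝ × ℝ) × (ℝ × ℝ) | D.Gk A B c.1 c.2} := by
  have c1 := D.cγ A
  have c2 := D.cγ B
  by_cases hAB : A = B
  · have : {c : (ℝ × ℝ) × (ℝ × ℝ) | D.Gk A B c.1 c.2} = ∅ := by ext c; simp [Gk, hAB]
    rw [this]; exact isClosed_empty
  simp only [Gk, ne_eq, hAB, not_false_eq_true, true_and, setOf_and, setOf_or]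
  refine ((isClosed_St A).preimage continuous_fst).inter
    (((isClosed_St B).preimage continuous_snd).inter (IsClosed.inter ?_ (IsClosed.inter ?_
      (IsClosed.inter ?_ (IsClosed.union ?_ ?_)))))
  · exact isClosed_le (by fun_prop) continuous_const
  · exact isClosed_eq (by fun_prop) (by fun_prop)
  · exact isClosed_eq (by fun_prop) (by fun_prop)
  · exact isClosed_le (by fun_prop) (by fun_prop)
  · exact isClosed_le (by fun_prop) (by fun_prop)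

end Sys

end Pool.Agent.Lib.MP_fd11a7_an
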