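import Mathlib
import Pool.Agent.Lib.MP_fd11a7_an.Sys

set_option autoImplicit false

open Set Real Filter Topology

namespace Pool.Agent.Lib.MP_fd11a7_an

namespace Sys

variable {ι : Type} (D : Sys ι)

/-- Generalised chain. -/
def GC (w : ℤ → ι) (a b : ℤ) (x : ℤ → ℝ × ℝ) : Prop :=
  ∀ n, a ≤ n → n < b → D.Gk (w n) (w (n + 1)) (x n) (x (n + 1))

/-- Real chain. -/
def RC (w : ℤ → ι) (a b : ℤ) (x : ℤ → ℝ × ℝ) : Prop :=
  ∀ n, a ≤ n → n < b → D.RL (w n) (w (n + 1)) (x n) (x (n + 1))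

variable {D}

theorem RC.gc {w : ℤ → ι} {a b : ℤ} {x : ℤ → ℝ × ℝ} (h : D.RC w a b x) : D.GC w a b x :=
  fun n h1 h2 => (h n h1 h2).1

theorem GC.sub {w : ℤ → ι} {a b a' b' : ℤ} {x : ℤ → ℝ × ℝ} (h : D.GC w a b x) (ha : a ≤ a')
    (hb : b' ≤ b) : D.GC w a' b' x := fun n h1 h2 => h n (by omega) (by omega)

theorem RC.sub {w : ℤ → ι} {a b a' b' : ℤ} {x : ℤ → ℝ × ℝ} (h : D.RC w a b x) (ha : a ≤ a')
    (hb : b' ≤ b) : D.RC w a' b' x := fun n h1 h2 => h n (by omega) (by omega)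

theorem GC.rev {w : ℤ → ι} {a b : ℤ} {x : ℤ → ℝ × ℝ} (h : D.GC w a b x) :
    D.GC (fun n => w (-n)) (-b) (-a) (fun n => R (x (-n))) := fun n h1 h2 => by
  have := (h (-(n + 1)) (by omega) (by omega)).rev
  rwa [show -(n + 1) + 1 = -n by ring] at this

theorem RC.rev {w : ℤ → ι} {a b : ℤ} {x : ℤ → ℝ × ℝ} (h : D.RC w a b x) :
    D.RC (fun n => w (-n)) (-b) (-a) (fun n => R (x (-n))) := fun n h1 h2 => by
  have := (h (-(n + 1)) (by omega) (by omega)).rev
  rwa [show -(n + 1) + 1 = -n by ring] at this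

theorem GC.congr {w w' : ℤ → ι} {a b : ℤ} {x : ℤ → ℝ × ℝ} (h : D.GC w a b x)
    (e : ∀ n, a ≤ n → n ≤ b → w' n = w n) : D.GC w' a b x := fun n h1 h2 => by
  rw [e n h1 h2.le, e (n + 1) (by omega) (by omega)]; exact h n h1 h2

theorem RC.congr {w w' : ℤ → ι} {a b : ℤ} {x x' : ℤ → ℝ × ℝ} (h : D.RC w a b x)
    (e : ∀ n, a ≤ n → n ≤ b → w' n = w n) (e' : ∀ n, a ≤ n → n ≤ b → x' n = x n) :
    D.RC w' a b x' := fun n h1 h2 => by
  rw [e n h1 h2.le, e (n + 1) (by omega) (by omega), e' n h1 h2.le,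
    e' (n + 1) (by omega) (by omega)]
  exact h n h1 h2

theorem GC.shift {w : ℤ → ι} {a b : ℤ} {x : ℤ → ℝ × ℝ} (h : D.GC w a b x) (c : ℤ) :
    D.GC (fun n => w (n + c)) (a - c) (b - c) (fun n => x (n + c)) := fun n h1 h2 => by
  have := h (n + c) (by omega) (by omega)
  rwa [show n + c + 1 = n + 1 + c by ring] at this

theorem RC.shift {w : ℤ → ι} {a b : ℤ} {x : ℤ → ℝ × ℝ} (h : D.RC w a b x) (c : ℤ) :
    D.RC (fun n => w (n + c)) (a - c) (b - c) (fun n => x (n + c)) := fun n h1 h2 => by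
  have := h (n + c) (by omega) (by omega)
  rwa [show n + c + 1 = n + 1 + c by ring] at this

theorem GC.st {w : ℤ → ι} {a b : ℤ} {x : ℤ → ℝ × ℝ} (h : D.GC w a b x) (hab : a < b) {n : ℤ}
    (h1 : a ≤ n) (h2 : n ≤ b) : D.St (w n) (x n) := by
  rcases h2.eq_or_lt with rfl | h2
  · have := (h (n - 1) (by omega) (by omega)).st2
    rwa [sub_add_cancel] at this
  · exact (h n h1 h2).st1

theorem RC.rg {w : ℤ → ι} {a b : ℤ} {x : ℤ → ℝ × ℝ} (h : D.RC w a b x) (hab : a < b) {n : ℤ}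
    (h1 : a ≤ n) (h2 : n ≤ b) : D.Rg (w n) (x n) := by
  rcases h2.eq_or_lt with rfl | h2
  · have := (h (n - 1) (by omega) (by omega)).2.2.1
    rwa [sub_add_cancel] at this
  · exact (h n h1 h2).2.1

theorem GC.dc {w : ℤ → ι} {a b : ℤ} {x y : ℤ → ℝ × ℝ} (hx : D.GC w a b x) (hy : D.GC w a b y)
    (h : D.Dc (w a) (x a) (y a)) {n : ℤ} (h1 : a ≤ n) (h2 : n ≤ b) : D.Dc (w n) (x n) (y n) := by
  induction n, h1 using Int.le_induction with
  | base => exact h
  | succ n h1 ih => exact (hx n h1 (by omega)).dc (hy n h1 (by omega)) (ih (by omega))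

theorem GC.dc_rev {w : ℤ → ι} {a b : ℤ} {x y : ℤ → ℝ × ℝ} (hx : D.GC w a b x) (hy : D.GC w a b y)
    (h : D.Dc (w b) (R (x b)) (R (y b))) {n : ℤ} (h1 : a ≤ n) (h2 : n ≤ b) :
    D.Dc (w n) (R (x n)) (R (y n)) := by
  have := hx.rev.dc hy.rev (by simpa using h) (n := -n) (by omega) (by omega)
  simpa using this

theorem GC.eq_fwd {w : ℤ → ι} {a b : ℤ} {x y : ℤ → ℝ × ℝ} (hx : D.GC w a b x) (hy : D.GC w a b y)
    (h : x a = y a) {n : ℤ} (h1 : a ≤ n) (h2 : n ≤ b) : x n = y n := by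
  induction n, h1 using Int.le_induction with
  | base => exact h
  | succ n h1 ih =>
    have := hy n h1 (by omega)
    rw [← ih (by omega)] at this
    exact (hx n h1 (by omega)).uniq this

theorem GC.eq_all {w : ℤ → ι} {a b j : ℤ} {x y : ℤ → ℝ × ℝ} (hx : D.GC w a b x)
    (hy : D.GC w a b y) (hj : a ≤ j) (hj' : j ≤ b) (h : x j = y j) {n : ℤ} (h1 : a ≤ n)
    (h2 : n ≤ b) : x n = y n := by
  rcases le_total j n with h3 | h3
  · exact (hx.sub hj le_rfl).eq_fwd (hy.sub hj le_rfl) h h3 h2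
  · have := (hx.sub le_rfl hj').rev.eq_fwd (hy.sub le_rfl hj').rev (by simpa using congrArg R h)
      (n := -n) (by omega) (by omega)
    exact R_inj (by simpa using this)

variable (D) in
/-- Bound on the number of consecutive short links. -/
noncomputable def i0 : ℕ := ⌈3 / D.c0⌉₊

theorem GC.long {w : ℤ → ι} {a b : ℤ} {x : ℤ → ℝ × ℝ} (hx : D.GC w a b x) (h : a + D.i0 ≤ b) :
    ∃ n, a ≤ n ∧ n < a + D.i0 ∧ D.τ0 ≤ ‖D.γ (w (n + 1)) (x (n + 1)).1 - D.γ (w n) (x n).1‖ := by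
  by_contra hn
  push Not at hn
  have key : ∀ k : ℕ, k ≤ D.i0 →
      D.sg (w a) * cos (x a).2 + k * D.c0 ≤ D.sg (w (a + k)) * cos (x (a + k)).2 := by
    intro k
    induction k with
    | zero => simp
    | succ k ih =>
      intro hk
      have h1 := ih (by omega)
      have h2 := (hx (a + k) (by omega) (by omega)).2.2.2.2.2.2.resolve_left
        (not_le.2 (hn _ (by omega) (by omega)))
      push_cast
      rw [← add_assoc]
      linarith
  have h1 := key D.i0 le_rfl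
  have b : ∀ A t, |D.sg A * cos t| ≤ 1 := fun A t => by
    rw [abs_mul]
    exact mul_le_one₀ (D.sg_le A) (abs_nonneg _) (abs_cos_le_one t)
  have b1 := abs_le.1 (b (w a) (x a).2)
  have b2 := abs_le.1 (b (w (a + D.i0)) (x (a + D.i0)).2)
  have h3 : 3 / D.c0 ≤ D.i0 := Nat.le_ceil _
  rw [div_le_iff₀ D.c0_pos] at h3
  linarith [b1.1, b2.2]

theorem Gk.grow {A B : ι} {x y x' y' : ℝ × ℝ} (h : D.Gk A B x y) (h' : D.Gk A B x' y')
    (hc : D.Dc A x x') :
    |D.om A x' - D.om A x| + 2 * D.κ * |y'.1 - y.1| ≤ |D.om B y' - D.om B y| := by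
  have key : ∀ {x y x' y' : ℝ × ℝ}, D.Gk A B x y → D.Gk A B x' y' → D.Dle A x x' →
      |D.om A x' - D.om A x| + 2 * D.κ * |y'.1 - y.1| ≤ |D.om B y' - D.om B y| := by
    intro x y x' y' h h' hle
    have h1 := h.dle h' hle
    have h2 := h.om_diff h'
    have h3 := D.mono B _ h'.st2.1 _ h.st2.1 h1.1
    rw [abs_of_nonneg (sub_nonneg.2 hle.2), abs_of_nonpos (sub_nonpos.2 h1.1),
      abs_of_nonpos (sub_nonpos.2 h1.2)]
    linarith
  rcases hc with hc | hc
  · exact key h h' hc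
  · have := key h' h hc
    rwa [abs_sub_comm (D.om A x), abs_sub_comm y.1, abs_sub_comm (D.om B y)] at this

theorem Gk.diff_le {A B : ι} {x y x' y' : ℝ × ℝ} (h : D.Gk A B x y) (h' : D.Gk A B x' y') :
    |D.om A x' - D.om A x| ≤ π - 2 * D.η := by
  have w := abs_le.1 h.wi
  have w' := abs_le.1 h'.wi
  rw [abs_le]; constructor <;> linarith [w.1, w.2, w'.1, w'.2]

theorem Gk.long_le {A B : ι} {x y x' y' : ℝ × ℝ} (h : D.Gk A B x y) (h' : D.Gk A B x' y')
    (hl : D.τ0 ≤ ‖D.γ B y.1 - D.γ A x.1‖) :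
    D.τ0 * sin |D.om A x' - D.om A x| ≤ |x'.1 - x.1| + |y'.1 - y.1| := by
  obtain ⟨τ, t0, t1, e⟩ := h.tau
  obtain ⟨τ', t0', -, e'⟩ := h'.tau
  have h1 : S (D.om A x') (D.γ B y'.1 - D.γ B y.1) =
      S (D.om A x') (D.γ A x'.1 - D.γ A x.1) + τ * sin (D.om A x' - D.om A x) := by
    have : D.γ B y'.1 - D.γ B y.1 =
        (D.γ A x'.1 - D.γ A x.1) + τ' * E (D.om A x') - τ * E (D.om A x) := by rw [e, e']; ring
    rw [this, S_sub, S_add, S_mul_E, S_mul_E, ← neg_sub (D.om A x') (D.om A x), sin_neg]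
    simp
  have b1 := abs_le.1 ((abs_S_le (D.om A x') _).trans (norm_γ_sub h.st2.1 h'.st2.1))
  have b2 := abs_le.1 ((abs_S_le (D.om A x') _).trans (norm_γ_sub h.st1.1 h'.st1.1))
  have d := h.diff_le h'
  have s0 : 0 ≤ sin |D.om A x' - D.om A x| := sin_nn (abs_nonneg _) (by linarith [D.η_pos])
  have h2 : τ * sin |D.om A x' - D.om A x| ≤ |x'.1 - x.1| + |y'.1 - y.1| := by
    rcases abs_cases (D.om A x' - D.om A x) with ⟨c, -⟩ | ⟨c, -⟩
    · rw [c]; linarith [b1.2, b2.1]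
    · rw [c, sin_neg]; linarith [b1.1, b2.2]
  rw [← t1] at hl
  nlinarith

theorem sin_ge_min {d e : ℝ} (he : 0 < e) (h1 : e ≤ d) (h2 : d ≤ π - e) : 2 / π * e ≤ sin d := by
  have hp := pi_pos
  rcases le_total d (π / 2) with h | h
  · exact le_trans (by gcongr) (mul_le_sin (by linarith) h)
  · rw [← sin_pi_sub]
    exact le_trans (by gcongr; linarith) (mul_le_sin (x := π - d) (by linarith) (by linarith))

/-- One-sided expansivity for dispersing pairs. -/
theorem exp1 (D : Sys ι) {ε : ℝ} (hε : 0 < ε) : ∃ m : ℕ, ∀ (w : ℤ → ι) (a : ℤ) (x y : ℤ → ℝ × ℝ),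
    D.GC w a (a + m) x → D.GC w a (a + m) y → D.Dc (w a) (x a) (y a) →
    |D.om (w a) (y a) - D.om (w a) (x a)| < ε := by
  set e := min ε (2 * D.η) with he
  have e0 : 0 < e := lt_min hε (by linarith [D.η_pos])
  set δ := 2 * D.κ * (D.τ0 * (2 / π * e)) with hδ
  have δ0 : 0 < δ := by
    have := D.κ_pos; have := D.τ0_pos; have := pi_pos; positivity
  obtain ⟨K, hK⟩ := exists_nat_gt (π / δ)
  rw [div_lt_iff₀ δ0] at hK
  refine ⟨K * (D.i0 + 1) + 1, fun w a x y hx hy hc => ?_⟩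
  by_contra hn
  push Not at hn
  set b : ℤ := a + (K * (D.i0 + 1) + 1 : ℕ) with hb
  set d : ℤ → ℝ := fun n => |D.om (w n) (y n) - D.om (w n) (x n)| with hd
  have step : ∀ n, a ≤ n → n < b → d n + 2 * D.κ * |(y (n + 1)).1 - (x (n + 1)).1| ≤ d (n + 1) :=
    fun n h1 h2 => (hx n h1 h2).grow (hy n h1 h2) (hx.dc hy hc h1 h2.le)
  have mono : ∀ n, a ≤ n → ∀ k, n ≤ k → k ≤ b → d n ≤ d k := by
    intro n hn k hk
    induction k, hk using Int.le_induction with
    | base => exact fun _ => le_rfl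
    | succ k hk ih =>
      intro h
      have := step k (by omega) (by omega)
      have := mul_nonneg (mul_nonneg zero_le_two D.κ_pos.le)
        (abs_nonneg ((y (k + 1)).1 - (x (k + 1)).1))
      linarith [ih (by omega)]
  have block : ∀ k : ℕ, k ≤ K → k * δ ≤ d (a + (k * (D.i0 + 1) : ℕ)) := by
    intro k
    induction k with
    | zero => intro _; simp [hd]
    | succ k ih =>
      intro hk
      have h0 := ih (by omega)
      have hle : (k + 1) * (D.i0 + 1) ≤ K * (D.i0 + 1) := Nat.mul_le_mul_right _ hk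
      have e1 : (k + 1) * (D.i0 + 1) = k * (D.i0 + 1) + D.i0 + 1 := by ring
      obtain ⟨n, n1, n2, n3⟩ := (hx.sub (a' := a + (k * (D.i0 + 1) : ℕ) + 1) (by omega)
        le_rfl).long (by omega)
      have l1 := (hx n (by omega) (by omega)).long_le (hy n (by omega) (by omega)) n3
      have l2 := (hx n (by omega) (by omega)).diff_le (hy n (by omega) (by omega))
      have l3 : e ≤ d n := (min_le_left _ _).trans (hn.trans (mono a le_rfl n (by omega) (by omega)))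
      have l4 := sin_ge_min e0 l3 (l2.trans (by linarith [min_le_right ε (2 * D.η)]))
      have s1 := step n (by omega) (by omega)
      have s2 := step (n - 1) (by omega) (by omega)
      rw [sub_add_cancel] at s2
      have m1 := mono (a + (k * (D.i0 + 1) : ℕ)) (by omega) (n - 1) (by omega) (by omega)
      have m2 := mono (n + 1) (by omega) (a + ((k + 1) * (D.i0 + 1) : ℕ)) (by omega) (by omega)
      have l5 : D.τ0 * (2 / π * e) ≤ D.τ0 * sin (d n) := mul_le_mul_of_nonneg_left l4 D.τ0_pos.le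
      have l6 := mul_le_mul_of_nonneg_left (l5.trans l1) (mul_nonneg zero_le_two D.κ_pos.le)
      push_cast at *
      linarith
  have f1 := block K le_rfl
  have f2 := (hx (a + (K * (D.i0 + 1) : ℕ)) (by omega) (by omega)).diff_le
    (hy (a + (K * (D.i0 + 1) : ℕ)) (by omega) (by omega))
  linarith [D.η_pos]

theorem GC.pin1 {w : ℤ → ι} {a b : ℤ} {x y : ℤ → ℝ × ℝ} (hx : D.GC w a b x) (hy : D.GC w a b y)
    (h : D.Dc (w a) (x a) (y a)) (h' : D.Dc (w b) (R (x b)) (R (y b))) {n : ℤ} (h1 : a < n)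
    (h2 : n < b) : (x n).1 = (y n).1 := by
  have c1 := hx.dc hy h (n := n - 1) (by omega) (by omega)
  have c2 := hx.dc_rev hy h' (n := n + 1) (by omega) (by omega)
  have x1 := hx (n - 1) (by omega) (by omega)
  have y1 := hy (n - 1) (by omega) (by omega)
  rw [sub_add_cancel] at x1 y1
  have x2 := (hx n h1.le h2).rev
  have y2 := (hy n h1.le h2).rev
  have d1 := x1.omR_diff y1
  have d2 := x2.omR_diff y2
  rw [om_R, om_R] at d1
  simp only [R_R] at d2
  rcases lt_trichotomy (x n).1 (y n).1 with h3 | h3 | h3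
  · have := θ_smono x1.st2.1 y1.st2.1 h3
    rcases c1 with c1 | c1
    · exact absurd (x1.ci y1 c1) (not_le.2 h3)
    rcases c2 with c2 | c2
    · exact absurd (x2.ci y2 c2) (not_le.2 h3)
    linarith [c1.2, c2.2]
  · exact h3
  · have := θ_smono y1.st2.1 x1.st2.1 h3
    rcases c1 with c1 | c1
    swap
    · exact absurd (y1.ci x1 c1) (not_le.2 h3)
    rcases c2 with c2 | c2
    swap
    · exact absurd (y2.ci x2 c2) (not_le.2 h3)
    linarith [c1.2, c2.2]

/-- Two chains that disperse forwards from the start and backwards from the end coincide. -/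
theorem GC.pin {w : ℤ → ι} {a b : ℤ} {x y : ℤ → ℝ × ℝ} (hx : D.GC w a b x) (hy : D.GC w a b y)
    (h : D.Dc (w a) (x a) (y a)) (h' : D.Dc (w b) (R (x b)) (R (y b))) (hab : a + D.i0 + 2 ≤ b)
    {n : ℤ} (h1 : a ≤ n) (h2 : n ≤ b) : x n = y n := by
  obtain ⟨k, k1, k2, k3⟩ := (hx.sub (a' := a + 1) (by omega) le_rfl).long (by omega)
  have l1 := (hx k (by omega) (by omega)).long_le (hy k (by omega) (by omega)) k3
  have l2 := (hx k (by omega) (by omega)).diff_le (hy k (by omega) (by omega))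
  have e1 := hx.pin1 hy h h' (n := k) (by omega) (by omega)
  have e2 := hx.pin1 hy h h' (n := k + 1) (by omega) (by omega)
  rw [e1, e2, sub_self, sub_self, abs_zero, add_zero] at l1
  have e3 : D.om (w k) (x k) = D.om (w k) (y k) := by
    by_contra hn
    have := sin_pos' (abs_pos.2 (sub_ne_zero.2 (Ne.symm hn))) (by linarith [D.η_pos])
    nlinarith [D.τ0_pos]
  exact hx.eq_all hy (j := k) (by omega) (by omega) (st_ext e1 e3) h1 h2

theorem GC.bvp {w : ℤ → ι} {a b : ℤ} {x y : ℤ → ℝ × ℝ} (hx : D.GC w a b x) (hy : D.GC w a b y)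
    (h : (x a).1 = (y a).1) (h' : (x b).1 = (y b).1) (hab : a + D.i0 + 2 ≤ b)
    {n : ℤ} (h1 : a ≤ n) (h2 : n ≤ b) : x n = y n :=
  hx.pin hy (dc_of_eq h) (dc_of_eq h') hab h1 h2

theorem om_eq_of_fut {w : ℤ → ι} {a : ℤ} {x y : ℤ → ℝ × ℝ} (hx : ∀ b, D.GC w a b x)
    (hy : ∀ b, D.GC w a b y) (h : D.Dc (w a) (x a) (y a)) :
    D.om (w a) (x a) = D.om (w a) (y a) := by
  by_contra hn
  obtain ⟨m, hm⟩ := D.exp1 (abs_pos.2 (sub_ne_zero.2 (Ne.symm hn)))
  exact lt_irrefl _ (hm w a x y (hx _) (hy _) h)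

theorem eq_of_fut {w : ℤ → ι} {a : ℤ} {x y : ℤ → ℝ × ℝ} (hx : ∀ b, D.GC w a b x)
    (hy : ∀ b, D.GC w a b y) (h : D.Dc (w a) (x a) (y a)) : x a = y a := by
  have e1 := om_eq_of_fut hx hy h
  have x1 := hx (a + 1) a le_rfl (by omega)
  have y1 := hy (a + 1) a le_rfl (by omega)
  have e2 := om_eq_of_fut (a := a + 1) (fun b => (hx b).sub (by omega) le_rfl)
    (fun b => (hy b).sub (by omega) le_rfl) (x1.dc y1 h)
  have d := x1.om_diff y1
  have e3 := θ_inj x1.st2.1 y1.st2.1 (by linarith)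
  have e4 := st_ext e3 e2
  rw [← e4] at y1
  exact x1.uniq' y1

/-- Two-sided expansivity. -/
theorem eq_of_word {w : ℤ → ι} {x y : ℤ → ℝ × ℝ} (hx : ∀ a b, D.GC w a b x)
    (hy : ∀ a b, D.GC w a b y) : x = y := by
  funext n
  rcases dc_or_rev (hx n (n + 1) n le_rfl (by omega)).st1 (hy n (n + 1) n le_rfl (by omega)).st1
    with h | h
  · exact eq_of_fut (hx n) (hy n) h
  · have := eq_of_fut (w := fun n => w (-n)) (a := -n) (x := fun n => R (x (-n)))
      (y := fun n => R (y (-n))) (fun b => by simpa using (hx (-b) n).rev)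
      (fun b => by simpa using (hy (-b) n).rev) (by simpa using h)
    exact R_inj (by simpa using this)

theorem GC.ulim {T : Type*} (U : Ultrafilter T) {w : ℤ → ι} {a b : ℤ} (hab : a < b)
    {x : T → ℤ → ℝ × ℝ} (hx : ∀ᶠ t in U, D.GC w a b (x t)) :
    ∃ z, D.GC w a b z ∧ ∀ n, a ≤ n → n ≤ b → Tendsto (fun t => x t n) U (𝓝 (z n)) := by
  have : ∀ n, ∃ z, a ≤ n → n ≤ b → Tendsto (fun t => x t n) U (𝓝 z) := by
    intro n
    by_cases h : a ≤ n ∧ n ≤ b
    · obtain ⟨z, -, hz⟩ := (isCompact_St (D := D) (w n)).ultrafilter_le_nhds (U.map fun t => x t n)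
        (by
          rw [le_principal_iff, Ultrafilter.mem_coe, Ultrafilter.mem_map]
          exact hx.mono fun t ht => ht.st hab h.1 h.2)
      exact ⟨z, fun _ _ => hz⟩
    · exact ⟨0, fun h1 h2 => absurd ⟨h1, h2⟩ h⟩
  choose z hz using this
  refine ⟨z, fun n h1 h2 => ?_, hz⟩
  exact (isClosed_Gk (D := D) (w n) (w (n + 1))).mem_of_tendsto
    ((hz n h1 h2.le).prodMk_nhds (hz (n + 1) (by omega) (by omega))) (hx.mono fun t ht => ht n h1 h2)

theorem GC.tendsto_of_state {T : Type*} {l : Filter T} {w : ℤ → ι} {a b j : ℤ}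
    {x : T → ℤ → ℝ × ℝ} {y : ℤ → ℝ × ℝ} (hx : ∀ᶠ t in l, D.GC w a b (x t)) (hy : D.GC w a b y)
    (hj : a ≤ j) (hj' : j ≤ b) (h : Tendsto (fun t => x t j) l (𝓝 (y j))) {n : ℤ} (h1 : a ≤ n)
    (h2 : n ≤ b) : Tendsto (fun t => x t n) l (𝓝 (y n)) := by
  rcases (h1.trans h2).eq_or_lt with hab | hab
  · have : n = j := by omega
    rwa [this]
  rw [tendsto_iff_ultrafilter]
  intro U hU
  obtain ⟨z, hz, hz'⟩ := GC.ulim U hab (hU hx)
  rw [← hz.eq_all hy hj hj' (tendsto_nhds_unique (hz' j hj hj') (h.mono_left hU)) h1 h2]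
  exact hz' n h1 h2

theorem GC.tendsto_of_ends {T : Type*} {l : Filter T} {w : ℤ → ι} {a b : ℤ}
    {x : T → ℤ → ℝ × ℝ} {y : ℤ → ℝ × ℝ} (hx : ∀ᶠ t in l, D.GC w a b (x t)) (hy : D.GC w a b y)
    (hab : a + D.i0 + 2 ≤ b) (h : Tendsto (fun t => (x t a).1) l (𝓝 (y a).1))
    (h' : Tendsto (fun t => (x t b).1) l (𝓝 (y b).1)) {n : ℤ} (h1 : a ≤ n)
    (h2 : n ≤ b) : Tendsto (fun t => x t n) l (𝓝 (y n)) := by
  rw [tendsto_iff_ultrafilter]
  intro U hU
  obtain ⟨z, hz, hz'⟩ := GC.ulim U (by omega : a < b) (hU hx)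
  have e1 := tendsto_nhds_unique ((continuous_fst.tendsto _).comp (hz' a le_rfl (by omega)))
    (h.mono_left hU)
  have e2 := tendsto_nhds_unique ((continuous_fst.tendsto _).comp (hz' b (by omega) le_rfl))
    (h'.mono_left hU)
  rw [← hz.bvp hy e1 e2 hab h1 h2]
  exact hz' n h1 h2

end Sys

end Pool.Agent.Lib.MP_fd11a7_an
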