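import Mathlib
import Pool.Agent.Lib.MP_fd11a7_an.Basic

set_option autoImplicit false

open Set Real Filter Topology

namespace Pool.Agent.Lib.MP_fd11a7_an

/-- The region swept by a family of open segments. -/
def swept (p : ℝ → ℂ) (w u : ℝ → ℝ) (a b : ℝ) : Set ℂ :=
  {z | ∃ t ∈ Icc a b, ∃ v : ℝ, 0 < v ∧ v < u t ∧ z = p t + v * E (w t)}

theorem swept_nhds {p : ℝ → ℂ} {w u : ℝ → ℝ} {a b : ℝ} (hp : Continuous p) (hw : Continuous w)
    (hu : Continuous u)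
    (hm : ∀ t ∈ Icc a b, ∀ᶠ t' in 𝓝[Icc a b] t,
      (t ≤ t' → S (w t') (p t - p t') ≤ 0 ∧ S (w t') (p t + u t * E (w t) - p t') ≤ 0) ∧
      (t' ≤ t → 0 ≤ S (w t') (p t - p t') ∧ 0 ≤ S (w t') (p t + u t * E (w t) - p t')))
    {z : ℂ} (h1 : ∀ t ∈ Icc a b, z ≠ p t ∧ z ≠ p t + u t * E (w t))
    (h2 : ∀ v : ℝ, 0 < v → v < u a → z ≠ p a + v * E (w a))
    (h3 : ∀ v : ℝ, 0 < v → v < u b → z ≠ p b + v * E (w b))
    (hz : z ∈ swept p w u a b) : swept p w u a b ∈ 𝓝 z := by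
  set T0 : Set ℝ := {t | t ∈ Icc a b ∧ S (w t) (z - p t) = 0 ∧ 0 ≤ Cc (w t) (z - p t) ∧
    Cc (w t) (z - p t) ≤ u t} with hT0
  have hcl : IsClosed T0 := by
    simp only [hT0, setOf_and]
    exact isClosed_Icc.inter ((isClosed_eq (by fun_prop) continuous_const).inter
      ((isClosed_le continuous_const (by fun_prop)).inter (isClosed_le (by fun_prop) hu)))
  have hne : T0.Nonempty := by
    obtain ⟨t, ht, v, v0, v1, rfl⟩ := hz
    refine ⟨t, ht, ?_, ?_, ?_⟩ <;> simp [S_mul_E, Cc_mul_E, v0.le, v1.le]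
  have rep : ∀ t ∈ T0, z = p t + (Cc (w t) (z - p t) : ℝ) * E (w t) := fun t ht => by
    rw [← eq_of_S_zero ht.2.1]; ring
  have strict : ∀ t ∈ T0, 0 < Cc (w t) (z - p t) ∧ Cc (w t) (z - p t) < u t := by
    intro t ht
    refine ⟨lt_of_le_of_ne ht.2.2.1 fun h => (h1 t ht.1).1 ?_,
      lt_of_le_of_ne ht.2.2.2 fun h => (h1 t ht.1).2 ?_⟩
    · have := rep t ht
      rw [← h] at this; simpa using this
    · have := rep t ht
      rwa [h] at this
  have ha : a ∉ T0 := fun h => h2 _ (strict a h).1 (strict a h).2 (rep a h)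
  have hb : b ∉ T0 := fun h => h3 _ (strict b h).1 (strict b h).2 (rep b h)
  have bdd : BddAbove T0 := ⟨b, fun t ht => ht.1.2⟩
  set t2 := sSup T0 with ht2
  have m2 : t2 ∈ T0 := hcl.csSup_mem hne bdd
  set T1 : Set ℝ := {t | t ≤ t2 ∧ Icc t t2 ⊆ T0} with hT1
  have ne1 : t2 ∈ T1 := ⟨le_rfl, by simpa using m2⟩
  have bdd1 : BddBelow T1 := ⟨a, fun t ht => (ht.2 ⟨le_rfl, ht.1⟩).1.1⟩
  set t1 := sInf T1 with ht1
  have le12 : t1 ≤ t2 := csInf_le bdd1 ne1
  have sub0 : Ioc t1 t2 ⊆ T0 := fun t ht => by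
    obtain ⟨s, hs, hs'⟩ := exists_lt_of_csInf_lt ⟨t2, ne1⟩ ht.1
    exact hs.2 ⟨hs'.le, ht.2⟩
  have sub1 : Icc t1 t2 ⊆ T0 := by
    rcases le12.eq_or_lt with h | h
    · rw [h]; simpa using m2
    · rw [← closure_Ioc h.ne]; exact hcl.closure_subset_iff.2 sub0
  have m1 : t1 ∈ T0 := sub1 ⟨le_rfl, le12⟩
  have lt2 : t2 < b := lt_of_le_of_ne m2.1.2 fun h => hb (h ▸ m2)
  have lt1 : a < t1 := lt_of_le_of_ne m1.1.1 fun h => ha (h ▸ m1)
  have hV : IsOpen {t | 0 < Cc (w t) (z - p t) ∧ Cc (w t) (z - p t) < u t} := by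
    rw [setOf_and]
    exact (isOpen_lt continuous_const (by fun_prop)).inter (isOpen_lt (by fun_prop) hu)
  have aff : ∀ t ∈ T0, ∀ t', ∃ l : ℝ, 0 < l ∧ l < 1 ∧ S (w t') (z - p t') =
      (1 - l) * S (w t') (p t - p t') + l * S (w t') (p t + u t * E (w t) - p t') := by
    intro t ht t'
    obtain ⟨s1, s2⟩ := strict t ht
    have u0 : 0 < u t := s1.trans s2
    refine ⟨Cc (w t) (z - p t) / u t, by positivity, (div_lt_one u0).2 s2, ?_⟩
    rw [← S_mul, ← S_mul, ← S_add]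
    congr 1
    have : (u t : ℂ) ≠ 0 := by exact_mod_cast u0.ne'
    conv_lhs => rw [rep t ht]
    push_cast
    field_simp
    ring
  obtain ⟨e2, e20, he2⟩ := Metric.eventually_nhds_iff.1 (eventually_nhdsWithin_iff.1
    ((hm t2 m2.1).and (mem_nhdsWithin_of_mem_nhds (hV.mem_nhds (strict t2 m2)))))
  obtain ⟨e1, e10, he1⟩ := Metric.eventually_nhds_iff.1 (eventually_nhdsWithin_iff.1
    ((hm t1 m1.1).and (mem_nhdsWithin_of_mem_nhds (hV.mem_nhds (strict t1 m1)))))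
  obtain ⟨tp, tp1, tp2, tp3⟩ : ∃ tp, t2 < tp ∧ tp ≤ b ∧ tp < t2 + e2 :=
    ⟨min b (t2 + e2 / 2), lt_min lt2 (by linarith), min_le_left _ _,
      lt_of_le_of_lt (min_le_right _ _) (by linarith)⟩
  obtain ⟨tm, tm1, tm2, tm3, tm4⟩ : ∃ tm, tm < t1 ∧ a ≤ tm ∧ t1 - e1 < tm ∧ tm ∉ T0 := by
    by_contra hn
    push Not at hn
    have : max a (t1 - e1 / 2) ∈ T1 := by
      refine ⟨(max_le lt1.le (by linarith)).trans le12, fun t ht => ?_⟩
      rcases lt_or_ge t t1 with h | h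
      · exact hn t h ((le_max_left _ _).trans ht.1)
          (lt_of_lt_of_le (by linarith) ((le_max_right _ _).trans ht.1))
      · exact sub1 ⟨h, ht.2⟩
    have := csInf_le bdd1 this
    have h' : max a (t1 - e1 / 2) < t1 := max_lt lt1 (by linarith)
    linarith
  have inV : ∀ t ∈ Icc tm tp, 0 < Cc (w t) (z - p t) ∧ Cc (w t) (z - p t) < u t := by
    intro t ht
    have hI : t ∈ Icc a b := ⟨tm2.trans ht.1, ht.2.trans tp2⟩
    rcases le_total t t1 with h | h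
    · exact (he1 (by rw [Real.dist_eq, abs_lt]; constructor <;> linarith [ht.1]) hI).2
    rcases le_total t t2 with h' | h'
    · exact strict t (sub1 ⟨h, h'⟩)
    · exact (he2 (by rw [Real.dist_eq, abs_lt]; constructor <;> linarith [ht.2]) hI).2
  have lemp : tm ≤ tp := by linarith
  have gp : S (w tp) (z - p tp) < 0 := by
    have hI : tp ∈ Icc a b := ⟨by linarith, tp2⟩
    obtain ⟨k1, k2⟩ := (he2 (y := tp) (by rw [Real.dist_eq, abs_lt]; constructor <;> linarith)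
      hI).1.1 tp1.le
    obtain ⟨l, l0, l1, hl⟩ := aff t2 m2 tp
    refine lt_of_le_of_ne (by rw [hl]; nlinarith) fun h => ?_
    have := inV tp ⟨lemp, le_rfl⟩
    exact absurd (le_csSup bdd ⟨hI, h, this.1.le, this.2.le⟩) (not_le.2 tp1)
  have gm : 0 < S (w tm) (z - p tm) := by
    have hI : tm ∈ Icc a b := ⟨tm2, by linarith⟩
    obtain ⟨k1, k2⟩ := (he1 (y := tm) (by rw [Real.dist_eq, abs_lt]; constructor <;> linarith)
      hI).1.2 tm1.le
    obtain ⟨l, l0, l1, hl⟩ := aff t1 m1 tm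
    refine lt_of_le_of_ne (by rw [hl]; nlinarith) fun h => ?_
    have := inV tm ⟨le_rfl, lemp⟩
    exact tm4 ⟨hI, h.symm, this.1.le, this.2.le⟩
  have ev1 : ∀ᶠ z' in 𝓝 z, ∀ t ∈ Icc tm tp,
      0 < Cc (w t) (z' - p t) ∧ Cc (w t) (z' - p t) < u t := by
    refine isCompact_Icc.eventually_forall_of_forall_eventually fun t ht => ?_
    have : IsOpen {c : ℂ × ℝ | 0 < Cc (w c.2) (c.1 - p c.2) ∧ Cc (w c.2) (c.1 - p c.2) < u c.2} := by
      rw [setOf_and]
      exact (isOpen_lt continuous_const (by fun_prop)).inter (isOpen_lt (by fun_prop) (by fun_prop))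
    exact this.mem_nhds (inV t ht)
  have ev2 : ∀ᶠ z' in 𝓝 z, S (w tp) (z' - p tp) < 0 :=
    (isOpen_lt (by fun_prop) continuous_const).mem_nhds gp
  have ev3 : ∀ᶠ z' in 𝓝 z, 0 < S (w tm) (z' - p tm) :=
    (isOpen_lt continuous_const (by fun_prop)).mem_nhds gm
  filter_upwards [ev1, ev2, ev3] with z' k1 k2 k3
  obtain ⟨t, ht, h0⟩ := intermediate_value_Icc' lemp (f := fun t => S (w t) (z' - p t))
    (by fun_prop : Continuous fun t => S (w t) (z' - p t)).continuousOn ⟨k2.le, k3.le⟩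
  refine ⟨t, ⟨tm2.trans ht.1, ht.2.trans tp2⟩, _, (k1 t ht).1, (k1 t ht).2, ?_⟩
  rw [← eq_of_S_zero h0]; ring

theorem sweep {p : ℝ → ℂ} {w u : ℝ → ℝ} {a b : ℝ} (hp : Continuous p) (hw : Continuous w)
    (hu : Continuous u) (hu0 : ∀ t ∈ Icc a b, 0 < u t)
    (hm : ∀ t ∈ Icc a b, ∀ᶠ t' in 𝓝[Icc a b] t,
      (t ≤ t' → S (w t') (p t - p t') ≤ 0 ∧ S (w t') (p t + u t * E (w t) - p t') ≤ 0) ∧
      (t' ≤ t → 0 ≤ S (w t') (p t - p t') ∧ 0 ≤ S (w t') (p t + u t * E (w t) - p t')))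
    {Z : Set ℂ} (hZ : IsPreconnected Z)
    (h1 : ∀ z ∈ Z, ∀ t ∈ Icc a b, z ≠ p t ∧ z ≠ p t + u t * E (w t))
    (h2 : ∀ z ∈ Z, ∀ v : ℝ, 0 < v → v < u a → z ≠ p a + v * E (w a))
    (h3 : ∀ z ∈ Z, ∀ v : ℝ, 0 < v → v < u b → z ≠ p b + v * E (w b))
    (hne : (Z ∩ swept p w u a b).Nonempty) : Z ⊆ swept p w u a b := by
  set K : Set ℂ := (fun c : ℝ × ℝ => p c.1 + (c.2 * u c.1 : ℝ) * E (w c.1)) ''
    (Icc a b ×ˢ Icc 0 1) with hK
  have hKc : IsClosed K := ((isCompact_Icc.prod isCompact_Icc).image (by fun_prop)).isClosed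
  have sub1 : swept p w u a b ⊆ K := by
    rintro z ⟨t, ht, v, v0, v1, rfl⟩
    have u0 : 0 < u t := v0.trans v1
    refine ⟨(t, v / u t), ⟨ht, by positivity, (div_le_one u0).2 v1.le⟩, ?_⟩
    simp only
    rw [div_mul_cancel₀ _ u0.ne']
  have sub2 : ∀ z ∈ Z, z ∈ K → z ∈ swept p w u a b := by
    rintro z hz ⟨⟨t, l⟩, ⟨ht, l0, l1⟩, rfl⟩
    have u0 := hu0 t ht
    simp only at l0 l1 ht hz ⊢
    have a1 : l ≠ 0 := by rintro rfl; exact (h1 _ hz t ht).1 (by simp)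
    have a2 : l ≠ 1 := by rintro rfl; exact (h1 _ hz t ht).2 (by simp)
    have b1 := lt_of_le_of_ne l0 a1.symm
    have b2 := lt_of_le_of_ne l1 a2
    exact ⟨t, ht, l * u t, by positivity, by nlinarith, rfl⟩
  have nb : ∀ z ∈ Z, z ∈ swept p w u a b → z ∈ interior (swept p w u a b) := fun z hz h =>
    mem_interior_iff_mem_nhds.2 (swept_nhds hp hw hu hm (h1 z hz) (h2 z hz) (h3 z hz) h)
  refine (hZ.subset_left_of_subset_union isOpen_interior hKc.isOpen_compl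
    (disjoint_compl_right_iff_subset.2 (interior_subset.trans sub1)) (fun z hz => ?_) ?_).trans
    interior_subset
  · by_cases h : z ∈ K
    · exact Or.inl (nb z hz (sub2 z hz h))
    · exact Or.inr h
  · obtain ⟨z, hz, h⟩ := hne
    exact ⟨z, hz, nb z hz h⟩

theorem swept_subset {p : ℝ → ℂ} {w u : ℝ → ℝ} {a b : ℝ} (hp : Continuous p) (hw : Continuous w)
    (hu : Continuous u) (hu0 : ∀ t ∈ Icc a b, 0 < u t) (hab : a ≤ b) {Y : Set ℂ} (hY : IsOpen Y)
    (hd : Disjoint (swept p w u a b) (frontier Y))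
    (h : p a + (u a / 2 : ℝ) * E (w a) ∈ Y) : swept p w u a b ⊆ Y := by
  have e : swept p w u a b = (fun c : ℝ × ℝ => p c.1 + (c.2 * u c.1 : ℝ) * E (w c.1)) ''
      (Icc a b ×ˢ Ioo 0 1) := by
    ext z
    constructor
    · rintro ⟨t, ht, v, v0, v1, rfl⟩
      have u0 : 0 < u t := v0.trans v1
      refine ⟨(t, v / u t), ⟨ht, by positivity, (div_lt_one u0).2 v1⟩, ?_⟩
      simp only
      rw [div_mul_cancel₀ _ u0.ne']
    · rintro ⟨⟨t, l⟩, ⟨ht, l0, l1⟩, rfl⟩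
      have u0 := hu0 t ht
      simp only at l0 l1 ht ⊢
      exact ⟨t, ht, l * u t, by positivity, by nlinarith, rfl⟩
  have hc : IsPreconnected (swept p w u a b) := by
    rw [e]
    exact (isPreconnected_Icc.prod isPreconnected_Ioo).image _ (by fun_prop)
  have u0 := hu0 a ⟨le_rfl, hab⟩
  refine hc.subset_of_closure_inter_subset hY
    ⟨_, ⟨a, ⟨le_rfl, hab⟩, u a / 2, by positivity, by linarith, rfl⟩, h⟩ fun z hz => ?_
  by_contra hn
  exact disjoint_left.1 hd hz.2 (by rw [hY.frontier_eq]; exact ⟨hz.1, hn⟩)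

theorem continuous_zero {F : ℝ → ℝ → ℝ} {g : ℝ → ℝ} {a b : ℝ} (hF : ∀ s, Continuous fun t => F t s)
    (hg : ∀ t, g t ∈ Icc a b) (h1 : ∀ t, ∀ s ∈ Icc a b, s < g t → 0 < F t s)
    (h2 : ∀ t, ∀ s ∈ Icc a b, g t < s → F t s < 0) (h0 : ∀ t, F t (g t) = 0) : Continuous g := by
  refine continuous_iff_continuousAt.2 fun t0 => tendsto_order.2 ⟨fun c hc => ?_, fun c hc => ?_⟩
  · rcases lt_or_ge c a with h | h
    · exact Eventually.of_forall fun t => h.trans_le (hg t).1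
    · have hc' : c ∈ Icc a b := ⟨h, hc.le.trans (hg t0).2⟩
      filter_upwards [(isOpen_lt continuous_const (hF c)).mem_nhds (h1 t0 c hc' hc)] with t ht
      by_contra hn
      push Not at hn
      rcases hn.eq_or_lt with e | e
      · have := h0 t
        rw [e] at this
        exact absurd this (ne_of_gt ht)
      · exact lt_asymm ht (h2 t c hc' e)
  · rcases lt_or_ge b c with h | h
    · exact Eventually.of_forall fun t => (hg t).2.trans_lt h
    · have hc' : c ∈ Icc a b := ⟨(hg t0).1.trans hc.le, h⟩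
      filter_upwards [(isOpen_lt (hF c) continuous_const).mem_nhds (h2 t0 c hc' hc)] with t ht
      by_contra hn
      push Not at hn
      rcases hn.eq_or_lt with e | e
      · have := h0 t
        rw [← e] at this
        exact absurd this (ne_of_lt ht)
      · exact lt_asymm ht (h1 t c hc' e)

end Pool.Agent.Lib.MP_fd11a7_an
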