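import Mathlib
import Pool.Agent.Lib.MP_fd11a7_an.Chain
import Pool.Agent.Lib.MP_fd11a7_an.Sweep

set_option autoImplicit false

open Set Real Filter Topology

namespace Pool.Agent.Lib.MP_fd11a7_an

namespace Sys

variable {ι : Type} {D : Sys ι}

theorem fan0 {B : ι} {p : ℝ → ℂ} {w : ℝ → ℝ} {a b sa sb ua ub : ℝ} (hab : a ≤ b)
    (hp : Continuous p) (hw : Continuous w) (hm : ∀ t ∈ Icc a b, w a ≤ w t ∧ w t ≤ w b)
    (ha : sa ∈ D.I B) (hb : sb ∈ D.I B) (hs : sb ≤ sa) (ua0 : 0 < ua) (ub0 : 0 < ub)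
    (ea : D.γ B sa = p a + ua * E (w a)) (eb : D.γ B sb = p b + ub * E (w b))
    (ra : 0 < w a - D.θ B sa) (rb : w b - D.θ B sb < π)
    (side : ∀ t ∈ Icc a b, ∀ t' ∈ Icc a b, ∀ s ∈ Icc (D.lo B) (D.hi B), ∀ u : ℝ, 0 < u →
      D.γ B s = p t + u * E (w t) →
      (t ≤ t' → S (w t') (D.γ B s - p t') ≤ 0) ∧ (t' ≤ t → 0 ≤ S (w t') (D.γ B s - p t')))
    (av : ∀ t ∈ Icc a b, ∀ s ∈ D.I B, p t ≠ D.γ B s) :
    ∃ s u : ℝ → ℝ, Continuous s ∧ Continuous u ∧ s a = sa ∧ s b = sb ∧ ∀ t ∈ Icc a b,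
      s t ∈ Icc sb sa ∧ 0 < u t ∧ D.γ B (s t) = p t + u t * E (w t) ∧
      w t - D.θ B (s t) ∈ Ioo 0 π := by
  have ha' := D.I_sub B ha
  have hb' := D.I_sub B hb
  have sub : ∀ s ∈ Icc sb sa, s ∈ Icc (D.lo B) (D.hi B) := fun s h =>
    ⟨hb'.1.trans h.1, h.2.trans ha'.2⟩
  have cB := D.cγ B
  have anti : ∀ t ∈ Icc a b, ∀ s ∈ Icc sb sa, ∀ s' ∈ Icc sb sa, s < s' →
      S (w t) (D.γ B s' - p t) < S (w t) (D.γ B s - p t) := by
    intro t ht s hs s' hs' h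
    obtain ⟨ρ, β, r0, -, h3, h4, h5⟩ := D.chord B s (sub s hs) s' (sub s' hs') h
    have e : D.γ B s' - p t = (D.γ B s - p t) + ρ * E β := by rw [h5]; ring
    rw [e, S_add, S_mul_E]
    have m1 := θ_mono (sub s' hs') ha' hs'.2
    have m2 := θ_mono hb' (sub s hs) hs.1
    have := sin_neg' (x := β - w t) (by linarith [(hm t ht).1]) (by linarith [(hm t ht).2])
    nlinarith
  have ex : ∀ t, ∃ s ∈ Icc sb sa, t ∈ Icc a b → S (w t) (D.γ B s - p t) = 0 := by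
    intro t
    by_cases ht : t ∈ Icc a b
    · obtain ⟨s, h1, h2⟩ := intermediate_value_Icc' hs (f := fun s => S (w t) (D.γ B s - p t))
        (by fun_prop : Continuous fun s => S (w t) (D.γ B s - p t)).continuousOn
        ⟨(side a ⟨le_rfl, hab⟩ t ht sa ha' ua ua0 ea).1 ht.1,
          (side b ⟨hab, le_rfl⟩ t ht sb hb' ub ub0 eb).2 ht.2⟩
      exact ⟨s, h1, fun _ => h2⟩
    · exact ⟨sb, ⟨le_rfl, hs⟩, fun h => absurd h ht⟩
  choose z hz hz0 using ex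
  set c : ℝ → ℝ := fun t => max a (min t b) with hc
  have cc : Continuous c := by fun_prop
  have cm : ∀ t, c t ∈ Icc a b := fun t => ⟨le_max_left _ _, max_le hab (min_le_right _ _)⟩
  have ci : ∀ t ∈ Icc a b, c t = t := fun t ht => by
    simp only [hc]; rw [min_eq_left ht.2, max_eq_right ht.1]
  have cs : Continuous fun t => z (c t) := by
    refine continuous_zero (F := fun t s => S (w (c t)) (D.γ B s - p (c t))) (a := sb) (b := sa)
      (fun s => by fun_prop) (fun t => hz _) (fun t s hs h => ?_) (fun t s hs h => ?_)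
      fun t => hz0 _ (cm t)
    · have := anti _ (cm t) s hs _ (hz _) h
      rwa [hz0 _ (cm t)] at this
    · have := anti _ (cm t) _ (hz _) s hs h
      rwa [hz0 _ (cm t)] at this
  have uniq : ∀ t ∈ Icc a b, ∀ s ∈ Icc sb sa, S (w t) (D.γ B s - p t) = 0 → z t = s := by
    intro t ht s hs h
    rcases lt_trichotomy (z t) s with h1 | h1 | h1
    · have := anti t ht _ (hz t) s hs h1
      rw [h, hz0 t ht] at this; exact absurd this (lt_irrefl _)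
    · exact h1
    · have := anti t ht s hs _ (hz t) h1
      rw [h, hz0 t ht] at this; exact absurd this (lt_irrefl _)
  have za : z a = sa := uniq a ⟨le_rfl, hab⟩ sa ⟨hs, le_rfl⟩ (by rw [ea]; simp [S_mul_E])
  have zb : z b = sb := uniq b ⟨hab, le_rfl⟩ sb ⟨le_rfl, hs⟩ (by rw [eb]; simp [S_mul_E])
  have cu : Continuous fun t => Cc (w t) (D.γ B (z (c t)) - p t) :=
    continuous_Cc hw ((cB.comp cs).sub hp)
  have rep : ∀ t ∈ Icc a b, D.γ B (z (c t)) =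
      p t + (Cc (w t) (D.γ B (z (c t)) - p t) : ℝ) * E (w t) := fun t ht => by
    rw [← eq_of_S_zero (by rw [ci t ht]; exact hz0 t ht)]; ring
  refine ⟨fun t => z (c t), fun t => Cc (w t) (D.γ B (z (c t)) - p t), cs, cu,
    by simp only [ci a ⟨le_rfl, hab⟩, za], by simp only [ci b ⟨hab, le_rfl⟩, zb],
    fun t ht => ⟨hz _, ?_, rep t ht, ?_⟩⟩
  · by_contra hn
    push Not at hn
    have h0 : 0 < Cc (w a) (D.γ B (z (c a)) - p a) := by
      rw [ci a ⟨le_rfl, hab⟩, za, ea]; simpa [Cc_mul_E] using ua0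
    obtain ⟨t', h1, h2⟩ := intermediate_value_Icc' ht.1 cu.continuousOn ⟨hn, h0.le⟩
    have ht' : t' ∈ Icc a b := ⟨h1.1, h1.2.trans ht.2⟩
    have := rep t' ht'
    simp only at h2
    rw [h2] at this
    exact av t' ht' _ (I_conn hb ha (hz _).1 (hz _).2) (by rw [this]; simp)
  · have m1 := θ_mono (sub _ (hz (c t))) ha' (hz _).2
    have m2 := θ_mono hb' (sub _ (hz (c t))) (hz _).1
    constructor <;> linarith [(hm t ht).1, (hm t ht).2]

theorem fan {A B : ι} {p : ℝ → ℂ} {w : ℝ → ℝ} {a b sa sb ua ub : ℝ} (hab : a ≤ b)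
    (hp : Continuous p) (hw : Continuous w) (hm : ∀ t ∈ Icc a b, w a ≤ w t ∧ w t ≤ w b)
    (ha : sa ∈ D.I B) (hb : sb ∈ D.I B) (hs : sb ≤ sa) (ua0 : 0 < ua) (ub0 : 0 < ub)
    (ea : D.γ B sa = p a + ua * E (w a)) (eb : D.γ B sb = p b + ub * E (w b))
    (ra : 0 < w a - D.θ B sa) (rb : w b - D.θ B sb < π)
    (side : ∀ t ∈ Icc a b, ∀ t' ∈ Icc a b, ∀ s ∈ Icc (D.lo B) (D.hi B), ∀ u : ℝ, 0 < u →
      D.γ B s = p t + u * E (w t) →
      (t ≤ t' → S (w t') (D.γ B s - p t') ≤ 0) ∧ (t' ≤ t → 0 ≤ S (w t') (D.γ B s - p t')))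
    (av : ∀ t ∈ Icc a b, ∀ s ∈ D.I B, p t ≠ D.γ B s)
    (loc : ∀ t ∈ Icc a b, ∀ᶠ t' in 𝓝[Icc a b] t,
      (t ≤ t' → S (w t') (p t - p t') ≤ 0) ∧ (t' ≤ t → 0 ≤ S (w t') (p t - p t')))
    (src : ∀ t ∈ Icc a b, p t ∈ D.γ A '' D.I A ∨ p t ∈ D.Y)
    (thin : ∀ t ∈ Icc a b, ‖p t - p a‖ ≤ D.l)
    (seen : A = B ∨ ∀ t ∈ Icc a b, ∃ x, D.St A x ∧ p t = D.γ A x.1 ∧ E (w t) = E (D.om A x))
    (ya : openSegment ℝ (p a) (D.γ B sa) ⊆ D.Y) (yb : openSegment ℝ (p b) (D.γ B sb) ⊆ D.Y) :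
    ∃ s u : ℝ → ℝ, Continuous s ∧ Continuous u ∧ s a = sa ∧ s b = sb ∧ ∀ t ∈ Icc a b,
      s t ∈ Icc sb sa ∧ 0 < u t ∧ D.γ B (s t) = p t + u t * E (w t) ∧
      w t - D.θ B (s t) ∈ Ioo 0 π ∧ openSegment ℝ (p t) (D.γ B (s t)) ⊆ D.Y := by
  obtain ⟨s, u, cs, cu, s1, s2, h⟩ := fan0 hab hp hw hm ha hb hs ua0 ub0 ea eb ra rb side av
  have sI : ∀ t ∈ Icc a b, s t ∈ D.I B := fun t ht => I_conn hb ha (h t ht).1.1 (h t ht).1.2
  have u0 : ∀ t ∈ Icc a b, 0 < u t := fun t ht => (h t ht).2.1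
  have ia : a ∈ Icc a b := ⟨le_rfl, hab⟩
  have ib : b ∈ Icc a b := ⟨hab, le_rfl⟩
  have nY : ∀ z ∈ frontier D.Y, z ∉ D.Y := fun z hz => by
    rw [D.isOpen.frontier_eq] at hz; exact hz.2
  have seenB : ∀ z ∈ swept p w u a b, ∃ r ∈ Icc (D.lo B) (D.hi B), ∃ ψ ∈ Icc (-π) 0, ∃ v : ℝ,
      0 < v ∧ z = D.γ B r + v * E (D.θ B r + ψ) := by
    rintro z ⟨t, ht, v, v0, v1, rfl⟩
    obtain ⟨-, -, k3, k4⟩ := h t ht
    refine ⟨s t, D.I_sub B (sI t ht), w t - D.θ B (s t) - π,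
      ⟨by linarith [k4.1], by linarith [k4.2]⟩, u t - v, by linarith, ?_⟩
    rw [show D.θ B (s t) + (w t - D.θ B (s t) - π) = w t - π by ring, E_sub_pi, k3]
    push_cast; ring
  have hd : Disjoint (swept p w u a b) (frontier D.Y) := by
    refine D.encl A B _ (fun Z hZ hZ1 hZ2 hZ3 => ?_) ⟨p a, w a, ?_⟩ ?_ seenB
    · refine sweep hp hw cu u0 (fun t ht => ?_) hZ (fun z hz t ht => ⟨?_, ?_⟩) ?_ ?_ hZ3
      · filter_upwards [loc t ht, self_mem_nhdsWithin] with t' k1 k2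
        have := side t ht t' k2 _ (D.I_sub B (sI t ht)) _ (u0 t ht) (h t ht).2.2.1
        rw [(h t ht).2.2.1] at this
        exact ⟨fun k => ⟨k1.1 k, this.1 k⟩, fun k => ⟨k1.2 k, this.2 k⟩⟩
      · rintro rfl
        rcases src t ht with k | k
        · exact disjoint_left.1 hZ2 hz (Or.inl k)
        · exact nY _ (hZ1 hz) k
      · rintro rfl
        exact disjoint_left.1 hZ2 hz (Or.inr ⟨s t, sI t ht, (h t ht).2.2.1⟩)
      · rintro z hz v v0 v1 rfl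
        refine nY _ (hZ1 hz) (ya ?_)
        rw [← s1, (h a ia).2.2.1]
        exact mem_openSegment_ray v0 v1
      · rintro z hz v v0 v1 rfl
        refine nY _ (hZ1 hz) (yb ?_)
        rw [← s2, (h b ib).2.2.1]
        exact mem_openSegment_ray v0 v1
    · rintro z ⟨t, ht, v, v0, v1, rfl⟩
      have ut := u0 t ht
      have e : S (w a) (p t + v * E (w t) - p a) = (1 - v / u t) * S (w a) (p t - p a) +
          v / u t * S (w a) (D.γ B (s t) - D.γ B (s a)) := by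
        have e0 : S (w a) (D.γ B (s t) - D.γ B (s a)) = S (w a) (D.γ B (s t) - p a) := by
          rw [(h a ia).2.2.1, ← sub_sub, S_sub _ (_ - _), S_mul_E]; simp
        rw [e0, ← S_mul, ← S_mul, ← S_add, (h t ht).2.2.1]
        congr 1
        have : (u t : ℂ) ≠ 0 := by exact_mod_cast ut.ne'
        push_cast
        field_simp
        ring
      have b1 := (abs_S_le (w a) _).trans (thin t ht)
      have i1 := D.I_sub B (sI t ht)
      have i2 := D.I_sub B (sI a ia)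
      have b2 : |S (w a) (D.γ B (s t) - D.γ B (s a))| ≤ D.l :=
        (abs_S_le (w a) _).trans ((norm_γ_sub i2 i1).trans (by
          rw [abs_le]; constructor <;> linarith [D.len B, i1.1, i1.2, i2.1, i2.2]))
      have l0 : 0 ≤ v / u t := by positivity
      have l1 : 0 ≤ 1 - v / u t := by rw [sub_nonneg, div_le_one ut]; exact v1.le
      rw [e, abs_le] at *
      constructor <;> nlinarith [b1.1, b1.2, b2.1, b2.2]
    · rcases seen with rfl | seen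
      · exact seenB
      · rintro z ⟨t, ht, v, v0, v1, rfl⟩
        obtain ⟨x, k1, k2, k3⟩ := seen t ht
        exact ⟨x.1, k1.1, x.2, k1.2, v, v0, by rw [k2, k3]; rfl⟩
  have hY := swept_subset hp hw cu u0 hab D.isOpen hd (ya (by
    rw [← s1, (h a ia).2.2.1]
    exact mem_openSegment_ray (by linarith [u0 a ia]) (by linarith [u0 a ia])))
  refine ⟨s, u, cs, cu, s1, s2, fun t ht => ⟨(h t ht).1, u0 t ht, (h t ht).2.2.1, (h t ht).2.2.2,
    fun z hz => hY ?_⟩⟩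
  rw [(h t ht).2.2.1] at hz
  obtain ⟨v, v0, v1, e⟩ := of_mem_openSegment_ray (u0 t ht) hz
  exact ⟨t, ht, v, v0, v1, e⟩

theorem path {A : ι} {x y : ℝ × ℝ} (hx : D.Rg A x) (hy : D.Rg A y) :
    ∃ (X : ℝ → ℝ × ℝ) (μ : ℝ → ℝ), Continuous X ∧ X 0 = x ∧ X 1 = y ∧ MonotoneOn μ (Icc 0 1) ∧
      ∀ t ∈ Icc (0 : ℝ) 1, μ t ∈ Icc (0 : ℝ) 1 ∧ D.Rg A (X t) ∧ (X t).1 = x.1 + t * (y.1 - x.1) ∧
        D.om A (X t) = D.om A x + μ t * (D.om A y - D.om A x) ∧
        D.om A (R (X t)) = D.om A (R x) + μ t * (D.om A (R y) - D.om A (R x)) := by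
  have cA := D.cθ A
  have rI : ∀ t ∈ Icc (0 : ℝ) 1, x.1 + t * (y.1 - x.1) ∈ D.I A := by
    intro t ht
    rcases le_total x.1 y.1 with h | h
    · exact I_conn hx.1 hy.1 (by nlinarith [ht.1]) (by nlinarith [ht.2])
    · exact I_conn hy.1 hx.1 (by nlinarith [ht.2]) (by nlinarith [ht.1])
  obtain ⟨μ, cμ, μ0, μ1, mono, hθ⟩ : ∃ μ : ℝ → ℝ, Continuous μ ∧ μ 0 = 0 ∧ μ 1 = 1 ∧
      MonotoneOn μ (Icc 0 1) ∧ ∀ t, D.θ A (x.1 + t * (y.1 - x.1)) =
        D.θ A x.1 + μ t * (D.θ A y.1 - D.θ A x.1) := by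
    rcases eq_or_ne x.1 y.1 with h | h
    · exact ⟨id, continuous_id, rfl, rfl, monotone_id.monotoneOn _, fun t => by simp [h]⟩
    have hne : D.θ A y.1 - D.θ A x.1 ≠ 0 := fun h' => h (θ_inj hx.st.1 hy.st.1 (by linarith))
    refine ⟨fun t => (D.θ A (x.1 + t * (y.1 - x.1)) - D.θ A x.1) / (D.θ A y.1 - D.θ A x.1),
      by fun_prop, by simp, by simp [hne], fun t ht t' ht' h' => ?_, fun t => by field_simp; ring⟩
    rcases lt_or_gt_of_ne h with h | h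
    · have := θ_smono hx.st.1 hy.st.1 h
      have := θ_mono (D.I_sub A (rI t ht)) (D.I_sub A (rI t' ht')) (by nlinarith)
      exact div_le_div_of_nonneg_right (by linarith) (by linarith)
    · have := θ_smono hy.st.1 hx.st.1 h
      have := θ_mono (D.I_sub A (rI t' ht')) (D.I_sub A (rI t ht)) (by nlinarith)
      exact div_le_div_of_nonpos_of_le (by linarith) (by linarith)
  refine ⟨fun t => (x.1 + t * (y.1 - x.1), x.2 + μ t * (y.2 - x.2)), μ, by fun_prop,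
    by simp [μ0], by simp [μ1], mono, fun t ht => ?_⟩
  have m0 : 0 ≤ μ t := μ0 ▸ mono ⟨le_rfl, zero_le_one⟩ ht ht.1
  have m1 : μ t ≤ 1 := μ1 ▸ mono ht ⟨zero_le_one, le_rfl⟩ ht.2
  refine ⟨⟨m0, m1⟩, ⟨rI t ht, ?_⟩, rfl, ?_, ?_⟩
  · have := convex_Ioo (-π) (0 : ℝ) hx.2 hy.2 (sub_nonneg.2 m1) m0 (by ring)
    simp only [smul_eq_mul] at this
    rwa [show (1 - μ t) * x.2 + μ t * y.2 = x.2 + μ t * (y.2 - x.2) by ring] at this
  · simp only [om, hθ]; ring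
  · simp only [om, R_fst, R_snd, hθ]; ring

theorem path_dle {A : ι} {x y : ℝ × ℝ} (hx : D.Rg A x) (hy : D.Rg A y) (h : D.Dle A x y) :
    ∃ X : ℝ → ℝ × ℝ, Continuous X ∧ X 0 = x ∧ X 1 = y ∧ (∀ t ∈ Icc (0 : ℝ) 1, D.Rg A (X t)) ∧
      ∀ t ∈ Icc (0 : ℝ) 1, ∀ t' ∈ Icc (0 : ℝ) 1, t ≤ t' → D.Dle A (X t) (X t') := by
  obtain ⟨X, μ, c, x0, x1, mono, hX⟩ := path hx hy
  refine ⟨X, c, x0, x1, fun t ht => (hX t ht).2.1, fun t ht t' ht' h' => ⟨?_, ?_⟩⟩
  · rw [(hX t ht).2.2.1, (hX t' ht').2.2.1]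
    nlinarith [h.1]
  · rw [(hX t ht).2.2.2.1, (hX t' ht').2.2.2.1]
    nlinarith [h.2, mono ht ht' h']

theorem Dle.trans {A : ι} {x y z : ℝ × ℝ} (h : D.Dle A x y) (h' : D.Dle A y z) : D.Dle A x z :=
  ⟨h.1.trans h'.1, h.2.trans h'.2⟩

/-- The sandwich lemma for one link. -/
theorem RL.sandwich {A B : ι} {x y x' y' z : ℝ × ℝ} (h : D.RL A B x y) (h' : D.RL A B x' y')
    (hz : D.Rg A z) (h1 : D.Dle A x z) (h2 : D.Dle A z x') : ∃ z', D.RL A B z z' := by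
  obtain ⟨X1, c1, a0, a1, r1, m1⟩ := path_dle h.2.1 hz h1
  obtain ⟨X2, c2, b0, b1, r2, m2⟩ := path_dle hz h'.2.1 h2
  set X : ℝ → ℝ × ℝ := fun t => X1 (min t 1) + X2 (max t 1 - 1) - z with hX
  have cX : Continuous X := by fun_prop
  have e1 : ∀ t, t ≤ 1 → X t = X1 t := fun t ht => by
    simp only [hX]; rw [min_eq_left ht, max_eq_right ht, sub_self, b0]; simp
  have e2 : ∀ t, 1 ≤ t → X t = X2 (t - 1) := fun t ht => by
    simp only [hX]; rw [min_eq_right ht, max_eq_left ht, a1]; simp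
  have X0 : X 0 = x := by rw [e1 0 zero_le_one, a0]
  have X1' : X 1 = z := by rw [e1 1 le_rfl, a1]
  have X2' : X 2 = x' := by rw [e2 2 one_le_two, ← b1]; norm_num
  have rg : ∀ t ∈ Icc (0 : ℝ) 2, D.Rg A (X t) := by
    intro t ht
    rcases le_total t 1 with k | k
    · rw [e1 t k]; exact r1 t ⟨ht.1, k⟩
    · rw [e2 t k]; exact r2 _ ⟨by linarith, by linarith [ht.2]⟩
  have mono : ∀ t ∈ Icc (0 : ℝ) 2, ∀ t' ∈ Icc (0 : ℝ) 2, t ≤ t' → D.Dle A (X t) (X t') := by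
    intro t ht t' ht' k
    rcases le_total t 1 with k1 | k1 <;> rcases le_total t' 1 with k2 | k2
    · rw [e1 t k1, e1 t' k2]; exact m1 t ⟨ht.1, k1⟩ t' ⟨ht'.1, k2⟩ k
    · rw [e1 t k1, e2 t' k2]
      have q1 := m1 t ⟨ht.1, k1⟩ 1 ⟨zero_le_one, le_rfl⟩ k1
      have q2 := m2 0 ⟨le_rfl, zero_le_one⟩ (t' - 1) ⟨by linarith, by linarith [ht'.2]⟩
        (by linarith)
      rw [a1] at q1; rw [b0] at q2
      exact q1.trans q2
    · have : t = t' := by linarith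
      rw [this]; exact ⟨le_rfl, le_rfl⟩
    · rw [e2 t k1, e2 t' k2]
      exact m2 _ ⟨by linarith, by linarith [ht.2]⟩ _ ⟨by linarith, by linarith [ht'.2]⟩
        (by linarith)
  have i0 : (0 : ℝ) ∈ Icc (0 : ℝ) 2 := ⟨le_rfl, zero_le_two⟩
  have i1 : (1 : ℝ) ∈ Icc (0 : ℝ) 2 := ⟨zero_le_one, one_le_two⟩
  have i2 : (2 : ℝ) ∈ Icc (0 : ℝ) 2 := ⟨zero_le_two, le_rfl⟩
  have wi : ∀ t ∈ Icc (0 : ℝ) 2, |D.om A (X t) - D.ν A B| < π / 2 := by
    intro t ht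
    have q1 := (mono 0 i0 t ht ht.1).2
    have q2 := (mono t ht 2 i2 ht.2).2
    rw [X0] at q1; rw [X2'] at q2
    have w1 := abs_lt.1 h.1.wi'
    have w2 := abs_lt.1 h'.1.wi'
    rw [abs_lt]; constructor <;> linarith [w1.1, w2.2]
  set w : ℝ → ℝ := fun t => D.om A (X t) - D.ν A B + D.ν B A + π with hw
  have Ew : ∀ t, E (w t) = E (D.om A (X t)) := fun t => by
    simp only [hw]
    rw [E_add_pi, E_of_ang h.1.ne (a := D.om A (X t)) (by ring), neg_neg]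
  have wy : w 0 = D.θ B y.1 - y.2 := by
    have := h.1.ang
    simp only [hw, X0]; simp only [om, R_fst, R_snd] at this ⊢; linarith
  have wy' : w 2 = D.θ B y'.1 - y'.2 := by
    have := h'.1.ang
    simp only [hw, X2']; simp only [om, R_fst, R_snd] at this ⊢; linarith
  obtain ⟨τ, t0, e⟩ := h.tau
  obtain ⟨τ', t0', e'⟩ := h'.tau
  have cA := D.cγ A
  have cθ := D.cθ A
  obtain ⟨s, u, -, -, -, -, hs⟩ := fan (D := D) (A := A) (B := B) (p := fun t => D.γ A (X t).1)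
    (w := w) (a := 0) (b := 2) (sa := y.1) (sb := y'.1) (ua := τ) (ub := τ') zero_le_two
    (by fun_prop) (by simp only [hw]; fun_prop)
    (fun t ht => ⟨by simp only [hw]; linarith [(mono 0 i0 t ht ht.1).2],
      by simp only [hw]; linarith [(mono t ht 2 i2 ht.2).2]⟩)
    h.2.2.1.1 h'.2.2.1.1 (h.1.ci h'.1 (h1.trans h2)) t0 t0' (by rw [Ew, X0]; exact e)
    (by rw [Ew, X2']; exact e') (by rw [wy]; linarith [h.2.2.1.2.2])
    (by rw [wy']; linarith [h'.2.2.1.2.1])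
    (fun t ht t' ht' s hs u u0 k => by
      rw [Ew] at k
      rw [S_congr (Ew t')]
      exact ⟨fun q => side h.1.ne (rg t ht).st (rg t' ht').st hs u0.le k (wi t ht) (wi t' ht')
        (mono t ht t' ht' q), fun q => side' h.1.ne (rg t ht).st (rg t' ht').st hs u0.le k
          (wi t ht) (wi t' ht') (mono t' ht' t ht q)⟩)
    (fun t ht s hs => D.disj1 A B h.1.ne _ (rg t ht).1 s hs)
    (fun t ht => by
      have o1 : ∀ᶠ t' in 𝓝 t, 0 < D.θ A (X t).1 - D.om A (X t') :=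
        (isOpen_lt continuous_const (by fun_prop)).mem_nhds (by
          simp only [om, mem_setOf_eq]; linarith [(rg t ht).2.2])
      have o2 : ∀ᶠ t' in 𝓝 t, D.θ A (X t).1 - D.om A (X t') < π :=
        (isOpen_lt (by fun_prop) continuous_const).mem_nhds (by
          simp only [om, mem_setOf_eq]; linarith [(rg t ht).2.1])
      filter_upwards [mem_nhdsWithin_of_mem_nhds o1, mem_nhdsWithin_of_mem_nhds o2,
        self_mem_nhdsWithin] with t' k1 k2 ht'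
      rw [S_congr (Ew t')]
      refine ⟨fun q => ?_, fun q => ?_⟩
      · obtain ⟨l, α, l0, -, q3, q4, q5⟩ := chord' (rg t ht).st.1 (rg t' ht').st.1
          (mono t ht t' ht' q).1
        rw [q5, show D.γ A (X t).1 - (D.γ A (X t).1 + l * E α) = -(l * E α) by ring, S_neg,
          S_mul_E, neg_nonpos]
        refine mul_nonneg l0 (sin_nn (by linarith) ?_)
        simp only [om]; linarith [(rg t' ht').2.1]
      · obtain ⟨l, α, l0, -, q3, q4, q5⟩ := chord' (rg t' ht').st.1 (rg t ht).st.1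
          (mono t' ht' t ht q).1
        rw [q5, add_sub_cancel_left, S_mul_E]
        refine mul_nonneg l0 (sin_nn ?_ (by linarith))
        simp only [om]; linarith [(rg t' ht').2.2])
    (fun t ht => Or.inl ⟨_, (rg t ht).1, rfl⟩)
    (fun t ht => (norm_γ_sub (rg 0 i0).st.1 (rg t ht).st.1).trans (by
      have k1 := (rg 0 i0).st.1
      have k2 := (rg t ht).st.1
      rw [abs_le]; constructor <;> linarith [D.len A, k1.1, k1.2, k2.1, k2.2]))
    (Or.inr fun t ht => ⟨X t, (rg t ht).st, rfl, Ew t⟩)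
    (by rw [X0]; exact h.2.2.2) (by rw [X2']; exact h'.2.2.2)
  obtain ⟨k1, k2, k3, k4, k5⟩ := hs 1 i1
  simp only [X1'] at k3 k5
  have rz : D.Rg B (s 1, D.θ B (s 1) - w 1) :=
    ⟨I_conn h'.2.2.1.1 h.2.2.1.1 k1.1 k1.2, by linarith [k4.2], by linarith [k4.1]⟩
  have Ez := Ew 1
  rw [X1'] at Ez
  refine ⟨_, mkGk h.1.ne hz.st rz.st k2 (by rw [← Ez]; exact k3) ?_, hz, rz, k5⟩
  rw [← Ez]; congr 1; ring

end Sys

end Pool.Agent.Lib.MP_fd11a7_an
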