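import Mathlib
import Pool.Agent.Lib.MP_fd11a7_an.Fan

set_option autoImplicit false

open Set Real Filter Topology

namespace Pool.Agent.Lib.MP_fd11a7_an

namespace Sys

variable {ι : Type} (D : Sys ι)

/-- Sandwiched in the dispersing order. -/
def Sw (A : ι) (x z y : ℝ × ℝ) : Prop :=
  (D.Dle A x z ∧ D.Dle A z y) ∨ (D.Dle A y z ∧ D.Dle A z x)

/-- Pairs of end points realised by real chains. -/
def Dw (w : ℤ → ι) (a b : ℤ) : Set (ℝ × ℝ) :=
  {c | ∃ z, D.RC w a b z ∧ (z a).1 = c.1 ∧ (z b).1 = c.2}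

variable {D}

theorem Sw.mem {A : ι} {x z y : ℝ × ℝ} (h : D.Sw A x z y) : z.1 ∈ uIcc x.1 y.1 :=
  mem_uIcc.2 (h.imp (fun k => ⟨k.1.1, k.2.1⟩) fun k => ⟨k.1.1, k.2.1⟩)

theorem RC.glue {w : ℤ → ι} {a j b : ℤ} {x y : ℤ → ℝ × ℝ} (hx : D.RC w a j x) (hy : D.RC w j b y)
    (e : x j = y j) : D.RC w a b (fun n => if n ≤ j then x n else y n) := by
  intro n h1 h2
  rcases lt_or_ge n j with h | h
  · simp only [if_pos h.le, if_pos (show n + 1 ≤ j by omega)]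
    exact hx n h1 h
  · simp only [if_neg (show ¬ n + 1 ≤ j by omega)]
    split_ifs with h'
    · obtain rfl : n = j := le_antisymm h' h
      rw [e]; exact hy n le_rfl h2
    · exact hy n h h2

theorem RC.ext_fwd {w : ℤ → ι} {a b : ℤ} {x y : ℤ → ℝ × ℝ} (hab : a ≤ b) (hx : D.RC w a b x)
    (hy : D.RC w a b y) {z : ℝ × ℝ} (hz : D.Rg (w a) z) (h : D.Sw (w a) (x a) z (y a)) :
    ∃ c, c a = z ∧ D.RC w a b c ∧ D.Rg (w b) (c b) ∧ D.Sw (w b) (x b) (c b) (y b) := by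
  induction b, hab using Int.le_induction with
  | base => exact ⟨fun _ => z, rfl, fun n h1 h2 => by omega, hz, h⟩
  | succ b hab ih =>
    obtain ⟨c, c1, c2, c3, c4⟩ := ih (hx.sub le_rfl (by omega)) (hy.sub le_rfl (by omega))
    have x1 := hx b hab (by omega)
    have y1 := hy b hab (by omega)
    obtain ⟨z', hz', k⟩ : ∃ z', D.RL (w b) (w (b + 1)) (c b) z' ∧
        D.Sw (w (b + 1)) (x (b + 1)) z' (y (b + 1)) := by
      rcases c4 with ⟨k1, k2⟩ | ⟨k1, k2⟩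
      · obtain ⟨z', hz'⟩ := x1.sandwich y1 c3 k1 k2
        exact ⟨z', hz', Or.inr ⟨hz'.1.dle y1.1 k2, x1.1.dle hz'.1 k1⟩⟩
      · obtain ⟨z', hz'⟩ := y1.sandwich x1 c3 k1 k2
        exact ⟨z', hz', Or.inl ⟨hz'.1.dle x1.1 k2, y1.1.dle hz'.1 k1⟩⟩
    have m : D.RC w b (b + 1) (fun n => if n ≤ b then c b else z') := fun n h1 h2 => by
      obtain rfl : n = b := by omega
      simpa using hz'
    refine ⟨_, by simp only [if_pos hab, c1], c2.glue m (by simp), ?_, ?_⟩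
    · simpa using hz'.2.2.1
    · simpa using k

theorem RC.ext_fwd' {w : ℤ → ι} {a b : ℤ} {x y : ℤ → ℝ × ℝ} (hab : a ≤ b) (hx : D.RC w a b x)
    (hy : D.RC w a b y) {z : ℝ × ℝ} (hz : D.Rg (w a) z)
    (h : (a = b ∧ z.1 ∈ uIcc (x a).1 (y a).1) ∨ D.Sw (w a) (x a) z (y a)) :
    ∃ c, c a = z ∧ D.RC w a b c ∧ (c b).1 ∈ uIcc (x b).1 (y b).1 := by
  rcases h with ⟨rfl, h⟩ | h
  · exact ⟨fun _ => z, rfl, fun n h1 h2 => by omega, h⟩
  · obtain ⟨c, c1, c2, -, c4⟩ := hx.ext_fwd hab hy hz h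
    exact ⟨c, c1, c2, c4.mem⟩

theorem RC.ext_bwd' {w : ℤ → ι} {a b : ℤ} {x y : ℤ → ℝ × ℝ} (hab : a ≤ b) (hx : D.RC w a b x)
    (hy : D.RC w a b y) {z : ℝ × ℝ} (hz : D.Rg (w b) z)
    (h : (a = b ∧ z.1 ∈ uIcc (x b).1 (y b).1) ∨ D.Sw (w b) (R (x b)) (R z) (R (y b))) :
    ∃ c, c b = z ∧ D.RC w a b c ∧ (c a).1 ∈ uIcc (x a).1 (y a).1 := by
  obtain ⟨c, c1, c2, c3⟩ := hx.rev.ext_fwd' (by omega) hy.rev (z := R z) (by simpa using hz.rev)
    (by simpa using h.imp_left fun k => ⟨k.1.symm, k.2⟩)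
  refine ⟨fun n => R (c (-n)), by simp [c1], by simpa using c2.rev, by simpa using c3⟩

/-- Connectivity of the set of realised end points. -/
def Conn (w : ℤ → ι) (a b : ℤ) (x y : ℤ → ℝ × ℝ) : Prop :=
  ∃ Z : Set (ℝ × ℝ), IsPreconnected Z ∧ ((x a).1, (x b).1) ∈ Z ∧ ((y a).1, (y b).1) ∈ Z ∧
    ∀ c ∈ Z, c ∈ D.Dw w a b ∧ c.1 ∈ uIcc (x a).1 (y a).1 ∧ c.2 ∈ uIcc (x b).1 (y b).1

theorem Conn.symm {w : ℤ → ι} {a b : ℤ} {x y : ℤ → ℝ × ℝ} (h : Conn (D := D) w a b x y) :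
    Conn (D := D) w a b y x := by
  obtain ⟨Z, h1, h2, h3, h4⟩ := h
  exact ⟨Z, h1, h3, h2, fun c hc => by
    rw [uIcc_comm (y a).1, uIcc_comm (y b).1]; exact h4 c hc⟩

theorem conn_of {w : ℤ → ι} {a b j : ℤ} {x y : ℤ → ℝ × ℝ} (hx : D.RC w a b x)
    (hy : D.RC w a b y) (h1 : a ≤ j) (h2 : j ≤ b) {P : ℝ → ℝ × ℝ} (cP : Continuous P) {t0 t1 : ℝ}
    (ht : t0 ≤ t1) (p0 : P t0 = x j) (p1 : P t1 = y j)
    (h : ∀ t ∈ Icc t0 t1, ∃ z, D.RC w a b z ∧ z j = P t ∧ (z a).1 ∈ uIcc (x a).1 (y a).1 ∧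
      (z b).1 ∈ uIcc (x b).1 (y b).1) : Conn (D := D) w a b x y := by
  choose! z z1 z2 z3 z4 using h
  have cont : ∀ n, a ≤ n → n ≤ b → ContinuousOn (fun t => z t n) (Icc t0 t1) := by
    intro n n1 n2 t ht
    refine GC.tendsto_of_state (D := D) (w := w) (j := j)
      (eventually_mem_nhdsWithin.mono fun s hs => (z1 s hs).gc) (z1 t ht).gc h1 h2 ?_ n1 n2
    rw [z2 t ht]
    exact (cP.continuousWithinAt (s := Icc t0 t1) (x := t)).tendsto.congr'
      (eventually_mem_nhdsWithin.mono fun s hs => (z2 s hs).symm)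
  have hab : a ≤ b := h1.trans h2
  refine ⟨(fun t => ((z t a).1, (z t b).1)) '' Icc t0 t1, isPreconnected_Icc.image _
    ((cont a le_rfl hab).fst.prodMk (cont b hab le_rfl).fst), ⟨t0, ⟨le_rfl, ht⟩, ?_⟩,
    ⟨t1, ⟨ht, le_rfl⟩, ?_⟩, ?_⟩
  · have := fun n => (z1 t0 ⟨le_rfl, ht⟩).gc.eq_all hx.gc h1 h2 ((z2 t0 ⟨le_rfl, ht⟩).trans p0)
      (n := n)
    simp only [this a le_rfl hab, this b hab le_rfl]
  · have := fun n => (z1 t1 ⟨ht, le_rfl⟩).gc.eq_all hy.gc h1 h2 ((z2 t1 ⟨ht, le_rfl⟩).trans p1)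
      (n := n)
    simp only [this a le_rfl hab, this b hab le_rfl]
  · rintro _ ⟨t, ht, rfl⟩
    exact ⟨⟨z t, z1 t ht, rfl, rfl⟩, z3 t ht, z4 t ht⟩

theorem sw_of {A : ι} {x y z : ℝ × ℝ} {t μ : ℝ} (h : D.Dc A x y) (ht : t ∈ Icc (0 : ℝ) 1)
    (hμ : μ ∈ Icc (0 : ℝ) 1) (e1 : z.1 = x.1 + t * (y.1 - x.1))
    (e2 : D.om A z = D.om A x + μ * (D.om A y - D.om A x)) : D.Sw A x z y := by
  unfold Sw Dle
  rw [e1, e2]
  rcases h with h | h
  · left
    refine ⟨⟨?_, ?_⟩, ?_, ?_⟩ <;> nlinarith [h.1, h.2, ht.1, ht.2, hμ.1, hμ.2]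
  · right
    refine ⟨⟨?_, ?_⟩, ?_, ?_⟩ <;> nlinarith [h.1, h.2, ht.1, ht.2, hμ.1, hμ.2]

theorem conn_waist {w : ℤ → ι} {a b j : ℤ} {x y : ℤ → ℝ × ℝ} (hab : a < b) (hx : D.RC w a b x)
    (hy : D.RC w a b y) (h1 : a ≤ j) (h2 : j ≤ b) (f : j = b ∨ D.Dc (w j) (x j) (y j))
    (g : a = j ∨ D.Dc (w j) (R (x j)) (R (y j))) : Conn (D := D) w a b x y := by
  obtain ⟨X, μ, c, x0, x1, -, hX⟩ := path (hx.rg hab h1 h2) (hy.rg hab h1 h2)
  refine conn_of hx hy h1 h2 c zero_le_one x0 x1 fun t ht => ?_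
  obtain ⟨k1, k2, k3, k4, k5⟩ := hX t ht
  have bt : (X t).1 ∈ uIcc (x j).1 (y j).1 := by
    rw [k3, mem_uIcc]
    rcases le_total (x j).1 (y j).1 with h | h
    · left; constructor <;> nlinarith [ht.1, ht.2]
    · right; constructor <;> nlinarith [ht.1, ht.2]
  obtain ⟨c1, a1, a2, a3⟩ := (hx.sub h1 le_rfl).ext_fwd' h2 (hy.sub h1 le_rfl) k2
    (f.imp (fun k => ⟨k, bt⟩) fun k => sw_of k ht k1 k3 k4)
  obtain ⟨c2, b1, b2, b3⟩ := (hx.sub le_rfl h2).ext_bwd' h1 (hy.sub le_rfl h2) k2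
    (g.imp (fun k => ⟨k, bt⟩) fun k => sw_of k ht k1 k3 k5)
  refine ⟨_, b2.glue a2 (b1.trans a1.symm), by simp [b1], by simpa [h1] using b3, ?_⟩
  split_ifs with h
  · obtain rfl : j = b := le_antisymm h2 h
    rw [b1]; exact bt
  · exact a3

theorem RL.cross {A B : ι} {x x' y y' : ℝ × ℝ} (hx : D.RL A B x x') (hy : D.RL A B y y')
    (h1 : x.1 < y.1) (h2 : D.om A y < D.om A x) (h3 : x'.1 < y'.1) :
    ∃ P P' : ℝ → ℝ × ℝ, Continuous P ∧ P (D.om A y) = y ∧ P (D.om A x) = x ∧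
      ∀ t ∈ Icc (D.om A y) (D.om A x), D.RL A B (P t) (P' t) ∧ D.Sw B x' (P' t) y' ∧
        D.Sw A (R x) (R (P t)) (R y) := by
  obtain ⟨τ, t0, e⟩ := hx.tau
  obtain ⟨τ', t0', e'⟩ := hy.tau
  obtain ⟨l, α, l0, -, α1, α2, eA⟩ := D.chord A _ hx.1.st1.1 _ hy.1.st1.1 h1
  obtain ⟨ρ, β, r0, -, β1, β2, eB⟩ := D.chord B _ hx.1.st2.1 _ hy.1.st2.1 h3
  set a := D.om A y with ha
  set b := D.om A x with hb
  have dab : b - a < π := by
    have := abs_le.1 (hy.1.diff_le hx.1)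
    linarith [this.2, D.η_pos]
  set w : ℝ → ℝ := fun t => t - D.ν A B + D.ν B A + π with hw
  have Ew : ∀ t, E (w t) = E t := fun t => by
    simp only [hw]
    rw [E_add_pi, E_of_ang hx.1.ne (a := t) (by ring), neg_neg]
  have wx : w b = D.θ B x'.1 - x'.2 := by
    have := hx.1.ang
    simp only [hw, hb]; simp only [om, R_fst, R_snd] at this ⊢; linarith
  have wy : w a = D.θ B y'.1 - y'.2 := by
    have := hy.1.ang
    simp only [hw, ha]; simp only [om, R_fst, R_snd] at this ⊢; linarith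
  have wab : w b - w a = b - a := by simp only [hw]; ring
  have x1 := hx.2.1.2
  have x2 := hx.2.2.1.2
  have y1 := hy.2.1.2
  have y2 := hy.2.2.1.2
  have hb' : b = D.θ A x.1 + x.2 := rfl
  have ha' : a = D.θ A y.1 + y.2 := rfl
  have s0 : 0 < sin (b - a) := sin_pos' (by linarith) dab
  have s1 : 0 < sin (α - a) := sin_pos' (by linarith [x1.2]) (by linarith [y1.1])
  have s2 : 0 < sin (α - b) := sin_pos' (by linarith [x1.2]) (by linarith [y1.1])
  have s3 : sin (β - w a) < 0 := sin_neg' (by linarith [y2.2]) (by linarith [x2.1])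
  have s4 : sin (β - w b) < 0 := sin_neg' (by linarith [y2.2]) (by linarith [x2.1])
  have quad : (l : ℂ) * E α + τ' * E a = τ * E b + ρ * E β := by
    rw [e, e', eA] at eB; linear_combination eB
  have q1 := congrArg (S a) quad
  have q2 := congrArg (S b) quad
  rw [S_add, S_add, S_mul_E, S_mul_E, S_mul_E, ← S_congr (Ew a), S_mul_E] at q1
  rw [S_add, S_add, S_mul_E, S_mul_E, S_mul_E, ← S_congr (Ew b), S_mul_E] at q2
  rw [sub_self, sin_zero] at q1 q2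
  rw [← neg_sub b a, sin_neg] at q2
  set u := l * sin (α - a) / sin (b - a) with hu
  set u' := l * sin (α - b) / sin (b - a) with hu'
  have u0 : 0 < u := by positivity
  have u0' : 0 < u' := by positivity
  have u1 : u < τ := by rw [hu, div_lt_iff₀ s0]; nlinarith
  have u1' : u' < τ' := by rw [hu', div_lt_iff₀ s0]; nlinarith
  set o : ℂ := D.γ A x.1 + u * E b with ho
  have ho' : o = D.γ A y.1 + u' * E a := by
    have k1 : u * sin (b - a) = l * sin (α - a) := by rw [hu]; field_simp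
    have k2 : u' * sin (b - a) = l * sin (α - b) := by rw [hu']; field_simp
    have : (u : ℂ) * E b = l * E α + u' * E a := by
      apply Complex.ext
      · simp only [Complex.add_re, Complex.re_ofReal_mul, E_re]
        apply mul_right_cancel₀ s0.ne'
        have : cos α * sin (b - a) = sin (α - a) * cos b - sin (α - b) * cos a := by
          simp only [sin_sub]
          linear_combination (0 : ℝ)
        linear_combination cos b * k1 - cos a * k2 - l * this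
      · simp only [Complex.add_im, Complex.im_ofReal_mul, E_im]
        apply mul_right_cancel₀ s0.ne'
        have : sin α * sin (b - a) = sin (α - a) * sin b - sin (α - b) * sin a := by
          simp only [sin_sub]
          linear_combination (0 : ℝ)
        linear_combination sin b * k1 - sin a * k2 - l * this
    rw [ho, eA, this]; ring
  have oY : o ∈ D.Y := hx.2.2.2 (by rw [e]; exact mem_openSegment_ray u0 u1)
  have sd : ∀ {C : ι} {v : ℝ → ℝ}, (∀ t t', v t - v t' = t - t') → ∀ t ∈ Icc a b, ∀ t' ∈ Icc a b,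
      ∀ s ∈ Icc (D.lo C) (D.hi C), ∀ u : ℝ, 0 < u → D.γ C s = o + u * E (v t) →
      (t ≤ t' → S (v t') (D.γ C s - o) ≤ 0) ∧ (t' ≤ t → 0 ≤ S (v t') (D.γ C s - o)) := by
    intro C v hv t ht t' ht' s _ u u0 k
    rw [k, add_sub_cancel_left, S_mul_E, hv]
    refine ⟨fun q => ?_, fun q => mul_nonneg u0.le (sin_nn (by linarith)
      (by linarith [ht.2, ht'.1]))⟩
    rw [← neg_sub, sin_neg, mul_neg, neg_nonpos]
    exact mul_nonneg u0.le (sin_nn (by linarith) (by linarith [ht.1, ht'.2]))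
  have l0' : 0 ≤ D.l := by linarith [D.len A, hx.1.st1.1.1, hx.1.st1.1.2]
  have sub : ∀ {p v : ℂ} {u τ : ℝ}, 0 < u → u < τ → openSegment ℝ p (p + τ * v) ⊆ D.Y →
      openSegment ℝ (p + u * v) (p + τ * v) ⊆ D.Y ∧ openSegment ℝ (p + u * v) p ⊆ D.Y := by
    intro p v u τ u0 u1 h
    constructor
    · intro z hz
      rw [show p + τ * v = p + u * v + (τ - u : ℝ) * v by push_cast; ring] at hz
      obtain ⟨c, c0, c1, rfl⟩ := of_mem_openSegment_ray (sub_pos.2 u1) hz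
      rw [show p + u * v + c * v = p + (u + c : ℝ) * v by push_cast; ring]
      exact h (mem_openSegment_ray (by linarith) (by linarith))
    · intro z hz
      rw [openSegment_symm] at hz
      obtain ⟨c, c0, c1, rfl⟩ := of_mem_openSegment_ray u0 hz
      exact h (mem_openSegment_ray c0 (by linarith))
  have Yx := sub u0 u1 (e ▸ hx.2.2.2)
  have Yy := sub u0' u1' (e' ▸ hy.2.2.2)
  rw [← ho, ← e] at Yx
  rw [← ho', ← e'] at Yy
  obtain ⟨sB, uB, -, -, -, -, hB⟩ := fan (D := D) (A := B) (B := B) (p := fun _ => o) (w := w)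
    (a := a) (b := b) (sa := y'.1) (sb := x'.1) (ua := τ' - u') (ub := τ - u) h2.le
    continuous_const (by simp only [hw]; fun_prop)
    (fun t ht => by simp only [hw]; constructor <;> linarith [ht.1, ht.2])
    hy.2.2.1.1 hx.2.2.1.1 h3.le (by linarith) (by linarith)
    (by rw [Ew, e', ho']; push_cast; ring) (by rw [Ew, e, ho]; push_cast; ring)
    (by linarith [y2.2]) (by linarith [x2.1]) (sd fun t t' => by simp only [hw]; ring)
    (fun t _ s hs k => γ_not_mem (D.I_sub B hs) (k ▸ oY))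
    (fun t _ => Eventually.of_forall fun t' => by simp [S_zero]) (fun _ _ => Or.inr oY)
    (fun _ _ => by simpa using l0') (Or.inl rfl) Yy.1 Yx.1
  obtain ⟨sA, uA, cA, -, A1, A2, hA⟩ := fan (D := D) (A := A) (B := A) (p := fun _ => o)
    (w := fun t => t + π) (a := a) (b := b) (sa := y.1) (sb := x.1) (ua := u') (ub := u) h2.le
    continuous_const (by fun_prop)
    (fun t ht => by constructor <;> linarith [ht.1, ht.2])
    hy.2.1.1 hx.2.1.1 h1.le u0' u0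
    (by rw [E_add_pi, ho']; ring) (by rw [E_add_pi, ho]; ring)
    (by linarith [y1.1]) (by linarith [x1.2]) (sd fun t t' => by ring)
    (fun t _ s hs k => γ_not_mem (D.I_sub A hs) (k ▸ oY))
    (fun t _ => Eventually.of_forall fun t' => by simp [S_zero]) (fun _ _ => Or.inr oY)
    (fun _ _ => by simpa using l0') (Or.inl rfl) Yy.2 Yx.2
  have cθ := D.cθ A
  refine ⟨fun t => (sA t, t - D.θ A (sA t)), fun t => (sB t, D.θ B (sB t) - w t), by fun_prop,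
    Prod.ext A1 (by simp only [A1]; linarith), Prod.ext A2 (by simp only [A2]; linarith),
    fun t ht => ?_⟩
  obtain ⟨a1, a2, a3, a4, a5⟩ := hA t ht
  obtain ⟨b1, b2, b3, b4, b5⟩ := hB t ht
  have rA : D.Rg A (sA t, t - D.θ A (sA t)) :=
    ⟨I_conn hx.2.1.1 hy.2.1.1 a1.1 a1.2, by linarith [a4.1], by linarith [a4.2]⟩
  have rB : D.Rg B (sB t, D.θ B (sB t) - w t) :=
    ⟨I_conn hx.2.2.1.1 hy.2.2.1.1 b1.1 b1.2, by linarith [b4.2], by linarith [b4.1]⟩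
  have oA : D.om A (sA t, t - D.θ A (sA t)) = t := by simp [om]
  rw [E_add_pi] at a3
  rw [Ew] at b3
  have lk : D.γ B (sB t) = D.γ A (sA t) + (uA t + uB t : ℝ) * E t := by
    rw [a3, b3]; push_cast; ring
  refine ⟨⟨mkGk hx.1.ne rA.st rB.st (add_pos a2 b2) (by rw [oA]; exact lk)
    (by rw [oA, ← Ew t]; congr 1; ring), rA, rB, fun z hz => ?_⟩, Or.inl ⟨⟨b1.1, ?_⟩, b1.2, ?_⟩,
    Or.inl ⟨⟨a1.1, ?_⟩, a1.2, ?_⟩⟩
  · simp only at hz
    rw [lk] at hz
    obtain ⟨c, c0, c1, rfl⟩ := of_mem_openSegment_ray (add_pos a2 b2) hz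
    rcases lt_trichotomy c (uA t) with k | k | k
    · apply a5
      rw [a3, show o + uA t * -E t + c * E t = o + (uA t - c : ℝ) * -E t by push_cast; ring]
      exact mem_openSegment_ray (by linarith) (by linarith)
    · rw [a3, k]; simpa using oY
    · apply b5
      rw [a3, b3, show o + uA t * -E t + c * E t = o + (c - uA t : ℝ) * E t by push_cast; ring]
      exact mem_openSegment_ray (by linarith) (by linarith)
  · have := θ_mono hx.1.st2.1 rB.st.1 b1.1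
    have : w t ≤ w b := by simp only [hw]; linarith [ht.2]
    simp only [om] at *; linarith
  · have := θ_mono rB.st.1 hy.1.st2.1 b1.2
    have : w a ≤ w t := by simp only [hw]; linarith [ht.1]
    simp only [om] at *; linarith
  · have := θ_mono hx.1.st1.1 rA.st.1 a1.1
    rw [om_R, om_R, oA]; linarith [ht.2]
  · have := θ_mono rA.st.1 hy.1.st1.1 a1.2
    rw [om_R, om_R, oA]; linarith [ht.1]

theorem conn_cross {w : ℤ → ι} {a b j : ℤ} {x y : ℤ → ℝ × ℝ} (hx : D.RC w a b x)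
    (hy : D.RC w a b y) (h1 : a ≤ j) (h2 : j < b) (k1 : (x j).1 < (y j).1)
    (k2 : D.om (w j) (y j) < D.om (w j) (x j)) (k3 : (x (j + 1)).1 < (y (j + 1)).1) :
    Conn (D := D) w a b x y := by
  obtain ⟨P, P', c, p0, p1, hP⟩ := (hx j h1 h2).cross (hy j h1 h2) k1 k2 k3
  refine (conn_of hy hx h1 h2.le c k2.le p0 p1 fun t ht => ?_).symm
  obtain ⟨q1, q2, q3⟩ := hP t ht
  obtain ⟨c1, a1, a2, a3⟩ := (hx.sub (a' := j + 1) (by omega) le_rfl).ext_fwd' (by omega)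
    (hy.sub (by omega) le_rfl) q1.2.2.1 (Or.inr q2)
  obtain ⟨c2, b1, b2, b3⟩ := (hx.sub le_rfl h2.le).ext_bwd' h1 (hy.sub le_rfl h2.le) q1.2.1
    (Or.inr q3)
  have m : D.RC w j b (fun n => if n ≤ j then P t else c1 n) := fun n n1 n2 => by
    simp only [if_neg (show ¬ n + 1 ≤ j by omega)]
    split_ifs with h
    · obtain rfl : n = j := by omega
      rw [a1]; exact q1
    · exact a2 n (by omega) n2
  refine ⟨_, b2.glue m (by simp [b1]), by simp [b1], ?_, ?_⟩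
  · rw [uIcc_comm]; simpa [h1] using b3
  · rw [uIcc_comm]; simpa [not_le.2 h2] using a3

theorem conn {w : ℤ → ι} {a b : ℤ} {x y : ℤ → ℝ × ℝ} (hab : a < b) (hx : D.RC w a b x)
    (hy : D.RC w a b y) : Conn (D := D) w a b x y := by
  obtain ⟨j, ⟨j1, j2, j3⟩, jm⟩ := Int.exists_least_of_bdd
    (P := fun n => a ≤ n ∧ n ≤ b ∧ (n = b ∨ D.Dc (w n) (x n) (y n))) ⟨a, fun n h => h.1⟩
    ⟨b, hab.le, le_rfl, Or.inl rfl⟩
  by_cases g : a = j ∨ D.Dc (w j) (R (x j)) (R (y j))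
  · exact conn_waist hab hx hy j1 j2 j3 g
  push Not at g
  have nd : ¬ D.Dc (w (j - 1)) (x (j - 1)) (y (j - 1)) := fun h => by
    have := jm (j - 1) ⟨by omega, by omega, Or.inr h⟩
    omega
  have x1 := hx (j - 1) (by omega) (by omega)
  have y1 := hy (j - 1) (by omega) (by omega)
  have d := x1.1.omR_diff y1.1
  have g2 := g.2
  rw [← sub_add_cancel j 1] at g2
  simp only [Dc, Dle, not_or, not_and, not_le, R_fst] at nd g2
  rcases lt_trichotomy (x (j - 1)).1 (y (j - 1)).1 with h | h | h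
  · refine conn_cross (j := j - 1) hx hy (by omega) (by omega) h (nd.1 h.le) ?_
    by_contra k
    linarith [g2.2 (not_lt.1 k), nd.1 h.le]
  · linarith [nd.1 h.le, nd.2 h.ge]
  · refine (conn_cross (j := j - 1) hy hx (by omega) (by omega) h (nd.2 h.le) ?_).symm
    by_contra k
    linarith [g2.1 (not_lt.1 k), nd.2 h.le]

theorem conn_fst {w : ℤ → ι} {a b : ℤ} {x y : ℤ → ℝ × ℝ} (hab : a < b) (hx : D.RC w a b x)
    (hy : D.RC w a b y) {s : ℝ} (h1 : (x a).1 ≤ s) (h2 : s ≤ (y a).1) :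
    ∃ z, D.RC w a b z ∧ (z a).1 = s ∧ (z b).1 ∈ uIcc (x b).1 (y b).1 := by
  obtain ⟨Z, k1, k2, k3, k4⟩ := conn hab hx hy
  obtain ⟨c, hc, rfl⟩ := k1.intermediate_value k2 k3 continuous_fst.continuousOn ⟨h1, h2⟩
  obtain ⟨⟨z, z1, z2, z3⟩, -, q⟩ := k4 c hc
  exact ⟨z, z1, z2, z3 ▸ q⟩

/-- Four corner chains span a solid rectangle. -/
theorem rect {w : ℤ → ι} {a b : ℤ} {x1 x2 x3 x4 : ℤ → ℝ × ℝ} (hab : a < b) (h1 : D.RC w a b x1)
    (h2 : D.RC w a b x2) (h3 : D.RC w a b x3) (h4 : D.RC w a b x4) {s t : ℝ}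
    (a1 : (x1 a).1 ≤ s) (a2 : s ≤ (x2 a).1) (a3 : (x3 a).1 ≤ s) (a4 : s ≤ (x4 a).1)
    (b1 : (x1 b).1 ≤ t) (b2 : (x2 b).1 ≤ t) (b3 : t ≤ (x3 b).1) (b4 : t ≤ (x4 b).1) :
    (s, t) ∈ D.Dw w a b := by
  obtain ⟨y, y1, y2, y3⟩ := conn_fst hab h1 h2 a1 a2
  obtain ⟨z, z1, z2, z3⟩ := conn_fst hab h3 h4 a3 a4
  obtain ⟨Z, k1, k2, k3, k4⟩ := conn hab y1 z1
  obtain ⟨c, hc, e⟩ := k1.intermediate_value k2 k3 continuous_snd.continuousOn
    (show t ∈ Icc (y b).1 (z b).1 from ⟨y3.2.trans (max_le b1 b2), (le_min b3 b4).trans z3.1⟩)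
  obtain ⟨q1, q2, -⟩ := k4 c hc
  rw [y2, z2, uIcc_self, mem_singleton_iff] at q2
  rwa [← q2, ← e]

end Sys

end Pool.Agent.Lib.MP_fd11a7_an
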