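import Mathlib
import Pool.Agent.Lib.MP_fd11a7_an.Conn

set_option autoImplicit false

open Set Real Filter Topology

namespace Pool.Agent.Lib.MP_fd11a7_an

namespace Sys

variable {ι : Type} (D : Sys ι)

/-- Expansivity at scale `ε` in `m` steps. -/
def Ex (m : ℕ) (ε : ℝ) : Prop :=
  ∀ (w : ℤ → ι) (a : ℤ) (x y : ℤ → ℝ × ℝ), D.GC w a (a + m) x → D.GC w a (a + m) y →
    D.Dc (w a) (x a) (y a) → |D.om (w a) (y a) - D.om (w a) (x a)| < ε

/-- A block: a real chain together with a solid square of realised end points. -/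
def Blk (w : ℤ → ι) (a b : ℤ) (x : ℤ → ℝ × ℝ) (δ : ℝ) : Prop :=
  D.RC w a b x ∧ ∀ s t, |s - (x a).1| ≤ δ → |t - (x b).1| ≤ δ → (s, t) ∈ D.Dw w a b

variable {D}

theorem out_sign {m : ℕ} {ε : ℝ} (hm : D.Ex m ε) (hε : 0 < ε) {w : ℤ → ι} {a b : ℤ}
    {x z : ℤ → ℝ × ℝ} (hab : a < b) (hm' : a + m ≤ b) (hx : D.GC w a b x) (hz : D.GC w a b z) :
    ((x a).1 ≤ (z a).1 → (z a).2 < (x a).2 - D.κ * ((z a).1 - (x a).1) + ε) ∧
    ((z a).1 ≤ (x a).1 → (x a).2 + D.κ * ((x a).1 - (z a).1) - ε < (z a).2) := by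
  have key := hm w a x z (hx.sub le_rfl hm') (hz.sub le_rfl hm')
  have sx := hx.st hab le_rfl hab.le
  have sz := hz.st hab le_rfl hab.le
  constructor
  · intro h
    have m := D.mono _ _ sx.1 _ sz.1 h
    rcases le_total (D.om (w a) (x a)) (D.om (w a) (z a)) with k | k
    · have := (abs_lt.1 (key (Or.inl ⟨h, k⟩))).2
      unfold om at this; linarith
    · unfold om at k; linarith
  · intro h
    have m := D.mono _ _ sz.1 _ sx.1 h
    rcases le_total (D.om (w a) (z a)) (D.om (w a) (x a)) with k | k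
    · have := (abs_lt.1 (key (Or.inr ⟨h, k⟩))).1
      unfold om at this; linarith
    · unfold om at k; linarith

theorem in_sign {m : ℕ} {ε : ℝ} (hm : D.Ex m ε) (hε : 0 < ε) {w : ℤ → ι} {a b : ℤ}
    {x z : ℤ → ℝ × ℝ} (hab : a < b) (hm' : a + m ≤ b) (hx : D.GC w a b x) (hz : D.GC w a b z) :
    ((x b).1 ≤ (z b).1 → (x b).2 + D.κ * ((z b).1 - (x b).1) - ε < (z b).2) ∧
    ((z b).1 ≤ (x b).1 → (z b).2 < (x b).2 - D.κ * ((x b).1 - (z b).1) + ε) := by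
  have := out_sign hm hε (by omega : -b < -a) (by omega) hx.rev hz.rev
  simp only [neg_neg, R_fst, R_snd] at this
  exact ⟨fun h => by linarith [this.1 h], fun h => by linarith [this.2 h]⟩

theorem ivt_match {f g : ℝ → ℝ} {r r' ψ ψ' δ β ε κ : ℝ} (hδ : 0 ≤ δ) (hκ : 0 < κ)
    (hβ : β ≤ δ / 2) (h : β * (1 + κ) + 2 * ε ≤ κ * δ) (h1 : |r' - r| ≤ β) (h2 : |ψ' - ψ| ≤ β)
    (cf : ContinuousOn f (Icc (r - δ / 2) (r + δ / 2)))
    (cg : ContinuousOn g (Icc (r - δ / 2) (r + δ / 2)))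
    (hf : ∀ u ∈ Icc (r - δ / 2) (r + δ / 2),
      (r ≤ u → f u < ψ - κ * (u - r) + ε) ∧ (u ≤ r → ψ + κ * (r - u) - ε < f u))
    (hg : ∀ u ∈ Icc (r - δ / 2) (r + δ / 2),
      (r' ≤ u → ψ' + κ * (u - r') - ε < g u) ∧ (u ≤ r' → g u < ψ' - κ * (r' - u) + ε)) :
    ∃ u ∈ Icc (r - δ / 2) (r + δ / 2), f u = g u := by
  have hle : r - δ / 2 ≤ r + δ / 2 := by linarith
  rw [abs_le] at h1 h2
  have a1 := (hf _ ⟨hle, le_rfl⟩).1 (by linarith)
  have a2 := (hf _ ⟨le_rfl, hle⟩).2 (by linarith)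
  have a3 := (hg _ ⟨hle, le_rfl⟩).1 (by linarith [h1.2])
  have a4 := (hg _ ⟨le_rfl, hle⟩).2 (by linarith [h1.1])
  have b1 := mul_le_mul_of_nonneg_left h1.1 hκ.le
  have b2 := mul_le_mul_of_nonneg_left h1.2 hκ.le
  obtain ⟨u, hu, e⟩ := intermediate_value_Icc' hle (cf.sub cg)
    (show (0 : ℝ) ∈ Icc _ _ from ⟨by simp only [Pi.sub_apply]; nlinarith [h2.1, h2.2],
      by simp only [Pi.sub_apply]; nlinarith [h2.1, h2.2]⟩)
  exact ⟨u, hu, sub_eq_zero.1 e⟩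

theorem fam_cont {w : ℤ → ι} {a b : ℤ} (hab : a + D.i0 + 2 ≤ b) {Z : Set ℝ} {z : ℝ → ℤ → ℝ × ℝ}
    (hz : ∀ u ∈ Z, D.RC w a b (z u)) {f g : ℝ → ℝ} (cf : Continuous f) (cg : Continuous g)
    (h1 : ∀ u ∈ Z, (z u a).1 = f u) (h2 : ∀ u ∈ Z, (z u b).1 = g u) {n : ℤ} (n1 : a ≤ n)
    (n2 : n ≤ b) : ContinuousOn (fun u => (z u n).2) Z := by
  intro u hu
  refine (continuous_snd.tendsto _).comp (GC.tendsto_of_ends (D := D) (w := w)
    (eventually_mem_nhdsWithin.mono fun s hs => (hz s hs).gc) (hz u hu).gc hab ?_ ?_ n1 n2)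
  · rw [h1 u hu]
    exact (cf.continuousWithinAt (s := Z) (x := u)).tendsto.congr'
      (eventually_mem_nhdsWithin.mono fun s hs => (h1 s hs).symm)
  · rw [h2 u hu]
    exact (cg.continuousWithinAt (s := Z) (x := u)).tendsto.congr'
      (eventually_mem_nhdsWithin.mono fun s hs => (h2 s hs).symm)

/-- The closing lemma for two blocks. -/
theorem closing {m : ℕ} {ε δ β : ℝ} (hm : D.Ex m ε) (hε : 0 < ε) (hδ : 0 ≤ δ) (hβ : β ≤ δ / 2)
    (h : β * (1 + D.κ) + 2 * ε ≤ D.κ * δ) {w : ℤ → ι} {a b c : ℤ} {x y : ℤ → ℝ × ℝ}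
    (m1 : a + m ≤ b) (m2 : b + m ≤ c) (i1 : a + D.i0 + 2 ≤ b) (i2 : b + D.i0 + 2 ≤ c)
    (hx : D.Blk w a b x δ) (hy : D.Blk w b c y δ)
    (e1 : |(x b).1 - (y b).1| ≤ β) (e2 : |(x b).2 - (y b).2| ≤ β)
    (e3 : |(y c).1 - (x a).1| ≤ β) (e4 : |(y c).2 - (x a).2| ≤ β) :
    ∃ z, D.RC w a c z ∧ z a = z c := by
  have ab : a < b := by omega
  have bc : b < c := by omega
  have near : ∀ {u r r' : ℝ}, u ∈ Icc (r - δ / 2) (r + δ / 2) → |r' - r| ≤ β →
      |u - r| ≤ δ ∧ |u - r'| ≤ δ := by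
    intro u r r' hu h
    rw [abs_le] at h
    constructor <;> rw [abs_le] <;> constructor <;> linarith [hu.1, hu.2, h.1, h.2]
  have glue : ∀ s t, |s - (x a).1| ≤ δ → |t - (y c).1| ≤ δ → (s, t) ∈ D.Dw w a c := by
    intro s t hs ht
    choose! z1 p1 p2 p3 using fun u (hu : u ∈ Icc ((y b).1 - δ / 2) ((y b).1 + δ / 2)) =>
      hx.2 s u hs (near hu e1).2
    choose! z2 q1 q2 q3 using fun u (hu : u ∈ Icc ((y b).1 - δ / 2) ((y b).1 + δ / 2)) =>
      hy.2 u t (near hu e1).1 ht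
    obtain ⟨u, hu, e⟩ := ivt_match (f := fun u => (z2 u b).2) (g := fun u => (z1 u b).2) hδ
      D.κ_pos hβ h e1 e2
      (fam_cont i2 q1 continuous_id continuous_const q2 q3 le_rfl bc.le)
      (fam_cont i1 p1 continuous_const continuous_id p2 p3 ab.le le_rfl)
      (fun u hu => by
        have := out_sign hm hε bc m2 hy.1.gc (q1 u hu).gc
        rwa [q2 u hu] at this)
      (fun u hu => by
        have := in_sign hm hε ab m1 hx.1.gc (p1 u hu).gc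
        rwa [p3 u hu] at this)
    refine ⟨_, (p1 u hu).glue (q1 u hu) (Prod.ext ((p3 u hu).trans (q2 u hu).symm) e.symm), ?_, ?_⟩
    · simp only [if_pos ab.le]; exact p2 u hu
    · simp only [if_neg (not_le.2 bc)]; exact q3 u hu
  choose! z p1 p2 p3 using fun u (hu : u ∈ Icc ((x a).1 - δ / 2) ((x a).1 + δ / 2)) =>
    glue u u (near hu e3).1 (near hu e3).2
  obtain ⟨u, hu, e⟩ := ivt_match (f := fun u => (z u a).2) (g := fun u => (z u c).2) hδ
    D.κ_pos hβ h e3 e4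
    (fam_cont (by omega) p1 continuous_id continuous_id p2 p3 le_rfl (by omega))
    (fam_cont (by omega) p1 continuous_id continuous_id p2 p3 (by omega) le_rfl)
    (fun u hu => by
      have := out_sign hm hε ab m1 hx.1.gc ((p1 u hu).gc.sub le_rfl bc.le)
      rwa [p2 u hu] at this)
    (fun u hu => by
      have := in_sign hm hε bc m2 hy.1.gc ((p1 u hu).gc.sub ab.le le_rfl)
      rwa [p3 u hu] at this)
  exact ⟨z u, p1 u hu, Prod.ext ((p2 u hu).trans (p3 u hu).symm) e⟩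

end Sys

end Pool.Agent.Lib.MP_fd11a7_an
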