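import Mathlib
import Pool.Agent.Lib.MP_fd11a7_an.Close

set_option autoImplicit false

open Set Real Filter Topology

namespace Pool.Agent.Lib.MP_fd11a7_an

namespace Sys

variable {ι : Type} (D : Sys ι)

/-- Real links as a set. -/
def RLs (A B : ι) : Set ((ℝ × ℝ) × (ℝ × ℝ)) := {c | D.RL A B c.1 c.2}

/-- Sources of dispersion. -/
def src (B C : ι) (b : Bool) : Fin 4 → Set (ℝ × ℝ)
  | 0 => {y | y.1 = if b then D.lo B else D.hi B}
  | 1 => {y | y.2 = if b then 0 else -π}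
  | 2 => {y | C ≠ B ∧ ∃ u : ℝ, 0 < u ∧
      D.γ C (if b then D.lo C else D.hi C) = D.γ B y.1 + u * E (D.om B (R y))}
  | 3 => {y | ∃ x, x.2 = (if b then 0 else -π) ∧ D.Gk C B x y}

variable {D}

theorem dc_of_snd {A : ι} {x y : ℝ × ℝ} (hx : D.St A x) (hy : D.St A y) (h : x.2 = y.2) :
    D.Dc A x y := by
  rcases le_total x.1 y.1 with k | k
  · exact Or.inl ⟨k, by unfold om; linarith [θ_mono hx.1 hy.1 k]⟩
  · exact Or.inr ⟨k, by unfold om; linarith [θ_mono hy.1 hx.1 k]⟩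

theorem src_dc {B C : ι} {b : Bool} {k : Fin 4} {y y' : ℝ × ℝ} (hy : D.St B y) (hy' : D.St B y')
    (h : y ∈ D.src B C b k) (h' : y' ∈ D.src B C b k) (hC : D.lo C ≤ D.hi C) : D.Dc B y y' := by
  match k, h, h' with
  | 0, h, h' => exact dc_of_eq (Eq.trans h (Eq.symm h'))
  | 1, h, h' => exact dc_of_snd hy hy' (Eq.trans h (Eq.symm h'))
  | 3, ⟨x, e, g⟩, ⟨x', e', g'⟩ => exact g.dc g' (dc_of_snd g.st1 g'.st1 (e.trans e'.symm))
  | 2, ⟨hne, u, u0, e⟩, ⟨_, u', u0', e'⟩ =>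
    have hm : (if b then D.lo C else D.hi C) ∈ Icc (D.lo C) (D.hi C) := by
      split_ifs
      · exact ⟨le_rfl, hC⟩
      · exact ⟨hC, le_rfl⟩
    set m := D.γ C (if b then D.lo C else D.hi C)
    have key : ∀ {y y' : ℝ × ℝ} {u u' : ℝ}, D.St B y → D.St B y' → 0 < u → 0 < u' →
        m = D.γ B y.1 + u * E (D.om B (R y)) → m = D.γ B y'.1 + u' * E (D.om B (R y')) →
        D.om B (R y) ≤ D.om B (R y') → D.Dle B y' y := by
      intro y y' u u' hy hy' u0 u0' e e' hle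
      have w := abs_le.1 (D.win B C hne.symm _ hy.1 _ hm _ hy.rev.2 u u0 e)
      have w' := abs_le.1 (D.win B C hne.symm _ hy'.1 _ hm _ hy'.rev.2 u' u0' e')
      have d : D.om B (R y') - D.om B (R y) < π := by
        unfold om; simp only [R_fst]; linarith [w.1, w'.2, D.η_pos]
      have s0 := sin_nn (sub_nonneg.2 hle) d.le
      have e2 : D.γ B y.1 - D.γ B y'.1 = u' * E (D.om B (R y')) - u * E (D.om B (R y)) := by
        linear_combination e' - e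
      have h1 : y'.1 ≤ y.1 := by
        refine ci_core (w := D.om B (R y) + π) (w' := D.om B (R y') + π) hy.1 hy'.1
          (by simp only [om, R_fst, R_snd]; linarith [hy.2.1])
          (by simp only [om, R_fst, R_snd]; linarith [hy'.2.2]) (by linarith) (by linarith) ?_ ?_
        · rw [S_add_pi, e2, S_sub, S_mul_E, S_mul_E, ← neg_sub (D.om B (R y')) (D.om B (R y)),
            sin_neg]
          simp only [sub_self, sin_zero]
          nlinarith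
        · rw [S_add_pi, ← neg_sub, S_neg, e2, S_sub, S_mul_E, S_mul_E]
          simp only [sub_self, sin_zero]
          nlinarith
      refine ⟨h1, ?_⟩
      rw [om_R, om_R] at hle
      linarith [θ_mono hy'.1 hy.1 h1]
    rcases le_total (D.om B (R y)) (D.om B (R y')) with k | k
    · exact Or.inr (key hy hy' u0 u0' e e' k)
    · exact Or.inl (key hy' hy u0' u0 e' e k)

theorem gk_of_closure {A B : ι} {c : (ℝ × ℝ) × (ℝ × ℝ)} (h : c ∈ closure (D.RLs A B)) :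
    D.Gk A B c.1 c.2 :=
  (isClosed_Gk (D := D) A B).closure_subset_iff.2 (fun _ k => k.1) h

theorem seg_of_closure {A B : ι} {c : (ℝ × ℝ) × (ℝ × ℝ)} (h : c ∈ closure (D.RLs A B)) :
    openSegment ℝ (D.γ A c.1.1) (D.γ B c.2.1) ⊆ closure D.Y := by
  rintro z ⟨a, b, ha, hb, hab, rfl⟩
  have cA := D.cγ A
  have cB := D.cγ B
  exact map_mem_closure (f := fun c : (ℝ × ℝ) × (ℝ × ℝ) => a • D.γ A c.1.1 + b • D.γ B c.2.1)
    (by fun_prop) h fun c hc => hc.2.2.2 ⟨a, b, ha, hb, hab, rfl⟩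

theorem tangent_of_closure {A B C : ι} {c : (ℝ × ℝ) × (ℝ × ℝ)} (h : c ∈ closure (D.RLs A B))
    {s v : ℝ} (hs : s ∈ Ioo (D.lo C) (D.hi C)) (v0 : 0 < v)
    (v1 : v < ‖D.γ B c.2.1 - D.γ A c.1.1‖) (e : D.γ C s = D.γ A c.1.1 + v * E (D.om A c.1)) :
    sin (D.θ C s - D.om A c.1) = 0 := by
  by_contra hn
  have cA := D.cγ A
  have cB := D.cγ B
  have cC := D.cγ C
  have cθ := D.cθ C
  set w := D.om A c.1
  set p := D.γ A c.1.1
  have o1 : ∀ᶠ α in 𝓝 (D.θ C s), 0 < sin (α - w) * sin (D.θ C s - w) :=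
    (isOpen_lt continuous_const (by fun_prop)).mem_nhds (mul_self_pos.2 hn)
  obtain ⟨ρ, ρ0, hρ⟩ := Metric.eventually_nhds_iff.1 o1
  have o2 : ∀ᶠ t in 𝓝 s, dist (D.θ C t) (D.θ C s) < ρ :=
    (isOpen_lt (by fun_prop) continuous_const).mem_nhds (by simpa using ρ0)
  have o3 : ∀ᶠ t in 𝓝 s, 0 < Cc w (D.γ C t - p) :=
    (isOpen_lt continuous_const (by fun_prop)).mem_nhds (by simpa [e, Cc_mul_E] using v0)
  have o4 : ∀ᶠ t in 𝓝 s, Cc w (D.γ C t - p) < ‖D.γ B c.2.1 - p‖ :=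
    (isOpen_lt (by fun_prop) continuous_const).mem_nhds (by simpa [e, Cc_mul_E] using v1)
  obtain ⟨δ, δ0, hδ⟩ := Metric.eventually_nhds_iff.1
    (o2.and (o3.and (o4.and (isOpen_Ioo.mem_nhds hs))))
  have in1 : ∀ t ∈ Icc (s - δ / 2) (s + δ / 2), dist t s < δ := fun t ht => by
    rw [Real.dist_eq, abs_lt]; constructor <;> linarith [ht.1, ht.2]
  have le : s - δ / 2 ≤ s + δ / 2 := by linarith
  have m1 := hδ (in1 _ ⟨le_rfl, le⟩)
  have m2 := hδ (in1 _ ⟨le, le_rfl⟩)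
  have sI := Ioo_subset_Icc_self hs
  obtain ⟨t1, α1, t10, -, a1, a2, e1⟩ := D.chord C _ (Ioo_subset_Icc_self m1.2.2.2) s sI
    (by linarith)
  obtain ⟨t2, α2, t20, -, b1, b2, e2⟩ := D.chord C s sI _ (Ioo_subset_Icc_self m2.2.2.2)
    (by linarith)
  have d1 := abs_lt.1 (Real.dist_eq _ _ ▸ m1.1)
  have d2 := abs_lt.1 (Real.dist_eq _ _ ▸ m2.1)
  have k1 := hρ (y := α1) (by rw [Real.dist_eq, abs_lt]; constructor <;> linarith [d1.1])
  have k2 := hρ (y := α2) (by rw [Real.dist_eq, abs_lt]; constructor <;> linarith [d2.2])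
  have f1 : S w (D.γ C (s - δ / 2) - p) = -(t1 * sin (α1 - w)) := by
    have : D.γ C (s - δ / 2) - p = v * E w - t1 * E α1 := by linear_combination e - e1
    rw [this, S_sub, S_mul_E, S_mul_E]; simp
  have f2 : S w (D.γ C (s + δ / 2) - p) = t2 * sin (α2 - w) := by
    have : D.γ C (s + δ / 2) - p = v * E w + t2 * E α2 := by linear_combination e + e2
    rw [this, S_add, S_mul_E, S_mul_E]; simp
  have neg : S w (D.γ C (s - δ / 2) - p) * S w (D.γ C (s + δ / 2) - p) < 0 := by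
    rw [f1, f2]
    have : 0 < sin (α1 - w) * sin (α2 - w) := by
      have := mul_pos k1 k2
      have q := mul_self_pos.2 hn
      by_contra hq
      nlinarith
    nlinarith [mul_pos t10 t20]
  have ev1 : ∀ᶠ c' : (ℝ × ℝ) × (ℝ × ℝ) in 𝓝 c, S (D.om A c'.1) (D.γ C (s - δ / 2) - D.γ A c'.1.1) *
      S (D.om A c'.1) (D.γ C (s + δ / 2) - D.γ A c'.1.1) < 0 :=
    (isOpen_lt (by fun_prop) continuous_const).mem_nhds neg
  have ev2 : ∀ᶠ c' : (ℝ × ℝ) × (ℝ × ℝ) in 𝓝 c, ∀ t ∈ Icc (s - δ / 2) (s + δ / 2),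
      0 < Cc (D.om A c'.1) (D.γ C t - D.γ A c'.1.1) ∧
      Cc (D.om A c'.1) (D.γ C t - D.γ A c'.1.1) < ‖D.γ B c'.2.1 - D.γ A c'.1.1‖ := by
    refine isCompact_Icc.eventually_forall_of_forall_eventually fun t ht => ?_
    have : IsOpen {q : ((ℝ × ℝ) × (ℝ × ℝ)) × ℝ |
        0 < Cc (D.om A q.1.1) (D.γ C q.2 - D.γ A q.1.1.1) ∧
        Cc (D.om A q.1.1) (D.γ C q.2 - D.γ A q.1.1.1) < ‖D.γ B q.1.2.1 - D.γ A q.1.1.1‖} := by
      rw [setOf_and]
      exact (isOpen_lt continuous_const (by fun_prop)).inter (isOpen_lt (by fun_prop) (by fun_prop))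
    exact this.mem_nhds ⟨(hδ (in1 t ht)).2.1, (hδ (in1 t ht)).2.2.1⟩
  obtain ⟨c', ⟨q1, q2⟩, q3⟩ := mem_closure_iff_nhds.1 h _ (ev1.and ev2)
  obtain ⟨t, ht, h0⟩ : ∃ t ∈ Icc (s - δ / 2) (s + δ / 2),
      S (D.om A c'.1) (D.γ C t - D.γ A c'.1.1) = 0 := by
    have cF : Continuous fun t => S (D.om A c'.1) (D.γ C t - D.γ A c'.1.1) := by fun_prop
    rcases mul_neg_iff.1 q1 with k | k
    · exact intermediate_value_Icc' le cF.continuousOn ⟨k.2.le, k.1.le⟩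
    · exact intermediate_value_Icc le cF.continuousOn ⟨k.1.le, k.2.le⟩
  refine γ_not_mem (Ioo_subset_Icc_self (hδ (in1 t ht)).2.2.2) (q3.2.2.2 ?_)
  rw [q3.1.2.2.2.2.2.1, show D.γ C t = D.γ A c'.1.1 +
    (Cc (D.om A c'.1) (D.γ C t - D.γ A c'.1.1) : ℝ) * E (D.om A c'.1) by
      rw [← eq_of_S_zero h0]; ring]
  exact mem_openSegment_ray (q2 t ht).1 (q2 t ht).2

theorem not_Ioo {a b s : ℝ} (hs : s ∈ Icc a b) (h : s ∉ Ioo a b) :
    ∃ c : Bool, s = if c then a else b := by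
  rcases hs.1.eq_or_lt with k | k
  · exact ⟨true, k.symm⟩
  rcases hs.2.eq_or_lt with k' | k'
  · exact ⟨false, k'⟩
  exact absurd ⟨k, k'⟩ h

theorem src_of_not_RL {A B : ι} {c : (ℝ × ℝ) × (ℝ × ℝ)} (h : c ∈ closure (D.RLs A B))
    (hn : c ∉ D.RLs A B) : ∃ C b k, D.lo C ≤ D.hi C ∧ c.2 ∈ D.src B C b k := by
  by_contra hs
  push Not at hs
  have g := gk_of_closure h
  have lA : D.lo A ≤ D.hi A := g.st1.1.1.trans g.st1.1.2
  have lB : D.lo B ≤ D.hi B := g.st2.1.1.trans g.st2.1.2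
  have tg : ∀ {ψ : ℝ}, ψ ∈ Icc (-π) 0 → ψ ∉ Ioo (-π) 0 → ∃ b : Bool, ψ = if b then 0 else -π := by
    intro ψ h1 h2
    obtain ⟨b, hb⟩ := not_Ioo h1 h2
    exact ⟨!b, by cases b <;> simpa using hb⟩
  have y1 : c.2.1 ∈ Ioo (D.lo B) (D.hi B) := by
    by_contra k
    obtain ⟨b, hb⟩ := not_Ioo g.st2.1 k
    exact hs B b 0 lB hb
  have y2 : c.2.2 ∈ Ioo (-π) 0 := by
    by_contra k
    obtain ⟨b, hb⟩ := tg g.st2.2 k
    exact hs B b 1 lB hb
  obtain ⟨τ, t0, t1, e⟩ := g.tau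
  have t0' : 0 < τ := lt_of_le_of_ne t0 fun k =>
    D.disj2 B A g.ne.symm _ y1 _ g.st1.1 (by rw [e, ← k]; simp)
  have x1 : c.1.1 ∈ Ioo (D.lo A) (D.hi A) := by
    by_contra k
    obtain ⟨b, hb⟩ := not_Ioo g.st1.1 k
    exact hs A b 2 lA ⟨g.ne, τ, t0', by rw [← hb, g.E_rev, e]; ring⟩
  have x2 : c.1.2 ∈ Ioo (-π) 0 := by
    by_contra k
    obtain ⟨b, hb⟩ := tg g.st1.2 k
    exact hs A b 3 lA ⟨c.1, hb, g⟩
  refine hn ⟨g, ⟨D.Ioo_sub A x1, x2⟩, ⟨D.Ioo_sub B y1, y2⟩, fun z hz => ?_⟩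
  by_contra hY
  have hf : z ∈ frontier D.Y := by
    rw [D.isOpen.frontier_eq]; exact ⟨seg_of_closure h hz, hY⟩
  rw [D.front] at hf
  obtain ⟨C, s, sI, rfl⟩ := mem_iUnion.1 hf
  have lC : D.lo C ≤ D.hi C := sI.1.trans sI.2
  rw [e] at hz
  obtain ⟨v, v0, v1, ev⟩ := of_mem_openSegment_ray t0' hz
  have back : D.γ C s = D.γ B c.2.1 + (τ - v : ℝ) * E (D.om B (R c.2)) := by
    rw [g.E_rev, ev, e]; push_cast; ring
  have CB : C ≠ B := by
    rintro rfl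
    exact not_seen g.st2.rev sI (sub_pos.2 v1) back
  have s1 : s ∈ Ioo (D.lo C) (D.hi C) := by
    by_contra k
    obtain ⟨b, hb⟩ := not_Ioo sI k
    exact hs C b 2 lC ⟨CB, τ - v, sub_pos.2 v1, hb ▸ back⟩
  have tan := tangent_of_closure h s1 v0 (t1 ▸ v1) ev
  obtain ⟨b, hb⟩ : ∃ b : Bool, E (D.θ C s + if b then 0 else -π) = E (D.om A c.1) := by
    have q : E (D.θ C s) = E (D.θ C s - D.om A c.1) * E (D.om A c.1) := by
      rw [← E_add, sub_add_cancel]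
    rcases sin_eq_zero_iff_cos_eq.1 tan with k | k
    · refine ⟨true, ?_⟩
      rw [if_pos rfl, add_zero, q, E_ext (y := 0) (by simpa using k) (by simpa using tan), E_zero,
        one_mul]
    · refine ⟨false, ?_⟩
      rw [if_neg (by simp), ← sub_eq_add_neg, E_sub_pi, q,
        E_ext (y := π) (by simpa using k) (by simpa using tan), E_pi]
      ring
  refine hs C b 3 lC ⟨(s, if b then 0 else -π), rfl, mkGk CB ⟨sI, ?_⟩ g.st2 (sub_pos.2 v1) ?_ ?_⟩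
  · cases b <;> simp [pi_pos.le]
  · change _ = _ + _ * E (D.θ C s + _)
    rw [hb, ev, e]; push_cast; ring
  · change _ = E (D.θ C s + _)
    rw [hb, g.E_in]

theorem RC.det {w w' : ℤ → ι} {a b : ℤ} {x x' : ℤ → ℝ × ℝ} (h : D.RC w a b x)
    (h' : D.RC w' a b x') (e : w a = w' a) (e' : x a = x' a) {n : ℤ} (h1 : a ≤ n) (h2 : n ≤ b) :
    w n = w' n ∧ x n = x' n := by
  induction n, h1 using Int.le_induction with
  | base => exact ⟨e, e'⟩
  | succ n h1 ih =>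
    obtain ⟨k1, k2⟩ := ih (by omega)
    have q := h n h1 (by omega)
    have q' := h' n h1 (by omega)
    rw [← k1, ← k2] at q'
    have k3 := q.det q'
    rw [← k3] at q'
    exact ⟨k3, q.1.uniq q'.1⟩

theorem measurableSet_RLs (A B : ι) : MeasurableSet (D.RLs A B) := by
  have cA := D.cγ A
  have cB := D.cγ B
  have mI : ∀ A, MeasurableSet (D.I A) := fun A =>
    OrdConnected.measurableSet ⟨fun _ ha _ hb _ hc => I_conn ha hb hc.1 hc.2⟩
  have mR : ∀ A, MeasurableSet {x | D.Rg A x} := fun A => (mI A).prod measurableSet_Ioo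
  have e : {c : (ℝ × ℝ) × (ℝ × ℝ) | openSegment ℝ (D.γ A c.1.1) (D.γ B c.2.1) ⊆ D.Y} =
      ⋂ k : ℕ, {c | ∀ t ∈ Icc (1 / (k + 1 : ℝ)) (1 - 1 / (k + 1 : ℝ)),
        (1 - t) • D.γ A c.1.1 + t • D.γ B c.2.1 ∈ D.Y} := by
    ext c
    simp only [mem_setOf_eq, mem_iInter, openSegment_eq_image, image_subset_iff]
    constructor
    · intro h k t ht
      have : (0 : ℝ) < 1 / (k + 1 : ℝ) := by positivity
      exact h ⟨by linarith [ht.1], by linarith [ht.2]⟩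
    · intro h t ht
      obtain ⟨k, hk⟩ := exists_nat_one_div_lt (lt_min ht.1 (sub_pos.2 ht.2))
      exact h k t ⟨by linarith [min_le_left t (1 - t)], by linarith [min_le_right t (1 - t)]⟩
  refine (isClosed_Gk (D := D) A B).measurableSet.inter ((measurable_fst (mR A)).inter
    ((measurable_snd (mR B)).inter ?_))
  change MeasurableSet {c : (ℝ × ℝ) × (ℝ × ℝ) | openSegment ℝ (D.γ A c.1.1) (D.γ B c.2.1) ⊆ D.Y}
  rw [e]
  refine MeasurableSet.iInter fun k => IsOpen.measurableSet (isOpen_iff_mem_nhds.2 fun c hc => ?_)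
  refine isCompact_Icc.eventually_forall_of_forall_eventually fun t ht => ?_
  exact (D.isOpen.preimage (f := fun q : ((ℝ × ℝ) × (ℝ × ℝ)) × ℝ =>
    (1 - q.2) • D.γ A q.1.1.1 + q.2 • D.γ B q.1.2.1) (by fun_prop)).mem_nhds (hc t ht)

end Sys

end Pool.Agent.Lib.MP_fd11a7_an
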