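import Mathlib
import Pool.Agent.Lib.MP_fd11a7_an.Sing

set_option autoImplicit false

open Set Real Filter Topology

namespace Pool.Agent.Lib.MP_fd11a7_an

/-- The space of labelled state sequences. -/
abbrev Sq (ι : Type) : Type := (ℤ → ι) × (ℤ → ℝ × ℝ)

/-- Shift by `c`. -/
def shz {ι : Type} (c : ℤ) (y : Sq ι) : Sq ι := (fun n => y.1 (n + c), fun n => y.2 (n + c))

/-- Time reversal. -/
noncomputable def rv {ι : Type} (y : Sq ι) : Sq ι := (fun n => y.1 (-n), fun n => R (y.2 (-n)))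

@[simp] theorem shz_fst {ι : Type} (c : ℤ) (y : Sq ι) (n : ℤ) : (shz c y).1 n = y.1 (n + c) := rfl
@[simp] theorem shz_snd {ι : Type} (c : ℤ) (y : Sq ι) (n : ℤ) : (shz c y).2 n = y.2 (n + c) := rfl
@[simp] theorem rv_fst {ι : Type} (y : Sq ι) (n : ℤ) : (rv y).1 n = y.1 (-n) := rfl
@[simp] theorem rv_snd {ι : Type} (y : Sq ι) (n : ℤ) : (rv y).2 n = R (y.2 (-n)) := rfl
@[simp] theorem rv_rv {ι : Type} (y : Sq ι) : rv (rv y) = y := by simp [rv]
@[simp] theorem shz_zero {ι : Type} (y : Sq ι) : shz 0 y = y := by simp [shz]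
theorem shz_shz {ι : Type} (a b : ℤ) (y : Sq ι) : shz a (shz b y) = shz (a + b) y := by
  simp [shz, add_assoc]

theorem continuous_shz {ι : Type} [TopologicalSpace ι] (c : ℤ) : Continuous (shz (ι := ι) c) := by
  unfold shz; fun_prop

theorem continuous_rv {ι : Type} [TopologicalSpace ι] : Continuous (rv (ι := ι)) := by
  unfold rv; fun_prop

namespace Sys

variable {ι : Type} (D : Sys ι)

/-- Real orbits. -/
def Orb : Set (Sq ι) := {y | ∀ n, D.RL (y.1 n) (y.1 (n + 1)) (y.2 n) (y.2 (n + 1))}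

variable {D}

theorem Orb.rc {y : Sq ι} (h : y ∈ D.Orb) (a b : ℤ) : D.RC y.1 a b y.2 := fun n _ _ => h n

theorem mem_Orb {y : Sq ι} (h : ∀ a b, D.RC y.1 a b y.2) : y ∈ D.Orb :=
  fun n => h n (n + 1) n le_rfl (by omega)

theorem Orb.shz {y : Sq ι} (h : y ∈ D.Orb) (c : ℤ) : shz c y ∈ D.Orb :=
  mem_Orb fun a b => by
    have := (Orb.rc h (a + c) (b + c)).shift c
    rwa [add_sub_cancel_right, add_sub_cancel_right] at this

theorem Orb.rv {y : Sq ι} (h : y ∈ D.Orb) : rv y ∈ D.Orb :=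
  mem_Orb fun a b => by
    have := (Orb.rc h (-b) (-a)).rev
    rwa [neg_neg, neg_neg] at this

theorem Orb.ext {y y' : Sq ι} (h : y ∈ D.Orb) (h' : y' ∈ D.Orb) (e : y.1 0 = y'.1 0)
    (e' : y.2 0 = y'.2 0) : y = y' := by
  have key : ∀ n, y.1 n = y'.1 n ∧ y.2 n = y'.2 n := by
    intro n
    rcases le_total 0 n with k | k
    · exact (Orb.rc h 0 n).det (Orb.rc h' 0 n) e e' k le_rfl
    · have := (Orb.rc (Orb.rv h) 0 (-n)).det (Orb.rc (Orb.rv h') 0 (-n)) (by simpa using e)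
        (by simpa using congrArg R e') (n := -n) (by omega) le_rfl
      simp only [rv_fst, rv_snd, neg_neg] at this
      exact ⟨this.1, R_inj this.2⟩
  exact Prod.ext (funext fun n => (key n).1) (funext fun n => (key n).2)

variable [TopologicalSpace ι] [DiscreteTopology ι]

theorem lab_nhds (y : Sq ι) (n : ℤ) : ∀ᶠ y' : Sq ι in 𝓝 y, y'.1 n = y.1 n :=
  ((isOpen_discrete {y.1 n}).preimage (by fun_prop : Continuous fun y : Sq ι => y.1 n)).mem_nhds
    rfl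

theorem labs_nhds (y : Sq ι) (a b : ℤ) :
    ∀ᶠ y' : Sq ι in 𝓝 y, ∀ n, a ≤ n → n ≤ b → y'.1 n = y.1 n := by
  have := (eventually_all_finite (finite_Icc a b)).2 fun n _ => lab_nhds y n
  exact this.mono fun y' h n h1 h2 => h n ⟨h1, h2⟩

theorem link_closure {y : Sq ι} (h : y ∈ closure D.Orb) (n : ℤ) :
    (y.2 n, y.2 (n + 1)) ∈ closure (D.RLs (y.1 n) (y.1 (n + 1))) := by
  rw [mem_closure_iff_frequently] at h ⊢
  have c : Continuous fun y : Sq ι => (y.2 n, y.2 (n + 1)) := by fun_prop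
  refine (c.tendsto y).frequently ((h.and_eventually ((lab_nhds y n).and
    (lab_nhds y (n + 1)))).mono fun y' k => ?_)
  rw [← k.2.1, ← k.2.2]
  exact k.1 n

theorem gc_of_cl {y : Sq ι} (h : y ∈ closure D.Orb) (a b : ℤ) : D.GC y.1 a b y.2 :=
  fun n _ _ => gk_of_closure (link_closure h n)

theorem st_of_cl {y : Sq ι} (h : y ∈ closure D.Orb) (n : ℤ) : D.St (y.1 n) (y.2 n) :=
  (gk_of_closure (link_closure h n)).st1

omit [DiscreteTopology ι] in
theorem shz_cl {y : Sq ι} (h : y ∈ closure D.Orb) (c : ℤ) : shz c y ∈ closure D.Orb :=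
  map_mem_closure (continuous_shz c) h fun _ k => Orb.shz k c

omit [DiscreteTopology ι] in
theorem rv_cl {y : Sq ι} (h : y ∈ closure D.Orb) : rv y ∈ closure D.Orb :=
  map_mem_closure continuous_rv h fun _ k => Orb.rv k

theorem cl_ext {y y' : Sq ι} (h : y ∈ closure D.Orb) (h' : y' ∈ closure D.Orb) (e : y.1 = y'.1) :
    y = y' :=
  Prod.ext e (eq_of_word (w := y.1) (gc_of_cl h) (by rw [e]; exact gc_of_cl h'))

variable [Finite ι]

theorem isCompact_cl : IsCompact (closure D.Orb) := by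
  have hK : IsCompact (⋃ A, {x | D.St A x}) := isCompact_iUnion fun A => isCompact_St A
  refine ((isCompact_univ (X := ℤ → ι)).prod
    (isCompact_univ_pi fun _ : ℤ => hK)).of_isClosed_subset isClosed_closure fun y hy => ?_
  exact ⟨trivial, fun n _ => mem_iUnion.2 ⟨_, st_of_cl hy n⟩⟩

/-- A compactness principle for pairs of orbits. -/
theorem pair_compact {K : Set (Sq ι)} (hK : IsCompact K) {P : ℕ → Sq ι → Sq ι → Prop}
    {Q : Sq ι → Sq ι → Prop}
    (h : ∀ y ∈ K, ∀ y' ∈ K, ∀ U : Ultrafilter ℕ, (U : Filter ℕ) ≤ atTop → ∀ f g : ℕ → Sq ι,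
      Tendsto f U (𝓝 y) → Tendsto g U (𝓝 y') → (∀ k, P k (f k) (g k)) →
        ∃ᶠ k in U, Q (f k) (g k)) :
    ∃ k, ∀ y ∈ K, ∀ y' ∈ K, P k y y' → Q y y' := by
  by_contra hn
  push Not at hn
  choose f hf g hg h1 h2 using hn
  set U : Ultrafilter ℕ := Ultrafilter.of atTop
  obtain ⟨y, hy, l1⟩ := hK.ultrafilter_le_nhds (U.map f)
    (by rw [le_principal_iff]; exact Filter.mem_map.2 (Eventually.of_forall hf))
  obtain ⟨y', hy', l2⟩ := hK.ultrafilter_le_nhds (U.map g)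
    (by rw [le_principal_iff]; exact Filter.mem_map.2 (Eventually.of_forall hg))
  obtain ⟨k, hk⟩ := (h y hy y' hy' U (Ultrafilter.of_le _) f g l1 l2 h1).exists
  exact h2 k hk

omit [Finite ι] in
theorem lab_lim {U : Ultrafilter ℕ} (hU : (U : Filter ℕ) ≤ atTop) {f g : ℕ → Sq ι} {y y' : Sq ι}
    (l1 : Tendsto f U (𝓝 y)) (l2 : Tendsto g U (𝓝 y')) {n : ℤ}
    (h : ∀ᶠ k in atTop, (f k).1 n = (g k).1 n) : y.1 n = y'.1 n := by
  obtain ⟨k, k1, k2, k3⟩ := ((l1.eventually (lab_nhds y n)).and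
    ((l2.eventually (lab_nhds y' n)).and (hU h))).exists
  rw [← k1, ← k2, k3]

/-- Uniform expansivity. -/
theorem unif_exp (D : Sys ι) {ε : ℝ} (hε : 0 < ε) : ∃ M : ℕ, ∀ y ∈ closure D.Orb,
    ∀ y' ∈ closure D.Orb, (∀ n : ℤ, -M ≤ n → n ≤ M → y.1 n = y'.1 n) →
      dist (y.2 0) (y'.2 0) < ε := by
  refine pair_compact isCompact_cl fun y hy y' hy' U hU f g l1 l2 h => ?_
  have e : y = y' := cl_ext hy hy' (funext fun n => lab_lim hU l1 l2
    ((eventually_ge_atTop n.natAbs).mono fun k hk => h k n (by omega) (by omega)))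
  subst e
  have c : Continuous fun y : Sq ι => y.2 0 := by fun_prop
  have := ((c.tendsto y).comp l1).dist ((c.tendsto y).comp l2)
  rw [dist_self] at this
  exact (this.eventually (gt_mem_nhds hε)).frequently

/-- On a compact set of real orbits the future word and the position determine the past word. -/
theorem past_det {K : Set (Sq ι)} (hK : IsCompact K) (hKO : K ⊆ D.Orb) (n0 : ℕ) :
    ∃ k : ℕ, ∀ y ∈ K, ∀ y' ∈ K, ((∀ n : ℤ, 0 ≤ n → n ≤ k → y.1 n = y'.1 n) ∧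
      |(y.2 0).1 - (y'.2 0).1| ≤ 1 / (k + 1 : ℝ)) →
      ∀ n : ℤ, -n0 ≤ n → n ≤ 0 → y.1 n = y'.1 n := by
  refine pair_compact hK fun y hy y' hy' U hU f g l1 l2 h => ?_
  have e1 : ∀ n : ℤ, 0 ≤ n → y.1 n = y'.1 n := fun n hn => lab_lim hU l1 l2
    ((eventually_ge_atTop n.natAbs).mono fun k hk => (h k).1 n hn (by omega))
  have c : Continuous fun y : Sq ι => (y.2 0).1 := by fun_prop
  have e2 : (y.2 0).1 = (y'.2 0).1 := by
    have t1 := (((c.tendsto y).comp l1).sub ((c.tendsto y').comp l2)).abs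
    have := le_of_tendsto_of_tendsto' t1 (tendsto_one_div_add_atTop_nhds_zero_nat.mono_left hU)
      fun k => (h k).2
    exact sub_eq_zero.1 (abs_nonpos_iff.1 this)
  have e3 : y.2 0 = y'.2 0 := eq_of_fut (w := y.1) (a := 0) (fun b => (Orb.rc (hKO hy) 0 b).gc)
    (fun b => (Orb.rc (hKO hy') 0 b).gc.congr fun n h1 _ => e1 n h1) (dc_of_eq e2)
  have e : y = y' := Orb.ext (hKO hy) (hKO hy') (e1 0 le_rfl) e3
  subst e
  refine ((l1.eventually (labs_nhds y (-n0) 0)).and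
    (l2.eventually (labs_nhds y (-n0) 0))).frequently.mono fun k hk n h1 h2 => ?_
  rw [hk.1 n h1 h2, hk.2 n h1 h2]

variable (D) in
/-- Approximation by real orbits with a given sign pattern. -/
def Ap (t : SignType × SignType) (y : Sq ι) : Prop :=
  y ∈ closure {y' | y' ∈ D.Orb ∧ y'.1 0 = y.1 0 ∧ SignType.sign ((y'.2 0).1 - (y.2 0).1) = t.1 ∧
    SignType.sign (D.om (y.1 0) (y'.2 0) - D.om (y.1 0) (y.2 0)) = t.2}

omit [Finite ι] in
theorem exists_ap {y : Sq ι} (h : y ∈ closure D.Orb) : ∃ t, D.Ap t y := by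
  by_contra hn
  simp only [Ap, not_exists, mem_closure_iff_frequently, not_frequently] at hn
  rw [mem_closure_iff_frequently] at h
  obtain ⟨y', k1, k2, k3⟩ := (h.and_eventually ((lab_nhds y 0).and (eventually_all.2 hn))).exists
  exact k3 (_, _) ⟨k1, k2, rfl, rfl⟩

omit [Finite ι] [DiscreteTopology ι] in
theorem Ap.cl {t : SignType × SignType} {y : Sq ι} (h : D.Ap t y) : y ∈ closure D.Orb :=
  closure_mono (fun _ k => k.1) h

omit [Finite ι] in
theorem ap_rev {t : SignType × SignType} {y : Sq ι} (h : D.Ap t y) (ht : t.1 * t.2 = -1) :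
    D.Ap (t.1, t.1) (rv y) := by
  have sy := st_of_cl h.cl 0
  refine map_mem_closure continuous_rv h ?_
  rintro y' ⟨k1, k2, k3, k4⟩
  have sy' := (k1 0).1.st1
  rw [k2] at sy'
  refine ⟨Orb.rv k1, by simpa [rv] using k2, by simpa [rv] using k3, ?_⟩
  simp only [rv, neg_zero, om_R]
  rw [← k3, ← k4] at ht
  rw [← k3]
  rcases lt_trichotomy ((y'.2 0).1 - (y.2 0).1) 0 with a | a | a
  · have := θ_smono sy'.1 sy.1 (by linarith)
    rw [sign_neg a] at ht ⊢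
    have b : 0 < D.om (y.1 0) (y'.2 0) - D.om (y.1 0) (y.2 0) := by
      rw [← sign_eq_one_iff]; simpa using ht
    exact sign_neg (by linarith)
  · simp [a] at ht
  · have := θ_smono sy.1 sy'.1 (by linarith)
    rw [sign_pos a] at ht ⊢
    have b : D.om (y.1 0) (y'.2 0) - D.om (y.1 0) (y.2 0) < 0 := by
      rw [← sign_eq_neg_one_iff]; simpa using ht
    exact sign_pos (by linarith)

theorem sign_cmp {d e : ℝ} (h : SignType.sign d = SignType.sign e) (h' : d ≠ 0 → |e| < |d|) :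
    (0 ≤ SignType.sign d → e ≤ d) ∧ (SignType.sign d ≤ 0 → d ≤ e) := by
  rcases lt_trichotomy d 0 with a | a | a
  · have := h' a.ne
    rw [abs_of_neg a] at this
    refine ⟨fun k => ?_, fun _ => by linarith [(abs_lt.1 this).1]⟩
    rw [sign_nonneg_iff] at k; linarith
  · subst a
    have : e = 0 := by simpa [sign_eq_zero_iff] using h.symm
    simp [this]
  · have := h' a.ne'
    rw [abs_of_pos a] at this
    refine ⟨fun _ => by linarith [(abs_lt.1 this).2], fun k => ?_⟩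
    rw [sign_nonpos_iff] at k; linarith

theorem small_nhds {X : Type*} [TopologicalSpace X] {f : X → ℝ} (hf : Continuous f) {x : X}
    (h : f x = 0) (d : ℝ) : ∀ᶠ y in 𝓝 x, d ≠ 0 → |f y| < |d| := by
  by_cases k : d = 0
  · exact Eventually.of_forall fun _ k' => absurd k k'
  · have : ∀ᶠ y in 𝓝 x, |f y| < |d| :=
      (isOpen_lt (by fun_prop) continuous_const).mem_nhds (by simpa [h] using k)
    exact this.mono fun _ k _ => k

omit [Finite ι] in
theorem ap_pick {t : SignType × SignType} {y : Sq ι} (h : D.Ap t y) (N : ℤ) (d e : ℝ) :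
    ∃ y' ∈ D.Orb, (∀ n, 0 ≤ n → n ≤ N → y'.1 n = y.1 n) ∧
      SignType.sign ((y'.2 0).1 - (y.2 0).1) = t.1 ∧
      SignType.sign (D.om (y.1 0) (y'.2 0) - D.om (y.1 0) (y.2 0)) = t.2 ∧
      (d ≠ 0 → |(y'.2 0).1 - (y.2 0).1| < |d|) ∧
      (e ≠ 0 → |D.om (y.1 0) (y'.2 0) - D.om (y.1 0) (y.2 0)| < |e|) := by
  obtain ⟨y', ⟨k1, k2, k3⟩, k4, -, k5, k6⟩ := mem_closure_iff_nhds.1 h _ ((labs_nhds y 0 N).and
    ((small_nhds (f := fun y' : Sq ι => (y'.2 0).1 - (y.2 0).1) (by fun_prop) (sub_self _) d).and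
    (small_nhds (f := fun y' : Sq ι => D.om (y.1 0) (y'.2 0) - D.om (y.1 0) (y.2 0)) (by fun_prop)
      (sub_self _) e)))
  exact ⟨y', k4, k1, k5, k6, k2, k3⟩

omit [Finite ι] in
/-- The future word is determined by the state and a dispersing sign pattern. -/
theorem ap_det {t : SignType × SignType} {y y' : Sq ι} (h : D.Ap t y) (h' : D.Ap t y')
    (ht : t.1 * t.2 ≠ -1) (e : y.1 0 = y'.1 0) (e' : y.2 0 = y'.2 0) {N : ℤ} (hN : 0 ≤ N) :
    y.1 N = y'.1 N := by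
  obtain ⟨a, a0, a1, a2, a3, -, -⟩ := ap_pick h N 0 0
  obtain ⟨b, b0, b1, b2, b3, b4, b5⟩ := ap_pick h' N ((a.2 0).1 - (y.2 0).1)
    (D.om (y.1 0) (a.2 0) - D.om (y.1 0) (y.2 0))
  rw [← e'] at b2 b4
  rw [← e', ← e] at b3 b5
  obtain ⟨c, c0, c1, c2, c3, c4, c5⟩ := ap_pick h N ((b.2 0).1 - (y.2 0).1)
    (D.om (y.1 0) (b.2 0) - D.om (y.1 0) (y.2 0))
  have p1 := sign_cmp (a2.trans b2.symm) b4
  have p2 := sign_cmp (a3.trans b3.symm) b5
  have p3 := sign_cmp (b2.trans c2.symm) c4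
  have p4 := sign_cmp (b3.trans c3.symm) c5
  rw [a2] at p1; rw [a3] at p2; rw [b2] at p3; rw [b3] at p4
  have sw : D.Sw (y.1 0) (a.2 0) (b.2 0) (c.2 0) := by
    have : (0 ≤ t.1 ∧ 0 ≤ t.2) ∨ (t.1 ≤ 0 ∧ t.2 ≤ 0) := by
      revert ht
      rcases t with ⟨t1, t2⟩
      cases t1 <;> cases t2 <;> decide
    rcases this with k | k
    · exact Or.inr ⟨⟨by linarith [p3.1 k.1], by linarith [p4.1 k.2]⟩,
        by linarith [p1.1 k.1], by linarith [p2.1 k.2]⟩
    · exact Or.inl ⟨⟨by linarith [p1.2 k.1], by linarith [p2.2 k.2]⟩,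
        by linarith [p3.2 k.1], by linarith [p4.2 k.2]⟩
  have lb : b.1 0 = y.1 0 := (b1 0 le_rfl hN).trans e.symm
  obtain ⟨z, z1, z2, -, -⟩ := RC.ext_fwd (w := y.1) hN
    ((Orb.rc a0 0 N).congr (fun n h1 h2 => (a1 n h1 h2).symm) fun _ _ _ => rfl)
    ((Orb.rc c0 0 N).congr (fun n h1 h2 => (c1 n h1 h2).symm) fun _ _ _ => rfl)
    (lb ▸ (b0 0).2.1) sw
  rw [(z2.det (Orb.rc b0 0 N) lb.symm z1 hN le_rfl).1, b1 N hN le_rfl]

theorem countable_fut (D : Sys ι) {C : Set (ι × (ℝ × ℝ))} (hC : C.Countable) :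
    {f : ℕ → ι | ∃ y t, D.Ap t y ∧ t.1 * t.2 ≠ -1 ∧ (y.1 0, y.2 0) ∈ C ∧
      f = fun n : ℕ => y.1 n}.Countable := by
  have : ∀ c : ι × (ℝ × ℝ), ∀ t : SignType × SignType, {f : ℕ → ι | ∃ y, D.Ap t y ∧
      t.1 * t.2 ≠ -1 ∧ (y.1 0, y.2 0) = c ∧ f = fun n : ℕ => y.1 n}.Subsingleton := by
    rintro c t _ ⟨y, h1, h2, h3, rfl⟩ _ ⟨y', k1, -, k3, rfl⟩
    have := h3.trans k3.symm
    funext n
    exact ap_det h1 k1 h2 (congrArg Prod.fst this) (congrArg Prod.snd this) (by omega)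
  refine (hC.biUnion fun c _ => countable_iUnion fun t => (this c t).countable).mono ?_
  rintro _ ⟨y, t, h1, h2, h3, rfl⟩
  exact mem_biUnion h3 (mem_iUnion.2 ⟨t, y, h1, h2, rfl, rfl⟩)

variable (D) in
/-- Generalised orbits that are singular both in the far past and in the far future. -/
def Sing : Set (Sq ι) :=
  {y | y ∈ closure D.Orb ∧ ∃ a b : ℤ, a + 1 ≤ 0 ∧ (D.i0 : ℤ) + 2 ≤ b ∧
    ¬ D.RL (y.1 a) (y.1 (a + 1)) (y.2 a) (y.2 (a + 1)) ∧
    ¬ D.RL (y.1 b) (y.1 (b + 1)) (y.2 b) (y.2 (b + 1))}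

theorem countable_sing_state (D : Sys ι) :
    ((fun y : Sq ι => (y.1 0, y.2 0)) '' D.Sing).Countable := by
  have key : ∀ (a b : ℤ) (v : Icc a b → ι) (d d' : ι × Bool × Fin 4),
      {c : ι × (ℝ × ℝ) | ∃ y ∈ closure D.Orb, a ≤ 0 ∧ (D.i0 : ℤ) + 2 ≤ b ∧
        (∀ n : Icc a b, y.1 n = v n) ∧ D.lo d.1 ≤ D.hi d.1 ∧ D.lo d'.1 ≤ D.hi d'.1 ∧
        y.2 a ∈ D.src (y.1 a) d.1 d.2.1 d.2.2 ∧ R (y.2 b) ∈ D.src (y.1 b) d'.1 d'.2.1 d'.2.2 ∧
        c = (y.1 0, y.2 0)}.Subsingleton := by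
    rintro a b v d d' _ ⟨y, hy, h1, h2, h3, l1, l2, h4, h5, rfl⟩ _
      ⟨y', hy', -, -, k3, -, -, k4, k5, rfl⟩
    have e : ∀ n, a ≤ n → n ≤ b → y.1 n = y'.1 n := fun n n1 n2 =>
      (h3 ⟨n, n1, n2⟩).trans (k3 ⟨n, n1, n2⟩).symm
    have g := gc_of_cl hy a b
    have g' := (gc_of_cl hy' a b).congr e
    have ab : a < b := by omega
    rw [← e a le_rfl ab.le] at k4
    rw [← e b ab.le le_rfl] at k5
    have := g.pin g' (src_dc (g.st ab le_rfl ab.le) (g'.st ab le_rfl ab.le) h4 k4 l1)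
      (src_dc (g.st ab ab.le le_rfl).rev (g'.st ab ab.le le_rfl).rev h5 k5 l2) (by omega) h1
      (by omega)
    rw [this, e 0 h1 (by omega)]
  refine (countable_iUnion fun a => countable_iUnion fun b => countable_iUnion fun v =>
    countable_iUnion fun d => countable_iUnion fun d' => (key a b v d d').countable).mono ?_
  rintro _ ⟨y, ⟨hy, a, b, h1, h2, h3, h4⟩, rfl⟩
  obtain ⟨C, c, k, l1, q⟩ := src_of_not_RL (link_closure hy a) h3
  obtain ⟨C', c', k', l2, q'⟩ := src_of_not_RL (link_closure (rv_cl hy) (-(b + 1))) (fun h => h4 (by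
    have := RL.rev h
    simpa [rv] using this))
  simp only [mem_iUnion]
  refine ⟨a + 1, b, fun n => y.1 n, (C, c, k), (C', c', k'), y, hy, h1, h2, fun _ => rfl, l1, l2,
    q, ?_, rfl⟩
  simpa [rv] using q'

theorem sing_tails (D : Sys ι) : ∃ Q : Set (ℕ → ι), Q.Countable ∧ ∀ y ∈ D.Sing,
    (fun n : ℕ => y.1 n) ∈ Q ∨ (fun n : ℕ => y.1 (-n)) ∈ Q := by
  have h1 := D.countable_sing_state
  refine ⟨_, (D.countable_fut h1).union
    (D.countable_fut (h1.image fun c => (c.1, R c.2))), fun y hy => ?_⟩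
  obtain ⟨t, ht⟩ := exists_ap hy.1
  by_cases k : t.1 * t.2 = -1
  · refine Or.inr (Or.inr ⟨rv y, _, ap_rev ht k, ?_, ⟨_, ⟨y, hy, rfl⟩, by simp [rv]⟩, rfl⟩)
    generalize t.1 = t1
    cases t1 <;> decide
  · exact Or.inl (Or.inl ⟨y, t, ht, k, ⟨y, hy, rfl⟩, rfl⟩)

end Sys

end Pool.Agent.Lib.MP_fd11a7_an
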