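import Mathlib
import Pool.Agent.Lib.MP_fd11a7_an.Orb
import Pool.Agent.Lib.MP_fd11a7_an.Mme

set_option autoImplicit false

open Set Filter Topology MeasureTheory

namespace Pool.Agent.Lib.MP_fd11a7_an

theorem extreme {X W : Type*} [MeasurableSpace X] [Finite W] (μ : Measure X) [IsFiniteMeasure μ]
    {wd : X → W} (hw : Mf wd) {ρ : X → ℝ} (hρ : Measurable ρ) (hb : BddAbove (range ρ))
    (hb' : BddBelow (range ρ)) {δ η : ℝ}
    (hQ : ∀ a : W → ℝ, μ.real {x | |ρ x - a (wd x)| ≤ δ} ≤ η) (V : Set X) :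
    ∃ N, MeasurableSet N ∧ μ.real N ≤ 2 * η ∧ ∀ y ∈ V, y ∉ N →
      (∃ y' ∈ V, wd y' = wd y ∧ ρ y + δ ≤ ρ y') ∧ (∃ y' ∈ V, wd y' = wd y ∧ ρ y' ≤ ρ y - δ) := by
  have ms : ∀ a : W → ℝ, MeasurableSet {x | |ρ x - a (wd x)| ≤ δ} := by
    intro a
    have : {x | |ρ x - a (wd x)| ≤ δ} = ⋃ v, wd ⁻¹' {v} ∩ {x | |ρ x - a v| ≤ δ} := by
      ext x; simp
    rw [this]
    exact MeasurableSet.iUnion fun v => (hw v).inter
      (measurableSet_le (by fun_prop) measurable_const)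
  refine ⟨_, (ms fun v => sSup (ρ '' (V ∩ wd ⁻¹' {v}))).union
    (ms fun v => sInf (ρ '' (V ∩ wd ⁻¹' {v}))),
    (measureReal_union_le _ _).trans ((add_le_add (hQ (fun v => sSup (ρ '' (V ∩ wd ⁻¹' {v}))))
      (hQ (fun v => sInf (ρ '' (V ∩ wd ⁻¹' {v}))))).trans (two_mul η).ge),
    fun y hy hn => ?_⟩
  simp only [mem_union, mem_setOf_eq, not_or, not_le] at hn
  have m : ρ y ∈ ρ '' (V ∩ wd ⁻¹' {wd y}) := ⟨y, ⟨hy, rfl⟩, rfl⟩
  constructor
  · have h1 := le_csSup (hb.mono (image_subset_range _ _)) m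
    have h2 := hn.1
    rw [abs_of_nonpos (by linarith)] at h2
    obtain ⟨_, ⟨y', k, rfl⟩, h3⟩ := exists_lt_of_lt_csSup ⟨_, m⟩
      (show ρ y + δ < _ by linarith)
    exact ⟨y', k.1, k.2, h3.le⟩
  · have h1 := csInf_le (hb'.mono (image_subset_range _ _)) m
    have h2 := hn.2
    rw [abs_of_nonneg (by linarith)] at h2
    obtain ⟨_, ⟨y', k, rfl⟩, h3⟩ := exists_lt_of_csInf_lt ⟨_, m⟩
      (show _ < ρ y - δ by linarith)
    exact ⟨y', k.1, k.2, h3.le⟩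

theorem guess {X W P : Type*} [MeasurableSpace X] (μ : Measure X) [IsFiniteMeasure μ]
    {wd : X → W} {pa : X → P} [Nonempty P] {Z K : Set X} {η : ℝ}
    (h1 : ∀ k : W → P, μ.real {x | pa x = k (wd x)} ≤ η) (h2 : μ.real Kᶜ ≤ η)
    (h3 : ∀ x ∈ Z ∩ K, ∀ y ∈ Z ∩ K, wd x = wd y → pa x = pa y) : μ.real Z ≤ 2 * η := by
  have : ∀ v, ∃ u, ∀ x ∈ Z ∩ K, wd x = v → pa x = u := by
    intro v
    by_cases h : ∃ x ∈ Z ∩ K, wd x = v
    · obtain ⟨x, hx, e⟩ := h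
      exact ⟨pa x, fun y hy e' => h3 y hy x hx (e'.trans e.symm)⟩
    · exact ⟨Classical.arbitrary _, fun y hy e' => absurd ⟨y, hy, e'⟩ h⟩
  choose k hk using this
  have sub : Z ⊆ {x | pa x = k (wd x)} ∪ Kᶜ := fun x hx => by
    by_cases h : x ∈ K
    · exact Or.inl (hk _ x ⟨hx, h⟩ rfl)
    · exact Or.inr h
  linarith [measureReal_mono sub (measure_ne_top μ _), measureReal_union_le (μ := μ)
    {x | pa x = k (wd x)} Kᶜ, h1 k]

namespace Sys

variable {ι : Type} [TopologicalSpace ι] (D : Sys ι)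

/-- The compact space of generalised orbits. -/
def Om : Type := closure D.Orb

instance : TopologicalSpace D.Om := inferInstanceAs (TopologicalSpace (closure D.Orb))
instance : MeasurableSpace D.Om := borel _
instance : BorelSpace D.Om := ⟨rfl⟩

variable {D}

/-- The underlying sequence. -/
def Om.v (y : D.Om) : Sq ι := Subtype.val y

theorem Om.cl (y : D.Om) : y.v ∈ closure D.Orb := Subtype.property y
theorem Om.ext {y y' : D.Om} (h : y.v = y'.v) : y = y' := Subtype.ext h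
@[fun_prop] theorem continuous_v : Continuous (Om.v (D := D)) := continuous_subtype_val

variable [DiscreteTopology ι] [Fintype ι]

instance : CompactSpace D.Om := isCompact_iff_compactSpace.1 isCompact_cl
instance : TopologicalSpace.MetrizableSpace D.Om :=
  inferInstanceAs (TopologicalSpace.MetrizableSpace (closure D.Orb))

omit [Fintype ι] in
theorem isClopen_lab (n : ℤ) (A : ι) : IsClopen ((fun y : D.Om => y.v.1 n) ⁻¹' {A}) :=
  (isClopen_discrete _).preimage (by fun_prop)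

variable (D) in
/-- The shift on generalised orbits. -/
def sh : Sh D.Om ι where
  σ y := ⟨shz 1 y.v, shz_cl y.cl 1⟩
  lab n y := y.v.1 n
  mσ := Continuous.measurable (α := D.Om) (γ := D.Om)
    (((continuous_shz 1).comp continuous_v).subtype_mk _)
  mlab n A := (isClopen_lab n A).isOpen.measurableSet
  step _ _ := rfl
  surj y := ⟨⟨shz (-1) y.v, shz_cl y.cl _⟩, Subtype.ext (by
    change shz 1 (shz (-1) y.v) = y.v
    simp [shz_shz])⟩

omit [Fintype ι] in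
theorem continuous_σ : Continuous D.sh.σ := ((continuous_shz 1).comp continuous_v).subtype_mk _

omit [Fintype ι] in
theorem v_iter (k : ℕ) (y : D.Om) : (D.sh.σ^[k] y).v = shz k y.v := by
  induction k with
  | zero => simp
  | succ k ih =>
    rw [Function.iterate_succ_apply']
    change shz 1 (D.sh.σ^[k] y).v = _
    rw [ih, shz_shz]; congr 1; push_cast; ring

omit [Fintype ι] in
theorem win_eq {a : ℤ} {n : ℕ} {y y' : D.Om} (h : D.sh.win a n y = D.sh.win a n y') {k : ℤ}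
    (h1 : a ≤ k) (h2 : k < a + n) : y.v.1 k = y'.v.1 k := by
  have := congrFun h ⟨(k - a).toNat, by omega⟩
  simp only [Sh.win] at this
  rwa [show a + ((k - a).toNat : ℕ) = k by omega] at this

omit [Fintype ι] in
theorem win_of {a : ℤ} {n : ℕ} {y y' : D.Om} (h : ∀ k, a ≤ k → k < a + n → y.v.1 k = y'.v.1 k) :
    D.sh.win a n y = D.sh.win a n y' := funext fun j => h _ (by omega) (by omega)

omit [Fintype ι] in
theorem isClopen_win (n : ℕ) (w : Fin n → ι) : IsClopen (D.sh.win 0 n ⁻¹' {w}) :=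
  (isClopen_discrete _).preimage (continuous_pi fun j =>
    (by fun_prop : Continuous fun y : D.Om => y.v.1 (0 + (j : ℕ))))

theorem exists_mx [Nonempty D.Om] : ∃ μ : Measure D.Om, IsProbabilityMeasure μ ∧ Sh.Mx D.sh μ :=
  Sh.exists_mme continuous_σ isClopen_win

variable (D) in
/-- Orbits whose link number `n` is real. -/
def Gd (n : ℤ) : Set D.Om := {y | D.RL (y.v.1 n) (y.v.1 (n + 1)) (y.v.2 n) (y.v.2 (n + 1))}

theorem measurableSet_Gd (n : ℤ) : MeasurableSet (D.Gd n) := by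
  have : D.Gd n = ⋃ A, ⋃ B, (fun y : D.Om => y.v.1 n) ⁻¹' {A} ∩
      ((fun y : D.Om => y.v.1 (n + 1)) ⁻¹' {B} ∩
        (fun y : D.Om => (y.v.2 n, y.v.2 (n + 1))) ⁻¹' D.RLs A B) := by
    ext y; simp [Gd, RLs]
  rw [this]
  exact MeasurableSet.iUnion fun A => MeasurableSet.iUnion fun B => (D.sh.mlab n A).inter
    ((D.sh.mlab (n + 1) B).inter
      ((by fun_prop : Continuous fun y : D.Om => (y.v.2 n, y.v.2 (n + 1))).measurable
        (measurableSet_RLs A B)))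

theorem measurableSet_orb : MeasurableSet {y : D.Om | y.v ∈ D.Orb} := by
  have : {y : D.Om | y.v ∈ D.Orb} = ⋂ n, D.Gd n := by ext y; simp [Gd, Orb]
  rw [this]
  exact MeasurableSet.iInter measurableSet_Gd

variable {μ : Measure D.Om} [IsProbabilityMeasure μ]

theorem sing_null (h : Sh.Mx D.sh μ) (hH : 0 < D.sh.H) : μ {y | y.v ∈ D.Sing} = 0 := by
  obtain ⟨Q, hQ, hS⟩ := D.sing_tails
  have key : ∀ q : ℕ → ι, μ ({y : D.Om | (fun n : ℕ => y.v.1 n) = q} ∪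
      {y | (fun n : ℕ => y.v.1 (-n)) = q}) = 0 := by
    intro q
    refine measure_union_null ?_ ?_ <;>
    rw [← measureReal_eq_zero_iff] <;>
    refine le_antisymm (le_of_forall_pos_le_add fun η hη => ?_) measureReal_nonneg <;>
    obtain ⟨n, hn⟩ := h.small hH hη <;> rw [zero_add]
    · refine (measureReal_mono ?_).trans (hn 0 (fun _ j => q j) 0).1
      rintro y rfl
      funext j
      simp [Sh.win, sh]
    · refine (measureReal_mono ?_).trans (hn 0 (fun _ j => q (n - 1 - j)) (1 - n)).1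
      rintro y rfl
      funext j
      have := j.2
      exact congrArg y.v.1 (show 1 - (n : ℤ) + ((j : ℕ) : ℤ) = -((n - 1 - j : ℕ) : ℤ) by omega)
  refine measure_mono_null (fun y hy => ?_) ((measure_biUnion_null_iff hQ).2 fun q _ => key q)
  rcases hS _ hy with k | k
  · exact mem_biUnion k (Or.inl rfl)
  · exact mem_biUnion k (Or.inr rfl)

theorem ae_orb (h : Sh.Mx D.sh μ) (hH : 0 < D.sh.H) : ∀ᵐ y ∂μ, y.v ∈ D.Orb := by
  have h0 : μ (D.Gd 0)ᶜ = 0 := by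
    have a1 := h.mp.conservative.ae_mem_imp_frequently_image_mem
      (measurableSet_Gd (D := D) 0).compl.nullMeasurableSet
    have a2 := h.mp.quasiMeasurePreserving.preimage_null (sing_null h hH)
    rw [← compl_mem_ae_iff] at a2 ⊢
    filter_upwards [a1, a2] with y k1 k2 k3
    obtain ⟨b, b1, b2⟩ := ((k1 k3).and_eventually (eventually_ge_atTop (D.i0 + 3))).exists
    refine k2 ⟨(D.sh.σ y).cl, -1, b - 1, by omega, by omega, k3, fun k => b1 ?_⟩
    change D.RL (y.v.1 (b - 1 + 1)) (y.v.1 (b - 1 + 1 + 1)) (y.v.2 (b - 1 + 1))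
      (y.v.2 (b - 1 + 1 + 1)) at k
    simp only [Gd, mem_setOf_eq, v_iter, shz_fst, shz_snd]
    rw [sub_add_cancel] at k
    rwa [zero_add, zero_add, add_comm (1 : ℤ)]
  have st : ∀ n, μ (D.Gd (n + 1))ᶜ = μ (D.Gd n)ᶜ := fun n =>
    h.mp.measure_preimage (measurableSet_Gd n).compl.nullMeasurableSet
  have all : ∀ n, μ (D.Gd n)ᶜ = 0 := by
    intro n
    induction n using Int.induction_on with
    | zero => exact h0
    | succ n ih => rw [st, ih]
    | pred n ih => rw [← st, sub_add_cancel, ih]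
  exact ae_all_iff.2 all

theorem exists_compact (h : Sh.Mx D.sh μ) (hH : 0 < D.sh.H) {η : ℝ} (hη : 0 < η) :
    ∃ K : Set D.Om, IsCompact K ∧ (∀ y ∈ K, y.v ∈ D.Orb) ∧ μ.real Kᶜ ≤ η := by
  obtain ⟨K, k1, k2, k3⟩ := (measurableSet_orb (D := D)).exists_isCompact_diff_lt
    (μ := μ) (measure_ne_top _ _) (ENNReal.ofReal_pos.2 hη).ne'
  refine ⟨K, k2, k1, ENNReal.toReal_le_of_le_ofReal hη.le (le_trans (measure_mono_ae ?_) k3.le)⟩
  filter_upwards [ae_orb h hH] with y hy hK using ⟨hy, hK⟩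

theorem nonatomic (h : Sh.Mx D.sh μ) (hH : 0 < D.sh.H) {η : ℝ} (hη : 0 < η) :
    ∃ δ : ℝ, 0 < δ ∧ ∃ L0 : ℕ, ∀ L, L0 ≤ L → ∀ a : (Fin L → ι) → ℝ,
      μ.real {y | |(y.v.2 0).1 - a (D.sh.win 0 L y)| ≤ δ} ≤ η ∧
      μ.real {y | |(y.v.2 0).1 - a (D.sh.win (1 - L) L y)| ≤ δ} ≤ η := by
  obtain ⟨n, hn⟩ := h.small hH (half_pos hη)
  obtain ⟨K, k1, k2, k3⟩ := exists_compact h hH (half_pos hη)
  have c1 := k1.image (continuous_v (D := D))
  obtain ⟨k, hk⟩ := past_det (D := D) c1 (by rintro _ ⟨y, hy, rfl⟩; exact k2 y hy) n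
  obtain ⟨k', hk'⟩ := past_det (D := D) (c1.image continuous_rv)
    (by rintro _ ⟨_, ⟨y, hy, rfl⟩, rfl⟩; exact Orb.rv (k2 y hy)) n
  obtain ⟨y0⟩ := nonempty_of_isProbabilityMeasure μ
  haveI : Nonempty ι := ⟨y0.v.1 0⟩
  have tri : ∀ {j : ℕ} {r r' c : ℝ}, j ≤ k + k' → |r - c| ≤ 1 / (2 * (k + k' + 1 : ℝ)) →
      |r' - c| ≤ 1 / (2 * (k + k' + 1 : ℝ)) → |r - r'| ≤ 1 / (j + 1 : ℝ) := by
    intro j r r' c hj h1 h2
    have : 1 / (k + k' + 1 : ℝ) ≤ 1 / (j + 1 : ℝ) :=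
      one_div_le_one_div_of_le (by positivity) (by exact_mod_cast Nat.succ_le_succ hj)
    have e : 1 / (2 * (k + k' + 1 : ℝ)) = 1 / (k + k' + 1 : ℝ) / 2 := by field_simp
    rw [abs_le] at *
    constructor <;> linarith [h1.1, h1.2, h2.1, h2.2]
  refine ⟨1 / (2 * (k + k' + 1 : ℝ)), by positivity, k + k' + 1, fun L hL a => ⟨?_, ?_⟩⟩
  · rw [← mul_div_cancel₀ η two_ne_zero]
    refine guess μ (wd := D.sh.win 0 L) (pa := D.sh.win (-n) n)
      (fun g => by simpa using (hn L g (-n)).1) k3 fun x hx y hy e => win_of fun j j1 j2 => ?_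
    refine hk _ ⟨x, hx.2, rfl⟩ _ ⟨y, hy.2, rfl⟩ ⟨fun i i1 i2 => win_eq e i1 (by omega),
      tri (by omega) hx.1 (e ▸ hy.1)⟩ j j1 (by omega)
  · rw [← mul_div_cancel₀ η two_ne_zero]
    refine guess μ (wd := D.sh.win (1 - L) L) (pa := D.sh.win 1 n)
      (fun g => by simpa using (hn L g (1 - L)).2) k3 fun x hx y hy e => win_of fun j j1 j2 => ?_
    have := hk' _ ⟨_, ⟨x, hx.2, rfl⟩, rfl⟩ _ ⟨_, ⟨y, hy.2, rfl⟩, rfl⟩
      ⟨fun i i1 i2 => win_eq e (by omega) (by omega), tri (by omega) hx.1 (e ▸ hy.1)⟩ (-j)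
      (by omega) (by omega)
    simpa using this

theorem good_blocks (h : Sh.Mx D.sh μ) (hH : 0 < D.sh.H) : ∃ δ : ℝ, 0 < δ ∧ ∃ p0 : ℕ, ∀ p : ℕ,
    ∃ G : Set D.Om, MeasurableSet G ∧ (p0 ≤ p → μ.real Gᶜ ≤ 1 / 4 ∧
      ∀ y ∈ G, D.Blk y.v.1 0 p y.v.2 δ) := by
  obtain ⟨δ, δ0, L0, hL⟩ := nonatomic h hH (η := 1 / 16) (by norm_num)
  obtain ⟨M, hM⟩ := D.unif_exp (half_pos δ0)
  refine ⟨δ / 2, half_pos δ0, L0 + M + 1, fun p => ?_⟩
  by_cases hp : L0 + M + 1 ≤ p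
  swap
  · exact ⟨∅, MeasurableSet.empty, fun k => absurd k hp⟩
  have cρ : Continuous fun y : D.Om => (y.v.2 0).1 := by fun_prop
  have b1 := (isCompact_range cρ).bddAbove
  have b2 := (isCompact_range cρ).bddBelow
  obtain ⟨N1, m1, n1, e1⟩ := extreme μ (D.sh.mf_win (1 - (p + M + 1 : ℕ)) (p + M + 1))
    cρ.measurable b1 b2 (fun a => (hL _ (by omega) a).2) {y | y.v ∈ D.Orb}
  obtain ⟨N2, m2, n2, e2⟩ := extreme μ (D.sh.mf_win 0 (p + M + 1))
    cρ.measurable b1 b2 (fun a => (hL _ (by omega) a).1)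
    ({y | y.v ∈ D.Orb} \ D.sh.σ^[p] ⁻¹' N1)
  have m3 := (D.sh.mσ.iterate p) m1
  refine ⟨({y | y.v ∈ D.Orb} \ D.sh.σ^[p] ⁻¹' N1) \ N2, (measurableSet_orb.diff m3).diff m2,
    fun _ => ⟨?_, fun y hy => ⟨Orb.rc hy.1.1 _ _, fun s t hs ht => ?_⟩⟩⟩
  · have : μ.real (({y | y.v ∈ D.Orb} \ D.sh.σ^[p] ⁻¹' N1) \ N2)ᶜ ≤
        μ.real (D.sh.σ^[p] ⁻¹' N1 ∪ N2) := by
      refine ENNReal.toReal_mono (measure_ne_top _ _) (measure_mono_ae ?_)
      filter_upwards [ae_orb h hH] with y hy hK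
      by_contra k
      exact hK ⟨⟨hy, fun a => k (Or.inl a)⟩, fun a => k (Or.inr a)⟩
    have q := (h.mp.iterate p).measureReal_preimage m1.nullMeasurableSet
    linarith [measureReal_union_le (μ := μ) (D.sh.σ^[p] ⁻¹' N1) N2]
  have corner : ∀ y' : D.Om, y'.v ∈ D.Orb → D.sh.σ^[p] y' ∉ N1 →
      D.sh.win 0 (p + M + 1) y' = D.sh.win 0 (p + M + 1) y →
      (∃ x, D.RC y.v.1 0 p x ∧ |(x 0).1 - (y'.v.2 0).1| < δ / 2 ∧
        (y.v.2 p).1 + δ / 2 ≤ (x p).1) ∧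
      (∃ x, D.RC y.v.1 0 p x ∧ |(x 0).1 - (y'.v.2 0).1| < δ / 2 ∧
        (x p).1 ≤ (y.v.2 p).1 - δ / 2) := by
    intro y' o1 o2 o3
    have d1 := hM _ (shz_cl y'.cl p) _ (shz_cl y.cl p) fun n k1 k2 =>
      win_eq o3 (by omega) (by omega)
    simp only [shz_snd, zero_add] at d1
    have d2 := abs_lt.1 (lt_of_le_of_lt (le_max_left _ _) d1 : dist (y'.v.2 p).1 (y.v.2 p).1 < _)
    have tr : ∀ z : D.Om, z.v ∈ D.Orb → D.sh.win (1 - (p + M + 1 : ℕ)) (p + M + 1) z =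
        D.sh.win (1 - (p + M + 1 : ℕ)) (p + M + 1) (D.sh.σ^[p] y') →
        D.RC y.v.1 0 p (shz (-p) z.v).2 ∧ |((shz (-p) z.v).2 0).1 - (y'.v.2 0).1| < δ / 2 := by
      intro z z1 z2
      have lb : ∀ n : ℤ, -M ≤ n → n ≤ p → z.v.1 (n + -p) = y'.v.1 n := fun n k1 k2 => by
        rw [win_eq z2 (by omega) (by omega), v_iter, shz_fst]; congr 1; ring
      refine ⟨(Orb.rc (Orb.shz z1 (-p)) 0 p).congr (fun n k1 k2 => ?_) fun _ _ _ => rfl, ?_⟩
      · rw [shz_fst, lb n (by omega) k2, win_eq o3 k1 (by omega)]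
      · exact lt_of_le_of_lt (le_max_left _ _) (hM _ (shz_cl z.cl (-p)) _ y'.cl fun n k1 k2 =>
          lb n k1 (by omega))
    obtain ⟨⟨z, z1, z2, z3⟩, z', z1', z2', z3'⟩ := e1 (D.sh.σ^[p] y')
      (by simp only [mem_setOf_eq, v_iter]; exact Orb.shz o1 p) o2
    simp only [v_iter, shz_snd, zero_add] at z3 z3'
    exact ⟨⟨_, (tr z z1 z2).1, (tr z z1 z2).2, by simp only [shz_snd, add_neg_cancel]; linarith⟩,
      _, (tr z' z1' z2').1, (tr z' z1' z2').2, by simp only [shz_snd, add_neg_cancel]; linarith⟩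
  obtain ⟨⟨u, u1, u2, u3⟩, v, v1, v2, v3⟩ := e2 y hy.1 hy.2
  obtain ⟨⟨x4, p1, p2, p3⟩, x2, q1, q2, q3⟩ := corner u u1.1 u1.2 u2
  obtain ⟨⟨x3, r1, r2, r3⟩, x1, s1, s2, s3⟩ := corner v v1.1 v1.2 v2
  rw [abs_lt] at p2 q2 r2 s2
  rw [abs_le] at hs ht
  exact rect (by omega) s1 q1 r1 p1 (by linarith) (by linarith) (by linarith) (by linarith)
    (by linarith) (by linarith) (by linarith) (by linarith)

end Sys

end Pool.Agent.Lib.MP_fd11a7_an
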