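import Mathlib
import Pool.Agent.Lib.MP_fd11a7_an.Dyn

set_option autoImplicit false

open Set Filter Topology MeasureTheory

namespace Pool.Agent.Lib.MP_fd11a7_an

namespace Sys

variable {ι : Type} {D : Sys ι}

theorem Blk.congr {w w' : ℤ → ι} {a b : ℤ} {x : ℤ → ℝ × ℝ} {δ : ℝ} (h : D.Blk w a b x δ)
    (e : ∀ n, a ≤ n → n ≤ b → w' n = w n) : D.Blk w' a b x δ :=
  ⟨h.1.congr e fun _ _ _ => rfl, fun s t hs ht => by
    obtain ⟨z, z1, z2⟩ := h.2 s t hs ht
    exact ⟨z, z1.congr e fun _ _ _ => rfl, z2⟩⟩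

theorem Blk.shift {w : ℤ → ι} {q : ℤ} {x : ℤ → ℝ × ℝ} {δ : ℝ} (h : D.Blk w 0 q x δ) (p : ℤ) :
    D.Blk (fun n => w (n + -p)) p (p + q) (fun n => x (n + -p)) δ := by
  have e1 : (0 : ℤ) - -p = p := by ring
  have e2 : q - -p = p + q := by ring
  have e3 : p + q + -p = q := by ring
  refine ⟨by simpa only [e1, e2] using h.1.shift (-p), fun s t hs ht => ?_⟩
  simp only [add_neg_cancel, e3] at hs ht
  obtain ⟨z, z1, z2, z3⟩ := h.2 s t hs ht
  exact ⟨fun n => z (n + -p), by simpa only [e1, e2] using z1.shift (-p),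
    by simpa only [add_neg_cancel] using z2, by simpa only [e3] using z3⟩

variable (D) in
/-- Periodic real orbits. -/
def Per (P : ℕ) : Set (Sq ι) := {y | y ∈ D.Orb ∧ shz P y = y}

theorem exists_per {w : ℤ → ι} {z : ℤ → ℝ × ℝ} {P : ℕ} (hP : 0 < P) (h : D.RC w 0 P z)
    (e : w 0 = w P) (e' : z 0 = z P) : ∃ y ∈ D.Per P, ∀ n : ℤ, 0 ≤ n → n < P → y.1 n = w n := by
  refine ⟨(fun n => w (n % P), fun n => z (n % P)), ⟨fun n => ?_, ?_⟩, fun n h1 h2 => ?_⟩
  · have h1 := Int.emod_nonneg n (show (P : ℤ) ≠ 0 by omega)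
    have h2 := Int.emod_lt_of_pos n (show (0 : ℤ) < P by omega)
    have k := h (n % P) h1 h2
    have q : (n + 1) % P = (n % P + 1) % P := by simp
    simp only
    rcases lt_or_ge (n % P + 1) P with c | c
    · rw [q, Int.emod_eq_of_lt (by omega) c]; exact k
    · have c' : n % P + 1 = P := by omega
      rw [c'] at k
      rw [q, c', Int.emod_self, e, e']; exact k
  · simp [shz]
  · simp only [Int.emod_eq_of_lt h1 h2]

theorem per_lab {P : ℕ} (hP : 0 < P) {y : Sq ι} (h : y ∈ D.Per P) (n : ℤ) :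
    y.1 n = y.1 (n % P) := by
  have p : Function.Periodic y.1 (P : ℤ) := fun n => congrFun (congrArg Prod.fst h.2) n
  have := p.int_mul (n / P) (n % P)
  rw [← this]
  refine congrArg y.1 ?_
  simp only [Int.cast_id]
  linarith [Int.emod_add_mul_ediv n P]

variable [TopologicalSpace ι] [DiscreteTopology ι] [Fintype ι]

omit [Fintype ι] in
theorem per_inj {P : ℕ} (hP : 0 < P) :
    InjOn (fun (y : Sq ι) (j : Fin P) => y.1 (0 + (j : ℕ))) (D.Per P) := by
  intro y hy y' hy' e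
  refine cl_ext (subset_closure hy.1) (subset_closure hy'.1) (funext fun n => ?_)
  have h1 := Int.emod_nonneg n (show (P : ℤ) ≠ 0 by omega)
  have h2 := Int.emod_lt_of_pos n (show (0 : ℤ) < P by omega)
  have := congrFun e ⟨(n % P).toNat, by omega⟩
  simp only at this
  rw [show (0 : ℤ) + ((n % P).toNat : ℕ) = n % P by omega] at this
  rw [per_lab hP hy, per_lab hP hy', this]

theorem per_maps (P : ℕ) : MapsTo (fun (y : Sq ι) (j : Fin P) => y.1 (0 + (j : ℕ))) (D.Per P)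
    (D.sh.LN P : Set (Fin P → ι)) := fun y hy =>
  D.sh.win_mem 0 P (⟨y, subset_closure hy.1⟩ : D.Om)

theorem per_finite {P : ℕ} (hP : 0 < P) : (D.Per P).Finite :=
  Finite.of_injOn (per_maps P) (per_inj hP) (Finset.finite_toSet _)

theorem per_card_le {P : ℕ} (hP : 0 < P) : (D.Per P).ncard ≤ (D.sh.LN P).card := by
  rw [← ncard_coe_finset]
  exact ncard_le_ncard_of_injOn _ (per_maps P) (per_inj hP) (Finset.finite_toSet _)

theorem per_lower {μ : Measure D.Om} [IsProbabilityMeasure μ] (h : Sh.Mx D.sh μ)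
    (hH : 0 < D.sh.H) {γ : ℝ} (hγ : 0 < γ) : ∃ m : ℕ, ∀ᶠ n : ℕ in atTop, ∃ P : ℕ, 0 < P ∧
      P ≤ 2 * n + 2 * m ∧ Real.exp (2 * ((D.sh.H - γ) * n)) ≤ (D.Per P).ncard := by
  classical
  obtain ⟨δ, δ0, p0, hG⟩ := good_blocks h hH
  choose G G1 G2 using hG
  have κ0 := D.κ_pos
  have ε0 : 0 < D.κ * δ / 4 := by positivity
  obtain ⟨m0, hm0⟩ := D.exp1 ε0
  set β := min (δ / 2) (D.κ * δ / (2 * (1 + D.κ))) with hβ
  have β0 : 0 < β := lt_min (by positivity) (by positivity)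
  have β1 : β * (1 + D.κ) + 2 * (D.κ * δ / 4) ≤ D.κ * δ := by
    have : β ≤ D.κ * δ / (2 * (1 + D.κ)) := min_le_right _ _
    rw [le_div_iff₀ (by positivity)] at this
    linarith
  obtain ⟨M, hM⟩ := D.unif_exp β0
  obtain ⟨c, c0, m, hrec⟩ := recur μ h.mp (D.sh.mf_win (-M) (2 * M + 1))
  refine ⟨m, ?_⟩
  filter_upwards [h.many c0 hγ, eventually_ge_atTop (p0 + m0 + D.i0 + 2)] with n many hn
  obtain ⟨J, J', p, p', a1, a2, a3, a4, b1, b2⟩ := hrec n G G1 fun p hp => (G2 p (by omega)).1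
  have getV : ∀ B : Set D.Om, c ≤ μ.real B → ∃ V : Finset (Fin n → ι),
      Real.exp ((D.sh.H - γ) * n) ≤ V.card ∧ ∀ v ∈ V, ∃ y ∈ B, D.sh.win 0 n y = v := by
    intro B hB
    set V := Finset.univ.filter fun v => ∃ y ∈ B, D.sh.win 0 n y = v
    have hV : c ≤ μ.real (D.sh.win 0 n ⁻¹' V) :=
      hB.trans (measureReal_mono fun y hy => by simpa [V] using ⟨y, hy, rfl⟩)
    have V0 : (0 : ℝ) < V.card := by
      rcases V.eq_empty_or_nonempty with k | k
      · rw [k] at hV; simp at hV; linarith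
      · exact_mod_cast k.card_pos
    exact ⟨V, (Real.le_log_iff_exp_le V0).1 (many V hV), fun v hv => (Finset.mem_filter.1 hv).2⟩
  obtain ⟨V, V1, V2⟩ := getV _ b1
  obtain ⟨V', V1', V2'⟩ := getV _ b2
  have close : ∀ (y y' : D.Om) (k : ℕ), D.sh.win (-M) (2 * M + 1) (D.sh.σ^[k] y) =
      D.sh.win (-M) (2 * M + 1) y' → y.v.1 k = y'.v.1 0 ∧ |(y.v.2 k).1 - (y'.v.2 0).1| ≤ β ∧
        |(y.v.2 k).2 - (y'.v.2 0).2| ≤ β := by
    intro y y' k e
    have d := hM _ (D.sh.σ^[k] y).cl _ y'.cl fun n n1 n2 => win_eq e n1 (by omega)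
    have l := win_eq e (k := 0) (by omega) (by omega)
    simp only [v_iter, shz_fst, shz_snd, zero_add] at d l
    exact ⟨l, (le_max_left _ _).trans d.le, (le_max_right _ _).trans d.le⟩
  have key : ∀ c : (Fin n → ι) × (Fin n → ι), c ∈ V ×ˢ V' → ∃ y ∈ D.Per (p + p'),
      (fun j : Fin n => y.1 j) = c.1 ∧ (fun j : Fin n => y.1 (j + p)) = c.2 := by
    rintro ⟨v, v'⟩ hc
    obtain ⟨y, ⟨⟨y1, y2⟩, y3⟩, rfl⟩ := V2 v (Finset.mem_product.1 hc).1
    obtain ⟨y', ⟨⟨y1', y2'⟩, y3'⟩, rfl⟩ := V2' v' (Finset.mem_product.1 hc).2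
    obtain ⟨l1, l2, l3⟩ := close y y' p (Eq.trans y2 (Eq.symm y1'))
    obtain ⟨k1, k2, k3⟩ := close y' y p' (Eq.trans y2' (Eq.symm y1))
    set w : ℤ → ι := fun k => if k ≤ p then y.v.1 k else y'.v.1 (k + -p) with hw
    have w1 : ∀ k : ℤ, k ≤ p → w k = y.v.1 k := fun k hk => if_pos hk
    have w2 : ∀ k : ℤ, p ≤ k → w k = y'.v.1 (k + -p) := fun k hk => by
      simp only [hw]
      split_ifs with h
      · obtain rfl : k = p := le_antisymm h hk
        rw [l1, add_neg_cancel]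
      · rfl
    have e3 : (p : ℤ) + p' + -p = p' := by ring
    obtain ⟨z, z1, z2⟩ := closing hm0 ε0 δ0.le (min_le_left _ _) β1 (w := w) (a := 0) (b := p)
      (c := p + p') (by omega) (by omega) (by omega) (by omega)
      (((G2 p (by omega)).2 y y3).congr fun k _ hk => w1 k hk)
      ((((G2 p' (by omega)).2 y' y3').shift p).congr fun k hk _ => w2 k hk)
      (by simpa only [add_neg_cancel] using l2) (by simpa only [add_neg_cancel] using l3) (by simpa only [e3] using k2)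
      (by simpa only [e3] using k3)
    obtain ⟨u, u1, u2⟩ := exists_per (P := p + p') (by omega) (by exact_mod_cast z1)
      (by push_cast; rw [w1 0 (by omega), w2 _ (by omega), e3, k1]) (by exact_mod_cast z2)
    refine ⟨u, u1, funext fun j => ?_, funext fun j => ?_⟩
    · rw [u2 _ (by omega) (by omega), w1 _ (by omega)]
      simp [Sh.win, sh]
    · rw [u2 _ (by omega) (by omega), w2 _ (by omega)]
      simp [Sh.win, sh]
  obtain ⟨y0⟩ := nonempty_of_isProbabilityMeasure μ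
  haveI : Nonempty (Sq ι) := ⟨y0.v⟩
  choose! f f1 f2 f3 using key
  refine ⟨p + p', by omega, by omega, ?_⟩
  have := ncard_le_ncard_of_injOn (s := (V ×ˢ V' : Finset _)) (t := D.Per (p + p')) f (fun c hc => f1 c hc)
    (fun c hc c' hc' (e : f c = f c') => Prod.ext (by rw [← f2 c hc, ← f2 c' hc', e])
      (by rw [← f3 c hc, ← f3 c' hc', e])) (per_finite (by omega))
  rw [ncard_coe_finset, Finset.card_product] at this
  rw [two_mul, Real.exp_add]
  calc _ ≤ (V.card : ℝ) * V'.card := mul_le_mul V1 V1' (Real.exp_pos _).le (Nat.cast_nonneg _)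
    _ ≤ _ := by exact_mod_cast this

end Sys

end Pool.Agent.Lib.MP_fd11a7_an
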