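import Mathlib

set_option autoImplicit false

open MeasureTheory Filter Set Topology
open scoped ENNReal

namespace Pool.Agent.Lib.MP_fd11a7_an

/-- A dispersive billiard table in the plane (identified with the complex numbers).
The boundary components are the arcs `γ i` on `[0, L i]`, parametrised by arc length and oriented
so that the curvature is positive: the centre of curvature lies on the side `I * γ'`, the table on
the side `-I * γ'`.  `C` is the finite set of corners. -/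
structure Table where
  Y : Set ℂ
  n : ℕ
  γ : Fin n → ℝ → ℂ
  L : Fin n → ℝ
  C : Finset ℂ
  isOpen : IsOpen Y
  bounded : Bornology.IsBounded Y
  connected : IsConnected Y
  L_pos : ∀ i, 0 < L i
  smooth : ∀ i, ContDiff ℝ 3 (γ i)
  unit : ∀ i, ∀ s ∈ Icc 0 (L i), ‖deriv (γ i) s‖ = 1
  curv : ∀ i, ∀ s ∈ Icc 0 (L i),
    0 < inner ℝ (deriv (deriv (γ i)) s) (Complex.I * deriv (γ i) s)
  boundary : frontier Y = ⋃ i, γ i '' Icc 0 (L i)
  corner_end : ∀ c ∈ C, ∃ i, c = γ i 0 ∨ c = γ i (L i)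
  ends : ∀ i, (γ i 0 ∈ C ∧ γ i (L i) ∈ C) ∨ Function.Periodic (γ i) (L i)
  inner_not_corner : ∀ i, ∀ s ∈ Ioo 0 (L i), γ i s ∉ C
  simple : ∀ i j, ∀ s ∈ Icc 0 (L i), ∀ t ∈ Icc 0 (L j), γ i s = γ j t → γ i s ∉ C →
    i = j ∧ (s = t ∨ (s = 0 ∧ t = L j) ∨ (s = L i ∧ t = 0))
  inward : ∀ i, ∀ s ∈ Icc 0 (L i), γ i s ∉ C → ∀ᶠ ε : ℝ in 𝓝[>] 0,
    γ i s - ε • (Complex.I * deriv (γ i) s) ∈ Y ∧ γ i s + ε • (Complex.I * deriv (γ i) s) ∉ Y
  no_cusp : ∀ i j, ∀ a b : Bool, (i, a) ≠ (j, b) →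
    γ i (if a then 0 else L i) = γ j (if b then 0 else L j) →
    (if a then deriv (γ i) 0 else -deriv (γ i) (L i)) ≠
      (if b then deriv (γ j) 0 else -deriv (γ j) (L j))

namespace Table

variable (T : Table)

/-- The inward unit normal. -/
noncomputable def normal (i : Fin T.n) (s : ℝ) : ℂ := -(Complex.I * deriv (T.γ i) s)

/-- The phase space: a boundary point that is not a corner and a unit vector pointing inward. -/
def Phase : Set (ℂ × ℂ) :=
  {z | z.1 ∉ T.C ∧ ‖z.2‖ = 1 ∧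
    ∃ i, ∃ s ∈ Icc 0 (T.L i), z.1 = T.γ i s ∧ 0 < inner ℝ z.2 (T.normal i s)}

/-- One regular step of the billiard: free flight inside the table, then specular reflection at a
boundary point that is not a corner, not tangentially. -/
def Step (z z' : ℂ × ℂ) : Prop :=
  z ∈ T.Phase ∧ z' ∈ T.Phase ∧ (∃ τ : ℝ, 0 < τ ∧ z'.1 = z.1 + τ • z.2) ∧
    openSegment ℝ z.1 z'.1 ⊆ T.Y ∧
    ∃ i, ∃ s ∈ Icc 0 (T.L i), z'.1 = T.γ i s ∧
      z'.2 = z.2 - (2 * inner ℝ z.2 (T.normal i s)) • T.normal i s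

open Classical in
/-- The billiard map (the identity where it is not defined). -/
noncomputable def map (z : ℂ × ℂ) : ℂ × ℂ := if h : ∃ z', T.Step z z' then h.choose else z

/-- Points whose whole two-sided orbit is defined and regular. -/
def Reg : Set (ℂ × ℂ) := {z | ∃ o : ℤ → ℂ × ℂ, o 0 = z ∧ ∀ k, T.Step (o k) (o (k + 1))}

/-- The periodic orbits of period at most `n`. -/
def perOrbits (n : ℕ) : Set (Set (ℂ × ℂ)) :=
  {O | ∃ z ∈ T.Reg, ∃ k, 0 < k ∧ k ≤ n ∧ T.map^[k] z = z ∧ O = range fun j : ℕ => T.map^[j] z}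

end Table

/-- Shannon entropy of the join of the first `n` preimages of the finite partition `P`. -/
noncomputable def joinEnt {X : Type} [MeasurableSpace X] (μ : Measure X) (φ : X → X) {r : ℕ}
    (P : X → Fin r) (n : ℕ) : ℝ :=
  ∑ w : Fin n → Fin r, Real.negMulLog (μ.real {x | ∀ j : Fin n, P (φ^[j] x) = w j})

/-- Kolmogorov-Sinai entropy. -/
noncomputable def ksEnt {X : Type} [MeasurableSpace X] (μ : Measure X) (φ : X → X) : ℝ≥0∞ :=
  ⨆ (r : ℕ) (P : X → Fin r) (_ : Measurable P),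
    limsup (fun n : ℕ => ENNReal.ofReal (joinEnt μ φ P n / n)) atTop

/-- Topological entropy of the billiard map in the variational sense. -/
noncomputable def Table.htop (T : Table) : ℝ≥0∞ :=
  ⨆ (μ : Measure (ℂ × ℂ)) (_ : IsProbabilityMeasure μ) (_ : MeasurePreserving T.map μ μ)
    (_ : ∀ᵐ z ∂μ, z ∈ T.Reg), ksEnt μ T.map

end Pool.Agent.Lib.MP_fd11a7_an
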