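import Mathlib
import Pool.Agent.Lib.MP_fd11a7_an.Defs
import Pool.Agent.Lib.MP_fd11a7_an.Count

set_option autoImplicit false

open Set Filter Topology MeasureTheory Real

namespace Pool.Agent.Lib.MP_fd11a7_an

theorem inner_E (a θ : ℝ) : inner ℝ (E a) (-(Complex.I * E θ)) = sin (θ - a) := by
  simp [Complex.inner, E_re, E_im, sin_sub]; ring

theorem refl_E (a θ : ℝ) :
    E a - (2 * sin (θ - a)) • -(Complex.I * E θ) = E (2 * θ - a) := by
  have e1 : a = θ - (θ - a) := by ring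
  have e2 : 2 * θ - a = θ + (θ - a) := by ring
  generalize θ - a = d at e1 e2
  rw [e2, e1]
  apply Complex.ext <;> 
    simp [E_re, E_im, cos_sub, cos_add, sin_sub, sin_add, Complex.sin_ofReal_re] <;> ring

theorem exists_angle {v : ℂ} (hv : ‖v‖ = 1) (θ : ℝ) (h : 0 < inner ℝ v (-(Complex.I * E θ))) :
    ∃ ψ ∈ Ioo (-π) 0, v = E (θ + ψ) := by
  have n1 : ‖v * E (-θ)‖ = 1 := by rw [norm_mul, hv, norm_E, one_mul]
  have e : v = E (θ + Complex.arg (v * E (-θ))) := by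
    have := Complex.norm_mul_exp_arg_mul_I (v * E (-θ))
    rw [n1, Complex.ofReal_one, one_mul] at this
    rw [E_add, E, E, this, mul_left_comm, ← E, ← E_add, add_neg_cancel, E_zero, mul_one]
  refine ⟨_, ⟨Complex.neg_pi_lt_arg _, ?_⟩, e⟩
  rw [e, inner_E] at h
  by_contra k
  have := sin_nn (not_lt.1 k) (Complex.arg_le_pi (v * E (-θ)))
  rw [sub_add_cancel_left, sin_neg] at h
  linarith

/-- The system of arcs describes the table. -/
structure Br {ι : Type} (T : Table) (D : Sys ι) : Prop where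
  y_eq : D.Y = T.Y
  b1 : ∀ A, ∀ r ∈ D.I A, ∃ i, ∃ s ∈ Icc 0 (T.L i), T.γ i s = D.γ A r ∧
    deriv (T.γ i) s = E (D.θ A r) ∧ D.γ A r ∉ T.C
  b2 : ∀ i, ∀ s ∈ Icc 0 (T.L i), T.γ i s ∉ T.C → ∃ A, ∃ r ∈ D.I A, D.γ A r = T.γ i s ∧
    E (D.θ A r) = deriv (T.γ i) s

namespace Sys

variable {ι : Type} (D : Sys ι)

/-- The phase point of a state. -/
noncomputable def pt (A : ι) (x : ℝ × ℝ) : ℂ × ℂ := (D.γ A x.1, E (D.om A x))

/-- The phase point of a sequence at time zero. -/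
noncomputable def pr (y : Sq ι) : ℂ × ℂ := D.pt (y.1 0) (y.2 0)

variable {D}

theorem continuous_pt (A : ι) : Continuous (D.pt A) := by
  have := D.cγ A
  unfold pt; fun_prop

theorem continuous_pr [TopologicalSpace ι] [DiscreteTopology ι] : Continuous D.pr :=
  (continuous_prod_of_discrete_left (f := fun c : ι × (ℝ × ℝ) => D.pt c.1 c.2)).2
    continuous_pt |>.comp (by fun_prop : Continuous fun y : Sq ι => (y.1 0, y.2 0))

theorem pos_inj {A B : ι} {r s : ℝ} (hr : r ∈ D.I A) (hs : s ∈ D.I B) (h : D.γ A r = D.γ B s) :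
    A = B ∧ r = s := by
  have : A = B := by
    by_contra k
    exact D.disj1 A B k r hr s hs h
  subst this
  exact ⟨rfl, γ_inj (D.I_sub A hr) (D.I_sub A hs) h⟩

theorem pt_inj {A B : ι} {x y : ℝ × ℝ} (hx : D.Rg A x) (hy : D.Rg B y) (h : D.pt A x = D.pt B y) :
    A = B ∧ x = y := by
  obtain ⟨rfl, e⟩ := pos_inj hx.1 hy.1 (congrArg Prod.fst h)
  refine ⟨rfl, st_ext e (E_inj (congrArg Prod.snd h) ?_)⟩
  unfold om
  rw [e, abs_lt]
  constructor <;> linarith [hx.2.1, hx.2.2, hy.2.1, hy.2.2, pi_pos]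

theorem pr_inj {y y' : Sq ι} (h : y ∈ D.Orb) (h' : y' ∈ D.Orb) (e : D.pr y = D.pr y') : y = y' :=
  Orb.ext h h' (pt_inj (h 0).2.1 (h' 0).2.1 e).1 (pt_inj (h 0).2.1 (h' 0).2.1 e).2

end Sys

open Sys

namespace Br

variable {ι : Type} {T : Table} {D : Sys ι} (b : Br T D)
include b

theorem phase_of {A : ι} {x : ℝ × ℝ} (h : D.Rg A x) : D.pt A x ∈ T.Phase := by
  obtain ⟨i, s, hs, e1, e2, e3⟩ := b.b1 A _ h.1
  refine ⟨e3, norm_E _, i, s, hs, e1.symm, ?_⟩
  simp only [Table.normal, e2, pt, inner_E, om]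
  exact sin_pos' (by linarith [h.2.2]) (by linarith [h.2.1])

theorem of_phase {z : ℂ × ℂ} (h : z ∈ T.Phase) : ∃ A x, D.Rg A x ∧ z = D.pt A x := by
  obtain ⟨h1, h2, i, s, hs, e1, e2⟩ := h
  obtain ⟨A, r, hr, k1, k2⟩ := b.b2 i s hs (e1 ▸ h1)
  rw [Table.normal, ← k2] at e2
  obtain ⟨ψ, hψ, e⟩ := exists_angle h2 _ e2
  exact ⟨A, (r, ψ), ⟨hr, hψ⟩, Prod.ext (e1.trans k1.symm) e⟩

theorem step_of {A B : ι} {x y : ℝ × ℝ} (h : D.RL A B x y) : T.Step (D.pt A x) (D.pt B y) := by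
  obtain ⟨τ, t0, e⟩ := h.tau
  obtain ⟨i, s, hs, e1, e2, e3⟩ := b.b1 B _ h.2.2.1.1
  refine ⟨b.phase_of h.2.1, b.phase_of h.2.2.1, ⟨τ, t0, e⟩, b.y_eq ▸ h.2.2.2, i, s, hs, e1.symm,
    ?_⟩
  simp only [Table.normal, e2, pt, ← h.1.E_in, inner_E, refl_E]
  congr 1
  unfold om; ring

theorem of_step {A B : ι} {x y : ℝ × ℝ} (hx : D.Rg A x) (hy : D.Rg B y)
    (h : T.Step (D.pt A x) (D.pt B y)) : D.RL A B x y := by
  obtain ⟨-, h2, ⟨τ, t0, e⟩, h3, i, s, hs, e1, e2⟩ := h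
  obtain ⟨C, r, hr, k1, k2⟩ := b.b2 i s hs (e1 ▸ h2.1)
  obtain ⟨rfl, rfl⟩ := pos_inj hr hy.1 (k1.trans e1.symm)
  simp only [Table.normal, ← k2, pt, inner_E, refl_E] at e2
  refine ⟨mkGk ?_ hx.st hy.st t0 e ?_, hx, hy, b.y_eq ▸ h3⟩
  · rintro rfl
    exact not_seen hx.st hy.st.1 t0 e
  · apply mul_left_cancel₀ (E_ne_zero (2 * D.θ C y.1 - D.om A x))
    rw [← E_add (2 * _ - _) (D.om A x), ← e2, ← E_add]
    congr 1
    unfold om; ring

theorem step_det {z z' z'' : ℂ × ℂ} (h : T.Step z z') (h' : T.Step z z'') : z' = z'' := by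
  obtain ⟨A, x, hx, rfl⟩ := b.of_phase h.1
  obtain ⟨B, y, hy, rfl⟩ := b.of_phase h.2.1
  obtain ⟨C, u, hu, rfl⟩ := b.of_phase h'.2.1
  have k := b.of_step hx hy h
  have k' := b.of_step hx hu h'
  obtain rfl := k.det k'
  rw [k.1.uniq k'.1]

theorem map_eq {z z' : ℂ × ℂ} (h : T.Step z z') : T.map z = z' := by
  have k : ∃ z', T.Step z z' := ⟨z', h⟩
  rw [Table.map, dif_pos k]
  exact b.step_det k.choose_spec h

theorem map_pr {y : Sq ι} (h : y ∈ D.Orb) : T.map (D.pr y) = D.pr (shz 1 y) :=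
  b.map_eq (b.step_of (h 0))

theorem iter_pr {y : Sq ι} (h : y ∈ D.Orb) (k : ℕ) : T.map^[k] (D.pr y) = D.pr (shz k y) := by
  induction k with
  | zero => simp
  | succ k ih =>
    rw [Function.iterate_succ_apply', ih, b.map_pr (Orb.shz h k), shz_shz]
    congr 2; push_cast; ring

theorem reg_eq : T.Reg = D.pr '' D.Orb := by
  ext z
  constructor
  · rintro ⟨o, rfl, h⟩
    choose w x hx e using fun n => b.of_phase (h n).1
    exact ⟨(w, x), fun n => b.of_step (hx n) (hx (n + 1)) (by rw [← e, ← e]; exact h n),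
      (e 0).symm⟩
  · rintro ⟨y, hy, rfl⟩
    exact ⟨fun n => D.pt (y.1 n) (y.2 n), rfl, fun n => b.step_of (hy n)⟩

theorem measurable_map [Finite ι] : Measurable T.map := by
  intro S hS
  have img : ∀ (A B : ι) (S : Set (ℂ × ℂ)), MeasurableSet S → MeasurableSet
      ((fun c : (ℝ × ℝ) × (ℝ × ℝ) => D.pt A c.1) '' (D.RLs A B ∩ {c | D.pt B c.2 ∈ S})) := by
    intro A B S hS
    refine ((measurableSet_RLs A B).inter (((continuous_pt B).comp continuous_snd).measurable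
      hS)).image_of_continuousOn_injOn ((continuous_pt A).comp continuous_fst).continuousOn ?_
    intro c hc c' hc' e
    have e1 := (pt_inj hc.1.2.1 hc'.1.2.1 e).2
    refine Prod.ext e1 (hc.1.1.uniq ?_)
    rw [e1]; exact hc'.1.1
  have mem : ∀ (S : Set (ℂ × ℂ)) (z : ℂ × ℂ), z ∈ (⋃ A, ⋃ B,
      (fun c : (ℝ × ℝ) × (ℝ × ℝ) => D.pt A c.1) '' (D.RLs A B ∩ {c | D.pt B c.2 ∈ S})) ↔
      ∃ z' ∈ S, T.Step z z' := by
    intro S z
    simp only [mem_iUnion]
    constructor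
    · rintro ⟨A, B, c, hc, rfl⟩
      exact ⟨_, hc.2, b.step_of hc.1⟩
    · rintro ⟨z', h1, h⟩
      obtain ⟨A, x, hx, rfl⟩ := b.of_phase h.1
      obtain ⟨B, y, hy, rfl⟩ := b.of_phase h.2.1
      exact ⟨A, B, (x, y), ⟨b.of_step hx hy h, h1⟩, rfl⟩
  have ms : ∀ S : Set (ℂ × ℂ), MeasurableSet S → MeasurableSet {z | ∃ z' ∈ S, T.Step z z'} := by
    intro S hS
    rw [← Set.ext (mem S)]
    exact MeasurableSet.iUnion fun A => MeasurableSet.iUnion fun B => img A B S hS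
  have : T.map ⁻¹' S = ({z | ∃ z' ∈ univ, T.Step z z'}ᶜ ∩ S) ∪ {z | ∃ z' ∈ S, T.Step z z'} := by
    ext z
    simp only [mem_preimage, mem_union, mem_inter_iff, mem_compl_iff, mem_setOf_eq, mem_univ,
      true_and]
    by_cases k : ∃ z', T.Step z z'
    · obtain ⟨z', h⟩ := k
      rw [b.map_eq h]
      exact ⟨fun a => Or.inr ⟨z', a, h⟩, fun a => a.elim (fun a => absurd ⟨z', h⟩ a.1)
        fun ⟨z'', a1, a2⟩ => b.step_det a2 h ▸ a1⟩
    · rw [Table.map, dif_neg k]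
      exact ⟨fun a => Or.inl ⟨k, a⟩, fun a => a.elim (fun a => a.2)
        fun ⟨z'', _, a2⟩ => absurd ⟨z'', a2⟩ k⟩
  rw [this]
  exact ((ms _ MeasurableSet.univ).compl.inter hS).union (ms S hS)

theorem per_eq (n : ℕ) : T.perOrbits n = ⋃ k ∈ Finset.Icc 1 n,
    (fun y => range fun j : ℕ => T.map^[j] (D.pr y)) '' D.Per k := by
  ext O
  simp only [Table.perOrbits, b.reg_eq, mem_setOf_eq, mem_iUnion, Finset.mem_Icc]
  constructor
  · rintro ⟨_, ⟨y, hy, rfl⟩, k, k0, k1, e, rfl⟩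
    rw [b.iter_pr hy] at e
    exact ⟨k, ⟨k0, k1⟩, y, ⟨hy, pr_inj (Orb.shz hy k) hy e⟩, rfl⟩
  · rintro ⟨k, ⟨k0, k1⟩, y, hy, rfl⟩
    exact ⟨_, ⟨y, hy.1, rfl⟩, k, k0, k1, by rw [b.iter_pr hy.1, hy.2], rfl⟩

variable [TopologicalSpace ι] [DiscreteTopology ι] [Fintype ι]

theorem per_fin (n : ℕ) : (T.perOrbits n).Finite := by
  rw [b.per_eq]
  exact (Finset.finite_toSet _).biUnion fun k hk =>
    (per_finite (Finset.mem_Icc.1 hk).1).image _

theorem per_le (n : ℕ) : (T.perOrbits n).ncard ≤ ∑ k ∈ Finset.Icc 1 n, (D.sh.LN k).card := by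
  rw [b.per_eq]
  refine (Finset.set_ncard_biUnion_le _ _).trans (Finset.sum_le_sum fun k hk => ?_)
  have k0 := (Finset.mem_Icc.1 hk).1
  exact (ncard_image_le (per_finite k0)).trans (per_card_le k0)

theorem per_ge {P n : ℕ} (hP : 0 < P) (hn : P ≤ n) :
    (D.Per P).ncard ≤ P * (T.perOrbits n).ncard := by
  classical
  have fin := per_finite (D := D) hP
  rw [ncard_eq_toFinset_card _ fin]
  refine (Finset.card_le_mul_card_image (f := fun y => range fun j : ℕ => T.map^[j] (D.pr y))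
    fin.toFinset P fun O hO => ?_).trans (Nat.mul_le_mul_left _ ?_)
  · obtain ⟨y, hy, rfl⟩ := Finset.mem_image.1 hO
    rw [Finite.mem_toFinset] at hy
    refine (Finset.card_le_card (t := (Finset.range P).image fun j : ℕ => shz j y) ?_).trans
      (Finset.card_image_le.trans (by simp))
    intro x hx
    obtain ⟨h1, h2⟩ := Finset.mem_filter.1 hx
    rw [Finite.mem_toFinset] at h1
    obtain ⟨j, hj⟩ : D.pr x ∈ range fun j : ℕ => T.map^[j] (D.pr y) := h2 ▸ ⟨0, rfl⟩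
    have fx : Function.IsPeriodicPt T.map P (D.pr y) := by
      change T.map^[P] _ = _
      rw [b.iter_pr hy.1, hy.2]
    simp only at hj
    rw [← fx.iterate_mod_apply, b.iter_pr hy.1] at hj
    exact Finset.mem_image.2 ⟨j % P, Finset.mem_range.2 (Nat.mod_lt _ hP),
      pr_inj (Orb.shz hy.1 _) h1.1 hj⟩
  · rw [← ncard_coe_finset]
    refine ncard_le_ncard (fun O hO => ?_) (b.per_fin n)
    obtain ⟨y, hy, rfl⟩ := Finset.mem_image.1 hO
    rw [Finite.mem_toFinset] at hy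
    rw [b.per_eq]
    exact mem_biUnion (Finset.mem_coe.2 (Finset.mem_Icc.2 ⟨hP, hn⟩)) ⟨y, hy, rfl⟩

theorem f_up {ε : ℝ} (hε : 0 < ε) :
    ∀ᶠ n : ℕ in atTop, Real.log (T.perOrbits n).ncard ≤ (D.sh.H + ε) * n := by
  have e3 : 0 < ε / 3 := by positivity
  obtain ⟨k0, hk0⟩ := eventually_atTop.1 (D.sh.ell_up e3)
  have H0 := D.sh.H_nonneg
  have l0 : 0 ≤ Real.log (Fintype.card ι) := Real.log_natCast_nonneg _
  set C := k0 * Real.log (Fintype.card ι) with hC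
  filter_upwards [(tendsto_natCast_atTop_atTop.const_mul_atTop e3).eventually_ge_atTop
    (C - Real.log (ε / 3))] with n hn
  have n0 : (0 : ℝ) ≤ n := Nat.cast_nonneg n
  have w : ∀ k ∈ Finset.Icc 1 n, ((D.sh.LN k).card : ℝ) ≤ exp (C + (D.sh.H + ε / 3) * n) := by
    intro k hk
    have kn : (k : ℝ) ≤ n := by exact_mod_cast (Finset.mem_Icc.1 hk).2
    refine (le_exp_log _).trans (exp_le_exp.2 ?_)
    rcases le_total k0 k with c | c
    · have := hk0 k c
      have := mul_le_mul_of_nonneg_left kn (show 0 ≤ D.sh.H + ε / 3 by linarith)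
      have : 0 ≤ C := by positivity
      unfold Sh.ell at *; linarith
    · have := D.sh.ell_le k
      have := mul_le_mul_of_nonneg_right (show (k : ℝ) ≤ k0 by exact_mod_cast c) l0
      have : 0 ≤ (D.sh.H + ε / 3) * n := by positivity
      unfold Sh.ell at *; linarith
  have s1 : ((T.perOrbits n).ncard : ℝ) ≤ n * exp (C + (D.sh.H + ε / 3) * n) := by
    have := Finset.sum_le_card_nsmul _ _ _ w
    rw [Nat.card_Icc, add_tsub_cancel_right, nsmul_eq_mul] at this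
    exact le_trans (by exact_mod_cast b.per_le n) this
  have s2 : (n : ℝ) ≤ exp (ε / 3 * n - Real.log (ε / 3)) := by
    rw [exp_sub, exp_log e3, le_div_iff₀ e3]
    linarith [add_one_le_exp (ε / 3 * n)]
  rcases Nat.eq_zero_or_pos (T.perOrbits n).ncard with k | k
  · rw [k, Nat.cast_zero, log_zero]; positivity
  rw [log_le_iff_le_exp (by exact_mod_cast k)]
  refine s1.trans ((mul_le_mul_of_nonneg_right s2 (exp_pos _).le).trans ?_)
  rw [← exp_add, exp_le_exp]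
  linarith

theorem f_low {μ : Measure D.Om} [IsProbabilityMeasure μ] (h : Sh.Mx D.sh μ) (hH : 0 < D.sh.H)
    {ε : ℝ} (hε : 0 < ε) :
    ∀ᶠ n : ℕ in atTop, (D.sh.H - ε) * n ≤ Real.log (T.perOrbits n).ncard := by
  set γ := min (ε / 3) D.sh.H with hγ
  have g0 : 0 < γ := lt_min (by positivity) hH
  have g1 : γ ≤ ε / 3 := min_le_left _ _
  have g2 : γ ≤ D.sh.H := min_le_right _ _
  obtain ⟨m, hm⟩ := per_lower h hH g0
  obtain ⟨k0, hk0⟩ := eventually_atTop.1 hm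
  filter_upwards [(tendsto_natCast_atTop_atTop.const_mul_atTop g0).eventually_ge_atTop
    ((D.sh.H - γ) * (2 * m + 2) - Real.log γ), eventually_ge_atTop (2 * m + 2 * k0)] with n h1 h2
  obtain ⟨P, P0, P1, P2⟩ := hk0 ((n - 2 * m) / 2) (by omega)
  have a1 : ((D.Per P).ncard : ℝ) ≤ n * (T.perOrbits n).ncard := by
    exact_mod_cast (b.per_ge P0 (by omega : P ≤ n)).trans (Nat.mul_le_mul_right _ (by omega))
  have s2 : (n : ℝ) ≤ exp (γ * n - Real.log γ) := by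
    rw [exp_sub, exp_log g0, le_div_iff₀ g0]
    linarith [add_one_le_exp (γ * n)]
  have a2 := P2.trans (a1.trans (mul_le_mul_of_nonneg_right s2 (Nat.cast_nonneg _)))
  have f0 : (0 : ℝ) < (T.perOrbits n).ncard := by
    by_contra k
    nlinarith [exp_pos (2 * ((D.sh.H - γ) * ((n - 2 * m) / 2 : ℕ))), exp_pos (γ * n - Real.log γ)]
  rw [← exp_log f0, ← exp_add, exp_le_exp] at a2
  have a3 : (n : ℝ) ≤ 2 * ((n - 2 * m) / 2 : ℕ) + (2 * m + 2) := by
    exact_mod_cast (by omega : n ≤ 2 * ((n - 2 * m) / 2) + (2 * m + 2))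
  have a4 := mul_le_mul_of_nonneg_left a3 (sub_nonneg.2 g2)
  have a5 := mul_le_mul_of_nonneg_right g1 (Nat.cast_nonneg n : (0 : ℝ) ≤ n)
  nlinarith

end Br

end Pool.Agent.Lib.MP_fd11a7_an
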