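import Mathlib
import Pool.Agent.Lib.MP_fd11a7_an.Bridge

set_option autoImplicit false

open Set Filter Topology MeasureTheory
open scoped ENNReal

namespace Pool.Agent.Lib.MP_fd11a7_an

theorem joinEnt_eq {X : Type} [MeasurableSpace X] (μ : Measure X) (φ : X → X) {r : ℕ}
    (P : X → Fin r) (n : ℕ) : joinEnt μ φ P n = Hent μ (fun x (j : Fin n) => P (φ^[j] x)) := by
  unfold joinEnt Hent
  refine Finset.sum_congr rfl fun w _ => ?_
  congr 2
  ext x
  simp [funext_iff]

theorem gen_le {X ι : Type} [MeasurableSpace X] [Fintype ι] {μ : Measure X}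
    [IsProbabilityMeasure μ] {φ : X → X} (hφ : MeasurePreserving φ μ μ) {a : X → ι} (ha : Mf a)
    {r : ℕ} {P : X → Fin r} (hP : Mf P) {H : ℝ} (H0 : 0 ≤ H)
    (h1 : ∀ δ > 0, ∃ (M : ℕ) (q : (Fin (2 * M + 1) → ι) → Fin r),
      μ.real {z | P (φ^[M] z) ≠ q (fun j => a (φ^[j] z))} ≤ δ)
    (h2 : ∀ ε > 0, ∀ᶠ n : ℕ in atTop, Hent μ (fun z (j : Fin n) => a (φ^[j] z)) ≤ (H + ε) * n) :
    limsup (fun n : ℕ => ENNReal.ofReal (joinEnt μ φ P n / n)) atTop ≤ ENNReal.ofReal H := by
  classical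
  refine ENNReal.le_of_forall_pos_le_add fun ε hε _ => ?_
  have e0 : (0 : ℝ) < ε := hε
  have e3 : (0 : ℝ) < ε / 3 := by positivity
  obtain ⟨δ, hδ, k1⟩ := small_entropy (Ω := X) r (ε / 3) e3
  obtain ⟨M, q, k2⟩ := h1 δ hδ
  have mw : ∀ n : ℕ, Mf fun z (j : Fin n) => a (φ^[j] z) := fun n =>
    Mf.pi fun j => ha.comp_meas (hφ.measurable.iterate j)
  set E : X → Option (Fin r) := fun x =>
    if P (φ^[M] x) = q (fun j => a (φ^[j] x)) then none else some (P (φ^[M] x)) with hE
  have hEm : Mf E := ((hP.comp_meas (hφ.measurable.iterate M)).pair (mw (2 * M + 1))).comp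
    fun c => if c.1 = q c.2 then none else some c.1
  have h3 : Hent μ E ≤ ε / 3 := by
    refine k1 μ E hEm (le_trans (le_of_eq ?_) k2)
    congr 1
    ext x
    simp [hE]
  rw [← ENNReal.ofReal_coe_nnreal, ← ENNReal.ofReal_add H0 e0.le]
  refine limsup_le_of_le (h := ?_)
  filter_upwards [(tendsto_add_atTop_nat (2 * M + 1)).eventually (h2 _ e3),
    (tendsto_natCast_atTop_atTop.const_mul_atTop e3).eventually_ge_atTop
      ((H + ε / 3) * (2 * M + 1)), eventually_gt_atTop 0] with n a1 a2 a3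
  refine ENNReal.ofReal_le_ofReal ?_
  have a4 : (0 : ℝ) < n := by exact_mod_cast a3
  rw [div_le_iff₀ a4, joinEnt_eq, ← Hent_comp_mp (hφ.iterate M)
    (Mf.pi fun j : Fin n => hP.comp_meas (hφ.measurable.iterate j))]
  have hEj : ∀ j : Fin n, Mf fun x => E (φ^[j] x) := fun j =>
    hEm.comp_meas (hφ.measurable.iterate j)
  have h4 := Hent_le_add μ (mw (n + (2 * M + 1))) (Mf.pi hEj)
    (h := fun x (j : Fin n) => P (φ^[j] (φ^[M] x)))
    (fun u e j => (e j).getD (q fun i => u ⟨i + j, by omega⟩)) (by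
      intro x
      funext j
      simp only [hE, ← Function.iterate_add_apply, add_comm (j : ℕ) M]
      split_ifs with h
      · simpa using h
      · simp)
  have h5 := Hent_pi_le μ n (fun j x => E (φ^[j] x)) hEj
  have h6 : ∑ j : Fin n, Hent μ (fun x => E (φ^[j] x)) ≤ ε / 3 * n := by
    refine (Finset.sum_le_card_nsmul _ _ ((ε : ℝ) / 3) fun j _ => ?_).trans (by simp [mul_comm])
    rw [Hent_comp_mp (hφ.iterate j) hEm]; exact h3
  push_cast at a1
  nlinarith

open Sys

namespace Sys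

variable {ι : Type} [Nonempty ι] (D : Sys ι)

/-- The arc carrying a phase point. -/
noncomputable def lab (z : ℂ × ℂ) : ι := Classical.epsilon fun A => z.1 ∈ D.γ A '' D.I A

variable {D}

theorem lab_pt {A : ι} {x : ℝ × ℝ} (h : D.Rg A x) : D.lab (D.pt A x) = A := by
  obtain ⟨r, hr, e⟩ := Classical.epsilon_spec (p := fun B => (D.pt A x).1 ∈ D.γ B '' D.I B)
    ⟨A, x.1, h.1, rfl⟩
  exact (pos_inj hr h.1 e).1

theorem mf_lab [Finite ι] : Mf D.lab := by
  have m : ∀ A, MeasurableSet {z : ℂ × ℂ | z.1 ∈ D.γ A '' D.I A} := fun A =>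
    measurable_fst ((OrdConnected.measurableSet
      ⟨fun _ ha _ hb _ hc => I_conn ha hb hc.1 hc.2⟩).image_of_continuousOn_injOn
        (D.cγ A).continuousOn fun _ hr _ hs e => γ_inj (D.I_sub A hr) (D.I_sub A hs) e)
  refine (Mf.pi (g := fun A (z : ℂ × ℂ) => z.1 ∈ D.γ A '' D.I A) fun A p => ?_).comp
    Classical.epsilon
  exact (measurableSet_setOf.1 (m A)) (measurableSet_singleton p)

end Sys

namespace Br

variable {ι : Type} {T : Table} {D : Sys ι} (b : Br T D) [Nonempty ι]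
include b

theorem lab_iter {y : Sq ι} (h : y ∈ D.Orb) (k : ℕ) : D.lab (T.map^[k] (D.pr y)) = y.1 k := by
  rw [b.iter_pr h, pr, lab_pt ((Orb.shz h k) 0).2.1]
  simp

variable [TopologicalSpace ι] [DiscreteTopology ι] [Fintype ι]

theorem approx {μ : Measure (ℂ × ℂ)} [IsProbabilityMeasure μ]
    (hφ : MeasurePreserving T.map μ μ) (hR : ∀ᵐ z ∂μ, z ∈ T.Reg) {r : ℕ} {P : ℂ × ℂ → Fin r}
    (hP : Mf P) (δ : ℝ) (hδ : 0 < δ) : ∃ (M : ℕ) (q : (Fin (2 * M + 1) → ι) → Fin r),
      μ.real {z | P (T.map^[M] z) ≠ q (fun j => D.lab (T.map^[j] z))} ≤ δ := by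
  have hex : ∀ j, ∃ K ⊆ P ⁻¹' {j}, IsCompact K ∧
      μ (P ⁻¹' {j} \ K) < ENNReal.ofReal (δ / (r + 1)) := fun j =>
    (hP j).exists_isCompact_diff_lt (measure_ne_top _ _)
      (ENNReal.ofReal_pos.2 (by positivity)).ne'
  choose K K1 K2 K3 using hex
  obtain ⟨M, hM⟩ := pair_compact (isCompact_cl (D := D))
    (P := fun k y y' => ∀ n : ℤ, -k ≤ n → n ≤ k → y.1 n = y'.1 n)
    (Q := fun y y' => D.pr y ∈ ⋃ j, K j → D.pr y' ∈ ⋃ j, K j → P (D.pr y) = P (D.pr y'))
    (fun y hy y' hy' U hU f g l1 l2 h => by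
      have e : y = y' := cl_ext hy hy' (funext fun n => lab_lim hU l1 l2
        ((eventually_ge_atTop n.natAbs).mono fun k hk => h k n (by omega) (by omega)))
      subst e
      have ev : ∀ᶠ z in 𝓝 y, ∀ j, D.pr z ∈ K j → D.pr y ∈ K j := eventually_all.2 fun j => by
        by_cases k : D.pr y ∈ K j
        · exact Eventually.of_forall fun _ _ => k
        · exact (continuous_pr.tendsto y).eventually
            (((K2 j).isClosed.isOpen_compl.mem_nhds k)) |>.mono fun z hz h => absurd h hz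
      refine ((l1.eventually ev).and (l2.eventually ev)).frequently.mono fun k hk a1 a2 => ?_
      obtain ⟨j, hj⟩ := mem_iUnion.1 a1
      obtain ⟨j', hj'⟩ := mem_iUnion.1 a2
      rw [show P _ = j from K1 j hj, show P _ = j' from K1 j' hj', ← show P _ = j from
        K1 j (hk.1 j hj), ← show P _ = j' from K1 j' (hk.2 j' hj')])
  have ex : ∀ v : Fin (2 * M + 1) → ι, ∃ u, ∀ z ∈ T.Reg, T.map^[M] z ∈ ⋃ j, K j →
      (fun j : Fin (2 * M + 1) => D.lab (T.map^[j] z)) = v → P (T.map^[M] z) = u := by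
    intro v
    by_cases h : ∃ z ∈ T.Reg, T.map^[M] z ∈ ⋃ j, K j ∧
        (fun j : Fin (2 * M + 1) => D.lab (T.map^[j] z)) = v
    · obtain ⟨z, z1, z2, rfl⟩ := h
      refine ⟨P (T.map^[M] z), fun z' z1' z2' e => ?_⟩
      rw [b.reg_eq] at z1 z1'
      obtain ⟨y, hy, rfl⟩ := z1
      obtain ⟨y', hy', rfl⟩ := z1'
      simp only [b.lab_iter hy, b.lab_iter hy'] at e
      rw [b.iter_pr hy] at z2 ⊢
      rw [b.iter_pr hy'] at z2' ⊢
      refine hM _ (subset_closure (Orb.shz hy' M)) _ (subset_closure (Orb.shz hy M))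
        (fun n n1 n2 => ?_) z2' z2
      have := congrFun e ⟨(n + M).toNat, by omega⟩
      simp only at this
      rwa [show (((n + M).toNat : ℕ) : ℤ) = n + M by omega] at this
    · exact ⟨P 0, fun z z1 z2 e => absurd ⟨z, z1, z2, e⟩ h⟩
  choose q hq using ex
  refine ⟨M, q, ?_⟩
  have mK : MeasurableSet (⋃ j, K j)ᶜ :=
    (MeasurableSet.iUnion fun j => (K2 j).measurableSet).compl
  have s1 : μ.real {z | P (T.map^[M] z) ≠ q (fun j => D.lab (T.map^[j] z))} ≤
      μ.real (T.map^[M] ⁻¹' (⋃ j, K j)ᶜ) := by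
    refine ENNReal.toReal_mono (measure_ne_top _ _) (measure_mono_ae ?_)
    filter_upwards [hR] with z hz h k using h (hq _ z hz k rfl)
  rw [(hφ.iterate M).measureReal_preimage mK.nullMeasurableSet] at s1
  have s2 : (⋃ j, K j)ᶜ ⊆ ⋃ j, P ⁻¹' {j} \ K j := fun z hz =>
    mem_iUnion.2 ⟨P z, rfl, fun k => hz (mem_iUnion.2 ⟨_, k⟩)⟩
  refine s1.trans ((measureReal_mono s2).trans ((measureReal_iUnion_fintype_le _).trans ?_))
  refine (Finset.sum_le_card_nsmul _ _ (δ / (r + 1)) fun j _ => ?_).trans ?_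
  · exact ENNReal.toReal_le_of_le_ofReal (by positivity) (K3 j).le
  · simp only [Finset.card_univ, Fintype.card_fin, nsmul_eq_mul]
    rw [mul_div_assoc', div_le_iff₀ (by positivity)]
    nlinarith

theorem htop_le : T.htop ≤ ENNReal.ofReal D.sh.H := by
  refine iSup_le fun μ => iSup_le fun _ => iSup_le fun hφ => iSup_le fun hR =>
    iSup_le fun r => iSup₂_le fun P hP => ?_
  have hP' : Mf P := fun j => hP (measurableSet_singleton j)
  refine gen_le hφ (mf_lab (D := D)) hP' D.sh.H_nonneg (b.approx hφ hR hP') fun ε hε =>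
    (D.sh.ell_up hε).mono fun n hn => le_trans ?_ hn
  refine Hent_le_log_card μ (Mf.pi fun j : Fin n => mf_lab.comp_meas (hφ.measurable.iterate j)) _
    fun v hv => ?_
  by_contra k
  refine hv (measureReal_eq_zero_iff (measure_ne_top _ _) |>.2 (measure_mono_null ?_ hR))
  intro z hz h
  rw [b.reg_eq] at h
  obtain ⟨y, hy, rfl⟩ := h
  apply k
  rw [← mem_singleton_iff.1 hz]
  have := D.sh.win_mem 0 n (⟨y, subset_closure hy⟩ : D.Om)
  refine (congrArg (· ∈ D.sh.LN n) ?_).mp this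
  funext j
  exact (congrArg y.1 (zero_add _)).trans (b.lab_iter hy j).symm

theorem le_htop {ν : Measure D.Om} [IsProbabilityMeasure ν] (h : Sh.Mx D.sh ν)
    (hH : 0 < D.sh.H) : ENNReal.ofReal D.sh.H ≤ T.htop := by
  have cp : Continuous fun y : D.Om => D.pr y.v := continuous_pr.comp continuous_v
  have mp := cp.measurable
  set μ := ν.map fun y : D.Om => D.pr y.v with hμ
  have := Measure.isProbabilityMeasure_map (μ := ν) mp.aemeasurable
  have ao := ae_orb h hH
  have inv : MeasurePreserving T.map μ μ := by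
    refine ⟨b.measurable_map, ?_⟩
    rw [hμ, Measure.map_map b.measurable_map mp]
    conv_rhs => rw [← h.mp.map_eq, Measure.map_map mp h.mp.measurable]
    refine Measure.map_congr ?_
    filter_upwards [ao] with y hy using b.map_pr hy
  have reg : ∀ᵐ z ∂μ, z ∈ T.Reg := by
    refine le_antisymm (ENNReal.le_of_forall_pos_le_add fun ε hε _ => ?_) bot_le
    obtain ⟨K, k1, k2, k3⟩ := exists_compact h hH (η := ε) hε
    have c := k1.image cp
    rw [zero_add]
    calc μ {z | z ∈ T.Reg}ᶜ ≤ μ ((fun y : D.Om => D.pr y.v) '' K)ᶜ :=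
          measure_mono fun z hz k => hz (by
            obtain ⟨y, hy, rfl⟩ := k
            change _ ∈ T.Reg
            rw [b.reg_eq]; exact ⟨_, k2 y hy, rfl⟩)
      _ ≤ ν Kᶜ := by
            rw [hμ, Measure.map_apply mp c.measurableSet.compl]
            exact measure_mono fun y hy k => hy ⟨y, k, rfl⟩
      _ ≤ ε := by
            rw [← ofReal_measureReal, ← ENNReal.ofReal_coe_nnreal]
            exact ENNReal.ofReal_le_ofReal k3
  set P : ℂ × ℂ → Fin (Fintype.card ι) := fun z => Fintype.equivFin ι (D.lab z) with hP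
  have hP' : Mf P := mf_lab.comp _
  refine le_trans ?_ (le_iSup_of_le μ (le_iSup_of_le this (le_iSup_of_le inv (le_iSup_of_le reg
    (le_iSup_of_le _ (le_iSup₂_of_le P (measurable_of_Iio fun j => hP'.preimage _) le_rfl))))))
  refine le_limsup_of_frequently_le (Eventually.frequently ?_)
  filter_upwards [eventually_gt_atTop 0] with n a3
  have a4 : (0 : ℝ) < n := by exact_mod_cast a3
  refine ENNReal.ofReal_le_ofReal ?_
  rw [le_div_iff₀ a4, joinEnt_eq]
  refine (h.ent n).trans (le_trans (le_of_eq ?_) (Hent_le_of_factor μ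
    (Mf.pi fun j : Fin n => hP'.comp_meas (inv.measurable.iterate j))
    (h := fun z (j : Fin n) => D.lab (T.map^[j] z))
    (fun u j => (Fintype.equivFin ι).symm (u j)) fun z => by simp [hP]))
  refine Finset.sum_congr rfl fun v _ => ?_
  rw [hμ, map_measureReal_apply mp
    (Mf.pi (fun j : Fin n => mf_lab.comp_meas (inv.measurable.iterate j)) v)]
  congr 1
  refine measureReal_congr ?_
  filter_upwards [ao] with y hy
  have : D.sh.win 0 n y = fun j : Fin n => D.lab (T.map^[j] (D.pr y.v)) := by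
    funext j
    rw [b.lab_iter hy]
    exact congrArg y.v.1 (zero_add _)
  exact congrArg (· = v) this

theorem main : (∀ n, (T.perOrbits n).Finite) ∧ ∃ h : ℝ, 0 ≤ h ∧
    Tendsto (fun n : ℕ => Real.log (T.perOrbits n).ncard / n) atTop (𝓝 h) ∧
    T.htop = ENNReal.ofReal h := by
  have H0 := D.sh.H_nonneg
  have low : 0 < D.sh.H → ∃ ν : Measure D.Om, IsProbabilityMeasure ν ∧ Sh.Mx D.sh ν := by
    intro hH
    rcases isEmpty_or_nonempty D.Om with k | k
    · obtain ⟨n, h1, h2⟩ := ((D.sh.ell_freq (half_pos hH)).and_eventually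
        (eventually_gt_atTop 0)).exists
      have : D.sh.LN n = ∅ := by simp [Sh.LN]
      simp only [Sh.ell, this, Finset.card_empty, Nat.cast_zero, Real.log_zero] at h1
      have : (0 : ℝ) < n := by exact_mod_cast h2
      nlinarith
    · exact exists_mx
  refine ⟨b.per_fin, D.sh.H, H0, tendsto_order.2 ⟨fun c hc => ?_, fun c hc => ?_⟩,
    le_antisymm b.htop_le ?_⟩
  · rcases H0.eq_or_lt with k | k
    · exact Eventually.of_forall fun n => lt_of_lt_of_le (k ▸ hc)
        (div_nonneg (Real.log_natCast_nonneg _) (Nat.cast_nonneg _))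
    · obtain ⟨ν, _, hν⟩ := low k
      filter_upwards [b.f_low hν k (half_pos (sub_pos.2 hc)), eventually_gt_atTop 0] with n h1 h2
      have : (0 : ℝ) < n := by exact_mod_cast h2
      rw [lt_div_iff₀ this]
      nlinarith
  · filter_upwards [b.f_up (half_pos (sub_pos.2 hc)), eventually_gt_atTop 0] with n h1 h2
    have : (0 : ℝ) < n := by exact_mod_cast h2
    rw [div_lt_iff₀ this]
    nlinarith
  · rcases H0.eq_or_lt with k | k
    · rw [← k]; simp
    · obtain ⟨ν, _, hν⟩ := low k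
      exact b.le_htop hν k

end Br

end Pool.Agent.Lib.MP_fd11a7_an
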