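import Mathlib
import Pool.Agent.Lib.MP_fd11a7_an.Defs
import Pool.Agent.Lib.MP_fd11a7_an.Arc

set_option autoImplicit false

open Set Filter Topology Real

namespace Pool.Agent.Lib.MP_fd11a7_an

/-- Local separation and corner estimates. -/
def Loc (T : Table) (θ : Fin T.n → ℝ → ℝ) (i j : Fin T.n) (c : ℝ) (U : Set (ℝ × ℝ)) : Prop :=
  (∃ ν, ∀ x ∈ U, x.1 ∈ Icc 0 (T.L i) → x.2 ∈ Icc 0 (T.L j) → (i = j → x.1 ≤ x.2) →
    c * ‖T.γ j x.2 - T.γ i x.1‖ ≤ Cc ν (T.γ j x.2 - T.γ i x.1)) ∧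
  ∀ x ∈ U, x.1 ∈ Icc 0 (T.L i) → x.2 ∈ Icc 0 (T.L j) → ∀ ψ ∈ Icc (-π) 0, ∀ ψ' u : ℝ, 0 < u →
    u < c → T.γ j x.2 = T.γ i x.1 + u * E (θ i x.1 + ψ) → E (θ j x.2 - ψ') = E (θ i x.1 + ψ) →
    ∃ a b : Bool, |x.1 - if a then 0 else T.L i| < T.L i / 4 ∧
      |x.2 - if b then 0 else T.L j| < T.L j / 4 ∧
      (if a then 1 else -1) * cos ψ + c ≤ (if b then 1 else -1) * cos ψ'

theorem Loc.mono {T : Table} {θ : Fin T.n → ℝ → ℝ} {i j : Fin T.n} (c c' : ℝ)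
    (U U' : Set (ℝ × ℝ)) (hc : c' ≤ c) (hU : U' ⊆ U) (h : Loc T θ i j c U) : Loc T θ i j c' U' := by
  obtain ⟨⟨ν, h1⟩, h2⟩ := h
  refine ⟨⟨ν, fun x hx a b d => le_trans (mul_le_mul_of_nonneg_right hc (norm_nonneg _))
    (h1 x (hU hx) a b d)⟩, fun x hx a b ψ hψ ψ' u u0 u1 e e' => ?_⟩
  obtain ⟨p, q, k1, k2, k3⟩ := h2 x (hU hx) a b ψ hψ ψ' u u0 (u1.trans_le hc) e e'
  exact ⟨p, q, k1, k2, by linarith⟩

variable {T : Table} {θ : Fin T.n → ℝ → ℝ} {l : ℝ}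

theorem loc_far (h : ∀ i, Arc (T.γ i) (θ i) (T.L i) l l) {i j : Fin T.n} {x : ℝ × ℝ}
    (hx : T.γ i x.1 ≠ T.γ j x.2) : ∃ c > 0, ∃ U ∈ 𝓝 x, Loc T θ i j c U := by
  have c1 := (h i).cγ
  have c2 := (h j).cγ
  set d := T.γ j x.2 - T.γ i x.1 with hd
  have d0 : 0 < ‖d‖ := norm_pos_iff.2 (sub_ne_zero.2 hx.symm)
  have e : Cc (Complex.arg d) d = ‖d‖ := by
    conv_lhs => rw [E_arg (z := d)]
    rw [← E_arg, show Cc d.arg d = Cc d.arg ((‖d‖ : ℝ) * E d.arg) by rw [← E_arg], Cc_mul_E]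
    simp
  have o1 : ∀ᶠ y : ℝ × ℝ in 𝓝 x, 1 / 2 * ‖T.γ j y.2 - T.γ i y.1‖ <
      Cc (Complex.arg d) (T.γ j y.2 - T.γ i y.1) :=
    (isOpen_lt (by fun_prop) (by fun_prop)).mem_nhds (by
      simp only [mem_setOf_eq, ← hd, e]; linarith)
  have o2 : ∀ᶠ y : ℝ × ℝ in 𝓝 x, ‖d‖ / 2 < ‖T.γ j y.2 - T.γ i y.1‖ :=
    (isOpen_lt continuous_const (by fun_prop)).mem_nhds (by
      simp only [mem_setOf_eq, ← hd]; linarith)
  refine ⟨min (1 / 2) (‖d‖ / 2), lt_min (by norm_num) (by positivity), _, o1.and o2,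
    ⟨_, fun y hy _ _ _ => le_trans (mul_le_mul_of_nonneg_right (min_le_left _ _) (norm_nonneg _))
      hy.1.le⟩, fun y hy _ _ ψ _ ψ' u u0 u1 e1 _ => ?_⟩
  have := hy.2
  rw [e1, add_sub_cancel_left, norm_mul_E u0.le] at this
  linarith [min_le_right (1 / 2 : ℝ) (‖d‖ / 2)]

theorem loc_diag (h : ∀ i, Arc (T.γ i) (θ i) (T.L i) l l) {i : Fin T.n} {r : ℝ} :
    ∃ c > 0, ∃ U ∈ 𝓝 (r, r), Loc T θ i i c U := by
  have c1 := (h i).cθ
  have l0 := (h i).l_pos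
  have o1 : ∀ᶠ y : ℝ × ℝ in 𝓝 (r, r), |y.2 - y.1| < l :=
    (isOpen_lt (by fun_prop) continuous_const).mem_nhds (by simpa using l0)
  have o2 : ∀ᶠ y : ℝ × ℝ in 𝓝 (r, r), |θ i y.1 - θ i r| < 1 :=
    (isOpen_lt (by fun_prop) continuous_const).mem_nhds (by simp)
  have o3 : ∀ᶠ y : ℝ × ℝ in 𝓝 (r, r), |θ i y.2 - θ i r| < 1 :=
    (isOpen_lt (by fun_prop) continuous_const).mem_nhds (by simp)
  refine ⟨cos 1, cos_one_pos, _, o1.and (o2.and o3), ⟨θ i r, fun y hy a b k => ?_⟩,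
    fun y hy a b ψ hψ ψ' u u0 _ e _ => absurd e ((h i).not_seen a b hy.1.le hψ u0)⟩
  obtain ⟨t, α, t0, -, a3, a4, a5⟩ := (h i).chord' a b (k rfl) ((le_abs_self _).trans hy.1.le)
  rw [a5, add_sub_cancel_left, norm_mul_E t0, Cc_mul_E, mul_comm]
  refine mul_le_mul_of_nonneg_left ?_ t0
  rw [← cos_abs (α - θ i r)]
  refine cos_le_cos_of_nonneg_of_le_pi (abs_nonneg _) (by linarith [pi_gt_three]) ?_
  rw [abs_le]
  constructor <;> linarith [(abs_lt.1 hy.2.1).1, (abs_lt.1 hy.2.2).2]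

theorem loc_corner (h : ∀ i, Arc (T.γ i) (θ i) (T.L i) l l) {i j : Fin T.n} {a b : Bool}
    (hne : (i, a) ≠ (j, b))
    (e : T.γ i (if a then 0 else T.L i) = T.γ j (if b then 0 else T.L j)) :
    ∃ c > 0, ∃ U ∈ 𝓝 ((if a then 0 else T.L i), (if b then 0 else T.L j)), Loc T θ i j c U := by
  have c1 := (h i).cθ
  have c2 := (h j).cθ
  have l0 := (h i).l_pos
  have nc := T.no_cusp i j a b hne e
  set x := if a then 0 else T.L i with hx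
  set y := if b then 0 else T.L j with hy
  set sa : ℝ := if a then 1 else -1 with hsa
  set sb : ℝ := if b then 1 else -1 with hsb
  have cast : ∀ a : Bool, (if a then (1 : ℂ) else -1) = ((if a then 1 else -1 : ℝ) : ℂ) :=
    fun a => by cases a <;> simp
  have dd : ∀ (i : Fin T.n) (a : Bool), (if a then deriv (T.γ i) 0 else -deriv (T.γ i) (T.L i)) =
      ((if a then 1 else -1 : ℝ) : ℂ) * E (θ i (if a then 0 else T.L i)) := by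
    intro i a
    have L0 := (T.L_pos i).le
    cases a
    · simp [((h i).der _ ⟨L0, le_rfl⟩).deriv]
    · simp [((h i).der _ ⟨le_rfl, L0⟩).deriv]
  rw [dd, dd] at nc
  set d := (sb : ℂ) * E (θ j y) - sa * E (θ i x) with hd
  have d0 : 0 < ‖d‖ := norm_pos_iff.2 (sub_ne_zero.2 nc.symm)
  set ν := Complex.arg d
  have de : d = (‖d‖ : ℝ) * E ν := E_arg
  have sa2 : sa ^ 2 = 1 := by cases a <;> simp [hsa]
  have sb2 : sb ^ 2 = 1 := by cases b <;> simp [hsb]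
  have q1 : Cc ν (sb * E (θ j y)) - Cc ν (sa * E (θ i x)) = ‖d‖ := by
    rw [← Cc_sub, ← hd, de, Cc_mul_E, ← de]; simp
  have q2 : S ν (sb * E (θ j y)) - S ν (sa * E (θ i x)) = 0 := by
    rw [← S_sub, ← hd, de, S_mul_E]; simp
  have q3 : Cc ν (sb * E (θ j y)) + Cc ν (sa * E (θ i x)) = 0 := by
    refine mul_left_cancel₀ d0.ne' ?_
    rw [← q1]
    simp only [Cc_mul_E, S_mul_E] at q2 ⊢
    have a1 := cos_sq_add_sin_sq (θ j y - ν)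
    have a2 := cos_sq_add_sin_sq (θ i x - ν)
    linear_combination sb ^ 2 * a1 - sa ^ 2 * a2 + sb2 - sa2 -
      (sb * sin (θ j y - ν) + sa * sin (θ i x - ν)) * q2
  have p1 : ∀ᶠ α in 𝓝 (θ i x), Cc ν (sa * E α) < -(‖d‖ / 4) :=
    (isOpen_lt (by fun_prop) continuous_const).mem_nhds (by simp only [mem_setOf_eq]; linarith)
  have p2 : ∀ᶠ α in 𝓝 (θ j y), ‖d‖ / 4 < Cc ν (sb * E α) :=
    (isOpen_lt continuous_const (by fun_prop)).mem_nhds (by simp only [mem_setOf_eq]; linarith)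
  obtain ⟨e1, e10, he1⟩ := Metric.eventually_nhds_iff.1 p1
  obtain ⟨e2, e20, he2⟩ := Metric.eventually_nhds_iff.1 p2
  have o1 : ∀ᶠ z : ℝ × ℝ in 𝓝 (x, y), |θ i z.1 - θ i x| < e1 :=
    (isOpen_lt (by fun_prop) continuous_const).mem_nhds (by simpa using e10)
  have o2 : ∀ᶠ z : ℝ × ℝ in 𝓝 (x, y), |θ j z.2 - θ j y| < e2 :=
    (isOpen_lt (by fun_prop) continuous_const).mem_nhds (by simpa using e20)
  have o3 : ∀ᶠ z : ℝ × ℝ in 𝓝 (x, y), |z.1 - x| < l / 4 :=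
    (isOpen_lt (by fun_prop) continuous_const).mem_nhds (by simpa using l0)
  have o4 : ∀ᶠ z : ℝ × ℝ in 𝓝 (x, y), |z.2 - y| < l / 4 :=
    (isOpen_lt (by fun_prop) continuous_const).mem_nhds (by simpa using l0)
  have o5 : ∀ᶠ z : ℝ × ℝ in 𝓝 (x, y),
      ‖(sb : ℂ) * E (θ j z.2) - sa * E (θ i z.1) - d‖ < ‖d‖ ^ 2 / 8 :=
    (isOpen_lt (by fun_prop) continuous_const).mem_nhds (by
      simp only [mem_setOf_eq, ← hd, sub_self, norm_zero]; positivity)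
  have sep : ∀ z : ℝ × ℝ, |θ i z.1 - θ i x| < e1 → |θ j z.2 - θ j y| < e2 → |z.1 - x| < l / 4 →
      |z.2 - y| < l / 4 → z.1 ∈ Icc 0 (T.L i) → z.2 ∈ Icc 0 (T.L j) →
      ‖d‖ / 4 * ‖T.γ j z.2 - T.γ i z.1‖ ≤ Cc ν (T.γ j z.2 - T.γ i z.1) := by
    intro z k1 k2 k3 k4 m1 m2
    obtain ⟨t1, α1, a1, a2, a3⟩ := (h i).near_end a m1 (by linarith)
    obtain ⟨t2, α2, b1, b2, b3⟩ := (h j).near_end b m2 (by linarith)
    rw [cast] at a3 b3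
    have f1 := he1 (y := α1) (by rw [Real.dist_eq]; exact a2.trans_lt k1)
    have f2 := he2 (y := α2) (by rw [Real.dist_eq]; exact b2.trans_lt k2)
    have ee : T.γ j z.2 - T.γ i z.1 = t2 * (sb * E α2) - t1 * (sa * E α1) := by
      rw [a3, b3, e]; ring
    have n1 : ‖(t1 : ℂ) * (sa * E α1)‖ = t1 := by
      cases a <;> simp [hsa, norm_E, abs_of_nonneg a1]
    have n2 : ‖(t2 : ℂ) * (sb * E α2)‖ = t2 := by
      cases b <;> simp [hsb, norm_E, abs_of_nonneg b1]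
    have n3 := norm_sub_le ((t2 : ℂ) * (sb * E α2)) (t1 * (sa * E α1))
    rw [n1, n2] at n3
    rw [ee, Cc_sub, Cc_mul, Cc_mul ν t1]
    nlinarith
  refine ⟨min (‖d‖ / 4) (‖d‖ ^ 2 / 8), lt_min (by positivity) (by positivity), _,
    o1.and (o2.and (o3.and (o4.and o5))), ⟨ν, fun z hz m1 m2 _ => le_trans
      (mul_le_mul_of_nonneg_right (min_le_left _ _) (norm_nonneg _))
      (sep z hz.1 hz.2.1 hz.2.2.1 hz.2.2.2.1 m1 m2)⟩,
    fun z hz m1 m2 ψ _ ψ' u u0 _ k1 k2 => ⟨a, b, by linarith [hz.2.2.1, (h i).l_le],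
      by linarith [hz.2.2.2.1, (h j).l_le], ?_⟩⟩
  have s := sep z hz.1 hz.2.1 hz.2.2.1 hz.2.2.2.1 m1 m2
  rw [k1, add_sub_cancel_left, norm_mul_E u0.le, Cc_mul_E, mul_comm u] at s
  have s' := le_of_mul_le_mul_right s u0
  have g1 : Cc (θ i z.1 + ψ) ((sb : ℂ) * E (θ j z.2) - sa * E (θ i z.1) - d) =
      sb * cos ψ' - sa * cos ψ - ‖d‖ * cos (θ i z.1 + ψ - ν) := by
    rw [Cc_sub, Cc_sub, Cc_mul_E _ sa, ← Cc_congr k2 (sb * _), Cc_mul_E, de, Cc_mul_E, ← de,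
      ← cos_neg (ν - _)]
    simp
  have g2 := (abs_le.1 (abs_Cc_le (θ i z.1 + ψ)
    ((sb : ℂ) * E (θ j z.2) - sa * E (θ i z.1) - d))).1
  have g3 := hz.2.2.2.2
  nlinarith [min_le_right (‖d‖ / 4) (‖d‖ ^ 2 / 8)]

theorem loc_all (h : ∀ i, Arc (T.γ i) (θ i) (T.L i) l l) (i j : Fin T.n) :
    ∀ᶠ c in 𝓝[>] (0 : ℝ), ∀ x ∈ Icc 0 (T.L i) ×ˢ Icc 0 (T.L j), Loc T θ i j c (Metric.ball x c) := by
  refine unif (isCompact_Icc.prod isCompact_Icc) Loc.mono ?_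
  rintro ⟨r, s⟩ ⟨hr, hs⟩
  by_cases k : T.γ i r = T.γ j s
  swap
  · exact loc_far h k
  by_cases k' : i = j ∧ r = s
  · obtain ⟨rfl, rfl⟩ := k'
    exact loc_diag h
  have ends : ∀ {L r : ℝ}, r ∈ Icc 0 L → r ∉ Ioo 0 L → ∃ a : Bool, r = if a then 0 else L := by
    intro L r h1 h2
    rcases h1.1.eq_or_lt with q | q
    · exact ⟨true, q.symm⟩
    rcases h1.2.eq_or_lt with q' | q'
    · exact ⟨false, q'⟩
    exact absurd ⟨q, q'⟩ h2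
  obtain ⟨a, b, rfl, rfl⟩ : ∃ a b : Bool, r = (if a then 0 else T.L i) ∧
      s = if b then 0 else T.L j := by
    by_cases c : T.γ i r ∈ T.C
    · obtain ⟨a, ha⟩ := ends hr fun q => T.inner_not_corner i r q c
      obtain ⟨b, hb⟩ := ends hs fun q => T.inner_not_corner j s q (k ▸ c)
      exact ⟨a, b, ha, hb⟩
    · obtain ⟨q1, q2 | q2 | q2⟩ := T.simple i j r hr s hs k c
      · exact absurd ⟨q1, q2⟩ k'
      · exact ⟨true, false, q2⟩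
      · exact ⟨false, true, q2⟩
  refine loc_corner h (fun q => k' ?_) k
  obtain ⟨rfl, rfl⟩ := Prod.ext_iff.1 q
  exact ⟨rfl, rfl⟩

end Pool.Agent.Lib.MP_fd11a7_an
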