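import Mathlib
import Pool.Agent.Lib.MP_fd11a7_an.Local
import Pool.Agent.Lib.MP_fd11a7_an.Htop

set_option autoImplicit false

open Set Filter Topology Real

namespace Pool.Agent.Lib.MP_fd11a7_an

theorem exists_rep (x c : ℝ) : ∃ y, E y = E x ∧ |y - c| ≤ π := by
  refine ⟨c + Complex.arg (E (x - c)), ?_, by simpa using Complex.abs_arg_le_pi _⟩
  have := E_arg (z := E (x - c))
  rw [norm_E, Complex.ofReal_one, one_mul] at this
  rw [E_add, ← this, ← E_add, add_sub_cancel]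

theorem win_of_cos {x c t : ℝ} (c0 : 0 < c) (c1 : c ≤ 1) (t0 : 0 ≤ t) (ht : t < c)
    (hx : |x| ≤ 3 * π / 2 + t) (h : c ≤ cos x) : |x| ≤ π / 2 - c := by
  by_contra k
  push Not at k
  rw [← cos_abs] at h
  have p3 := pi_gt_three
  rcases le_total |x| π with a | a
  · have := cos_lt_cos_of_nonneg_of_le_pi (by linarith) a k
    rw [cos_pi_div_two_sub] at this
    linarith [sin_le c0.le]
  · have := cos_le_cos_of_nonneg_of_le_pi (x := π / 2 - t) (y := 2 * π - |x|) (by linarith)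
      (by linarith) (by linarith)
    rw [cos_pi_div_two_sub, cos_two_pi_sub] at this
    linarith [sin_le t0]

theorem n_pos (T : Table) : Nonempty (Fin T.n) := by
  by_contra h
  rw [not_nonempty_iff] at h
  have e := T.boundary
  rw [iUnion_of_empty, ← isClopen_iff_frontier_eq_empty, isClopen_iff] at e
  rcases e with e | e
  · exact T.connected.nonempty.ne_empty e
  · exact NormedSpace.unbounded_univ ℝ ℂ (e ▸ T.bounded)

theorem exists_sys (T : Table) : ∃ N : ℕ, 0 < N ∧ ∃ D : Sys (Fin T.n × Fin N), Br T D := by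
  classical
  choose θ hθ using fun i => arc_ev (T.L_pos i) (T.smooth i) (T.unit i) (T.curv i)
  obtain ⟨l, h, l0⟩ := ((eventually_all.2 hθ).and self_mem_nhdsWithin).exists
  replace l0 : 0 < l := l0
  obtain ⟨c, hc, c0, c1⟩ := ((eventually_all.2 fun i => eventually_all.2 (loc_all h i)).and
    (Ioo_mem_nhdsGT one_pos)).exists
  obtain ⟨d, hd, ⟨d0, d1⟩, ⟨-, d2⟩, -, d3⟩ := ((eventually_all.2 fun i => (h i).width).and
    (Eventually.and (Ioo_mem_nhdsGT c0) (Eventually.and (Ioo_mem_nhdsGT (mul_pos l0 c0))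
      (Ioo_mem_nhdsGT (show 0 < l / 4 by positivity))))).exists
  obtain ⟨N, hN, N0⟩ := ((eventually_all.2 fun i =>
    tendsto_natCast_atTop_atTop.eventually_ge_atTop (T.L i / d)).and (eventually_gt_atTop 0)).exists
  have N0' : (0 : ℝ) < N := by exact_mod_cast N0
  set δ : Fin T.n → ℝ := fun i => T.L i / N with hδ
  have δ0 : ∀ i, 0 < δ i := fun i => div_pos (T.L_pos i) N0'
  have δd : ∀ i, δ i ≤ d := fun i => by
    have := hN i
    rw [div_le_iff₀ d0] at this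
    simp only [hδ]; rw [div_le_iff₀ N0']; linarith
  have δN : ∀ i, N * δ i = T.L i := fun i => by simp only [hδ]; field_simp
  set lo : Fin T.n × Fin N → ℝ := fun A => (A.2 : ℕ) * δ A.1 with hlo
  set hi : Fin T.n × Fin N → ℝ := fun A => lo A + δ A.1 with hhi
  have lo0 : ∀ A, 0 ≤ lo A := fun A => mul_nonneg (Nat.cast_nonneg _) (δ0 _).le
  have step : ∀ (A : Fin T.n × Fin N) (k : ℕ), A.2 < k → hi A ≤ k * δ A.1 := fun A k hk => by
    have : ((A.2 : ℕ) : ℝ) + 1 ≤ k := by exact_mod_cast hk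
    simp only [hhi, hlo]; nlinarith [δ0 A.1]
  have hiL : ∀ A, hi A ≤ T.L A.1 := fun A => δN A.1 ▸ step A N A.2.2
  have sub : ∀ A, ∀ r ∈ Icc (lo A) (hi A), r ∈ Icc 0 (T.L A.1) := fun A r hr =>
    ⟨(lo0 A).trans hr.1, hr.2.trans (hiL A)⟩
  have diff : ∀ A, ∀ r ∈ Icc (lo A) (hi A), ∀ s ∈ Icc (lo A) (hi A), s - r ≤ d := fun A r hr s hs =>
    by simp only [hhi] at hs; linarith [hr.1, hs.2, δd A.1]
  have find : ∀ i, ∀ s ∈ Ico 0 (T.L i), ∃ k : Fin N, s ∈ Ico (lo (i, k)) (hi (i, k)) := by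
    intro i s hs
    have q0 : 0 ≤ s / δ i := div_nonneg hs.1 (δ0 i).le
    have q1 : ⌊s / δ i⌋₊ < N := by
      rw [Nat.floor_lt q0, div_lt_iff₀ (δ0 i), δN]; exact hs.2
    refine ⟨⟨_, q1⟩, ?_, ?_⟩
    · exact (le_div_iff₀ (δ0 i)).1 (Nat.floor_le q0)
    · have := (div_lt_iff₀ (δ0 i)).1 (Nat.lt_floor_add_one (s / δ i))
      simp only [hhi, hlo]; linarith
  have ord : ∀ A B : Fin T.n × Fin N, A.1 = B.1 → A ≠ B → hi A ≤ lo B ∨ hi B ≤ lo A := by
    rintro ⟨i, k⟩ ⟨j, k'⟩ e hne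
    obtain rfl : i = j := e
    rcases lt_trichotomy k k' with q | q | q
    · exact Or.inl (step (i, k) k' q)
    · exact absurd (by rw [q]) hne
    · exact Or.inr (step (i, k') k q)
  set I : Fin T.n × Fin N → Set ℝ := fun A => {r | r ∈ Ico (lo A) (hi A) ∧ T.γ A.1 r ∉ T.C}
    with hI
  have inj : ∀ A, ∀ r ∈ I A, ∀ j, ∀ s ∈ Icc 0 (T.L j), T.γ A.1 r = T.γ j s →
      A.1 = j ∧ (r = s ∨ (r = 0 ∧ s = T.L j)) := by
    intro A r hr j s hs e
    obtain ⟨q1, q2 | q2 | q2⟩ := T.simple _ _ r (sub A r (Ico_subset_Icc_self hr.1)) s hs e hr.2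
    · exact ⟨q1, Or.inl q2⟩
    · exact ⟨q1, Or.inr q2⟩
    · exact absurd q2.1 (hr.1.2.trans_le (hiL A)).ne
  have Ioo_sub : ∀ A, Ioo (lo A) (hi A) ⊆ I A := fun A r hr =>
    ⟨Ioo_subset_Ico_self hr, T.inner_not_corner _ r ⟨(lo0 A).trans_lt hr.1, hr.2.trans_le (hiL A)⟩⟩
  have raw : ∀ A B : Fin T.n × Fin N, ∃ ν, ∀ r ∈ Icc (lo A) (hi A), ∀ s ∈ Icc (lo B) (hi B),
      (A.1 = B.1 → r ≤ s) → c * ‖T.γ B.1 s - T.γ A.1 r‖ ≤ Cc ν (T.γ B.1 s - T.γ A.1 r) := by
    intro A B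
    have mA : lo A ∈ Icc (lo A) (hi A) := ⟨le_rfl, by simp only [hhi]; linarith [δ0 A.1]⟩
    have mB : lo B ∈ Icc (lo B) (hi B) := ⟨le_rfl, by simp only [hhi]; linarith [δ0 B.1]⟩
    obtain ⟨ν, hν⟩ := (hc A.1 B.1 (lo A, lo B) ⟨sub A _ mA, sub B _ mB⟩).1
    refine ⟨ν, fun r hr s hs k => hν (r, s) ?_ (sub A r hr) (sub B s hs) k⟩
    rw [Metric.mem_ball, Prod.dist_eq, Real.dist_eq, Real.dist_eq,
      abs_of_nonneg (sub_nonneg.2 hr.1), abs_of_nonneg (sub_nonneg.2 hs.1)]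
    exact max_lt ((diff A _ mA r hr).trans_lt d1) ((diff B _ mB s hs).trans_lt d1)
  choose e he using raw
  set lt : Fin T.n × Fin N → Fin T.n × Fin N → Prop :=
    fun A B => A.1 < B.1 ∨ (A.1 = B.1 ∧ A.2 < B.2) with hlt
  have lt_tot : ∀ A B, A ≠ B → (lt A B ↔ ¬ lt B A) := by
    rintro ⟨i, k⟩ ⟨j, k'⟩ hne
    simp only [hlt, ne_eq, Prod.mk.injEq] at hne ⊢
    omega
  have lt_le : ∀ A B, lt A B → ∀ r ∈ Icc (lo A) (hi A), ∀ s ∈ Icc (lo B) (hi B),
      A.1 = B.1 → r ≤ s := by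
    intro A B k r hr s hs q
    have := step A B.2 (k.resolve_left (q ▸ lt_irrefl _)).2
    rw [q] at this
    exact hr.2.trans (this.trans hs.1)
  choose ν ν1 ν2 using fun A B : Fin T.n × Fin N =>
    exists_rep (if lt A B then e A B else e B A + π) (θ A.1 (lo A) - π / 2)
  have sep : ∀ A B, A ≠ B → ∀ r ∈ Icc (lo A) (hi A), ∀ s ∈ Icc (lo B) (hi B),
      c * ‖T.γ B.1 s - T.γ A.1 r‖ ≤ Cc (ν A B) (T.γ B.1 s - T.γ A.1 r) := by
    intro A B hne r hr s hs
    rw [Cc_congr (ν1 A B)]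
    split_ifs with k
    · exact he A B r hr s hs (lt_le A B k r hr s hs)
    · have k' := (lt_tot B A hne.symm).2 k
      have := he B A s hs r hr (lt_le B A k' s hs r hr)
      rw [norm_sub_rev, ← neg_sub (T.γ B.1 s) (T.γ A.1 r), Cc_neg] at this
      simp only [Cc, cos_add_pi, sin_add_pi] at this ⊢
      linarith
  have trn : ∀ A, ∀ r ∈ Icc (lo A) (hi A), θ A.1 r - θ A.1 (lo A) < c := by
    intro A r hr
    have mA : lo A ∈ Icc (lo A) (hi A) := ⟨le_rfl, hr.1.trans hr.2⟩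
    have := (h A.1).up _ (sub A _ mA) r (sub A r hr) hr.1
    exact lt_of_mul_lt_mul_left (by linarith [diff A _ mA r hr]) l0.le
  have sgn : ∀ A, ∀ r ∈ Icc (lo A) (hi A), ∀ a : Bool,
      |r - if a then 0 else T.L A.1| < T.L A.1 / 4 →
      (if lo A < T.L A.1 / 2 then (1 : ℝ) else -1) = if a then 1 else -1 := by
    intro A r hr a k
    have mA : lo A ∈ Icc (lo A) (hi A) := ⟨le_rfl, hr.1.trans hr.2⟩
    rw [abs_lt] at k
    cases a
    · simp only [Bool.false_eq_true, if_false] at k ⊢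
      exact if_neg (by linarith [k.1, diff A _ mA r hr, (h A.1).l_le])
    · simp only [if_true] at k ⊢
      exact if_pos (by linarith [k.2, hr.1, T.L_pos A.1])
  have front : frontier T.Y = ⋃ A : Fin T.n × Fin N, T.γ A.1 '' Icc (lo A) (hi A) := by
    rw [T.boundary]
    refine subset_antisymm (iUnion_subset fun i => ?_) (iUnion_subset fun A => ?_)
    · rintro _ ⟨s, hs, rfl⟩
      rcases hs.2.eq_or_lt with q | q
      · refine mem_iUnion.2 ⟨(i, ⟨N - 1, by omega⟩), s, ?_, rfl⟩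
        have : hi (i, ⟨N - 1, by omega⟩) = T.L i := by
          simp only [hhi, hlo]
          rw [← δN i, Nat.cast_pred N0]; ring
        rw [q, ← this]
        exact ⟨by simp only [hhi]; linarith [δ0 i], le_rfl⟩
      · obtain ⟨k, hk⟩ := find i s ⟨hs.1, q⟩
        exact mem_iUnion.2 ⟨(i, k), s, Ico_subset_Icc_self hk, rfl⟩
    · rintro _ ⟨s, hs, rfl⟩
      exact mem_iUnion.2 ⟨A.1, s, sub A s hs, rfl⟩
  refine ⟨N, N0,
    { γ := fun A => T.γ A.1, θ := fun A => θ A.1, lo := lo, hi := hi, I := I, Y := T.Y, ν := ν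
      sg := fun A => if lo A < T.L A.1 / 2 then 1 else -1
      κ := l, η := c, τ0 := c, c0 := c, l := d
      cγ := fun A => (h A.1).cγ, cθ := fun A => (h A.1).cθ
      κ_pos := l0, η_pos := c0, τ0_pos := c0, c0_pos := c0
      sg_le := fun A => by split_ifs <;> simp
      mono := fun A r hr s hs k => (h A.1).low r (sub A r hr) s (sub A s hs) k
      chord := fun A r hr s hs k => (h A.1).chord (sub A r hr) (sub A s hs) k
        (by linarith [diff A r hr s hs])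
      turn := fun A r hr s hs => (h A.1).turn (sub A r hr) (sub A s hs)
        (by linarith [diff A r hr s hs])
      len := fun A => by simp only [hhi]; linarith [δd A.1]
      Ioo_sub := Ioo_sub, I_sub := fun A r hr => Ico_subset_Icc_self hr.1
      isOpen := T.isOpen, front := front
      disj1 := ?_, disj2 := ?_, anti := ?_
      sep := fun A B hne r hr s hs => le_trans (by positivity) (sep A B hne r hr s hs)
      win := ?_, g0 := ?_, encl := ?_ }, rfl, ?_, ?_⟩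
  · intro A B hne r hr s hs k
    obtain ⟨q1, q2 | q2⟩ := inj A r hr B.1 s (sub B s (Ico_subset_Icc_self hs.1)) k
    · rcases ord A B q1 hne with q | q <;> linarith [hr.1.1, hr.1.2, hs.1.1, hs.1.2]
    · exact absurd q2.2 (hs.1.2.trans_le (hiL B)).ne
  · intro A B hne r hr s hs k
    obtain ⟨q1, q2 | q2⟩ := inj A r (Ioo_sub A hr) B.1 s (sub B s hs) k
    · rcases ord A B q1 hne with q | q <;> linarith [hr.1, hr.2, hs.1, hs.2]
    · linarith [q2.1, lo0 A, hr.1]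
  · intro A B hne
    rw [ν1, ν1]
    by_cases k : lt A B
    · rw [if_pos k, if_neg ((lt_tot A B hne).1 k), E_add_pi]
    · rw [if_neg k, if_pos ((lt_tot B A hne.symm).2 k), E_add_pi, neg_neg]
  · intro A B hne r hr s hs ψ hψ u u0 k
    have q := sep A B hne r hr s hs
    rw [k, add_sub_cancel_left, norm_mul_E u0.le, Cc_mul_E, mul_comm u] at q
    have m := (h A.1).mono (sub A _ ⟨le_rfl, hr.1.trans hr.2⟩) (sub A r hr) hr.1
    refine win_of_cos c0 c1.le (sub_nonneg.2 m) (trn A r hr) ?_ (le_of_mul_le_mul_right q u0)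
    have := abs_le.1 (ν2 A B)
    rw [abs_le]
    constructor <;> linarith [this.1, this.2, hψ.1, hψ.2]
  · intro A B _ r hr s hs ψ hψ ψ' _ u u0 k k'
    refine (le_or_gt c u).imp_right fun q => ?_
    obtain ⟨a, b, q1, q2, q3⟩ := (hc A.1 B.1 (r, s) ⟨sub A r hr, sub B s hs⟩).2 (r, s)
      (Metric.mem_ball_self c0) (sub A r hr) (sub B s hs) ψ hψ ψ' u u0 q k k'
    rwa [sgn A r hr a q1, sgn B s hs b q2]
  · intro A B Ω h1 ⟨p, w, h2⟩ h3 h4
    rw [disjoint_left]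
    intro z hz hf
    rw [T.boundary] at hf
    obtain ⟨i, s0, hs0, rfl⟩ := mem_iUnion.1 hf
    have lL := (h i).l_le
    obtain ⟨s1, a1, a2, a3, a4⟩ : ∃ s1, 0 ≤ s1 ∧ s1 + l / 4 ≤ T.L i ∧ s0 ∈ Icc s1 (s1 + l / 4) ∧
        (s1 + l / 4 = T.L i → s0 = T.L i) := by
      rcases le_total (l / 4) s0 with k | k
      · exact ⟨s0 - l / 4, by linarith, by linarith [hs0.2], ⟨by linarith, by linarith⟩,
          fun q => by linarith⟩
      · exact ⟨s0, hs0.1, by linarith, ⟨le_rfl, by linarith⟩, fun q => by linarith⟩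
    have sI : ∀ t ∈ Icc s1 (s1 + l / 4), t ∈ Icc 0 (T.L i) := fun t ht =>
      ⟨a1.trans ht.1, ht.2.trans a2⟩
    have av : ∀ C : Fin T.n × Fin N, (∃ r ∈ Icc (lo C) (hi C), ∃ ψ ∈ Icc (-π) 0, ∃ u : ℝ, 0 < u ∧
        T.γ i s0 = T.γ C.1 r + u * E (θ C.1 r + ψ)) →
        Disjoint (T.γ i '' Icc s1 (s1 + l / 4)) (T.γ C.1 '' I C) := by
      rintro C ⟨r, hr, ψ, hψ, u, u0, k⟩
      rw [disjoint_left]
      rintro _ ⟨t, ht, rfl⟩ ⟨r', hr', e'⟩
      have rI := Ico_subset_Icc_self hr'.1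
      have dd : |r' - r| ≤ d := by
        rw [abs_le]; constructor <;> linarith [diff C r hr r' rI, diff C r' rI r hr]
      obtain ⟨q1, q2 | q2⟩ := inj C r' hr' i t (sI t ht) e'
      · subst q1
        refine (h C.1).not_seen (sub C r hr) hs0 ?_ hψ u0 k
        rw [abs_le] at dd ⊢
        constructor <;> linarith [dd.1, dd.2, ht.1, ht.2, a3.1, a3.2]
      · have : s0 = t := by rw [a4 (le_antisymm a2 (q2.2 ▸ ht.2)), q2.2]
        rw [this, ← e'] at k
        exact (h C.1).not_seen (sub C r hr) (sub C r' rI) (by linarith) hψ u0 k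
    have := h1 _ (isPreconnected_Icc.image _ (h i).cγ.continuousOn)
      (by
        rintro _ ⟨t, ht, rfl⟩
        rw [T.boundary]; exact mem_iUnion.2 ⟨i, t, sI t ht, rfl⟩)
      (disjoint_union_right.2 ⟨av A (h3 _ hz), av B (h4 _ hz)⟩) ⟨_, ⟨s0, a3, rfl⟩, hz⟩
    exact hd i s1 a1 a2 p w fun t ht => h2 _ (this ⟨t, ht, rfl⟩)
  · intro A r hr
    have := sub A r (Ico_subset_Icc_self hr.1)
    exact ⟨A.1, r, this, rfl, ((h A.1).der r this).deriv, hr.2⟩
  · intro i s hs k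
    have L0 := T.L_pos i
    rcases hs.2.eq_or_lt with q | q
    · subst q
      have per := (T.ends i).resolve_left fun q => k q.2
      have e0 : T.γ i 0 = T.γ i (T.L i) := per.eq.symm
      obtain ⟨j, hj⟩ := find i 0 ⟨le_rfl, L0⟩
      refine ⟨(i, j), 0, ⟨hj, e0 ▸ k⟩, e0, ?_⟩
      change E (θ i 0) = _
      rw [← ((h i).der 0 ⟨le_rfl, L0.le⟩).deriv, ← zero_add (T.L i), ← deriv_comp_add_const,
        funext per]
    · obtain ⟨j, hj⟩ := find i s ⟨hs.1, q⟩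
      exact ⟨(i, j), s, ⟨hj, k⟩, rfl, ((h i).der s hs).deriv.symm⟩

theorem main (T : Table) : (∀ n, (T.perOrbits n).Finite) ∧ ∃ h : ℝ, 0 ≤ h ∧
    Tendsto (fun n : ℕ => Real.log (T.perOrbits n).ncard / n) atTop (𝓝 h) ∧
    T.htop = ENNReal.ofReal h := by
  obtain ⟨N, N0, D, b⟩ := exists_sys T
  haveI := n_pos T
  haveI : Nonempty (Fin N) := ⟨⟨0, N0⟩⟩
  exact b.main

end Pool.Agent.Lib.MP_fd11a7_an
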